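import Mathlib

/-!
# Decomposition of the level of a path
-/

set_option autoImplicit false

namespace Pool.Agent.S77.WP

theorem first_time (P : ℕ → Prop) {i t : ℕ} (h : ∃ j, i ≤ j ∧ j ≤ t ∧ P j) :
    ∃ j, i ≤ j ∧ j ≤ t ∧ P j ∧ ∀ j', i ≤ j' → j' < j → ¬ P j' := by
  classical
  have h' : ∃ j, i ≤ j ∧ P j := by
    obtain ⟨j, h1, _, h3⟩ := h
    exact ⟨j, h1, h3⟩
  refine ⟨Nat.find h', (Nat.find_spec h').1, ?_, (Nat.find_spec h').2, fun j' h1 h2 h3 =>
    Nat.find_min h' h2 ⟨h1, h3⟩⟩
  obtain ⟨j, h1, h2, h3⟩ := h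
  exact (Nat.find_min' h' ⟨h1, h3⟩).trans h2

theorem last_time (P : ℕ → Prop) {s b : ℕ} (hsb : s ≤ b) (hs : P s) :
    ∃ j, s ≤ j ∧ j ≤ b ∧ P j ∧ ∀ j', j < j' → j' ≤ b → ¬ P j' := by
  obtain ⟨j, h1, h2, h3, h4⟩ := first_time (fun j => P (b - j)) (i := 0) (t := b)
    ⟨b - s, by omega, by omega, by rw [show b - (b - s) = s by omega]; exact hs⟩
  have h5 : j ≤ b - s := by
    by_contra h6
    exact h4 (b - s) (by omega) (by omega) (by rw [show b - (b - s) = s by omega]; exact hs)
  refine ⟨b - j, by omega, by omega, h3, fun j' h6 h7 h8 => ?_⟩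
  exact h4 (b - j') (by omega) (by omega) (by rw [show b - (b - j') = j' by omega]; exact h8)

theorem const_on {σ : ℕ → ℤ} {c i : ℕ} (h : ∀ j, c ≤ j → j < i → σ (j + 1) = σ j) :
    ∀ j, c ≤ j → j ≤ i → σ j = σ c := by
  intro j hj
  induction j, hj using Nat.le_induction with
  | base => intro _; rfl
  | succ j hj ih =>
    intro h1
    rw [h j hj (by omega), ih (by omega)]

/-- **decomposition of the level along a path** -/
theorem decomp (σ : ℕ → ℤ) (I D : ℕ → Prop) (cl : ℕ → ℕ → Prop) (t : ℕ) (K : ℤ) (hK : 1 ≤ K)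
    (hI : ∀ s e, s < e → e ≤ t → ¬ I s → ¬ I e → (∀ j, s < j → j < e → I j) →
      (∃ j, s < j ∧ j < e ∧ D j) → |σ e - σ s| ≤ K)
    (hcl : ∀ i b, i ≤ b → b ≤ t → σ (i + 1) ≠ σ i → ¬ D i → (∀ j, i ≤ j → j < b → cl i j) →
      ∀ j j', i ≤ j → j ≤ b → i ≤ j' → j' ≤ b → |σ j - σ j'| ≤ 1)
    (hcl0 : ∀ i, cl i i) (hDI : ∀ i, D i → I i) (ht : ¬ I t) :
    ∀ n c s' : ℕ, t - c ≤ n → c ≤ t → s' ≤ c → ¬ I s' → (∀ j, s' < j → j ≤ c → I j) →
    ∃ L : List (ℕ × ℕ), (∀ p ∈ L, c ≤ p.1 ∧ p.1 < p.2 ∧ p.2 ≤ t ∧
      ((¬ D p.1 ∧ ¬ cl p.1 p.2 ∧ σ (p.1 + 1) ≠ σ p.1) ∨ (D p.1 ∧ ¬ I p.2))) ∧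
      L.Pairwise (fun p q => p.2 ≤ q.1) ∧
      |σ t - σ c| ≤ (K + 1) * (L.length + 1) + |σ c - σ s'| := by
  intro n
  induction n with
  | zero =>
    intro c s' h1 h2 h3 h4 h5
    have : c = t := by omega
    subst this
    refine ⟨[], by simp, by simp, ?_⟩
    rw [sub_self, abs_zero]
    have := abs_nonneg (σ c - σ s')
    simp only [List.length_nil, Nat.cast_zero, zero_add, mul_one]
    linarith
  | succ n ih =>
    intro c s' h1 h2 h3 h4 h5
    by_cases hray : ∃ i, c ≤ i ∧ i ≤ t - 1 ∧ (i < t ∧ σ (i + 1) ≠ σ i)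
    swap
    · -- constant
      have e := const_on (σ := σ) (c := c) (i := t) (fun j hj1 hj2 => by
        by_contra h
        exact hray ⟨j, hj1, by omega, hj2, h⟩) t h2 le_rfl
      refine ⟨[], by simp, by simp, ?_⟩
      rw [e, sub_self, abs_zero]
      have := abs_nonneg (σ c - σ s')
      simp only [List.length_nil, Nat.cast_zero, zero_add, mul_one]
      linarith
    · obtain ⟨i, hi1, hi2, ⟨hi3, hi4⟩, hi5⟩ := first_time _ hray
      have hconst := const_on (σ := σ) (c := c) (i := i) (fun j hj1 hj2 => by
        by_contra h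
        exact hi5 j hj1 hj2 ⟨by omega, h⟩)
      have hσi : σ i = σ c := hconst i hi1 le_rfl
      by_cases hD : D i
      · -- deep
        obtain ⟨e, he1, he2, he3, he4⟩ := first_time (fun j => ¬ I j) (i := i) (t := t)
          ⟨t, by omega, le_rfl, ht⟩
        have hie : i < e := by
          rcases Nat.eq_or_lt_of_le he1 with h | h
          · subst h; exact absurd (hDI i hD) he3
          · exact h
        obtain ⟨s, hs1, hs2, hs3, hs4⟩ := last_time (fun j => ¬ I j) (s := s') (b := i)
          (by omega) h4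
        have hsi : s < i := by
          rcases Nat.eq_or_lt_of_le hs2 with h | h
          · subst h; exact absurd (hDI s hD) hs3
          · exact h
        have hK1 : |σ e - σ s| ≤ K := hI s e (by omega) he2 hs3 he3 (fun j hj1 hj2 => by
          rcases Nat.lt_or_ge j i with h | h
          · by_contra h'
            exact hs4 j hj1 (by omega) h'
          · by_contra h'
            exact he4 j h hj2 h') ⟨i, hsi, hie, hD⟩
        have hΦ : |σ s - σ c| ≤ |σ c - σ s'| := by
          rcases Nat.eq_or_lt_of_le hs1 with h | h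
          · subst h
            rw [abs_sub_comm]
          · have : c < s := by
              by_contra h'
              exact hs3 (h5 s h (by omega))
            rw [hconst s this.le hs2, sub_self, abs_zero]
            exact abs_nonneg _
        obtain ⟨L, hL1, hL2, hL3⟩ := ih e e (by omega) he2 le_rfl he3 (fun j hj1 hj2 => by omega)
        refine ⟨(i, e) :: L, ?_, ?_, ?_⟩
        · intro p hp
          rcases List.mem_cons.1 hp with rfl | hp
          · exact ⟨hi1, hie, he2, Or.inr ⟨hD, he3⟩⟩
          · obtain ⟨a1, a2, a3, a4⟩ := hL1 p hp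
            exact ⟨by omega, a2, a3, a4⟩
        · rw [List.pairwise_cons]
          exact ⟨fun q hq => (hL1 q hq).1, hL2⟩
        · rw [sub_self, abs_zero, add_zero] at hL3
          have e1 : σ t - σ c = (σ t - σ e) + (σ e - σ s) + (σ s - σ c) := by ring
          have e2 : |σ t - σ c| ≤ |σ t - σ e| + |σ e - σ s| + |σ s - σ c| := by
            rw [e1]
            exact (abs_add_le _ _).trans (add_le_add_left (abs_add_le _ _) _)
          rw [List.length_cons]
          push_cast
          nlinarith
      · -- ball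
        by_cases hb : ∃ b, i ≤ b ∧ b ≤ t ∧ ¬ cl i b
        swap
        · have h6 := hcl i t (by omega) le_rfl hi4 hD (fun j hj1 hj2 => by
            by_contra h
            exact hb ⟨j, hj1, hj2.le, h⟩) t i (by omega) le_rfl le_rfl (by omega)
          refine ⟨[], by simp, by simp, ?_⟩
          rw [← hσi] at *
          have := abs_nonneg (σ i - σ s')
          simp only [List.length_nil, Nat.cast_zero, zero_add, mul_one]
          linarith
        · obtain ⟨b, hb1, hb2, hb3, hb4⟩ := first_time _ hb
          have hib : i < b := by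
            rcases Nat.eq_or_lt_of_le hb1 with h | h
            · subst h; exact absurd (hcl0 i) hb3
            · exact h
          have hball := hcl i b hb1 hb2 hi4 hD (fun j hj1 hj2 => by
            by_contra h
            exact hb4 j hj1 hj2 h)
          obtain ⟨s, hs1, hs2, hs3, hs4⟩ := last_time (fun j => ¬ I j) (s := s') (b := b)
            (by omega) h4
          obtain ⟨L, hL1, hL2, hL3⟩ := ih b s (by omega) hb2 hs2 hs3 (fun j hj1 hj2 => by
            by_contra h
            exact hs4 j hj1 hj2 h)
          have hΦ : |σ b - σ s| ≤ 1 + |σ c - σ s'| := by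
            have h0 := abs_nonneg (σ c - σ s')
            rcases Nat.eq_or_lt_of_le hs1 with h | h
            · subst h
              have h7 := hball b i hb1 le_rfl le_rfl hb1
              have e1 : σ b - σ s' = (σ b - σ i) + (σ c - σ s') := by rw [hσi]; ring
              rw [e1]
              exact (abs_add_le _ _).trans (by linarith)
            · have hcs : c < s := by
                by_contra h'
                exact hs3 (h5 s h (by omega))
              rcases Nat.lt_or_ge s i with h8 | h8
              · have e3 : σ s = σ i := by rw [hconst s hcs.le h8.le, hσi]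
                have := hball b i hb1 le_rfl le_rfl hb1
                rw [e3]
                linarith
              · have := hball b s hb1 le_rfl h8 hs2
                linarith
          refine ⟨(i, b) :: L, ?_, ?_, ?_⟩
          · intro p hp
            rcases List.mem_cons.1 hp with rfl | hp
            · exact ⟨hi1, hib, hb2, Or.inl ⟨hD, hb3, hi4⟩⟩
            · obtain ⟨a1, a2, a3, a4⟩ := hL1 p hp
              exact ⟨by omega, a2, a3, a4⟩
          · rw [List.pairwise_cons]
            exact ⟨fun q hq => (hL1 q hq).1, hL2⟩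
          · have h7 := hball b i hb1 le_rfl le_rfl hb1
            have e1 : σ t - σ c = (σ t - σ b) + (σ b - σ i) := by rw [hσi]; ring
            have e2 : |σ t - σ c| ≤ |σ t - σ b| + |σ b - σ i| := by
              rw [e1]; exact abs_add_le _ _
            rw [List.length_cons]
            push_cast
            nlinarith

end Pool.Agent.S77.WP
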