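import Pool.Agent.S77.WP.Reg2
import Pool.Agent.S77.WD.Final

/-!
# Average over the words; upper and lower bounds by the exact law on the cylinder
-/

set_option autoImplicit false

namespace Pool.Agent.S77.WP
open Pool.Agent.H863R2.Cyl
open Pool.Agent.H988R2.Perc (Word PD)
open Pool.Agent.H160R2.ML
open Pool.Agent.H160R2.MU
open Pool.Agent.S77.WD
open H974 H906.Cyl

theorem Ex_hf (T : Finset Edg) (f : Finset Edg → ℝ) :
    Ex hf T f = (1 / 2) ^ T.card * ∑ F ∈ T.powerset, f F := by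
  unfold Ex hf
  rw [Finset.mul_sum]
  apply Finset.sum_congr rfl
  intro F hF
  rw [Finset.mem_powerset] at hF
  rw [Finset.prod_const, Finset.prod_const, show (1 - 1 / 2 : ℝ) = 1 / 2 by norm_num, ← pow_add]
  congr 2
  rw [Finset.card_sdiff_of_subset hF]
  have := Finset.card_le_card hF
  omega

/-- the weight of the winding of the words -/
noncomputable def YY (k : ℕ) (lam : ℝ) (n : ℕ) (σ τ : Wd (2 * n - 1 + 1)) (F : Finset Edg) : ℝ :=
  ∑ y ∈ Finset.Icc (-((2 * n - k : ℕ) : ℤ)) ((2 * n - k : ℕ) : ℤ),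
    Real.exp (-(lam * y / (4 * k))) * ind (HasW k (wup n (4 * n) F τ) (wdn n (4 * n) F σ) y)

theorem YY_nonneg (k : ℕ) (lam : ℝ) (n : ℕ) (σ τ : Wd (2 * n - 1 + 1)) (F : Finset Edg) :
    0 ≤ YY k lam n σ τ F :=
  Finset.sum_nonneg fun _ _ => mul_nonneg (Real.exp_pos _).le (ind_nonneg _)

theorem YY_of {k n : ℕ} {lam : ℝ} (hk : 1 ≤ k) (hkn : k ≤ 2 * n) {σ τ : Wd (2 * n - 1 + 1)}
    {F : Finset Edg} {y : ℤ} (h : HasW k (wup n (4 * n) F τ) (wdn n (4 * n) F σ) y) :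
    YY k lam n σ τ F = Real.exp (-(lam * y / (4 * k))) := by
  have h1 := (rows (2 * n - 1) (up n (4 * n) F) (4 * n) τ).2
  have h2 := (rows (2 * n - 1) (dn n (4 * n) F) (4 * n) σ).2
  obtain ⟨z, hz, hz2, -⟩ := HasW.exists (n := n) (k := k) hk hkn h1.2 h2.2
    (by have := h1.1; omega) (by have := h2.1; omega) h.1
  have e : z = y := HasW.unique hz h
  subst e
  unfold YY
  rw [Finset.sum_eq_single z]
  · rw [ind_of h, mul_one]
  · intro w _ hw
    rw [ind_not_of, mul_zero]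
    intro h'
    exact hw (h'.unique h)
  · intro h'
    exact absurd (Finset.mem_Icc.2 (abs_le.1 hz2)) h'

theorem YY_zero {k n : ℕ} {lam : ℝ} {σ τ : Wd (2 * n - 1 + 1)} {F : Finset Edg}
    (h : ¬ ∃ y, HasW k (wup n (4 * n) F τ) (wdn n (4 * n) F σ) y) : YY k lam n σ τ F = 0 := by
  unfold YY
  refine Finset.sum_eq_zero fun y _ => ?_
  rw [ind_not_of, mul_zero]
  exact fun h' => h ⟨y, h'⟩

/-- **the average over the words** -/
theorem YY_avg {k n : ℕ} {lam : ℝ} (hn : 1 ≤ n) (hk : 1 ≤ k) (hkn : k ≤ 2 * n)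
    (μ : Wd (2 * n - 1 + 1) → ℝ) (hμ0 : ∀ σ, 0 ≤ μ σ) (hμ1 : ∑ σ, μ σ = 1)
    (hst : ∀ σ, ∑ c : Fin (2 * n - 1 + 1) → Bool, push (Tc (2 * n - 1) c) μ σ
      = 2 ^ (2 * n - 1 + 1) * μ σ) :
    ∑ σ, ∑ τ, μ σ * μ τ * Ex hf (CE n (4 * n)) (YY k lam n σ τ) =
      mean n k (fun α => Real.exp (-(lam / (2 * Real.pi)) * α)) := by
  classical
  have hπ := Real.pi_pos
  have hk0 : (0 : ℝ) < k := by exact_mod_cast hk
  unfold mean
  have e1 : ∀ y : ℤ, pw n k y = ∑ σ, ∑ τ, μ σ * μ τ *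
      Ex hf (CE n (4 * n)) (fun F => ind (HasW k (wup n (4 * n) F τ) (wdn n (4 * n) F σ) y)) := by
    intro y
    unfold pw
    rw [prob_eq hn hk hkn μ hμ0 hμ1 hst]
    unfold Py
    have e2 : ∑ σ, ∑ τ, (if HasW k τ.1 σ.1 y then 1 else 0) * μ σ * μ τ =
        ∑ σ, ∑ τ, μ σ * μ τ * ind (HasW k τ.1 σ.1 y) := by
      refine Finset.sum_congr rfl fun σ _ => Finset.sum_congr rfl fun τ _ => ?_
      by_cases hg : HasW k τ.1 σ.1 y
      · rw [if_pos hg, ind_of hg]; ring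
      · rw [if_neg hg, ind_not_of hg]; ring
    rw [e2, Pool.Agent.H160R2.ML.TC5.avg_eq (by omega : 0 < n) (4 * n) μ hst
      (fun σ τ => ind (HasW k τ.1 σ.1 y))]
    simp only [Ex_hf]
    have e3 : ∀ σ τ : Wd (2 * n - 1 + 1), μ σ * μ τ * ((1 / 2) ^ (CE n (4 * n)).card *
        ∑ F ∈ (CE n (4 * n)).powerset, ind (HasW k (wup n (4 * n) F τ) (wdn n (4 * n) F σ) y)) =
        ∑ F ∈ (CE n (4 * n)).powerset, (1 / 2) ^ (CE n (4 * n)).card *
          (μ σ * μ τ * ind (HasW k (wup n (4 * n) F τ) (wdn n (4 * n) F σ) y)) := by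
      intro σ τ
      rw [Finset.mul_sum, Finset.mul_sum]
      refine Finset.sum_congr rfl fun F _ => ?_
      ring
    simp only [e3]
    rw [Finset.mul_sum]
    have e4 : ∀ σ : Wd (2 * n - 1 + 1), ∑ τ, ∑ F ∈ (CE n (4 * n)).powerset,
        (1 / 2 : ℝ) ^ (CE n (4 * n)).card *
          (μ σ * μ τ * ind (HasW k (wup n (4 * n) F τ) (wdn n (4 * n) F σ) y)) =
        ∑ F ∈ (CE n (4 * n)).powerset, ∑ τ, (1 / 2 : ℝ) ^ (CE n (4 * n)).card *
          (μ σ * μ τ * ind (HasW k (wup n (4 * n) F τ) (wdn n (4 * n) F σ) y)) :=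
      fun σ => Finset.sum_comm
    simp only [e4]
    rw [Finset.sum_comm]
    refine Finset.sum_congr rfl fun F _ => ?_
    rw [Finset.mul_sum]
    refine Finset.sum_congr rfl fun σ _ => ?_
    rw [Finset.mul_sum]
    rfl
  have e5 : ∀ y : ℤ, Real.exp (-(lam / (2 * Real.pi)) * ang k y) = Real.exp (-(lam * y / (4 * k))) := by
    intro y
    congr 1
    unfold ang
    field_simp
    ring
  simp only [e5, e1]
  have e6 : ∀ σ τ : Wd (2 * n - 1 + 1), μ σ * μ τ * Ex hf (CE n (4 * n)) (YY k lam n σ τ) =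
      ∑ y ∈ Finset.Icc (-((2 * n - k : ℕ) : ℤ)) ((2 * n - k : ℕ) : ℤ),
        Real.exp (-(lam * y / (4 * k))) * (μ σ * μ τ *
          Ex hf (CE n (4 * n)) (fun F => ind (HasW k (wup n (4 * n) F τ) (wdn n (4 * n) F σ) y))) := by
    intro σ τ
    unfold YY
    rw [Ex_sum, Finset.mul_sum]
    refine Finset.sum_congr rfl fun y _ => ?_
    rw [Ex_mul_left]
    ring
  simp only [e6]
  rw [Finset.sum_congr rfl fun σ _ => Finset.sum_comm, Finset.sum_comm]
  refine Finset.sum_congr rfl fun y _ => ?_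
  rw [Finset.mul_sum]
  refine Finset.sum_congr rfl fun σ _ => ?_
  rw [Finset.mul_sum]

/-- the weights on the cylinder -/
theorem Q2 {n k m : ℕ} {lam : ℝ} (hk : 2 ≤ k) (hm : 64 ≤ m) (hkm : 2 * k ≤ m)
    (h4 : 4 * m ≤ n) {F : Finset Edg} (hF : F ⊆ CE n (4 * n)) (σ τ : Wd (2 * n - 1 + 1)) :
    ind (PG 0 n (4 * n) k (Ac 0 n (4 * n) F) τ.1 σ.1) * wR k lam m (per n F) ≤
      Real.exp (13 * |lam| * (1 + (NA n m F + NB n m F : ℕ))) * YY k lam n σ τ F ∧
    YY k lam n σ τ F ≤ Real.exp (13 * |lam| * (1 + (NA n m F + NB n m F : ℕ))) *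
      wR k lam m (per n F) := by
  have hk0 : (0 : ℝ) < k := by exact_mod_cast (by omega : 0 < k)
  by_cases h : ∃ y, HasW k (wup n (4 * n) F τ) (wdn n (4 * n) F σ) y
  · have hPG := (PG_iff (M := 4 * n) (by omega) hk (by omega) hF τ σ).2 h
    obtain ⟨y, hy⟩ := h
    obtain ⟨hSE, hb⟩ := Q1 hk rfl hm hkm h4 hF hy
    rw [YY_of (by omega) (by omega) hy, ind_of hPG, one_mul]
    unfold wR
    rw [ind_of hSE, one_mul, ← Real.exp_add, ← Real.exp_add]
    have h1 : |(y : ℝ) + 4 * k * Al k m (per n F)| ≤ 49 * k * (NA n m F + NB n m F + 1) := by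
      exact_mod_cast hb
    have h2 : |lam * Al k m (per n F) + lam * y / (4 * k)| ≤
        13 * |lam| * (1 + (NA n m F + NB n m F : ℕ)) := by
      have e1 : lam * Al k m (per n F) + lam * y / (4 * k) =
          lam / (4 * k) * (y + 4 * k * Al k m (per n F)) := by
        field_simp
        ring
      rw [e1, abs_mul, abs_div, abs_of_pos (by positivity : (0 : ℝ) < 4 * k)]
      have h3 := mul_le_mul_of_nonneg_left h1 (by positivity : 0 ≤ |lam| / (4 * k))
      refine h3.trans ?_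
      have e2 : |lam| / (4 * k) * (49 * k * (NA n m F + NB n m F + 1)) =
          49 / 4 * (|lam| * (NA n m F + NB n m F + 1)) := by
        field_simp
      rw [e2]
      push_cast
      have : 0 ≤ |lam| * ((NA n m F : ℝ) + NB n m F + 1) := by positivity
      nlinarith
    rw [abs_le] at h2
    constructor <;> apply Real.exp_le_exp.2 <;> linarith [h2.1, h2.2]
  · rw [YY_zero h, ind_not_of (fun h' => h ((PG_iff (M := 4 * n) (by omega) hk (by omega) hF τ σ).1 h')),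
      zero_mul, mul_zero]
    exact ⟨le_rfl, mul_nonneg (Real.exp_pos _).le (wR_nonneg _ _ _ _)⟩

end Pool.Agent.S77.WP
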