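import Pool.Agent.S77.WP.Walk2
import Pool.Agent.H160R2.MU.T_MON
import Pool.Agent.H160R2.MU.T_DEC

/-!
# The level of an arm in the plane at two scales
-/

set_option autoImplicit false

namespace Pool.Agent.S77.WP
open Pool.Agent.H160R2.ML
open Pool.Agent.H160R2.MU
open H974 H906.Cyl

theorem sv_form {k i : ℕ} (hi : i < 2 * k) : ∃ (a : ℤ) (β : Bool), sv k i = ((a, a), β) ∧ 0 ≤ a ∧
    2 * a ≤ k := by
  unfold sv
  split_ifs with h
  · exact ⟨_, _, rfl, by omega, by omega⟩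
  · exact ⟨_, _, rfl, by omega, by omega⟩

theorem nm_le (v : Vtx) (c : ℤ) : nm v ≤ c ↔ (-c ≤ v.1 ∧ v.1 ≤ c) ∧ (-c ≤ v.2 ∧ v.2 ≤ c) := by
  unfold nm
  rw [max_le_iff, abs_le, abs_le]

theorem nm_lt (v : Vtx) (c : ℤ) : nm v < c ↔ (-c < v.1 ∧ v.1 < c) ∧ (-c < v.2 ∧ v.2 < c) := by
  unfold nm
  rw [max_lt_iff, abs_lt, abs_lt]

theorem nm_ds {u v : Vtx} (c : ℤ) (h : ds u v ≤ c) : nm v ≤ nm u + c := by
  have h1 := (nm_le u (nm u)).1 le_rfl
  rw [ds_le_iff] at h
  rw [nm_le]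
  omega

theorem ds_comm (u v : Vtx) : ds u v = ds v u := by
  unfold ds
  rw [abs_sub_comm u.1, abs_sub_comm u.2]

/-- another even sector -/
theorem other {k i : ℕ} (hk : 2 ≤ k) : ∃ i' : ℕ, i' < 2 * k ∧ i' % 2 = 0 ∧ i' ≠ i := by
  by_cases h : i = 0
  · exact ⟨2, by omega, rfl, by omega⟩
  · exact ⟨0, by omega, rfl, by omega⟩

/-- **two arms have the same level** up to a constant -/
theorem arms_lv {k R : ℕ} (hk : 2 ≤ k) (hkR : k ≤ R) {G : Set Edg} (hSE : SE k R G)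
    {i i' : ℕ} (hi : i < 2 * k) (hi2 : i % 2 = 0) (hi' : i' < 2 * k) (hi2' : i' % 2 = 0)
    {q q' : Vtx × Bool} {l l' : ℤ} (hq : nm q.1 = R) (hq' : nm q'.1 = R)
    (h : Cv k R G (sv k i, 0) (q, l)) (h' : Cv k R G (sv k i', 0) (q', l')) : |l - l'| ≤ 8 := by
  have main : ∀ (i i' : ℕ) (q q' : Vtx × Bool) (l l' : ℤ), i < 2 * k → i % 2 = 0 → i' < 2 * k →
      i' % 2 = 0 → i ≠ i' → nm q.1 = R → nm q'.1 = R → Cv k R G (sv k i, 0) (q, l) →
      Cv k R G (sv k i', 0) (q', l') → |l - l'| ≤ 4 := by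
    intro i i' q q' l l' hi hi2 hi' hi2' hne hq hq' h h'
    obtain ⟨a, β, e1, e2, e3⟩ := sv_form hi
    obtain ⟨a', β', e1', e2', e3'⟩ := sv_form hi'
    have hn := hSE.1 i' i hi' hi hi2' hi2 (Ne.symm hne)
    rw [e1] at h hn
    rw [e1'] at h' hn
    have := sep_arm (by omega : 1 ≤ k) (by omega) e2' e3' hq' h' h hn e2 e3 hq
    rwa [sub_zero, sub_zero] at this
  by_cases hne : i = i'
  · subst hne
    obtain ⟨j, j1, j2, j3⟩ := other (i := i) hk
    obtain ⟨y, β, hy, hc⟩ := hSE.2 j j1 j2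
    obtain ⟨m, hm⟩ := Cv_lift hc 0
    have h1 := main i j q (y, β) l m hi hi2 j1 j2 (Ne.symm j3) hq hy h hm
    have h2 := main i j q' (y, β) l' m hi hi2 j1 j2 (Ne.symm j3) hq' hy h' hm
    rw [abs_le] at h1 h2 ⊢
    constructor <;> linarith [h1.1, h1.2, h2.1, h2.2]
  · have := main i i' q q' l l' hi hi2 hi' hi2' hne hq hq' h h'
    linarith

/-! ### the box as a graph cut along the diagonal -/

/-- natural sides -/
def NN (x : Vtx × Bool) : Vtx × Bool := (x.1, if x.1.1 = x.1.2 then x.2 else decide (x.1.2 < x.1.1))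

theorem NN_side (v : Vtx) (d : ℤ) (h : if 0 ≤ d then 0 ≤ v.1 - v.2 else v.1 - v.2 ≤ 0) :
    NN (v, decide (0 ≤ d)) = (v, decide (0 ≤ d)) := by
  unfold NN
  simp only
  split_ifs with h1
  · rfl
  · congr 1
    by_cases hd : 0 ≤ d
    · rw [if_pos hd] at h
      simp only [hd, decide_true, decide_eq_true_eq]
      omega
    · rw [if_neg hd] at h
      simp only [hd, decide_false, decide_eq_false_iff_not]
      omega

/-- crossings of the box -/
def glB (k : ℕ) (R : ℤ) (a : ℤ) : Prop := |a| ≤ R ∧ ¬ (0 < 2 * a ∧ 2 * a < k)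

def noF : Vtx × Bool → Vtx × Bool → Prop := fun _ _ => False

/-- edges of a box -/
def EB (R : ℤ) (G : Set Edg) : Set Edg := {e | e ∈ G ∧ nm (src e) ≤ R ∧ nm (tgt e) ≤ R}

theorem Sp_of_CL {k : ℕ} {R : ℤ} {G : Set Edg} {x y : Vtx × Bool} (h : CL k R G x y) :
    Relation.EqvGen (Sp (glB k R) (EB R G) noF) (NN x) (NN y) := by
  cases h with
  | edge e he h1 h2 =>
    rw [NN_side _ _ (TDEC.side_src e), NN_side _ _ (TDEC.side_tgt e)]
    exact Relation.EqvGen.rel _ _ (Sp.edge e ⟨he, h1, h2⟩)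
  | idn v hv hd =>
    obtain ⟨a, b⟩ := v
    by_cases hab : a = b
    · subst hab
      unfold NN
      simp only [if_true]
      refine Relation.EqvGen.rel _ _ (Sp.idn a ⟨?_, fun h => hd ⟨rfl, h⟩⟩)
      unfold nm at hv
      simpa using hv
    · have : NN ((a, b), false) = NN ((a, b), true) := by
        unfold NN
        simp only [hab, if_false]
      rw [this]
      exact Relation.EqvGen.refl _

theorem Sp_of_Cb {k : ℕ} {R : ℤ} {G : Set Edg} {x y : Vtx × Bool} (h : Cb k R G x y) :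
    Relation.EqvGen (Sp (glB k R) (EB R G) noF) (NN x) (NN y) := by
  unfold Cb at h
  induction h with
  | rel x y h => exact Sp_of_CL h
  | refl x => exact Relation.EqvGen.refl _
  | symm x y _ ih => exact Relation.EqvGen.symm _ _ ih
  | trans x y z _ _ ih1 ih2 => exact Relation.EqvGen.trans _ _ _ ih1 ih2

theorem NN_sv {k i : ℕ} : NN (sv k i) = sv k i := by
  unfold NN sv
  split_ifs <;> simp_all

/-- connections of a smaller configuration -/
theorem Cv_mono {k : ℕ} {R : ℤ} {G G' : Set Edg} (h : G ⊆ G') {x y : (Vtx × Bool) × ℤ}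
    (hxy : Cv k R G x y) : Cv k R G' x y := by
  unfold Cv at hxy ⊢
  induction hxy with
  | rel x y h1 =>
    refine Relation.EqvGen.rel _ _ ?_
    cases h1 with
    | edge e l h1 h2 h3 => exact CLv.edge e l (h h1) h2 h3
    | idn v l h1 h2 => exact CLv.idn v l h1 h2
  | refl x => exact Relation.EqvGen.refl _
  | symm x y _ ih => exact Relation.EqvGen.symm _ _ ih
  | trans x y z _ _ ih1 ih2 => exact Relation.EqvGen.trans _ _ _ ih1 ih2

/-- an excursion in a box between boundary points next to an arm -/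
theorem exc_bd {gl sg : ℤ → Prop} {G G' : Set Edg} {far : Vtx × Bool → Vtx × Bool → Prop}
    {p : ℕ → Vtx × Bool} {t : ℕ} (W : Wk gl G' far p t) (hG : G' ⊆ G) {k m : ℕ} (hk : 2 ≤ k)
    (hkm : k ≤ m) (hSE : SE k m G)
    (hgl : ∀ a : ℤ, |a| ≤ (m : ℤ) → gl a → ¬ (0 < 2 * a ∧ 2 * a < k) ∧ (sg a ↔ (k : ℤ) ≤ 2 * a))
    {i' : ℕ} (hi' : i' < 2 * k) (hi2' : i' % 2 = 0)
    {s e : ℕ} (hse : s + 1 < e) (he : e ≤ t) (hs0 : (m : ℤ) ≤ nm (p s).1) (he0 : (m : ℤ) ≤ nm (p e).1)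
    (hin : ∀ j, s < j → j < e → nm (p j).1 < m)
    (hfar : ∀ x y, far x y → (m : ℤ) < nm x.1 ∧ (m : ℤ) < nm y.1)
    (hne : ¬ Cb k m G (sv k i') (p s)) : |lv sg p e - lv sg p s| ≤ 4 := by
  have hnf : ∀ j, nm (p j).1 ≤ m → ∀ y, ¬ far (p j) y ∧ ¬ far y (p j) := by
    intro j hj y
    exact ⟨fun h => by have := (hfar _ _ h).1; omega, fun h => by have := (hfar _ _ h).2; omega⟩
  have h1 : nm (p s).1 ≤ m := by
    have h2 := hnf (s + 1) (hin (s + 1) (by omega) hse).le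
    have h3 : ds (p (s + 1)).1 (p s).1 ≤ 1 := by
      have h4 : Sp gl G' far (p s) (p (s + 1)) ∨ Sp gl G' far (p (s + 1)) (p s) := W.step s (by omega)
      have key : ∀ e : Edg, ds (src e) (tgt e) ≤ 1 ∧ ds (tgt e) (src e) ≤ 1 := by
        intro e
        rcases tgt_cases e with h1 | h1 <;> rw [h1, ds_le_iff, ds_le_iff] <;> simp
      generalize hx : p s = x at h4 h2
      generalize hy : p (s + 1) = y at h4 h2
      rcases h4 with h | h
      · cases h with
        | edge e he => exact (key e).2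
        | idn a ha => rw [ds_self]; norm_num
        | far x y h => exact absurd h (h2 _).2
      · cases h with
        | edge e he => exact (key e).1
        | idn a ha => rw [ds_self]; norm_num
        | far x y h => exact absurd h (h2 _).1
    have := nm_ds 1 h3
    have := hin (s + 1) (by omega) hse
    omega
  have h2 : nm (p e).1 ≤ m := by
    have h2 := hnf (e - 1) (hin (e - 1) (by omega) (by omega)).le
    have h3 := W.near (i := e - 1) (by omega) h2
    rw [show e - 1 + 1 = e by omega] at h3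
    have := nm_ds 1 h3
    have := hin (e - 1) (by omega) (by omega)
    omega
  have hbox : ∀ j, s ≤ j → j ≤ e → nm (p j).1 ≤ m := by
    intro j j1 j2
    rcases Nat.eq_or_lt_of_le j1 with h | h
    · subst h; exact h1
    · rcases Nat.eq_or_lt_of_le j2 with h' | h'
      · subst h'; exact h2
      · exact (hin j h h').le
  have hC := Cv_mono hG (Cv_walk (sg := sg) W (m := m) hgl (by omega : s ≤ e) he hbox
    (fun j j1 j2 => hnf j (hbox j j1 j2.le)) 0)
  obtain ⟨a', β', e1, e2, e3⟩ := sv_form hi'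
  obtain ⟨y, β, hy, hc⟩ := hSE.2 i' hi' hi2'
  rw [e1] at hc hne
  obtain ⟨l1, hl1⟩ := Cv_lift hc 0
  have h3 := sep_bd (by omega : 1 ≤ k) (by omega) e2 e3 hy hl1 hC hne (le_antisymm h1 hs0)
    (le_antisymm h2 he0)
  simpa using h3

/-- **the level of an arm at two scales** -/
theorem B1 {k R m1 m0 m ρ : ℕ} (hk : 2 ≤ k) (hρ : 1 ≤ ρ) (hm : m + ρ < m0) (hkm : k ≤ m)
    (hm1 : m0 + ρ < m1) (hR : m1 ≤ R) {G : Set Edg} (hSE : SE k R G) {i : ℕ} (hi : i < 2 * k)
    (hi2 : i % 2 = 0) {y : Vtx × Bool} {l : ℤ} (hy : nm y.1 = R) (h : Cv k R G (sv k i, 0) (y, l)) :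
    ∃ (l0 : ℤ) (y0 : Vtx × Bool), nm y0.1 = m1 ∧ Cv k m1 G (sv k i, 0) (y0, l0) ∧
    ∃ Ws : List (Finset Edg), |l - l0| ≤ 5 * (Ws.length + 1) + 8 ∧ Ws.Pairwise Disjoint ∧
      ∀ S ∈ Ws, (∀ e ∈ S, e ∈ G ∧ (nm (src e) ≤ R ∧ nm (tgt e) ≤ R) ∧
        (m : ℤ) < nm (src e) ∧ (m : ℤ) < nm (tgt e)) ∧
        ∃ u v : Vtx, (ρ : ℤ) ≤ ds u v ∧ Reach (↑S : Set Edg) u v := by
  obtain ⟨t, p, p0, pt, hstep, hinj⟩ := simple_walk _ (Sp_of_Cb (Cb_of_Cv h))
  rw [NN_sv] at p0
  have W : Wk (glB k R) (EB R G) noF p t := ⟨hstep, hinj, fun _ _ h => h.elim, fun _ _ h => h.elim⟩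
  have hnf : ∀ x y, ¬ noF x y := fun _ _ h => h
  have hEB : EB R G ⊆ G := fun e he => he.1
  have hboxR : ∀ j, j ≤ t → nm (p j).1 ≤ R := by
    intro j hj
    rcases Nat.eq_zero_or_pos t with h0 | h0
    · have : j = 0 := by omega
      rw [this, p0]
      have := TMON.sv_nm hk hi
      omega
    · have key : ∀ x y : Vtx × Bool, Sp (glB k R) (EB R G) noF x y → nm x.1 ≤ R ∧ nm y.1 ≤ R := by
        intro x y h
        cases h with
        | edge e he => exact he.2
        | idn a ha =>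
          have : nm ((a, a) : Vtx) ≤ R := by unfold nm; rw [max_self]; exact ha.1
          exact ⟨this, this⟩
        | far x y h => exact h.elim
      rcases Nat.eq_zero_or_pos j with hj0 | hj0
      · subst hj0
        rcases hstep 0 h0 with h | h
        · exact (key _ _ h).1
        · exact (key _ _ h).2
      · have h1 := hstep (j - 1) (by omega)
        rw [show j - 1 + 1 = j by omega] at h1
        rcases h1 with h | h
        · exact (key _ _ h).2
        · exact (key _ _ h).1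
  have hgl : ∀ M : ℤ, ∀ a, |a| ≤ M → glB k R a → ¬ (0 < 2 * a ∧ 2 * a < k) ∧
      ((fun a : ℤ => (k : ℤ) ≤ 2 * a) a ↔ (k : ℤ) ≤ 2 * a) := fun M a _ h => ⟨h.2, Iff.rfl⟩
  -- the level at the end
  have hend := Cv_mono hEB (Cv_walk (sg := fun a => (k : ℤ) ≤ 2 * a) W (hgl R) (Nat.zero_le t) le_rfl
    (fun j _ h2 => hboxR j h2) (fun j _ _ y => ⟨hnf _ _, hnf _ _⟩) 0)
  have hl0 : lv (fun a => (k : ℤ) ≤ 2 * a) p 0 = 0 := by unfold lv; simp
  rw [p0, pt, hl0, sub_zero, zero_add] at hend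
  have hNN : nm (NN y).1 = R := hy
  have hd1 := arms_lv hk (by omega) hSE hi hi2 hi hi2 hy hNN h hend
  -- first exit
  have hpt : nm (p t).1 = R := by rw [pt]; exact hy
  obtain ⟨c, -, c2, c3, c4⟩ := first_time (fun j => (m1 : ℤ) ≤ nm (p j).1) (i := 0) (t := t)
    ⟨t, Nat.zero_le _, le_rfl, by rw [hpt]; exact_mod_cast hR⟩
  have hc0 : 0 < c := by
    rcases Nat.eq_zero_or_pos c with h0 | h0
    · subst h0
      rw [p0] at c3
      have := TMON.sv_nm hk hi
      omega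
    · exact h0
  have hc5 : nm (p c).1 ≤ m1 := by
    have h3 := W.near (i := c - 1) (by omega) (fun y => ⟨hnf _ _, hnf _ _⟩)
    rw [show c - 1 + 1 = c by omega] at h3
    have := nm_ds 1 h3
    have := c4 (c - 1) (by omega) (by omega)
    omega
  have hfirst := Cv_mono hEB (Cv_walk (sg := fun a => (k : ℤ) ≤ 2 * a) W (hgl m1) (Nat.zero_le c) c2
    (fun j _ h2 => by
      rcases Nat.eq_or_lt_of_le h2 with h | h
      · subst h; exact hc5
      · have := c4 j (Nat.zero_le _) h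
        omega) (fun j _ _ y => ⟨hnf _ _, hnf _ _⟩) 0)
  rw [p0, hl0, sub_zero, zero_add] at hfirst
  refine ⟨_, p c, le_antisymm hc5 c3, hfirst, ?_⟩
  obtain ⟨i', i1, i2, i3⟩ := other (i := i) hk
  obtain ⟨Ws, w1, w2, w3⟩ := gt (sg := fun a => (k : ℤ) ≤ 2 * a) W (I := fun v => nm v < m1)
    (D := fun v => nm v ≤ m0) (ρ := ρ) (K := 4) (by omega) (by norm_num)
    (fun v hv => by omega)
    (fun v w hv hw => by
      by_contra h'
      have := nm_ds ρ (not_lt.1 h')
      omega)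
    (fun x y u h _ => h.elim) (fun x y h => h.elim)
    (fun a a' g1 g2 g3 g4 g5 => by
      have e1 : nm ((a, a) : Vtx) = |a| := by unfold nm; rw [max_self]
      rw [e1] at g3
      rw [abs_lt] at g4
      have : 0 ≤ a := by omega
      rw [abs_of_nonneg this] at g3
      omega)
    (by
      intro s e hse he hs0 he0 hin ⟨j, j1, j2, j3⟩
      refine exc_bd (G := G) W hEB hk (by omega) (TMON.se_mono hk (by omega) hR hSE) (hgl m1) i1 i2
        (by omega) he (by omega) (by omega) hin (fun x y h => h.elim) ?_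
      intro hc
      refine hSE.1 i' i i1 hi i2 hi2 i3 ?_
      have h5 := Cb_of_Cv (Cv_mono hEB (Cv_walk (sg := fun a => (k : ℤ) ≤ 2 * a) W (hgl R)
        (Nat.zero_le s) (by omega : s ≤ t)
        (fun j _ h2 => hboxR j (by omega)) (fun j _ _ y => ⟨hnf _ _, hnf _ _⟩) 0))
      rw [p0] at h5
      exact Relation.EqvGen.trans _ _ _ (TMON.cb_mono (by exact_mod_cast hR) hc)
        (Relation.EqvGen.symm _ _ h5))
    c2 (by omega) (by omega)
  refine ⟨Ws, ?_, w2, ?_⟩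
  · have e1 : l - lv (fun a => (k : ℤ) ≤ 2 * a) p c = (l - lv (fun a => (k : ℤ) ≤ 2 * a) p t) +
        (lv (fun a => (k : ℤ) ≤ 2 * a) p t - lv (fun a => (k : ℤ) ≤ 2 * a) p c) := by ring
    rw [e1]
    refine (abs_add_le _ _).trans ?_
    have : ((4 : ℤ) + 1) = 5 := by norm_num
    rw [this] at w1
    linarith
  · intro S hS
    obtain ⟨u, v, u1, u2, u3, u4⟩ := w3 S hS
    refine ⟨fun e he => ?_, u, v, u1, u2⟩
    obtain ⟨b1, b2, b3⟩ := u3 e he
    refine ⟨b1.1, b1.2, ?_⟩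
    have hu : (m0 : ℤ) ≤ nm u := by
      rcases u4 with ⟨h1, -, -⟩ | ⟨-, w, h1, h2⟩
      · omega
      · have := nm_ds 1 h2
        omega
    rw [ds_comm] at b2 b3
    have := nm_ds ρ b2
    have := nm_ds ρ b3
    omega

end Pool.Agent.S77.WP
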