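import Pool.Agent.S77.WP.CylLv
import Pool.Agent.S77.WP.Plane

/-!
# A path between the slits `0` and `1` and the winding of the words
-/

set_option autoImplicit false

namespace Pool.Agent.S77.WP
open Pool.Agent.H863R2.Cyl
open Pool.Agent.H988R2.Perc (Word PD)
open Pool.Agent.H160R2.ML
open Pool.Agent.H160R2.MU
open Pool.Agent.S77.WD
open H974 H906.Cyl

theorem Ac0_eq {n M : ℕ} {F : Finset Edg} (hF : F ⊆ CE n M) : Ac 0 n M F = (↑F : Set Edg) := by
  ext e
  constructor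
  · intro h
    exact h.2.2 rfl
  · intro h
    exact ⟨hF h, fun _ => rfl, fun _ => h⟩

theorem cyl_walk {n M k : ℕ} (hk : 2 ≤ k) (hkn : k ≤ 2 * n) (hn : 1 ≤ n) (hM : 0 < M)
    {F : Finset Edg} (hF : F ⊆ CE n M) {τ σ : Wd (2 * n - 1 + 1)} {y : ℤ}
    (h : HasW k (wup n M F τ) (wdn n M F σ) y) :
    ∃ (c0 d0 t : ℕ) (P : ℕ → Pt), (c0 < 2 * k ∧ c0 % 2 = 0) ∧ (d0 < 2 * k ∧ d0 % 2 = 0) ∧
      P 0 = sec n M k 0 c0 ∧ P t = sec n M k 1 d0 ∧ (∀ j, j ≤ t → Cls M 0 (P j)) ∧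
      (∀ i < t, RS n M k (↑F) τ.1 σ.1 (P i) (P (i + 1)) ∨ RS n M k (↑F) τ.1 σ.1 (P (i + 1)) (P i)) ∧
      (∀ i j, i ≤ t → j ≤ t → P i = P j → i = j) ∧
      |y + 2 * k * lv (sg0 n k) (fun j => vz M (P j)) t| ≤ 3 * k := by
  have hup : (wup n M F τ).length = 2 * n := TC1.len_up hn M F τ
  have hdn : (wdn n M F σ).length = 2 * n := TC1.len_dn hn M F σ
  have hOu : Ok (wup n M F τ) := (rows (2 * n - 1) (up n M F) M τ).2.2
  have hOd : Ok (wdn n M F σ) := (rows (2 * n - 1) (dn n M F) M σ).2.2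
  obtain ⟨c, c1, c2⟩ := even_leg hk hkn hOu hOd hup hdn h
  have hl : 0 < k + k := by omega
  obtain ⟨m, c0, hc0, ec⟩ := label hl c
  obtain ⟨m', d0, hd0, ed⟩ := label hl (y + k - c)
  rw [ec] at c2
  rw [← ec, ed] at c2
  rw [ec] at c2
  rw [PT_eq _ _ _ _ hc0, PT_eq _ _ _ _ hd0] at c2
  have hc0e : c0 % 2 = 0 := by
    have : ((k + k : ℕ) : ℤ) * m = 2 * (k * m) := by push_cast; ring
    rw [this] at ec
    omega
  have hCn := Ct_Cn c2
  have hpar := TG.Cn_par k _ _ (hup.trans hdn.symm) _ _ hCn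
  rw [TG.pt_par hup hdn, TG.pt_par hup hdn] at hpar
  have hd0e : d0 % 2 = 0 := by omega
  have hRB : RB 0 n M k (Ac 0 n M F) τ.1 σ.1 (sec n M k 0 c0) (sec n M k 1 d0) := by
    rw [← t_C1 n M k hn hkn F σ τ, TG.lev_pt hup hdn, TG.lev_pt hup hdn] at hCn
    exact (t_LNK 0 n M k (by norm_num) hn hkn F hF τ σ _ _ (TG.sec_cls 0 c0 hc0e)
      (TG.sec_cls 1 d0 hd0e)).1 hCn
  obtain ⟨t, P, P0, Pt', hstep, hinj⟩ := simple_walk _ hRB
  have hcls : ∀ j, j ≤ t → Cls M 0 (P j) := by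
    intro j
    induction j with
    | zero => intro _; rw [P0]; exact TG.sec_cls 0 c0 hc0e
    | succ j ih =>
      intro hj
      have h1 := ih (by omega)
      rcases hstep j (by omega) with h2 | h2
      · exact (RS_cls h2).1 h1
      · exact (RS_cls h2).2 h1
  have hstep' : ∀ i < t, RS n M k (↑F) τ.1 σ.1 (P i) (P (i + 1)) ∨
      RS n M k (↑F) τ.1 σ.1 (P (i + 1)) (P i) := by
    intro i hi
    have := hstep i hi
    rw [Ac0_eq hF] at this
    exact this
  refine ⟨c0, d0, t, P, ⟨by omega, hc0e⟩, ⟨by omega, hd0e⟩, P0, Pt', hcls, hstep', hinj, ?_⟩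
  -- the level
  have hlev : ∀ j, j ≤ t → Relation.EqvGen (BgL n M k F τ.1 σ.1) (P 0, 0)
      (P j, lv (sg0 n k) (fun j => vz M (P j)) j) := by
    intro j
    induction j with
    | zero =>
      intro _
      have : lv (sg0 n k) (fun j => vz M (P j)) 0 = 0 := by unfold lv; simp
      rw [this]
      exact Relation.EqvGen.refl _
    | succ j ih =>
      intro hj
      refine Relation.EqvGen.trans _ _ _ (ih (by omega)) ?_
      rw [lv_succ]
      rcases hstep j (by omega) with h2 | h2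
      · exact BgL_of_RS (by omega) hM (by omega) hF (hcls j (by omega)) (hcls (j + 1) hj) h2 _
      · have h3 := BgL_of_RS (by omega) hM (by omega) hF (hcls (j + 1) hj) (hcls j (by omega)) h2
          (lv (sg0 n k) (fun j => vz M (P j)) j + wt (sg0 n k) (vz M (P j)) (vz M (P (j + 1))))
        rw [wt_symm (sg0 n k) (vz M (P j)) (vz M (P (j + 1))), add_neg_cancel_right] at h3
        exact Relation.EqvGen.symm _ _ h3
  have h3 := hlev t le_rfl
  rw [P0, Pt', ← TG.lev_pt hup hdn, ← TG.lev_pt hup hdn] at h3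
  have h4 := Ct_of_BgL hn h3
  set L := lv (sg0 n k) (fun j => vz M (P j)) t with hL
  have h5 := Ct_shift (pl k 0 c0) h4
  simp only [zero_add] at h5
  have h6 : (((k + k : ℕ) : ℤ) * (-(L + pl k 0 c0)) + d0 + c0) ∈ Ix k k (wup n M F τ) (wdn n M F σ) := by
    refine ⟨c0, ?_⟩
    have e1 : PT k k (wup n M F τ) (wdn n M F σ) 0 (c0 : ℤ) =
        (pt k k (wup n M F τ) (wdn n M F σ) 0 c0, pl k 0 c0) := by
      have := PT_eq (p := k) (r := k) (wup n M F τ) (wdn n M F σ) 0 0 hc0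
      rw [mul_zero, zero_add, zero_mul, add_zero] at this
      exact this
    have e2 : ((k + k : ℕ) : ℤ) * (-(L + pl k 0 c0)) + d0 + c0 - c0 =
        ((k + k : ℕ) : ℤ) * (-(L + pl k 0 c0)) + d0 := by ring
    have e3 : pl k 1 d0 + -(L + pl k 0 c0) * (gg 1 - gg (1 - 1)) = L + pl k 0 c0 := by
      have g1 : gg 1 = 0 := rfl
      have g2 : gg (1 - 1) = 1 := rfl
      have g3 : pl k 1 d0 = 0 := by
        unfold pl
        split_ifs
        · rfl
        · exact g1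
      rw [g1, g2, g3]
      ring
    rw [e1, e2, PT_eq _ _ _ _ hd0, e3]
    exact h5
  rw [h.2, Set.mem_singleton_iff] at h6
  have hpl : pl k 0 c0 = 0 ∨ pl k 0 c0 = 1 := by
    unfold pl
    split_ifs
    · exact Or.inl rfl
    · exact Or.inr rfl
  have e4 : y + 2 * k * L = d0 + c0 - k - 2 * k * pl k 0 c0 := by
    push_cast at h6
    linear_combination -h6
  rw [e4, abs_le]
  have hc0' : (c0 : ℤ) < k + k := by exact_mod_cast hc0
  have hd0' : (d0 : ℤ) < k + k := by exact_mod_cast hd0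
  have hk0 : (0 : ℤ) ≤ k := by positivity
  rcases hpl with h7 | h7 <;> rw [h7] <;> constructor <;> linarith

end Pool.Agent.S77.WP
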