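import Pool.Agent.S77.WP.Cyl1

/-!
# The winding of the words and the level of an arm in a box
-/

set_option autoImplicit false

namespace Pool.Agent.S77.WP
open Pool.Agent.H863R2.Cyl
open Pool.Agent.H988R2.Perc (Word PD)
open Pool.Agent.H160R2.ML
open Pool.Agent.H160R2.MU
open Pool.Agent.S77.WD
open H974 H906.Cyl

/-! ### periodicity -/

/-- translation by a period -/
def shP (n : ℕ) (z : Pt) : Pt := ((z.1.1 + (2 * n : ℕ), z.1.2), z.2)

theorem Dg_sh {n M : ℕ} {e : Edg} {x y : Pt} (h : Dg n M 0 e x y) :
    Dg n M 0 e (shP n x) (shP n y) := by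
  cases h with
  | lrise q t h1 h2 h3 =>
    have := Dg.lrise (n := n) (M := M) (c := 0) (e := e) (q + 1) t h1 h2 h3
    unfold shP
    simp only
    convert this using 3 <;> push_cast <;> ring_nf
  | lfall q t h1 h2 h3 =>
    have := Dg.lfall (n := n) (M := M) (c := 0) (e := e) (q + 1) t h1 h2 h3
    unfold shP
    simp only
    convert this using 3 <;> push_cast <;> ring_nf
  | urise q t h1 h2 h3 =>
    have := Dg.urise (n := n) (M := M) (c := 0) (e := e) (q + 1) t h1 h2 h3
    unfold shP
    simp only
    convert this using 3 <;> push_cast <;> ring_nf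
  | ufall q t h1 h2 h3 =>
    have := Dg.ufall (n := n) (M := M) (c := 0) (e := e) (q + 1) t h1 h2 h3
    unfold shP
    simp only
    convert this using 3 <;> push_cast <;> ring_nf

theorem RB_sh {n M k : ℕ} {A : Set Edg} {τ σ : Word} (hτ : τ.length = 2 * n) (hσ : σ.length = 2 * n)
    {x y : Pt} (h : RB 0 n M k A τ σ x y) : RB 0 n M k A τ σ (shP n x) (shP n y) := by
  induction h with
  | rel x y h =>
    refine Relation.EqvGen.rel _ _ ?_
    rcases h with h | h | ⟨e, he, h⟩
    · left
      cases h with
      | low a b h =>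
        have h1 := (Rw_shift σ a b).2 h
        rw [hσ] at h1
        exact Wl.low _ _ h1
      | upp a b h =>
        have h1 := (Rw_shift τ a b).2 h
        rw [hτ] at h1
        exact Wl.upp _ _ h1
    · right; left
      cases h with
      | glue s i hi =>
        have := Gl.glue (n := n) (M := M) (k := k) (s + 1) i hi
        unfold shP
        simp only
        convert this using 3 <;> ring_nf
    · right; right
      exact ⟨e, he, Dg_sh h⟩
  | refl x => exact Relation.EqvGen.refl _
  | symm x y _ ih => exact Relation.EqvGen.symm _ _ ih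
  | trans x y z _ _ h1 h2 => exact Relation.EqvGen.trans _ _ _ h1 h2

theorem shP_sec {n M k : ℕ} (i : ℕ) : shP n (sec n M k 0 i) = sec n M k 1 i := by
  unfold shP sec
  split_ifs <;> simp only [Prod.mk.injEq, and_true] <;> ring

theorem unshift {n M k : ℕ} {A : Set Edg} {τ σ : Word} (hτ : τ.length = 2 * n)
    (hσ : σ.length = 2 * n) {i j : ℕ}
    (h : RB 0 n M k A τ σ (sec n M k 1 i) (sec n M k 1 j)) :
    RB 0 n M k A τ σ (sec n M k 0 i) (sec n M k 0 j) := by
  have key : ∀ x y : Pt, RB 0 n M k A τ σ x y →
      RB 0 n M k A τ σ ((x.1.1 - (2 * n : ℕ), x.1.2), x.2) ((y.1.1 - (2 * n : ℕ), y.1.2), y.2) := by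
    intro x y h
    induction h with
    | rel x y h =>
      refine Relation.EqvGen.rel _ _ ?_
      rcases h with h | h | ⟨e, he, h⟩
      · left
        cases h with
        | low a b h =>
          have h1 : Rw σ (a - (2 * n : ℕ)) (b - (2 * n : ℕ)) := by
            rw [← Rw_shift, hσ, sub_add_cancel, sub_add_cancel]
            exact h
          exact Wl.low _ _ h1
        | upp a b h =>
          have h1 : Rw τ (a - (2 * n : ℕ)) (b - (2 * n : ℕ)) := by
            rw [← Rw_shift, hτ, sub_add_cancel, sub_add_cancel]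
            exact h
          exact Wl.upp _ _ h1
      · right; left
        cases h with
        | glue s i hi =>
          have := Gl.glue (n := n) (M := M) (k := k) (s - 1) i hi
          simp only
          convert this using 3 <;> ring_nf
      · right; right
        refine ⟨e, he, ?_⟩
        cases h with
        | lrise q t h1 h2 h3 =>
          have := Dg.lrise (n := n) (M := M) (c := 0) (e := e) (q - 1) t h1 h2 h3
          simp only
          convert this using 3 <;> push_cast <;> ring_nf
        | lfall q t h1 h2 h3 =>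
          have := Dg.lfall (n := n) (M := M) (c := 0) (e := e) (q - 1) t h1 h2 h3
          simp only
          convert this using 3 <;> push_cast <;> ring_nf
        | urise q t h1 h2 h3 =>
          have := Dg.urise (n := n) (M := M) (c := 0) (e := e) (q - 1) t h1 h2 h3
          simp only
          convert this using 3 <;> push_cast <;> ring_nf
        | ufall q t h1 h2 h3 =>
          have := Dg.ufall (n := n) (M := M) (c := 0) (e := e) (q - 1) t h1 h2 h3
          simp only
          convert this using 3 <;> push_cast <;> ring_nf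
    | refl x => exact Relation.EqvGen.refl _
    | symm x y _ ih => exact Relation.EqvGen.symm _ _ ih
    | trans x y z _ _ h1 h2 => exact Relation.EqvGen.trans _ _ _ h1 h2
  have h1 := key _ _ h
  have e : ∀ i, (((sec n M k 1 i).1.1 - (2 * n : ℕ), (sec n M k 1 i).1.2), (sec n M k 1 i).2) =
      sec n M k 0 i := by
    intro i
    unfold sec
    split_ifs <;> simp only [Prod.mk.injEq, and_true] <;> ring
  rw [e, e] at h1
  exact h1

/-- translation of the plane -/
def dn' (n : ℕ) (x : Vtx × Bool) : Vtx × Bool := ((x.1.1 - n, x.1.2 - n), x.2)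

theorem Sp_dn {n M k : ℕ} (hn : 0 < n) {F : Finset Edg} {x y : Vtx × Bool}
    (h : Sp (glC n k) (per n F) (farC M) x y) :
    Sp (glC n k) (per n F) (farC M) (dn' n x) (dn' n y) := by
  cases h with
  | edge e he =>
    have hr := red_shift hn e (-1)
    have hd : dco (e.1 - n, e.2.1 - n, e.2.2) = dco e := by
      obtain ⟨a, b, _ | _⟩ := e <;> unfold dco <;> simp
    have he' : (e.1 - (n : ℤ), e.2.1 - (n : ℤ), e.2.2) ∈ per n F := by
      show red n _ ∈ F
      have e1 : (e.1 - (n : ℤ), e.2.1 - (n : ℤ), e.2.2) = (e.1 + n * (-1), e.2.1 + n * (-1), e.2.2) := by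
        simp only [Prod.mk.injEq, and_true]; constructor <;> ring
      rw [e1, hr]
      exact he
    have h1 := Sp.edge (gl := glC n k) (far := farC M) _ he'
    rw [hd] at h1
    have e2 : dn' n (src e, decide (0 ≤ dco e)) =
        (src (e.1 - (n : ℤ), e.2.1 - (n : ℤ), e.2.2), decide (0 ≤ dco e)) := by
      obtain ⟨a, b, _ | _⟩ := e <;> rfl
    have e3 : dn' n (tgt e, decide (0 ≤ dco e)) =
        (tgt (e.1 - (n : ℤ), e.2.1 - (n : ℤ), e.2.2), decide (0 ≤ dco e)) := by
      obtain ⟨a, b, _ | _⟩ := e
      · unfold dn'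
        simp only [tgt_false, Prod.mk.injEq, and_true, true_and]
        ring
      · unfold dn'
        simp only [tgt_true, Prod.mk.injEq, and_true]
        ring
    rw [e2, e3]
    exact h1
  | idn a ha =>
    obtain ⟨s, i, hi, ha⟩ := ha
    exact Sp.idn (a - n) ⟨s - 1, i, hi, by push_cast at ha ⊢; linarith⟩
  | far x y h =>
    refine Sp.far _ _ ⟨h.1, ?_, ?_⟩
    · have := h.2.1
      unfold dn'
      simp only
      rw [show x.1.1 - (n : ℤ) - (x.1.2 - n) = x.1.1 - x.1.2 by ring]
      exact this
    · have := h.2.2
      unfold dn'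
      simp only
      rw [show y.1.1 - (n : ℤ) - (y.1.2 - n) = y.1.1 - y.1.2 by ring]
      exact this

theorem Wk_dn {n M k : ℕ} (hn : 0 < n) {F : Finset Edg} {p : ℕ → Vtx × Bool} {t : ℕ}
    (W : Wk (glC n k) (per n F) (farC M) p t) :
    Wk (glC n k) (per n F) (farC M) (fun j => dn' n (p j)) t := by
  refine ⟨fun i hi => ?_, fun i j hi hj hij => ?_, W.f2, W.fd⟩
  · rcases W.step i hi with h | h
    · exact Or.inl (Sp_dn hn h)
    · exact Or.inr (Sp_dn hn h)
  · refine W.inj i j hi hj ?_
    unfold dn' at hij
    simp only [Prod.mk.injEq, sub_left_inj] at hij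
    exact Prod.ext (Prod.ext hij.1.1 hij.1.2) hij.2

theorem wt_pos {sg : ℤ → Prop} {a : ℤ} (h : sg a) : wt sg ((a, a), false) ((a, a), true) = 1 := by
  unfold wt
  rw [if_pos ⟨rfl, rfl, h⟩]
  simp [bz]

theorem wt_neg {sg : ℤ → Prop} {a : ℤ} (h : ¬ sg a) : wt sg ((a, a), false) ((a, a), true) = 0 := by
  unfold wt
  rw [if_neg (fun h' => h h'.2.2)]

/-- the crossings to the left and to the right of the slit `1` -/
theorem lv_dn {n M k m : ℕ} (hk : 1 ≤ k) (hm : 4 * m ≤ n) (hkm : k ≤ m) {F : Finset Edg} {p : ℕ → Vtx × Bool}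
    {t : ℕ} (W : Wk (glC n k) (per n F) (farC M) p t) {s e : ℕ} (hse : s ≤ e) (he : e ≤ t)
    (hbox : ∀ j, s ≤ j → j ≤ e → nm (dn' n (p j)).1 ≤ m) :
    (lv (sg0 n k) p e - lv (sg0 n k) p s) +
      (lv (sg0 n k) (fun j => dn' n (p j)) e - lv (sg0 n k) (fun j => dn' n (p j)) s) =
      bz (p e).2 - bz (p s).2 := by
  induction e, hse using Nat.le_induction with
  | base => ring
  | succ e hse ih =>
    rw [lv_succ, lv_succ]
    have h1 := ih (by omega) (fun j h1 h2 => hbox j h1 (by omega))
    have key : ∀ x y : Vtx × Bool, Sp (glC n k) (per n F) (farC M) x y → nm (dn' n x).1 ≤ m →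
        wt (sg0 n k) x y + wt (sg0 n k) (dn' n x) (dn' n y) = bz y.2 - bz x.2 := by
      intro x y h hx
      cases h with
      | edge e he =>
        unfold wt
        rw [if_neg (fun h' => src_ne_tgt e h'.1), if_neg]
        · simp
        · rintro ⟨h', -⟩
          apply src_ne_tgt e
          unfold dn' at h'
          simp only [Prod.mk.injEq, sub_left_inj] at h'
          exact Prod.ext h'.1 h'.2
      | idn a ha =>
        obtain ⟨q, i, hi, ha⟩ := ha
        have hx1 : nm (a - (n : ℤ), a - (n : ℤ)) ≤ m := hx
        rw [nm_le] at hx1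
        simp only at hx1
        have hq1 : ∀ q' : ℤ, 2 ≤ q' → q = q' → False := by
          intro q' h1 h2
          have : 2 * ((2 * n : ℕ) : ℤ) ≤ q * ((2 * n : ℕ) : ℤ) :=
            mul_le_mul_of_nonneg_right (by omega) (by positivity)
          push_cast at this ha
          omega
        have hq2 : ∀ q' : ℤ, q' ≤ -1 → q = q' → False := by
          intro q' h1 h2
          have : q * ((2 * n : ℕ) : ℤ) ≤ -1 * ((2 * n : ℕ) : ℤ) :=
            mul_le_mul_of_nonneg_right (by omega) (by positivity)
          push_cast at this ha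
          omega
        have hq : q = 0 ∨ q = 1 := by
          by_contra h'
          rcases lt_or_ge q 0 with h | h
          · exact hq2 q (by omega) rfl
          · exact hq1 q (by omega) rfl
        show wt (sg0 n k) ((a, a), false) ((a, a), true) +
          wt (sg0 n k) ((a - (n : ℤ), a - (n : ℤ)), false) ((a - (n : ℤ), a - (n : ℤ)), true) =
          bz true - bz false
        have hb : bz true - bz false = 1 := rfl
        rcases hq with rfl | rfl
        · have h1 : sg0 n k a := by unfold sg0; omega
          have h2 : ¬ sg0 n k (a - n) := by unfold sg0; omega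
          rw [wt_pos h1, wt_neg h2, hb, add_zero]
        · have h1 : ¬ sg0 n k a := by unfold sg0; push_cast at ha; omega
          have h2 : sg0 n k (a - n) := by unfold sg0; push_cast at ha; omega
          rw [wt_neg h1, wt_pos h2, hb, zero_add]
      | far x y h =>
        have h1 := W.fd x y h
        unfold wt
        rw [if_neg (fun h' => h1.1 h'.2.1), if_neg, W.f2 x y h]
        · simp
        · rintro ⟨-, h', -⟩
          apply h1.1
          unfold dn' at h'
          simpa using h'
    have h2 : wt (sg0 n k) (p e) (p (e + 1)) + wt (sg0 n k) (dn' n (p e)) (dn' n (p (e + 1))) =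
        bz (p (e + 1)).2 - bz (p e).2 := by
      rcases W.step e (by omega) with h | h
      · exact key _ _ h (hbox e hse (by omega))
      · have h3 := key _ _ h (hbox (e + 1) (by omega) le_rfl)
        rw [wt_symm (sg0 n k) (p e) (p (e + 1)), wt_symm (sg0 n k) (dn' n (p e)) (dn' n (p (e + 1)))] at h3
        linarith
    linarith

end Pool.Agent.S77.WP
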