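import Pool.Agent.S77.WP.Cyl2

/-!
# The winding of the words and the level of an arm in a box: the bound
-/

set_option autoImplicit false

namespace Pool.Agent.S77.WP
open Pool.Agent.H863R2.Cyl
open Pool.Agent.H988R2.Perc (Word PD)
open Pool.Agent.H160R2.ML
open Pool.Agent.H160R2.MU
open Pool.Agent.S77.WD
open H974 H906.Cyl

theorem Wk.near2 {gl : ℤ → Prop} {G : Set Edg} {far : Vtx × Bool → Vtx × Bool → Prop}
    {p : ℕ → Vtx × Bool} {t : ℕ} (W : Wk gl G far p t) {i : ℕ} (hi : i < t)
    (h2 : ¬ far (p i) (p (i + 1)) ∧ ¬ far (p (i + 1)) (p i)) : ds (p i).1 (p (i + 1)).1 ≤ 1 := by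
  have key : ∀ e : Edg, ds (src e) (tgt e) ≤ 1 ∧ ds (tgt e) (src e) ≤ 1 := by
    intro e
    rcases tgt_cases e with h1 | h1 <;> rw [h1, ds_le_iff, ds_le_iff] <;> simp
  rcases W.step i hi with h | h
  · generalize hx : p i = x at h h2
    generalize hy : p (i + 1) = y at h h2
    cases h with
    | edge e he => exact (key e).1
    | idn a ha => rw [ds_self]; norm_num
    | far x y h => exact absurd h h2.1
  · generalize hx : p i = x at h h2
    generalize hy : p (i + 1) = y at h h2
    cases h with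
    | edge e he => exact (key e).2
    | idn a ha => rw [ds_self]; norm_num
    | far x y h => exact absurd h h2.2

theorem Wk.restrict {gl : ℤ → Prop} {G : Set Edg} {far : Vtx × Bool → Vtx × Bool → Prop}
    {p : ℕ → Vtx × Bool} {t t' : ℕ} (W : Wk gl G far p t) (h : t' ≤ t) : Wk gl G far p t' :=
  ⟨fun i hi => W.step i (by omega), fun i j hi hj => W.inj i j (by omega) (by omega), W.f2, W.fd⟩

theorem vx_shP {n M : ℕ} (z : Pt) : vx M (shP n z) = ((vx M z).1 + n, (vx M z).2 + n) := by
  obtain ⟨⟨j, t⟩, β⟩ := z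
  unfold vx shP pv
  cases β
  · simp only [Bool.false_eq_true, if_false, Prod.mk.injEq]
    push_cast
    omega
  · simp only [if_true, Prod.mk.injEq]
    push_cast
    omega

theorem Q_vz {M : ℕ} {z : Pt} (h : Cls M 0 z) : TDEC.Q M (vz M z) = z := by
  have h0 := P_vz h
  unfold TDEC.Q vz
  simp only
  split_ifs with h1
  · exact h0
  · have h2 : decide ((vx M z).2 < (vx M z).1) = z.2 := by
      obtain ⟨⟨j, t⟩, β⟩ := z
      obtain ⟨a1, a2⟩ := h
      simp only at a1 a2
      unfold vx pv at h1 ⊢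
      cases β
      · simp only [Bool.false_eq_true, if_false] at h1 ⊢
        simp only [decide_eq_false_iff_not]
        omega
      · simp only [if_true] at h1 ⊢
        simp only [decide_eq_true_eq]
        omega
    rw [h2]
    exact h0

theorem shQ {n M : ℕ} (x : Vtx × Bool) : shP n (TDEC.Q M (dn' n x)) = TDEC.Q M x := by
  obtain ⟨⟨a, b⟩, β⟩ := x
  have key : ∀ γ : Bool, shP n (TDEC.P M (a - n, b - n) γ) = TDEC.P M (a, b) γ := by
    intro γ
    unfold shP TDEC.P
    cases γ
    · simp only [Bool.false_eq_true, if_false, Prod.mk.injEq, and_true]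
      push_cast
      refine ⟨by ring, ?_⟩
      rw [show a - (n : ℤ) - (b - n) = a - b by ring]
    · simp only [if_true, Prod.mk.injEq, and_true]
      push_cast
      refine ⟨by ring, ?_⟩
      rw [show a - (n : ℤ) - (b - n) = a - b by ring]
  have h1 : (a - (n : ℤ) = b - n) ↔ a = b := by constructor <;> intro h <;> linarith
  have h2 : (b - (n : ℤ) < a - n) ↔ b < a := by constructor <;> intro h <;> linarith
  unfold TDEC.Q dn'
  simp only
  rw [key]
  congr 1
  by_cases h : a = b
  · rw [if_pos (h1.2 h), if_pos h]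
  · rw [if_neg (fun h' => h (h1.1 h')), if_neg h]
    simp only [h2]

/-- the neighbourhoods of the slits `0` and `1` -/
def Dn (n : ℕ) (m : ℤ) (v : Vtx) : Prop := nm v ≤ m ∨ nm (v.1 - n, v.2 - n) ≤ m

theorem glC_box {n k m : ℕ} (hk : 1 ≤ k) (hkm : k ≤ m) (h4 : 4 * m ≤ n) :
    ∀ a : ℤ, |a| ≤ (m : ℤ) → glC n k a → ¬ (0 < 2 * a ∧ 2 * a < k) ∧ (sg0 n k a ↔ (k : ℤ) ≤ 2 * a) := by
  rintro a ha ⟨q, i, hi, h⟩
  rw [abs_le] at ha
  unfold sg0
  refine ⟨?_, by constructor <;> intro h' <;> omega⟩
  rcases lt_trichotomy q 0 with h1 | h1 | h1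
  · have : q * ((2 * n : ℕ) : ℤ) ≤ -1 * ((2 * n : ℕ) : ℤ) :=
      mul_le_mul_of_nonneg_right (by omega) (by positivity)
    push_cast at this h
    omega
  · rw [h1, zero_mul] at h
    omega
  · have : 1 * ((2 * n : ℕ) : ℤ) ≤ q * ((2 * n : ℕ) : ℤ) :=
      mul_le_mul_of_nonneg_right (by omega) (by positivity)
    push_cast at this h
    omega

/-- **the winding of the words and the level of an arm** -/
theorem B2 {n M k m1 m0 m ρ : ℕ} (hk : 2 ≤ k) (hM : M = 4 * n) (hρ : 1 ≤ ρ) (hm : m + ρ < m0)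
    (hkm : k ≤ m) (hm1 : m0 + ρ < m1) (h4 : 4 * m1 ≤ n) {F : Finset Edg} (hF : F ⊆ CE n M)
    {τ σ : Wd (2 * n - 1 + 1)} {y : ℤ} (hW : HasW k (wup n M F τ) (wdn n M F σ) y)
    (hPG : PG 0 n M k (↑F) τ.1 σ.1) (hSE : SE k m1 (per n F)) {i : ℕ} (hi : i < 2 * k)
    (hi2 : i % 2 = 0) {q : Vtx × Bool} {l : ℤ} (hq : nm q.1 = m1)
    (h : Cv k m1 (per n F) (sv k i, 0) (q, l)) :
    ∃ Ws : List (Finset Edg), |y + 4 * k * l| ≤ 49 * k * (Ws.length + 1) ∧ Ws.Pairwise Disjoint ∧
      ∀ S ∈ Ws, Mac (sg0 n k) (per n F) (Dn n m0) ρ S := by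
  have hn : 1 ≤ n := by omega
  have hτ : τ.1.length = 2 * n := by have := τ.2.1; omega
  have hσ : σ.1.length = 2 * n := by have := σ.2.1; omega
  obtain ⟨c0, d0, t, P, ⟨hc0, hc0e⟩, ⟨hd0, hd0e⟩, P0, Pt', hcls, hstep, hinj, hy⟩ :=
    cyl_walk hk (by omega) hn (by omega) hF hW
  set p : ℕ → Vtx × Bool := fun j => vz M (P j) with hp
  have W : Wk (glC n k) (per n F) (farC M) p t := by
    refine ⟨fun i hi => ?_, fun i j hi hj hij => ?_, fun x y h => h.1, fun x y h => ⟨?_, ?_⟩⟩
    · rcases hstep i hi with h | h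
      · exact Sp_of_RS (by omega) hF (hcls i (by omega)) (hcls (i + 1) (by omega)) h
      · exact (Sp_of_RS (by omega) hF (hcls (i + 1) (by omega)) (hcls i (by omega)) h).symm
    · exact hinj i j hi hj (vz_inj (hcls i hi) (hcls j hj) hij)
    · intro h'
      have := h.2.1
      rw [h', sub_self, abs_zero] at this
      omega
    · intro h'
      have := h.2.2
      rw [h', sub_self, abs_zero] at this
      omega
  have hp0 : p 0 = sv k c0 := by
    show vz M (P 0) = _
    rw [P0]
    exact (TDEC.sv_eq hc0 hc0e).symm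
  have hpt : dn' n (p t) = sv k d0 := by
    show dn' n (vz M (P t)) = _
    rw [Pt', ← shP_sec, TDEC.sv_eq (n := n) (M := M) hd0 hd0e]
    unfold dn' vz
    rw [vx_shP]
    simp only [add_sub_cancel_right]
    rfl
  have hRB : ∀ j, j ≤ t → RB 0 n M k (↑F) τ.1 σ.1 (P 0) (P j) := by
    intro j
    induction j with
    | zero => intro _; exact Relation.EqvGen.refl _
    | succ j ih =>
      intro hj
      refine Relation.EqvGen.trans _ _ _ (ih (by omega)) ?_
      rcases hstep j (by omega) with h | h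
      · exact Relation.EqvGen.rel _ _ h
      · exact Relation.EqvGen.symm _ _ (Relation.EqvGen.rel _ _ h)
  have avoid0 : ∀ i' s, i' < 2 * k → i' % 2 = 0 → i' ≠ c0 → s ≤ t →
      ¬ Cb k m1 (per n F) (sv k i') (p s) := by
    intro i' s hi' hi2' hne hs hc
    have h1 := TDEC.map_Cb (n := n) (M := M) hk (by omega) h4 (by omega) (B := F) (F := F)
      (fun _ _ => Iff.rfl) τ.1 σ.1 hc
    rw [TDEC.Q_sv (n := n) hi' hi2', Q_vz (hcls s hs)] at h1
    refine hPG.1 i' c0 hi' hc0 hi2' hc0e hne ?_
    have h2 := hRB s hs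
    rw [P0] at h2
    exact Relation.EqvGen.trans _ _ _ h1 (Relation.EqvGen.symm _ _ h2)
  have avoid1 : ∀ i' s, i' < 2 * k → i' % 2 = 0 → i' ≠ d0 → s ≤ t →
      ¬ Cb k m1 (per n F) (sv k i') (dn' n (p s)) := by
    intro i' s hi' hi2' hne hs hc
    have h1 := TDEC.map_Cb (n := n) (M := M) hk (by omega) h4 (by omega) (B := F) (F := F)
      (fun _ _ => Iff.rfl) τ.1 σ.1 hc
    rw [TDEC.Q_sv (n := n) hi' hi2'] at h1
    have h2 := RB_sh hτ hσ h1
    rw [shP_sec, shQ, Q_vz (hcls s hs)] at h2
    refine hPG.1 i' d0 hi' hd0 hi2' hd0e hne (unshift hτ hσ ?_)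
    have h3 := hRB s hs
    have h4 := hRB t le_rfl
    rw [Pt'] at h4
    exact Relation.EqvGen.trans _ _ _ h2 (Relation.EqvGen.trans _ _ _
      (Relation.EqvGen.symm _ _ h3) h4)
  have hgl := glC_box (n := n) (k := k) (m := m1) (by omega) (by omega) h4
  -- far points are far
  have hfar1 : ∀ x y, farC M x y → (m1 : ℤ) < nm x.1 ∧ (m1 : ℤ) < nm y.1 := by
    intro x y h
    have key : ∀ v : Vtx, |v.1 - v.2| = M → (m1 : ℤ) < nm v := by
      intro v hv
      by_contra h'
      rw [not_lt, nm_le] at h'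
      rcases abs_choice (v.1 - v.2) with h1 | h1 <;> rw [h1] at hv <;> omega
    exact ⟨key _ h.2.1, key _ h.2.2⟩
  have hfar2 : ∀ x y, farC M x y → (m1 : ℤ) < nm (dn' n x).1 ∧ (m1 : ℤ) < nm (dn' n y).1 := by
    intro x y h
    have key : ∀ v : Vtx, |v.1 - v.2| = M → (m1 : ℤ) < nm (v.1 - n, v.2 - n) := by
      intro v hv
      by_contra h'
      rw [not_lt, nm_le] at h'
      simp only at h'
      rcases abs_choice (v.1 - v.2) with h1 | h1 <;> rw [h1] at hv <;> omega
    exact ⟨key _ h.2.1, key _ h.2.2⟩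
  have nf0 : ∀ j, nm (p j).1 ≤ m1 → ∀ y, ¬ farC M (p j) y ∧ ¬ farC M y (p j) := fun j hj y =>
    ⟨fun h => by have := (hfar1 _ _ h).1; omega, fun h => by have := (hfar1 _ _ h).2; omega⟩
  have nf1 : ∀ j, nm (dn' n (p j)).1 ≤ m1 → ∀ y, ¬ farC M (p j) y ∧ ¬ farC M y (p j) := fun j hj y =>
    ⟨fun h => by have := (hfar2 _ _ h).1; omega, fun h => by have := (hfar2 _ _ h).2; omega⟩
  have hdsn : ∀ u v : Vtx × Bool, ds (dn' n u).1 (dn' n v).1 = ds u.1 v.1 := by
    intro u v
    unfold ds dn'
    simp only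
    rw [show u.1.1 - (n : ℤ) - (v.1.1 - n) = u.1.1 - v.1.1 by ring,
      show u.1.2 - (n : ℤ) - (v.1.2 - n) = u.1.2 - v.1.2 by ring]
  have W1 := Wk_dn (by omega : 0 < n) W
  -- first exit
  obtain ⟨ad, βd, ed1, ed2, ed3⟩ := sv_form hd0
  have hptn : (m1 : ℤ) ≤ nm (p t).1 := by
    by_contra h'
    rw [not_le, nm_lt] at h'
    have h1 : (dn' n (p t)).1.1 = ad := by rw [hpt, ed1]
    unfold dn' at h1
    simp only at h1
    omega
  obtain ⟨c, -, c2, c3, c4⟩ := first_time (fun j => (m1 : ℤ) ≤ nm (p j).1) (i := 0) (t := t)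
    ⟨t, Nat.zero_le _, le_rfl, hptn⟩
  have hc0' : 0 < c := by
    rcases Nat.eq_zero_or_pos c with h0 | h0
    · subst h0
      rw [hp0] at c3
      have := TMON.sv_nm hk hc0
      omega
    · exact h0
  have hc5 : nm (p c).1 ≤ m1 := by
    have h1 := c4 (c - 1) (by omega) (by omega)
    have h3 := W.near (i := c - 1) (by omega) (nf0 _ (by omega))
    rw [show c - 1 + 1 = c by omega] at h3
    have := nm_ds 1 h3
    omega
  have hcn : (m1 : ℤ) ≤ nm (dn' n (p c)).1 := by
    by_contra h'
    rw [not_le, nm_lt] at h'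
    rw [nm_le] at hc5
    unfold dn' at h'
    simp only at h'
    omega
  -- last entry
  obtain ⟨t', t1, t2, t3, t4⟩ := last_time (fun j => (m1 : ℤ) ≤ nm (dn' n (p j)).1) c2 hcn
  have htt : t' < t := by
    rcases Nat.eq_or_lt_of_le t2 with h0 | h0
    · subst h0
      rw [hpt] at t3
      have := TMON.sv_nm hk hd0
      omega
    · exact h0
  have ht5 : nm (dn' n (p t')).1 ≤ m1 := by
    have h1 := t4 (t' + 1) (by omega) (by omega)
    have h2 := nf1 (t' + 1) (by omega) (p t')
    have h3 := W.near2 htt ⟨h2.2, h2.1⟩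
    rw [ds_comm, ← hdsn] at h3
    have := nm_ds 1 h3
    omega
  have htn : (m1 : ℤ) ≤ nm (p t').1 := by
    by_contra h'
    rw [not_le, nm_lt] at h'
    rw [nm_le] at ht5
    unfold dn' at ht5
    simp only at ht5
    omega
  -- excursions
  have hexc : ∀ s e, s < e → e ≤ t' → ¬ (nm (p s).1 < m1 ∨ nm ((p s).1.1 - n, (p s).1.2 - n) < m1) →
      ¬ (nm (p e).1 < m1 ∨ nm ((p e).1.1 - n, (p e).1.2 - n) < m1) →
      (∀ j, s < j → j < e → (nm (p j).1 < m1 ∨ nm ((p j).1.1 - n, (p j).1.2 - n) < m1)) →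
      (∃ j, s < j ∧ j < e ∧ Dn n m0 (p j).1) → |lv (sg0 n k) p e - lv (sg0 n k) p s| ≤ 5 := by
    intro s e hse he hs0 he0 hin ⟨j0, j1, j2, j3⟩
    rw [not_or, not_lt, not_lt] at hs0 he0
    have hstep1 : ∀ j, s < j → j + 1 < e → (nm (p j).1 < m1 ↔ nm (p (j + 1)).1 < m1) := by
      intro j h1 h2
      have hd : ds (p j).1 (p (j + 1)).1 ≤ 1 := by
        rcases hin j h1 (by omega) with h3 | h3
        · exact W.near (by omega) (nf0 j h3.le)
        · exact W.near (by omega) (nf1 j (show nm ((p j).1.1 - n, (p j).1.2 - n) ≤ m1 from h3.le))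
      have h5 := hin j h1 (by omega)
      have h6 := hin (j + 1) (by omega) h2
      rw [ds_le_iff] at hd
      rw [nm_lt, nm_lt] at h5 h6
      rw [nm_lt, nm_lt]
      simp only at h5 h6
      omega
    have hall : ∀ j, s < j → j < e → (nm (p j).1 < m1 ↔ nm (p (s + 1)).1 < m1) := by
      intro j h1
      have h1' : s + 1 ≤ j := h1
      clear h1
      induction j, h1' using Nat.le_induction with
      | base => intro _; exact Iff.rfl
      | succ j hj ih =>
        intro h2
        rw [← hstep1 j (by omega) h2]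
        exact ih (by omega)
    rcases hin (s + 1) (by omega) (by omega) with hA | hA
    · -- next to the slit 0
      obtain ⟨i', a1, a2, a3⟩ := other (i := c0) hk
      have := exc_bd (G := per n F) W (fun _ h => h) hk (by omega) hSE hgl a1 a2 (by omega)
        (by omega : e ≤ t) hs0.1 he0.1 (fun j h1 h2 => (hall j h1 h2).2 hA) hfar1
        (avoid0 i' s a1 a2 a3 (by omega))
      linarith
    · -- next to the slit 1
      have hnot : ¬ nm (p (s + 1)).1 < m1 := by
        intro h'
        rw [nm_lt] at h' hA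
        simp only at hA
        omega
      have hin1 : ∀ j, s < j → j < e → nm (dn' n (p j)).1 < m1 := by
        intro j h1 h2
        rcases hin j h1 h2 with h3 | h3
        · exact absurd ((hall j h1 h2).1 h3) hnot
        · exact h3
      obtain ⟨i', a1, a2, a3⟩ := other (i := d0) hk
      have hfar3 : ∀ x y, farC M x y → (m1 : ℤ) < nm x.1 ∧ (m1 : ℤ) < nm y.1 := hfar1
      have h5 := exc_bd (G := per n F) W1 (fun _ h => h) hk (by omega) hSE hgl a1 a2 (by omega)
        (by omega : e ≤ t) hs0.2 he0.2 hin1 hfar3 (avoid1 i' s a1 a2 a3 (by omega))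
      have hb1 : nm (dn' n (p s)).1 ≤ m1 := by
        have h1 := hin1 (s + 1) (by omega) (by omega)
        have h2 := nf1 (s + 1) (by omega) (p s)
        have h3 := W.near2 (i := s) (by omega) ⟨h2.2, h2.1⟩
        rw [ds_comm, ← hdsn] at h3
        have := nm_ds 1 h3
        omega
      have hb2 : nm (dn' n (p e)).1 ≤ m1 := by
        have h1 := hin1 (e - 1) (by omega) (by omega)
        have h3 := W.near (i := e - 1) (by omega) (nf1 _ (by omega))
        rw [show e - 1 + 1 = e by omega, ← hdsn] at h3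
        have := nm_ds 1 h3
        omega
      have h6 := lv_dn (by omega) h4 (by omega) W hse.le (by omega : e ≤ t) (fun j h1 h2 => by
        rcases Nat.eq_or_lt_of_le h1 with h | h
        · subst h; exact hb1
        · rcases Nat.eq_or_lt_of_le h2 with h' | h'
          · subst h'; exact hb2
          · exact (hin1 j h h').le)
      have h7 := bz_bd (p e).2 (p s).2
      rw [abs_le] at h5 h7 ⊢
      constructor <;> linarith [h5.1, h5.2, h7.1, h7.2]
  -- the middle part
  obtain ⟨Ws, w1, w2, w3⟩ := gt (sg := sg0 n k) (W.restrict htt.le)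
    (I := fun v => nm v < m1 ∨ nm (v.1 - n, v.2 - n) < m1) (D := Dn n m0) (ρ := ρ) (K := 5)
    (by omega) (by norm_num)
    (fun v hv => by
      rcases hv with h | h
      · left; omega
      · right; omega)
    (fun v w hv hw => by
      by_contra h'
      rw [not_lt] at h'
      rw [not_or, not_lt, not_lt] at hw
      rcases hv with h | h
      · have := nm_ds ρ h'
        omega
      · have h2 : ds (v.1 - n, v.2 - n) (w.1 - n, w.2 - n) ≤ ρ := by
          have := hdsn (v, true) (w, true)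
          unfold dn' at this
          rw [this]
          exact h'
        have := nm_ds ρ h2
        omega)
    (fun x y u h hu => by
      have hu' : |u.1 - u.2| ≤ 2 * m0 := by
        rcases hu with (h1 | h1) | h1
        · rw [nm_le] at h1
          rw [abs_le]
          omega
        · rw [nm_le] at h1
          simp only at h1
          rw [abs_le]
          omega
        · rw [h1, sub_self, abs_zero]
          omega
      have key : ∀ v : Vtx, |v.1 - v.2| = M → (ρ : ℤ) < ds u v := by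
        intro v hv
        by_contra h'
        rw [not_lt, ds_le_iff] at h'
        rw [abs_le] at hu'
        rcases abs_choice (v.1 - v.2) with h1 | h1 <;> rw [h1] at hv <;> omega
      exact ⟨key _ h.2.1, key _ h.2.2⟩)
    (fun x y h => by
      have h1 := hfar1 x y h
      have h2 := hfar2 x y h
      unfold dn' at h2
      simp only at h2
      constructor <;> rintro (h3 | h3) <;> omega)
    (fun a a' g1 g2 g3 g4 g5 => by
      unfold sg0 at g2 ⊢
      unfold Dn at g3
      rw [not_or, not_le, not_le] at g3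
      have e1 : nm ((a, a) : Vtx) = |a| := by unfold nm; rw [max_self]
      have e2 : nm (a - (n : ℤ), a - (n : ℤ)) = |a - n| := by unfold nm; rw [max_self]
      rw [e1] at g3
      have h3 := g3.2
      simp only at h3
      rw [e2] at h3
      rw [abs_lt] at g4
      have h6 : 0 ≤ a := by omega
      have h7 : a - n ≤ 0 := by omega
      rw [abs_of_nonneg h6] at g3
      rw [abs_of_nonpos h7] at h3
      omega)
    hexc t1 (by
      rw [not_or, not_lt, not_lt]
      exact ⟨c3, hcn⟩) (by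
      rw [not_or, not_lt, not_lt]
      exact ⟨htn, t3⟩)
  refine ⟨Ws, ?_, w2, w3⟩
  -- the ends
  have hl0 : lv (sg0 n k) p 0 = 0 := by unfold lv; simp
  have hfirst := Cv_walk (sg := sg0 n k) W (m := m1) hgl (Nat.zero_le c) c2
    (fun j _ h2 => by
      rcases Nat.eq_or_lt_of_le h2 with h | h
      · subst h; exact hc5
      · have := c4 j (Nat.zero_le _) h
        omega) (fun j _ h2 => nf0 j (by
      have := c4 j (Nat.zero_le _) h2
      omega)) 0
  rw [hp0, hl0, sub_zero, zero_add] at hfirst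
  have hlast := Cv_walk (sg := sg0 n k) W1 (m := m1) hgl htt.le le_rfl
    (fun j h1 h2 => by
      rcases Nat.eq_or_lt_of_le h1 with h | h
      · subst h; exact ht5
      · have := t4 j h h2
        omega) (fun j h1 h2 y => by
      have hj : nm (dn' n (p j)).1 ≤ m1 := by
        rcases Nat.eq_or_lt_of_le h1 with h | h
        · subst h; exact ht5
        · have := t4 j h h2.le
          omega
      exact ⟨fun h => by have := (hfar1 _ _ h).1; omega, fun h => by have := (hfar1 _ _ h).2; omega⟩) 0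
  rw [hpt, zero_add] at hlast
  set L1 := lv (sg0 n k) (fun j => dn' n (p j)) t - lv (sg0 n k) (fun j => dn' n (p j)) t' with hL1
  have hlast2 := Cv_shift (Relation.EqvGen.symm _ _ hlast) (-L1)
  simp only [add_neg_cancel, zero_add] at hlast2
  have hd1 := arms_lv hk (by omega) hSE hi hi2 hc0 hc0e hq (le_antisymm hc5 c3) h hfirst
  have hd2 := arms_lv hk (by omega) hSE hi hi2 hd0 hd0e hq (le_antisymm ht5 t3) h hlast2
  have h6 := lv_dn (by omega) h4 (by omega) W htt.le le_rfl (fun j h1 h2 => by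
    rcases Nat.eq_or_lt_of_le h1 with h | h
    · subst h; exact ht5
    · have := t4 j h h2
      omega)
  have h7 := bz_bd (p t).2 (p t').2
  have e1 : lv (sg0 n k) p t - 2 * l = (lv (sg0 n k) p t' - lv (sg0 n k) p c) +
      (bz (p t).2 - bz (p t').2) - (l - lv (sg0 n k) p c) - (l - -L1) := by
    linear_combination h6
  have e2 : |lv (sg0 n k) p t - 2 * l| ≤ 6 * (Ws.length + 1) + 17 := by
    rw [e1]
    have e5 : ((5 : ℤ) + 1) = 6 := by norm_num
    rw [e5] at w1
    rw [abs_le] at w1 h7 hd1 hd2 ⊢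
    constructor <;> linarith [w1.1, w1.2, h7.1, h7.2, hd1.1, hd1.2, hd2.1, hd2.2]
  have e3 : y + 4 * k * l = (y + 2 * k * lv (sg0 n k) p t) - 2 * k * (lv (sg0 n k) p t - 2 * l) := by
    ring
  rw [e3]
  have hk0 : (0 : ℤ) ≤ k := by positivity
  have hy' : |y + 2 * k * lv (sg0 n k) p t| ≤ 3 * k := hy
  have e4 : |2 * k * (lv (sg0 n k) p t - 2 * l)| ≤ 2 * k * (6 * (Ws.length + 1) + 17) := by
    rw [abs_mul, abs_of_nonneg (by positivity : (0 : ℤ) ≤ 2 * k)]
    exact mul_le_mul_of_nonneg_left e2 (by positivity)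
  have e6 := abs_sub (y + 2 * k * lv (sg0 n k) p t) (2 * k * (lv (sg0 n k) p t - 2 * l))
  have e7 : (0 : ℤ) ≤ k * Ws.length := by positivity
  nlinarith

end Pool.Agent.S77.WP
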