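import Pool.Agent.S77.WP.Lev

/-!
# Two disjoint arms have the same winding
-/

set_option autoImplicit false

namespace Pool.Agent.S77.WP
open Pool.Agent.H160R2.ML
open Pool.Agent.H160R2.MU
open H974 H906.Cyl

/-- a potential for the crossings of the ray to the left of `a` -/
structure Pot (k : ℕ) (R : ℤ) (K : Vtx × Bool → Prop) (a : Vtx) (Q : (Vtx × Bool) × ℤ → ℤ) : Prop where
  et : ∀ x y l : ℤ, nm (x, y) ≤ R → nm (x + 1, y) ≤ R → K ((x, y), decide (0 ≤ x - y)) →
    K ((x + 1, y), decide (0 ≤ x - y)) →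
    Q (((x + 1, y), decide (0 ≤ x - y)), l) - Q (((x, y), decide (0 ≤ x - y)), l) =
      if yy (x + 1, y) = 0 then 0 else rho a (x + 1, y)
  ef : ∀ x y l : ℤ, nm (x, y) ≤ R → nm (x, y + 1) ≤ R → K ((x, y), decide (0 ≤ x - y - 1)) →
    K ((x, y + 1), decide (0 ≤ x - y - 1)) →
    Q (((x, y), decide (0 ≤ x - y - 1)), l) - Q (((x, y + 1), decide (0 ≤ x - y - 1)), l) =
      if yy (x, y) = 0 then 0 else rho a (x, y)
  idn : ∀ (v : Vtx) (l : ℤ), nm v ≤ R → ¬ (v.1 = v.2 ∧ 0 < 2 * v.1 ∧ 2 * v.1 < k) →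
    K (v, false) → K (v, true) →
    Q ((v, true), l + if v.1 = v.2 ∧ (k : ℤ) ≤ 2 * v.1 then 1 else 0) - Q ((v, false), l) =
      if yy v = 0 then rho a v else 0

theorem pot_right {k : ℕ} {R : ℤ} {K : Vtx × Bool → Prop} {a : Vtx}
    (h1 : a.1 = R ∨ a.2 = R) (hK : ∀ β, ¬ K (a, β)) :
    Pot k R K a (fun x => if yy a < yy x.1.1 ∨ (yy a = yy x.1.1 ∧ ¬ (yy x.1.1 = 0 ∧ x.1.2 = false))
      then 1 else 0) where
  et := by
    obtain ⟨p, q⟩ := a
    intro x y l h2 h3 h4 h5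
    have e1 : ¬ (p = x ∧ q = y) := by rintro ⟨rfl, rfl⟩; exact hK _ h4
    have e2 : ¬ (p = x + 1 ∧ q = y) := by rintro ⟨rfl, rfl⟩; exact hK _ h5
    simp only [nm, max_le_iff, abs_le] at h2 h3
    simp only [yy, xx, rho, decide_eq_false_iff_not] at *
    split_ifs <;> omega
  ef := by
    obtain ⟨p, q⟩ := a
    intro x y l h2 h3 h4 h5
    have e1 : ¬ (p = x ∧ q = y) := by rintro ⟨rfl, rfl⟩; exact hK _ h4
    have e2 : ¬ (p = x ∧ q = y + 1) := by rintro ⟨rfl, rfl⟩; exact hK _ h5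
    simp only [nm, max_le_iff, abs_le] at h2 h3
    simp only [yy, xx, rho, decide_eq_false_iff_not] at *
    split_ifs <;> omega
  idn := by
    obtain ⟨p, q⟩ := a
    rintro ⟨x, y⟩ l h2 h3 h4 h5
    have e1 : ¬ (p = x ∧ q = y) := by rintro ⟨rfl, rfl⟩; exact hK _ h4
    simp only [nm, max_le_iff, abs_le] at h2
    simp only [yy, xx, rho, Bool.true_eq_false, and_false, not_false_eq_true, and_true] at *
    split_ifs <;> omega

theorem pot_left {k : ℕ} {R : ℤ} {K : Vtx × Bool → Prop} {a : Vtx}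
    (h1 : a.1 = -R ∨ a.2 = -R) (hK : ∀ β, ¬ K (a, β)) :
    Pot k R K a (fun _ => 0) where
  et := by
    obtain ⟨p, q⟩ := a
    intro x y l h2 h3 h4 h5
    have e1 : ¬ (p = x ∧ q = y) := by rintro ⟨rfl, rfl⟩; exact hK _ h4
    have e2 : ¬ (p = x + 1 ∧ q = y) := by rintro ⟨rfl, rfl⟩; exact hK _ h5
    simp only [nm, max_le_iff, abs_le] at h2 h3
    simp only [yy, xx, rho] at *
    split_ifs <;> omega
  ef := by
    obtain ⟨p, q⟩ := a
    intro x y l h2 h3 h4 h5
    have e1 : ¬ (p = x ∧ q = y) := by rintro ⟨rfl, rfl⟩; exact hK _ h4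
    have e2 : ¬ (p = x ∧ q = y + 1) := by rintro ⟨rfl, rfl⟩; exact hK _ h5
    simp only [nm, max_le_iff, abs_le] at h2 h3
    simp only [yy, xx, rho] at *
    split_ifs <;> omega
  idn := by
    obtain ⟨p, q⟩ := a
    rintro ⟨x, y⟩ l h2 h3 h4 h5
    have e1 : ¬ (p = x ∧ q = y) := by rintro ⟨rfl, rfl⟩; exact hK _ h4
    simp only [nm, max_le_iff, abs_le] at h2
    simp only [yy, xx, rho] at *
    split_ifs <;> omega

theorem pot_slit {k : ℕ} {R : ℤ} {K : Vtx × Bool → Prop} (hk : 1 ≤ k) {b : ℤ} (hb0 : 0 ≤ b)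
    (hb1 : 2 * b ≤ k) (hK : ∀ v : Vtx, ¬ (v.1 = v.2 ∧ 0 < 2 * v.1 ∧ 2 * v.1 < k) → v = (b, b) →
      ¬ K (v, false)) :
    Pot k R K (b, b) (fun x => (if 0 < yy x.1.1 ∨ (yy x.1.1 = 0 ∧ x.1.2 = true) then 1 else 0) - x.2) where
  et := by
    intro x y l h2 h3 h4 h5
    simp only [yy, xx, rho, decide_eq_true_eq] at *
    split_ifs <;> omega
  ef := by
    intro x y l h2 h3 h4 h5
    simp only [yy, xx, rho, decide_eq_true_eq] at *
    split_ifs <;> omega
  idn := by
    rintro ⟨x, y⟩ l h2 h3 h4 h5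
    have e1 : ¬ (x = b ∧ y = b) := by
      rintro ⟨rfl, rfl⟩
      exact hK _ h3 rfl h4
    simp only [yy, xx, rho, Bool.false_eq_true, and_false, or_false, and_true] at *
    split_ifs <;> omega

/-- the value at a point -/
def VV (u w : Vtx → ℤ) (x : Vtx × Bool) : ℤ := if yy x.1 = 0 ∧ x.2 = false then w x.1 else u x.1

theorem VV_step {k : ℕ} {R : ℤ} {G : Set Edg} {K : Vtx × Bool → Prop} (hk : 1 ≤ k)
    (hK : ∀ x y, CL k R G x y → (K x ↔ K y))
    {p q : Vtx × Bool} {l : ℤ} {u w : Vtx → ℤ} (h : IN k R G K p q l u w)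
    {P Q : (Vtx × Bool) × ℤ → ℤ} (hP : Pot k R K p.1 P) (hQ : Pot k R K q.1 Q)
    {x y : (Vtx × Bool) × ℤ} (hxy : CLv k R G x y) (hx : K x.1) :
    VV u w x.1 - P x + Q x = VV u w y.1 - P y + Q y := by
  have both : ∀ v : Vtx, nm v ≤ R → yy v ≠ 0 → ∀ β, K (v, β) → K (v, false) ∧ K (v, true) := by
    intro v h1 h2 β h3
    have h4 := hK _ _ (CL.idn (k := k) (G := G) v h1 (fun h => h2 (by unfold yy; omega)))
    cases β
    · exact ⟨h3, h4.1 h3⟩
    · exact ⟨h4.2 h3, h3⟩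
  have hy := (hK _ _ (CL_of_CLv hxy)).1 hx
  cases hxy with
  | edge e l' h1 h2 h3 =>
    obtain ⟨a, b, _ | _⟩ := e
    · have h2' : nm (a, b) ≤ R := h2
      have h3' : nm (a, b + 1) ≤ R := h3
      have hx' : K ((a, b), decide (0 ≤ a - b - 1)) := hx
      have hy' : K ((a, b + 1), decide (0 ≤ a - b - 1)) := hy
      have e1 := hP.ef a b l' h2' h3' hx' hy'
      have e2 := hQ.ef a b l' h2' h3' hx' hy'
      have e3 := h.bf a b h1 h2' h3' hx'
      show VV u w ((a, b), decide (0 ≤ a - b - 1)) - P (((a, b), decide (0 ≤ a - b - 1)), l') +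
        Q (((a, b), decide (0 ≤ a - b - 1)), l') =
        VV u w ((a, b + 1), decide (0 ≤ a - b - 1)) - P (((a, b + 1), decide (0 ≤ a - b - 1)), l') +
        Q (((a, b + 1), decide (0 ≤ a - b - 1)), l')
      have v1 : VV u w ((a, b + 1), decide (0 ≤ a - b - 1)) = u (a, b + 1) := by
        unfold VV
        rw [if_neg]
        simp only [yy, decide_eq_false_iff_not]
        omega
      by_cases h0 : yy (a, b) = 0
      · rw [if_pos h0] at e1 e2
        have v2 : VV u w ((a, b), decide (0 ≤ a - b - 1)) = w (a, b) := by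
          unfold VV
          rw [if_pos]
          refine ⟨h0, ?_⟩
          simp only [yy] at h0
          simp only [decide_eq_false_iff_not]
          omega
        rw [v1, v2]
        linarith
      · rw [if_neg h0] at e1 e2
        have v2 : VV u w ((a, b), decide (0 ≤ a - b - 1)) = u (a, b) := by
          unfold VV
          rw [if_neg]
          exact fun h' => h0 h'.1
        obtain ⟨h4, h5⟩ := both (a, b) h2' h0 _ hx'
        have e4 := h.a (a, b) h4 h5
        rw [v1, v2]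
        linarith
    · have h2' : nm (a, b) ≤ R := h2
      have h3' : nm (a + 1, b) ≤ R := h3
      have hx' : K ((a, b), decide (0 ≤ a - b)) := hx
      have hy' : K ((a + 1, b), decide (0 ≤ a - b)) := hy
      have e1 := hP.et a b l' h2' h3' hx' hy'
      have e2 := hQ.et a b l' h2' h3' hx' hy'
      have e3 := h.bt a b h1 h2' h3' hx'
      show VV u w ((a, b), decide (0 ≤ a - b)) - P (((a, b), decide (0 ≤ a - b)), l') +
        Q (((a, b), decide (0 ≤ a - b)), l') =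
        VV u w ((a + 1, b), decide (0 ≤ a - b)) - P (((a + 1, b), decide (0 ≤ a - b)), l') +
        Q (((a + 1, b), decide (0 ≤ a - b)), l')
      have v1 : VV u w ((a, b), decide (0 ≤ a - b)) = u (a, b) := by
        unfold VV
        rw [if_neg]
        simp only [yy, decide_eq_false_iff_not]
        omega
      by_cases h0 : yy (a + 1, b) = 0
      · rw [if_pos h0] at e1 e2
        have v2 : VV u w ((a + 1, b), decide (0 ≤ a - b)) = w (a + 1, b) := by
          unfold VV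
          rw [if_pos]
          refine ⟨h0, ?_⟩
          simp only [yy] at h0
          simp only [decide_eq_false_iff_not]
          omega
        rw [v1, v2]
        linarith
      · rw [if_neg h0] at e1 e2
        have v2 : VV u w ((a + 1, b), decide (0 ≤ a - b)) = u (a + 1, b) := by
          unfold VV
          rw [if_neg]
          exact fun h' => h0 h'.1
        obtain ⟨h4, h5⟩ := both (a + 1, b) h3' h0 _ hy'
        have e4 := h.a (a + 1, b) h4 h5
        rw [v1, v2]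
        linarith
  | idn v l' h1 h2 =>
    have e1 := hP.idn v l' h1 h2 hx hy
    have e2 := hQ.idn v l' h1 h2 hx hy
    have e4 := h.a v hx hy
    simp only at hx hy ⊢
    by_cases h0 : yy v = 0
    · rw [if_pos h0] at e1 e2
      have v1 : VV u w (v, false) = w v := by unfold VV; rw [if_pos ⟨h0, rfl⟩]
      have v2 : VV u w (v, true) = u v := by unfold VV; rw [if_neg]; simp
      rw [v1, v2]
      linarith
    · rw [if_neg h0] at e1 e2
      have v1 : VV u w (v, false) = u v := by unfold VV; rw [if_neg]; exact fun h' => h0 h'.1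
      have v2 : VV u w (v, true) = u v := by unfold VV; rw [if_neg]; simp
      rw [v1, v2]
      linarith

theorem VV_inv {k : ℕ} {R : ℤ} {G : Set Edg} {K : Vtx × Bool → Prop} (hk : 1 ≤ k)
    (hK : ∀ x y, CL k R G x y → (K x ↔ K y))
    {p q : Vtx × Bool} {l : ℤ} {u w : Vtx → ℤ} (h : IN k R G K p q l u w)
    {P Q : (Vtx × Bool) × ℤ → ℤ} (hP : Pot k R K p.1 P) (hQ : Pot k R K q.1 Q)
    {x y : (Vtx × Bool) × ℤ} (hxy : Cv k R G x y) : (K x.1 ↔ K y.1) ∧ (K x.1 →
    VV u w x.1 - P x + Q x = VV u w y.1 - P y + Q y) := by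
  unfold Cv at hxy
  induction hxy with
  | rel x y h' => exact ⟨hK _ _ (CL_of_CLv h'), VV_step hk hK h hP hQ h'⟩
  | refl x => exact ⟨Iff.rfl, fun _ => rfl⟩
  | symm x y _ ih => exact ⟨ih.1.symm, fun hx => (ih.2 (ih.1.2 hx)).symm⟩
  | trans x y z _ _ h1 h2 =>
    exact ⟨h1.1.trans h2.1, fun hx => (h1.2 hx).trans (h2.2 (h1.1.1 hx))⟩

/-- a potential for a boundary point -/
theorem pot_bd {k : ℕ} {R : ℤ} {K : Vtx × Bool → Prop} {a : Vtx} (ha : nm a = R)
    (hK : ∀ β, ¬ K (a, β)) : ∃ Q, Pot k R K a Q ∧ ∀ x, 0 ≤ Q x ∧ Q x ≤ 1 := by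
  have h : (a.1 = R ∨ a.2 = R) ∨ (a.1 = -R ∨ a.2 = -R) := by
    unfold nm at ha
    rcases max_choice |a.1| |a.2| with h | h <;> rw [h] at ha <;>
      rcases abs_choice a.1 with h1 | h1 <;> rcases abs_choice a.2 with h2 | h2 <;>
      omega
  rcases h with h | h
  · refine ⟨_, pot_right h hK, fun x => ?_⟩
    split_ifs <;> omega
  · exact ⟨_, pot_left h hK, fun x => by simp⟩

section
variable {k : ℕ} {R : ℤ} {G : Set Edg} {K : Vtx × Bool → Prop}

theorem both_bd (hR : k < 2 * R) (hK : ∀ x y, CL k R G x y → (K x ↔ K y)) {v : Vtx}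
    (hv : nm v = R) (β γ : Bool) : K (v, β) → K (v, γ) := by
  intro h
  have h4 := hK _ _ (CL.idn (k := k) (G := G) v hv.le (fun h => by
    obtain ⟨h1, h2, h3⟩ := h
    unfold nm at hv
    rw [h1, max_self] at hv
    rw [h1] at h2 h3
    have : 0 ≤ v.2 := by omega
    rw [abs_of_nonneg this] at hv
    omega))
  cases β <;> cases γ
  · exact h
  · exact h4.1 h
  · exact h4.2 h
  · exact h

/-- the value at a boundary point of `K` -/
theorem VV_bd (hR : k < 2 * R) (hK : ∀ x y, CL k R G x y → (K x ↔ K y)) {p q : Vtx × Bool} {l : ℤ}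
    {u w : Vtx → ℤ} (h : IN k R G K p q l u w) {x : Vtx × Bool} (hx : nm x.1 = R) (hKx : K x) :
    |VV u w x| ≤ 1 ∧ (p.1 = q.1 → VV u w x = 0) := by
  have h1 := both_bd hR hK hx x.2 false hKx
  have h2 := both_bd hR hK hx x.2 true hKx
  have h0 : -R ≤ x.1.1 ∧ x.1.1 ≤ R ∧ -R ≤ x.1.2 ∧ x.1.2 ≤ R := by
    have : nm x.1 ≤ R := hx.le
    unfold nm at this
    rw [max_le_iff, abs_le, abs_le] at this
    tauto
  have hc : (x.1.1 = R ∨ x.1.2 = R) ∨ (x.1.1 = -R ∨ x.1.2 = -R) := by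
    unfold nm at hx
    rcases max_choice |x.1.1| |x.1.2| with h | h <;> rw [h] at hx <;>
      rcases abs_choice x.1.1 with h1 | h1 <;> rcases abs_choice x.1.2 with h2 | h2 <;>
      omega
  rcases hc with hc | hc
  · obtain ⟨e1, e2⟩ := h.c1 x.1 h1 h2 hc h0.2.1 h0.2.2.2
    have : VV u w x = 0 := by unfold VV; split_ifs <;> assumption
    rw [this]
    simp
  · obtain ⟨e1, e2⟩ := h.c2 x.1 h1 h2 hc h0.1 h0.2.2.1
    unfold VV
    refine ⟨?_, fun hpq => ?_⟩
    · rw [abs_le, e1, e2]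
      split_ifs <;> constructor <;> norm_num
    · rw [e1, e2, hpq]
      simp

/-- the value at the starting sector -/
theorem VV_sec {p q : Vtx × Bool} {l : ℤ} {u w : Vtx → ℤ} (h : IN k R G K p q l u w) {a : ℤ}
    {β : Bool} (ha0 : 0 ≤ a) (ha1 : 2 * a ≤ k) (hK : K ((a, a), β)) :
    |l - VV u w ((a, a), β)| ≤ 1 ∧ (p = q → l = VV u w ((a, a), β)) := by
  cases β with
  | false =>
    have h1 := h.d2 a ha0 ha1 hK
    have h2 : VV u w ((a, a), false) = w (a, a) := by unfold VV; rw [if_pos]; simp [yy]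
    rw [h2]
    refine ⟨?_, fun hpq => ?_⟩
    · rw [abs_le]
      split_ifs at h1 <;> constructor <;> linarith
    · rw [hpq] at h1
      linarith
  | true =>
    have h1 := h.d1 a ha0 ha1 hK
    have h2 : VV u w ((a, a), true) = u (a, a) := by unfold VV; rw [if_neg]; simp
    rw [h2]
    refine ⟨?_, fun hpq => ?_⟩
    · rw [abs_le]
      split_ifs at h1 <;> constructor <;> linarith
    · rw [hpq] at h1
      linarith

end

theorem K_closed {k : ℕ} {R : ℤ} {G : Set Edg} (p : Vtx × Bool) :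
    ∀ x y, CL k R G x y → (Cb k R G p x ↔ Cb k R G p y) := fun x y h =>
  ⟨fun h' => Relation.EqvGen.trans _ _ _ h' (Relation.EqvGen.rel _ _ h),
    fun h' => Relation.EqvGen.trans _ _ _ h' (Relation.EqvGen.symm _ _ (Relation.EqvGen.rel _ _ h))⟩

section
variable {k : ℕ} {R : ℤ} {G : Set Edg} {a' : ℤ} {β' : Bool} {q' : Vtx × Bool} {l0 l1 : ℤ}
  {p q : Vtx × Bool} {lp lq : ℤ}

/-- a path between boundary points which avoids an arm has a small winding -/
theorem sep_bd (hk : 1 ≤ k) (hR : k < 2 * R) (ha0 : 0 ≤ a') (ha1 : 2 * a' ≤ k) (hq' : nm q'.1 = R)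
    (hP' : Cv k R G (((a', a'), β'), l0) (q', l1)) (hP : Cv k R G (p, lp) (q, lq))
    (hne : ¬ Cb k R G ((a', a'), β') p) (hp : nm p.1 = R) (hq : nm q.1 = R) : |lq - lp| ≤ 4 := by
  set K : Vtx × Bool → Prop := fun x => Cb k R G ((a', a'), β') x with hKd
  have hK := K_closed (k := k) (R := R) (G := G) ((a', a'), β')
  obtain ⟨u, w, h⟩ := IN_exists (K := K) hk hK hP hne
  have hneq : ¬ K q := fun h' => hne (Relation.EqvGen.trans _ _ _ h'
    (Relation.EqvGen.symm _ _ (Cb_of_Cv hP)))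
  obtain ⟨P, hP1, hP2⟩ := pot_bd (k := k) (K := K) hp
    (fun β h' => hne (both_bd hR hK hp β p.2 h'))
  obtain ⟨Q, hQ1, hQ2⟩ := pot_bd (k := k) (K := K) hq
    (fun β h' => hneq (both_bd hR hK hq β q.2 h'))
  have h1 := (VV_inv hk hK h hP1 hQ1 hP').2 (Relation.EqvGen.refl _)
  have h2 : K q' := Cb_of_Cv hP'
  have h3 := (VV_bd hR hK h hq' h2).1
  have h4 := (VV_sec h ha0 ha1 (Relation.EqvGen.refl _)).1
  have h5 := hP2 (((a', a'), β'), l0)
  have h6 := hP2 (q', l1)
  have h7 := hQ2 (((a', a'), β'), l0)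
  have h8 := hQ2 (q', l1)
  simp only at h1
  rw [abs_le] at h3 h4 ⊢
  constructor <;> linarith [h3.1, h3.2, h4.1, h4.2, h5.1, h5.2, h6.1, h6.2, h7.1, h7.2, h8.1, h8.2]

/-- a path from the slit to the boundary which avoids an arm has about the same winding -/
theorem sep_arm (hk : 1 ≤ k) (hR : k < 2 * R) (ha0 : 0 ≤ a') (ha1 : 2 * a' ≤ k) (hq' : nm q'.1 = R)
    (hP' : Cv k R G (((a', a'), β'), l0) (q', l1)) {b : ℤ} {γ : Bool}
    (hP : Cv k R G (((b, b), γ), lp) (q, lq))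
    (hne : ¬ Cb k R G ((a', a'), β') ((b, b), γ)) (hb0 : 0 ≤ b) (hb1 : 2 * b ≤ k)
    (hq : nm q.1 = R) : |(lq - lp) - (l1 - l0)| ≤ 4 := by
  set K : Vtx × Bool → Prop := fun x => Cb k R G ((a', a'), β') x with hKd
  have hK := K_closed (k := k) (R := R) (G := G) ((a', a'), β')
  obtain ⟨u, w, h⟩ := IN_exists (K := K) hk hK hP hne
  have hneq : ¬ K q := fun h' => hne (Relation.EqvGen.trans _ _ _ h'
    (Relation.EqvGen.symm _ _ (Cb_of_Cv hP)))
  have hbR : nm ((b, b) : Vtx) ≤ R := by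
    unfold nm
    rw [max_self, abs_of_nonneg hb0]
    omega
  have hP1 := pot_slit (k := k) (R := R) (K := K) hk hb0 hb1 (fun v hv hvb h' => hne (by
    subst hvb
    have h4 := hK _ _ (CL.idn (k := k) (G := G) (b, b) hbR hv)
    cases γ
    · exact h'
    · exact h4.1 h'))
  obtain ⟨Q, hQ1, hQ2⟩ := pot_bd (k := k) (K := K) hq
    (fun β h' => hneq (both_bd hR hK hq β q.2 h'))
  have h1 := (VV_inv hk hK h hP1 hQ1 hP').2 (Relation.EqvGen.refl _)
  have h2 : K q' := Cb_of_Cv hP'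
  have h3 := (VV_bd hR hK h hq' h2).1
  have h4 := (VV_sec h ha0 ha1 (Relation.EqvGen.refl _)).1
  have h7 := hQ2 (((a', a'), β'), l0)
  have h8 := hQ2 (q', l1)
  simp only at h1
  rw [abs_le] at h3 h4 ⊢
  split_ifs at h1 <;> constructor <;>
    linarith [h3.1, h3.2, h4.1, h4.2, h7.1, h7.2, h8.1, h8.2]

/-- loops which avoid an arm have winding `0` -/
theorem sep_loop (hk : 1 ≤ k) (hR : k < 2 * R) (ha0 : 0 ≤ a') (ha1 : 2 * a' ≤ k) (hq' : nm q'.1 = R)
    (hP' : Cv k R G (((a', a'), β'), l0) (q', l1)) (hP : Cv k R G (p, lp) (p, lq))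
    (hne : ¬ Cb k R G ((a', a'), β') p) {P : (Vtx × Bool) × ℤ → ℤ}
    (hPot : Pot k R (fun x => Cb k R G ((a', a'), β') x) p.1 P) : lq = lp := by
  set K : Vtx × Bool → Prop := fun x => Cb k R G ((a', a'), β') x with hKd
  have hK := K_closed (k := k) (R := R) (G := G) ((a', a'), β')
  obtain ⟨u, w, h⟩ := IN_exists (K := K) hk hK hP hne
  have h1 := (VV_inv hk hK h hPot hPot hP').2 (Relation.EqvGen.refl _)
  have h2 : K q' := Cb_of_Cv hP'
  have h3 := (VV_bd hR hK h hq' h2).2 rfl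
  have h4 := (VV_sec h ha0 ha1 (Relation.EqvGen.refl _)).2 rfl
  simp only at h1
  linarith

end

end Pool.Agent.S77.WP
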