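import Pool.Agent.H974R2.BK
import Pool.Agent.H12R2.Sep.Defs6

/-!
# The number of disjoint large clusters: statement
-/

set_option autoImplicit false

namespace Pool.Agent.S77.WP
open H974

/-- `h` disjoint sets of edges of `F`, each of which connects two points at distance at least `d` -/
def Mc (d h : ℕ) (F : Finset Edg) : Prop :=
  ∃ W : Fin h → Finset Edg, (∀ i, W i ⊆ F) ∧ (∀ i j, i ≠ j → Disjoint (W i) (W j)) ∧
    ∀ i, ∃ u v : Vtx, ((d : ℤ) ≤ |u.1 - v.1| ∨ (d : ℤ) ≤ |u.2 - v.2|) ∧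
      Reach (↑(W i) : Set Edg) u v

/-- the number of disjoint large clusters has uniformly bounded exponential moments -/
def S_TAIL : Prop := ∀ (s : ℝ) (ν : ℕ), 1 ≤ s → ∃ B : ℝ, ∃ r0 : ℕ, ∀ r : ℕ, r0 ≤ r →
  ∀ (x0 y0 : ℤ) (S : Finset Edg), S ⊆ RE x0 (x0 + ν * r) y0 (y0 + ν * r) → ∀ H : ℕ,
  ∑ h ∈ Finset.range H, s ^ h * Pr (fun _ => (1 / 2 : ℝ)) S (Mc r h) ≤ B

end Pool.Agent.S77.WP
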