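import Pool.Agent.S77.WP.Abs
import Pool.Agent.S77.WP.StmT
import Pool.Agent.S77.WP.Sep

/-!
# Simple paths with levels and their decomposition
-/

set_option autoImplicit false

namespace Pool.Agent.S77.WP
open Pool.Agent.H160R2.ML
open Pool.Agent.H160R2.MU
open H974 H906.Cyl

/-- a simple path -/
theorem simple_walk {α : Type*} (r : α → α → Prop) {x y : α} (h : Relation.EqvGen r x y) :
    ∃ (t : ℕ) (p : ℕ → α), p 0 = x ∧ p t = y ∧ (∀ i < t, r (p i) (p (i + 1)) ∨ r (p (i + 1)) (p i)) ∧
      (∀ i j, i ≤ t → j ≤ t → p i = p j → i = j) := by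
  classical
  have h1 : (SimpleGraph.fromRel r).Reachable x y := by
    induction h with
    | rel x y h =>
      by_cases hxy : x = y
      · subst hxy; exact SimpleGraph.Reachable.refl _
      · exact SimpleGraph.Adj.reachable ((SimpleGraph.fromRel_adj _ _ _).2 ⟨hxy, Or.inl h⟩)
    | refl x => exact SimpleGraph.Reachable.refl _
    | symm x y _ ih => exact ih.symm
    | trans x y z _ _ h1 h2 => exact h1.trans h2
  obtain ⟨w⟩ := h1
  obtain ⟨q, hq⟩ := w.toPath
  refine ⟨q.length, q.getVert, q.getVert_zero, q.getVert_length, ?_, ?_⟩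
  · intro i hi
    exact ((SimpleGraph.fromRel_adj _ _ _).1 (q.adj_getVert_succ hi)).2
  · intro i j hi hj hij
    exact hq.getVert_injOn hi hj hij

/-- steps of the graph cut along the diagonal -/
inductive Sp (gl : ℤ → Prop) (G : Set Edg) (far : Vtx × Bool → Vtx × Bool → Prop) :
    Vtx × Bool → Vtx × Bool → Prop
  | edge (e : Edg) : e ∈ G →
      Sp gl G far (src e, decide (0 ≤ dco e)) (tgt e, decide (0 ≤ dco e))
  | idn (a : ℤ) : gl a → Sp gl G far ((a, a), false) ((a, a), true)
  | far (x y : Vtx × Bool) : far x y → Sp gl G far x y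

def bz (b : Bool) : ℤ := if b then 1 else 0

theorem bz_bd (b c : Bool) : |bz b - bz c| ≤ 1 := by
  cases b <;> cases c <;> simp [bz]

open Classical in
/-- the weight of a step -/
noncomputable def wt (sg : ℤ → Prop) (x y : Vtx × Bool) : ℤ :=
  if x.1 = y.1 ∧ x.1.1 = x.1.2 ∧ sg x.1.1 then bz y.2 - bz x.2 else 0

/-- the level along a path -/
noncomputable def lv (sg : ℤ → Prop) (p : ℕ → Vtx × Bool) (i : ℕ) : ℤ :=
  ∑ j ∈ Finset.range i, wt sg (p j) (p (j + 1))

theorem lv_succ (sg : ℤ → Prop) (p : ℕ → Vtx × Bool) (i : ℕ) :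
    lv sg p (i + 1) = lv sg p i + wt sg (p i) (p (i + 1)) := by
  unfold lv
  rw [Finset.sum_range_succ]

theorem wt_symm (sg : ℤ → Prop) (x y : Vtx × Bool) : wt sg y x = - wt sg x y := by
  unfold wt
  by_cases h : x.1 = y.1
  · rw [h]
    split_ifs <;> ring
  · rw [if_neg (fun h' => h h'.1.symm), if_neg (fun h' => h h'.1), neg_zero]

/-- sup distance -/
def ds (u v : Vtx) : ℤ := max |u.1 - v.1| |u.2 - v.2|

theorem ds_lt_iff (u v : Vtx) (c : ℤ) : ds u v < c ↔ (u.1 - v.1 < c ∧ v.1 - u.1 < c) ∧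
    (u.2 - v.2 < c ∧ v.2 - u.2 < c) := by
  unfold ds
  rw [max_lt_iff, abs_lt, abs_lt]
  constructor <;> intro h <;> omega

theorem ds_le_iff (u v : Vtx) (c : ℤ) : ds u v ≤ c ↔ (u.1 - v.1 ≤ c ∧ v.1 - u.1 ≤ c) ∧
    (u.2 - v.2 ≤ c ∧ v.2 - u.2 ≤ c) := by
  unfold ds
  rw [max_le_iff, abs_le, abs_le]
  constructor <;> intro h <;> omega

theorem ds_self (u : Vtx) : ds u u = 0 := by unfold ds; simp

theorem tgt_cases (e : Edg) : tgt e = ((src e).1 + 1, (src e).2) ∨ tgt e = ((src e).1, (src e).2 + 1) := by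
  obtain ⟨x, y, _ | _⟩ := e
  · right; rfl
  · left; rfl

theorem src_ne_tgt (e : Edg) : src e ≠ tgt e := by
  intro h
  rcases tgt_cases e with h1 | h1 <;> rw [h1] at h <;> rw [Prod.ext_iff] at h <;> simp at h

section
variable {gl sg : ℤ → Prop} {G : Set Edg} {far : Vtx × Bool → Vtx × Bool → Prop}

/-- the weight of a step is the change of side if all crossings count -/
theorem wt_Sp (hf2 : ∀ x y, far x y → x.2 = y.2) {x y : Vtx × Bool} (h : Sp gl G far x y)
    (hs : ∀ a, x.1 = (a, a) → gl a → sg a) : wt sg x y = bz y.2 - bz x.2 := by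
  cases h with
  | edge e he =>
    unfold wt
    rw [if_neg (fun h' => src_ne_tgt e h'.1)]
    simp
  | idn a ha =>
    unfold wt
    rw [if_pos ⟨rfl, rfl, hs a rfl ha⟩]
  | far x y h =>
    unfold wt
    rw [hf2 x y h]
    split_ifs <;> simp

/-- walks -/
structure Wk (gl : ℤ → Prop) (G : Set Edg) (far : Vtx × Bool → Vtx × Bool → Prop)
    (p : ℕ → Vtx × Bool) (t : ℕ) : Prop where
  step : ∀ i < t, Sp gl G far (p i) (p (i + 1)) ∨ Sp gl G far (p (i + 1)) (p i)
  inj : ∀ i j, i ≤ t → j ≤ t → p i = p j → i = j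
  f2 : ∀ x y, far x y → x.2 = y.2
  fd : ∀ x y, far x y → x.1.1 ≠ x.1.2 ∧ y.1.1 ≠ y.1.2

variable {p : ℕ → Vtx × Bool} {t : ℕ}

theorem Wk.wt_eq (W : Wk gl G far p t) {i : ℕ} (hi : i < t)
    (hs : ∀ a, (p i).1 = (a, a) → (p (i + 1)).1 = (a, a) → gl a → sg a) :
    wt sg (p i) (p (i + 1)) = bz (p (i + 1)).2 - bz (p i).2 := by
  have key : ∀ x y : Vtx × Bool, Sp gl G far x y → (∀ a, x.1 = (a, a) → y.1 = (a, a) → gl a → sg a) →
      wt sg x y = bz y.2 - bz x.2 := by
    intro x y h hs
    cases h with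
    | edge e he =>
      unfold wt
      rw [if_neg (fun h' => src_ne_tgt e h'.1)]
      simp
    | idn a ha =>
      unfold wt
      rw [if_pos ⟨rfl, rfl, hs a rfl rfl ha⟩]
    | far x y h =>
      unfold wt
      rw [W.f2 x y h]
      split_ifs <;> simp
  rcases W.step i hi with h | h
  · exact key _ _ h hs
  · rw [wt_symm, key _ _ h (fun a h1 h2 h3 => hs a h2 h1 h3)]
    ring

/-- the level of a part of a path where all crossings count -/
theorem Wk.lv_eq (W : Wk gl G far p t) {i b : ℕ} (hib : i ≤ b) (hb : b ≤ t)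
    (hs : ∀ j a, i ≤ j → j < b → (p j).1 = (a, a) → (p (j + 1)).1 = (a, a) → gl a → sg a) :
    lv sg p b - lv sg p i = bz (p b).2 - bz (p i).2 := by
  induction b, hib using Nat.le_induction with
  | base => ring
  | succ b hib ih =>
    rw [lv_succ]
    have h1 := ih (by omega) (fun j a h1 h2 h3 => hs j a h1 (by omega) h3)
    have h2 := W.wt_eq (sg := sg) (i := b) (by omega) (fun a h3 => hs b a hib (by omega) h3)
    linarith

/-- a crossing step is at a vertex of the diagonal -/
theorem Wk.ray (W : Wk gl G far p t) {i : ℕ} (hi : i < t) (h : lv sg p (i + 1) ≠ lv sg p i) :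
    ∃ a, (p i).1 = (a, a) ∧ (p (i + 1)).1 = (a, a) ∧ gl a ∧ sg a := by
  rw [lv_succ] at h
  have h1 : wt sg (p i) (p (i + 1)) ≠ 0 := fun h' => h (by rw [h', add_zero])
  have key : ∀ x y : Vtx × Bool, Sp gl G far x y → wt sg x y ≠ 0 →
      ∃ a, x.1 = (a, a) ∧ y.1 = (a, a) ∧ gl a ∧ sg a := by
    intro x y h hw
    cases h with
    | edge e he =>
      exfalso
      apply hw
      unfold wt
      rw [if_neg (fun h' => src_ne_tgt e h'.1)]
    | idn a ha =>
      refine ⟨a, rfl, rfl, ha, ?_⟩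
      by_contra h'
      apply hw
      unfold wt
      rw [if_neg (fun h'' => h' h''.2.2)]
    | far x y h =>
      exfalso
      apply hw
      unfold wt
      rw [if_neg (fun h' => (W.fd x y h).1 h'.2.1)]
  rcases W.step i hi with h2 | h2
  · exact key _ _ h2 h1
  · obtain ⟨a, b1, b2, b3, b4⟩ := key _ _ h2 (by rw [wt_symm]; exact neg_ne_zero.2 h1)
    exact ⟨a, b2, b1, b3, b4⟩

/-! ### the edges of a part of a path -/

/-- the step number `j` goes through the edge `e` -/
def Thr (G : Set Edg) (p : ℕ → Vtx × Bool) (j : ℕ) (e : Edg) : Prop := e ∈ G ∧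
  ((p j = (src e, decide (0 ≤ dco e)) ∧ p (j + 1) = (tgt e, decide (0 ≤ dco e))) ∨
    (p j = (tgt e, decide (0 ≤ dco e)) ∧ p (j + 1) = (src e, decide (0 ≤ dco e))))

open Classical in
/-- the edges of the steps between `a` and `b` -/
noncomputable def We (G : Set Edg) (p : ℕ → Vtx × Bool) (a b : ℕ) : Finset Edg :=
  ((Finset.Ico a b).filter (fun j => ∃ e, Thr G p j e)).image
    (fun j => if h : ∃ e, Thr G p j e then h.choose else default)

theorem mem_We {a b : ℕ} {e : Edg} (h : e ∈ We G p a b) : ∃ j, a ≤ j ∧ j < b ∧ Thr G p j e := by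
  classical
  unfold We at h
  rw [Finset.mem_image] at h
  obtain ⟨j, hj, rfl⟩ := h
  rw [Finset.mem_filter, Finset.mem_Ico] at hj
  refine ⟨j, hj.1.1, hj.1.2, ?_⟩
  rw [dif_pos hj.2]
  exact hj.2.choose_spec

theorem We_mono {a b c : ℕ} (h : b ≤ c) : We G p a b ⊆ We G p a c := by
  classical
  unfold We
  exact Finset.image_subset_image (Finset.filter_subset_filter _ (Finset.Ico_subset_Ico_right h))

theorem We_adj {a b j : ℕ} (h1 : a ≤ j) (h2 : j < b) (h3 : ∃ e, Thr G p j e) :
    Adj (↑(We G p a b) : Set Edg) (p j).1 (p (j + 1)).1 := by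
  classical
  have hm : h3.choose ∈ We G p a b := by
    unfold We
    rw [Finset.mem_image]
    refine ⟨j, ?_, by rw [dif_pos h3]⟩
    rw [Finset.mem_filter, Finset.mem_Ico]
    exact ⟨⟨h1, h2⟩, h3⟩
  refine ⟨h3.choose, hm, ?_⟩
  obtain ⟨-, h5 | h5⟩ := h3.choose_spec
  · left
    exact ⟨by rw [h5.1], by rw [h5.2]⟩
  · right
    exact ⟨by rw [h5.2], by rw [h5.1]⟩

theorem We_disj (W : Wk gl G far p t) {a b a' b' : ℕ} (h1 : b ≤ a') (h2 : b' ≤ t) :
    Disjoint (We G p a b) (We G p a' b') := by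
  rw [Finset.disjoint_left]
  intro e he he'
  obtain ⟨j, j1, j2, j3⟩ := mem_We he
  obtain ⟨i, i1, i2, i3⟩ := mem_We he'
  have key : (p i = p j ∨ p i = p (j + 1)) ∧ (p (i + 1) = p j ∨ p (i + 1) = p (j + 1)) := by
    rcases j3.2 with ⟨a1, a2⟩ | ⟨a1, a2⟩ <;> rcases i3.2 with ⟨b1, b2⟩ | ⟨b1, b2⟩ <;>
      rw [a1, a2, b1, b2] <;> simp
  rcases key.2 with h | h
  · have := W.inj _ _ (by omega) (by omega) h
    omega
  · have := W.inj _ _ (by omega) (by omega) h
    omega

theorem We_reach (W : Wk gl G far p t) {a b : ℕ} (hab : a ≤ b) (hb : b ≤ t)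
    (hfar : ∀ j, a ≤ j → j < b → ∀ y, ¬ far (p j) y ∧ ¬ far y (p j)) :
    Reach (↑(We G p a b) : Set Edg) (p a).1 (p b).1 := by
  induction b, hab using Nat.le_induction with
  | base => exact Reach.refl _ _
  | succ b hab ih =>
    have h1 := (ih (by omega) (fun j h1 h2 => hfar j h1 (by omega))).mono
      (Finset.coe_subset.2 (We_mono (G := G) (p := p) (a := a) (Nat.le_succ b)))
    refine h1.trans ?_
    have h2 := hfar b hab (Nat.lt_succ_self b) (p (b + 1))
    rcases W.step b (by omega) with h | h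
    · generalize hx : p b = x at h h2
      generalize hy : p (b + 1) = y at h h2
      cases h with
      | edge e he =>
        have := We_adj (G := G) (p := p) (a := a) (b := b + 1) hab (Nat.lt_succ_self b)
          ⟨e, he, Or.inl ⟨hx, hy⟩⟩
        rw [hx, hy] at this
        exact this.reach
      | idn a ha => exact Reach.refl _ _
      | far x y h => exact absurd h h2.1
    · generalize hx : p b = x at h h2
      generalize hy : p (b + 1) = y at h h2
      cases h with
      | edge e he =>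
        have := We_adj (G := G) (p := p) (a := a) (b := b + 1) hab (Nat.lt_succ_self b)
          ⟨e, he, Or.inr ⟨hx, hy⟩⟩
        rw [hx, hy] at this
        exact this.reach
      | idn a ha => exact Reach.refl _ _
      | far x y h => exact absurd h h2.2

/-- the positions of consecutive points -/
theorem Wk.near (W : Wk gl G far p t) {i : ℕ} (hi : i < t)
    (hfar : ∀ y, ¬ far (p i) y ∧ ¬ far y (p i)) : ds (p i).1 (p (i + 1)).1 ≤ 1 := by
  have h2 := hfar (p (i + 1))
  have key : ∀ e : Edg, ds (src e) (tgt e) ≤ 1 ∧ ds (tgt e) (src e) ≤ 1 := by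
    intro e
    rcases tgt_cases e with h1 | h1 <;> rw [h1, ds_le_iff, ds_le_iff] <;> simp
  rcases W.step i hi with h | h
  · generalize hx : p i = x at h h2
    generalize hy : p (i + 1) = y at h h2
    cases h with
    | edge e he => exact (key e).1
    | idn a ha => rw [ds_self]; norm_num
    | far x y h => exact absurd h h2.1
  · generalize hx : p i = x at h h2
    generalize hy : p (i + 1) = y at h h2
    cases h with
    | edge e he => exact (key e).2
    | idn a ha => rw [ds_self]; norm_num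
    | far x y h => exact absurd h h2.2

end

end Pool.Agent.S77.WP
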