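import Pool.Agent.S77.WP.Par
import Pool.Agent.S77.WP.Walk
import Pool.Agent.H160R2.MU.T_LNK
import Pool.Agent.H160R2.MU.T_G
import Pool.Agent.H160R2.MU.T_DEC

/-!
# Levels in the cylinder with bulk, and the winding of the words
-/

set_option autoImplicit false

namespace Pool.Agent.S77.WP
open Pool.Agent.H863R2.Cyl
open Pool.Agent.H988R2.Perc (Word PD)
open Pool.Agent.H160R2.ML
open Pool.Agent.H160R2.MU
open Pool.Agent.S77.WD
open H974 H906.Cyl

/-- links of the bulk with levels -/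
inductive BgL (n M k : ℕ) (F : Finset Edg) (τ σ : Word) : Pt × ℤ → Pt × ℤ → Prop
  | bulk (x y : Pt) (l : ℤ) : Relation.EqvGen (Bg n M (2 * n + 1) F τ σ) x y →
      BgL n M k F τ σ (x, l) (y, l)
  | glue (s : ℤ) (i : ℕ) (l : ℤ) : i + k ≤ 2 * n →
      BgL n M k F τ σ (((s * (2 * n : ℕ) + k + i, M), false), l)
        (((s * (2 * n : ℕ) + k + i, M), true), l + gg s)

/-- without glue there is one side only -/
theorem LL_of_Bg {n M : ℕ} {F : Finset Edg} {τ σ : Wd (2 * n - 1 + 1)} {x y : Pt}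
    (h : Relation.EqvGen (Bg n M (2 * n + 1) F τ.1 σ.1) x y) :
    x.2 = y.2 ∧ Relation.EqvGen (TC1.LL n M F τ σ x.2) x.1 y.1 := by
  induction h with
  | rel x y h =>
    cases h with
    | low p q h => exact ⟨rfl, Relation.EqvGen.rel _ _ h⟩
    | upp p q h => exact ⟨rfl, Relation.EqvGen.rel _ _ h⟩
    | glue s i hi => omega
  | refl x => exact ⟨rfl, Relation.EqvGen.refl _⟩
  | symm x y _ h =>
    refine ⟨h.1.symm, ?_⟩
    rw [← h.1]
    exact Relation.EqvGen.symm _ _ h.2
  | trans x y z _ _ h1 h2 =>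
    refine ⟨h1.1.trans h2.1, Relation.EqvGen.trans _ _ _ h1.2 ?_⟩
    rw [h1.1]
    exact h2.2

theorem Ct_of_LL {n : ℕ} (hn : 1 ≤ n) (M k : ℕ) (F : Finset Edg) (τ σ : Wd (2 * n - 1 + 1))
    (β : Bool) (a b l : ℤ) (h : Relation.EqvGen (TC1.LL n M F τ σ β) (a, M) (b, M)) :
    Ct k k (wup n M F τ) (wdn n M F σ) ((a, β), l) ((b, β), l) := by
  have hm : 1 ≤ 2 * n - 1 := by omega
  cases β with
  | false =>
    have h' : Relation.EqvGen (Lk (2 * n - 1) (dn n M F) M σ.1) (a, M) (b, M) := h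
    exact Relation.EqvGen.rel _ _ (Lt.low a b l ((Rw_rows _ hm _ _ _ _ _).2 h'))
  | true =>
    have h' : Relation.EqvGen (Lk (2 * n - 1) (up n M F) M τ.1) (a, M) (b, M) := h
    exact Relation.EqvGen.rel _ _ (Lt.upp a b l ((Rw_rows _ hm _ _ _ _ _).2 h'))

/-- anchors -/
def AL (n M : ℕ) (F : Finset Edg) (τ σ : Wd (2 * n - 1 + 1)) (x : Pt × ℤ) (a : (ℤ × Bool) × ℤ) :
    Prop := a.2 = x.2 ∧ a.1.2 = x.1.2 ∧ Relation.EqvGen (TC1.LL n M F τ σ x.1.2) x.1.1 (a.1.1, M)

theorem keyL {n : ℕ} (hn : 1 ≤ n) (M k : ℕ) (F : Finset Edg) (τ σ : Wd (2 * n - 1 + 1))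
    (x y : Pt × ℤ) (h : Relation.EqvGen (BgL n M k F τ.1 σ.1) x y) :
    (x.2 = y.2 ∧ x.1.2 = y.1.2 ∧ Relation.EqvGen (TC1.LL n M F τ σ x.1.2) x.1.1 y.1.1) ∨
    ∃ a b, AL n M F τ σ x a ∧ AL n M F τ σ y b ∧ Ct k k (wup n M F τ) (wdn n M F σ) a b := by
  induction h with
  | rel x y h =>
    cases h with
    | bulk p q l h =>
      obtain ⟨h1, h2⟩ := LL_of_Bg h
      exact Or.inl ⟨rfl, h1, h2⟩
    | glue s i l hi =>
      refine Or.inr ⟨((s * (2 * n : ℕ) + k + i, false), l), ((s * (2 * n : ℕ) + k + i, true), l + gg s),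
        ⟨rfl, rfl, Relation.EqvGen.refl _⟩, ⟨rfl, rfl, Relation.EqvGen.refl _⟩, ?_⟩
      have h1 := Lt.glue (p := k) (r := k) (w' := wup n M F τ) (w := wdn n M F σ) s i l
        (by rw [TC1.len_dn hn]; exact hi)
      rw [TC1.len_dn hn, TC1.len_up hn] at h1
      exact Relation.EqvGen.rel _ _ h1
  | refl x => exact Or.inl ⟨rfl, rfl, Relation.EqvGen.refl _⟩
  | symm x y _ h =>
    rcases h with ⟨h0, h1, h2⟩ | ⟨a, b, h1, h2, h3⟩
    · refine Or.inl ⟨h0.symm, h1.symm, ?_⟩
      rw [← h1]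
      exact Relation.EqvGen.symm _ _ h2
    · exact Or.inr ⟨b, a, h2, h1, Relation.EqvGen.symm _ _ h3⟩
  | trans x y z _ _ h1 h2 =>
    rcases h1 with ⟨h10, h11, h12⟩ | ⟨a, b, h11, h12, h13⟩
    · rcases h2 with ⟨h20, h21, h22⟩ | ⟨c, d, h21, h22, h23⟩
      · refine Or.inl ⟨h10.trans h20, h11.trans h21, Relation.EqvGen.trans _ _ _ h12 ?_⟩
        rw [h11]
        exact h22
      · refine Or.inr ⟨c, d, ⟨h21.1.trans h10.symm, h21.2.1.trans h11.symm, ?_⟩, h22, h23⟩
        have h3 := h21.2.2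
        rw [← h11] at h3
        exact Relation.EqvGen.trans _ _ _ h12 h3
    · rcases h2 with ⟨h20, h21, h22⟩ | ⟨c, d, h21, h22, h23⟩
      · refine Or.inr ⟨a, b, h11, ⟨h12.1.trans h20, h12.2.1.trans h21, ?_⟩, h13⟩
        rw [← h21]
        exact Relation.EqvGen.trans _ _ _ (Relation.EqvGen.symm _ _ h22) h12.2.2
      · refine Or.inr ⟨a, d, h11, h22, Relation.EqvGen.trans _ _ _ h13
          (Relation.EqvGen.trans _ _ _ ?_ h23)⟩
        have h3 := Ct_of_LL hn M k F τ σ y.1.2 b.1.1 c.1.1 y.2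
          (Relation.EqvGen.trans _ _ _ (Relation.EqvGen.symm _ _ h12.2.2) h21.2.2)
        have e1 : b = ((b.1.1, y.1.2), y.2) := Prod.ext (Prod.ext rfl h12.2.1) h12.1
        have e2 : c = ((c.1.1, y.1.2), y.2) := Prod.ext (Prod.ext rfl h21.2.1) h21.1
        rw [e1, e2]
        exact h3

/-- levels in the bulk and levels of the words -/
theorem Ct_of_BgL {n M k : ℕ} (hn : 1 ≤ n) {F : Finset Edg} {τ σ : Wd (2 * n - 1 + 1)}
    {x y : ℤ × Bool} {a b : ℤ} (h : Relation.EqvGen (BgL n M k F τ.1 σ.1) (lev M x, a) (lev M y, b)) :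
    Ct k k (wup n M F τ) (wdn n M F σ) (x, a) (y, b) := by
  rcases keyL hn M k F τ σ _ _ h with ⟨h0, h1, h2⟩ | ⟨a', b', h1, h2, h3⟩
  · have h4 := Ct_of_LL hn M k F τ σ x.2 x.1 y.1 a h2
    have e : y = (y.1, x.2) := Prod.ext rfl h1.symm
    have e0 : a = b := h0
    rw [e, ← e0]
    exact h4
  · have h4 := Ct_of_LL hn M k F τ σ x.2 x.1 a'.1.1 a h1.2.2
    have h5 := Ct_of_LL hn M k F τ σ y.2 y.1 b'.1.1 b h2.2.2
    have e1 : a' = ((a'.1.1, x.2), a) := Prod.ext (Prod.ext rfl h1.2.1) h1.1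
    have e2 : b' = ((b'.1.1, y.2), b) := Prod.ext (Prod.ext rfl h2.2.1) h2.1
    rw [e1, e2] at h3
    exact Relation.EqvGen.trans _ _ _ h4
      (Relation.EqvGen.trans _ _ _ h3 (Relation.EqvGen.symm _ _ h5))

/-! ### steps of the cylinder as steps of the plane cut along the diagonal -/

/-- the vertex and the side of a point -/
def vz (M : ℕ) (z : Pt) : Vtx × Bool := (vx M z, z.2)

/-- crossings -/
def glC (n k : ℕ) (a : ℤ) : Prop := ∃ (s : ℤ) (i : ℕ), i + k ≤ 2 * n ∧ 2 * a = s * (2 * n : ℕ) + k + i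

/-- far links -/
def farC (M : ℕ) (x y : Vtx × Bool) : Prop := x.2 = y.2 ∧ |x.1.1 - x.1.2| = M ∧ |y.1.1 - y.1.2| = M

/-- the segment between the slits `0` and `1` -/
def sg0 (n k : ℕ) (a : ℤ) : Prop := (k : ℤ) ≤ 2 * a ∧ a ≤ n

/-- the steps of the cylinder (class `0`) -/
def RS (n M k : ℕ) (A : Set Edg) (τ σ : Word) (x y : Pt) : Prop :=
  Wl τ σ x y ∨ Gl n M k x y ∨ ∃ e ∈ A, Dg n M 0 e x y

theorem RS_cls {n M k : ℕ} {A : Set Edg} {τ σ : Word} {x y : Pt} (h : RS n M k A τ σ x y) :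
    (Cls M 0 x → Cls M 0 y) ∧ (Cls M 0 y → Cls M 0 x) := by
  have hp := TG.RB_par (c := 0) (by norm_num) (Relation.EqvGen.rel _ _ h : RB 0 n M k A τ σ x y)
  have key : x.1.2 ≤ M ∨ True → (x.1.2 ≤ M ↔ y.1.2 ≤ M) ∨ True := fun _ => Or.inr trivial
  have hl : x.1.2 ≤ M ∧ y.1.2 ≤ M := by
    rcases h with h | h | ⟨e, he, h⟩
    · cases h <;> exact ⟨Nat.zero_le _, Nat.zero_le _⟩
    · cases h
      exact ⟨le_rfl, le_rfl⟩
    · cases h with
      | lrise q t h1 h2 h3 => simp only; omega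
      | lfall q t h1 h2 h3 => simp only; omega
      | urise q t h1 h2 h3 => simp only; omega
      | ufall q t h1 h2 h3 => simp only; omega
  unfold Cls
  exact ⟨fun h => ⟨by rw [← hp]; exact h.1, hl.2⟩, fun h => ⟨by rw [hp]; exact h.1, hl.1⟩⟩

theorem P_vz {M : ℕ} {z : Pt} (h : Cls M 0 z) : TDEC.P M (vx M z) z.2 = z := by
  obtain ⟨⟨j, t⟩, β⟩ := z
  obtain ⟨h1, h2⟩ := h
  simp only at h1 h2
  unfold TDEC.P vx pv
  cases β
  · simp only [Bool.false_eq_true, if_false, Prod.mk.injEq, and_true]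
    omega
  · simp only [if_true, Prod.mk.injEq, and_true]
    omega

theorem vz_inj {M : ℕ} {z z' : Pt} (h : Cls M 0 z) (h' : Cls M 0 z') (he : vz M z = vz M z') :
    z = z' := by
  unfold vz at he
  rw [Prod.mk.injEq] at he
  rw [← P_vz h, ← P_vz h', he.1, he.2]

/-- a step of the cylinder is a step in the plane -/
theorem Sp_of_RS {n M k : ℕ} (hn : 0 < n) {F : Finset Edg} (hF : F ⊆ CE n M) {τ σ : Word}
    {x y : Pt} (hx : Cls M 0 x) (hy : Cls M 0 y) (h : RS n M k (↑F) τ σ x y) :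
    Sp (glC n k) (per n F) (farC M) (vz M x) (vz M y) ∨
      Sp (glC n k) (per n F) (farC M) (vz M y) (vz M x) := by
  rcases h with h | h | ⟨e, he, h⟩
  · left
    refine Sp.far _ _ ?_
    have habs : ∀ (j : ℤ) (β : Bool), Cls M 0 ((j, 0), β) →
        |(vx M ((j, 0), β)).1 - (vx M ((j, 0), β)).2| = M := by
      intro j β hc
      obtain ⟨h1, -⟩ := hc
      simp only at h1
      unfold vx pv
      cases β
      · simp only [Bool.false_eq_true, if_false]
        have : ((j + (((0 : ℕ) : ℤ) - M)) / 2 - (j - (((0 : ℕ) : ℤ) - M)) / 2) = -(M : ℤ) := by omega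
        rw [this, abs_neg, abs_of_nonneg (by omega)]
      · simp only [if_true]
        have : ((j + (((2 * M - 0 : ℕ) : ℤ) - M)) / 2 - (j - (((2 * M - 0 : ℕ) : ℤ) - M)) / 2) = (M : ℤ) := by
          omega
        rw [this, abs_of_nonneg (by omega)]
    cases h with
    | low a b h => exact ⟨rfl, habs a false hx, habs b false hy⟩
    | upp a b h => exact ⟨rfl, habs a true hx, habs b true hy⟩
  · left
    cases h with
    | glue s i hi =>
      obtain ⟨h1, -⟩ := hx
      simp only at h1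
      have e1 : vz M ((s * (2 * n : ℕ) + k + i, M), false) =
          (((s * (2 * n : ℕ) + k + i) / 2, (s * (2 * n : ℕ) + k + i) / 2), false) := by
        unfold vz vx pv
        simp
      have hMM : 2 * M - M = M := by omega
      have e2 : vz M ((s * (2 * n : ℕ) + k + i, M), true) =
          (((s * (2 * n : ℕ) + k + i) / 2, (s * (2 * n : ℕ) + k + i) / 2), true) := by
        unfold vz vx pv
        simp [hMM]
      rw [e1, e2]
      exact Sp.idn _ ⟨s, i, hi, by omega⟩
  · have hC := hF he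
    obtain ⟨e', hr, hz'⟩ := TDEC.of_dg hn hC h
    have hd : -(M : ℤ) ≤ dco e' ∧ dco e' < M := by
      rw [← dco_red n e', hr]
      exact (mem_CE.1 hC).2
    obtain ⟨hd1, hd2⟩ := hd
    have hs1 : (src e').1 - (src e').2 ≤ M ∧ -(M : ℤ) ≤ (src e').1 - (src e').2 := by
      obtain ⟨x, y, _ | _⟩ := e'
      · unfold dco at hd1 hd2
        simp only [Bool.false_eq_true, if_false, src_mk] at hd1 hd2 ⊢
        omega
      · unfold dco at hd1 hd2
        simp only [if_true, src_mk] at hd1 hd2 ⊢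
        omega
    have hs2 : (tgt e').1 - (tgt e').2 ≤ M ∧ -(M : ℤ) ≤ (tgt e').1 - (tgt e').2 := by
      obtain ⟨x, y, _ | _⟩ := e'
      · unfold dco at hd1 hd2
        simp only [Bool.false_eq_true, if_false, tgt_false] at hd1 hd2 ⊢
        omega
      · unfold dco at hd1 hd2
        simp only [if_true, tgt_true] at hd1 hd2 ⊢
        omega
    have hvx1 := TDEC.vx_P M (src e') (decide (0 ≤ dco e')) hs1.1 hs1.2
    have hvx2 := TDEC.vx_P M (tgt e') (decide (0 ≤ dco e')) hs2.1 hs2.2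
    have hper : e' ∈ per n F := by
      show red n e' ∈ F
      rw [hr]
      exact he
    rcases hz' with ⟨rfl, rfl⟩ | ⟨rfl, rfl⟩
    · left
      unfold vz
      rw [hvx1, hvx2, TDEC.P2, TDEC.P2]
      exact Sp.edge e' hper
    · right
      unfold vz
      rw [hvx1, hvx2, TDEC.P2, TDEC.P2]
      exact Sp.edge e' hper

/-- the level of a step -/
theorem BgL_of_RS {n M k : ℕ} (hn : 0 < n) (hM : 0 < M) (hk : 1 ≤ k) {F : Finset Edg}
    (hF : F ⊆ CE n M) {τ σ : Word}
    {x y : Pt} (hx : Cls M 0 x) (hy : Cls M 0 y) (h : RS n M k (Ac 0 n M F) τ σ x y) (l : ℤ) :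
    Relation.EqvGen (BgL n M k F τ σ) (x, l) (y, l + wt (sg0 n k) (vz M x) (vz M y)) := by
  have hAF : ∀ e, e ∈ Ac 0 n M F → e ∈ F := fun e he => he.2.2 rfl
  rcases h with h | h | ⟨e, he, h⟩
  · have h1 := TLNK.bwd (c := 0) (n := n) (M := M) (k := 2 * n + 1) (F := F) (by norm_num) hn
      (Or.inl h)
    have e1 : wt (sg0 n k) (vz M x) (vz M y) = 0 := by
      have hne : (vz M x).1.1 ≠ (vz M x).1.2 := by
        intro heq
        have h3 : (x.1.2 : ℤ) = 0 := by cases h <;> rfl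
        obtain ⟨⟨j, t⟩, β⟩ := x
        obtain ⟨h1, -⟩ := hx
        simp only at h1 h3
        unfold vz vx pv at heq
        cases β
        · simp only [Bool.false_eq_true, if_false] at heq
          omega
        · simp only [if_true] at heq
          omega
      unfold wt
      rw [if_neg (fun h' => hne h'.2.1)]
    rw [e1, add_zero]
    exact Relation.EqvGen.rel _ _ (BgL.bulk x y l h1)
  · cases h with
    | glue s i hi =>
      have h2 := BgL.glue (n := n) (M := M) (k := k) (F := F) (τ := τ) (σ := σ) s i l hi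
      have hMM : 2 * M - M = M := by omega
      have e1 : vz M ((s * (2 * n : ℕ) + k + i, M), false) =
          (((s * (2 * n : ℕ) + k + i) / 2, (s * (2 * n : ℕ) + k + i) / 2), false) := by
        unfold vz vx pv
        simp
      have e2 : vz M ((s * (2 * n : ℕ) + k + i, M), true) =
          (((s * (2 * n : ℕ) + k + i) / 2, (s * (2 * n : ℕ) + k + i) / 2), true) := by
        unfold vz vx pv
        simp [hMM]
      have hx1 := hx.1
      simp only at hx1
      have e3 : wt (sg0 n k) (vz M ((s * (2 * n : ℕ) + k + i, M), false))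
          (vz M ((s * (2 * n : ℕ) + k + i, M), true)) = gg s := by
        rw [e1, e2]
        unfold wt
        set a : ℤ := (s * (2 * n : ℕ) + k + i) / 2 with ha
        have ha2 : 2 * a = s * (2 * n : ℕ) + k + i := by omega
        have hsg : sg0 n k a ↔ s = 0 := by
          unfold sg0
          constructor
          · rintro ⟨h1, h2⟩
            rcases lt_trichotomy s 0 with h | h | h
            · have : s * ((2 * n : ℕ) : ℤ) ≤ -1 * ((2 * n : ℕ) : ℤ) :=
                mul_le_mul_of_nonneg_right (by omega) (by positivity)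
              push_cast at this ha2
              omega
            · exact h
            · have : 1 * ((2 * n : ℕ) : ℤ) ≤ s * ((2 * n : ℕ) : ℤ) :=
                mul_le_mul_of_nonneg_right (by omega) (by positivity)
              push_cast at this ha2
              omega
          · intro h
            rw [h, zero_mul] at ha2
            omega
        unfold gg
        by_cases h0 : s = 0
        · rw [if_pos ⟨rfl, rfl, hsg.2 h0⟩, if_pos h0]
          simp [bz]
        · rw [if_neg (fun h => h0 (hsg.1 h.2.2)), if_neg h0]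
      rw [e3]
      exact Relation.EqvGen.rel _ _ h2
  · have h1 := TLNK.bwd (c := 0) (n := n) (M := M) (k := 2 * n + 1) (F := F) (τ := τ) (σ := σ)
      (by norm_num) hn (Or.inr (Or.inr ⟨e, he, h⟩))
    have e1 : wt (sg0 n k) (vz M x) (vz M y) = 0 := by
      have h2 := Sp_of_RS (k := k) (τ := τ) (σ := σ) hn hF hx hy (Or.inr (Or.inr ⟨e, hAF e he, h⟩))
      have hne : vx M x ≠ vx M y := by
        intro heq
        obtain ⟨⟨j, t⟩, β⟩ := x
        obtain ⟨⟨j', t'⟩, β'⟩ := y
        obtain ⟨a1, a2⟩ := hx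
        obtain ⟨b1, b2⟩ := hy
        simp only at a1 a2 b1 b2
        unfold vx pv at heq
        cases h with
        | lrise q t h1 h2 h3 => simp at heq; omega
        | lfall q t h1 h2 h3 => simp at heq; omega
        | urise q t h1 h2 h3 => simp at heq; omega
        | ufall q t h1 h2 h3 => simp at heq; omega
      unfold wt
      rw [if_neg (fun h' => hne h'.1)]
    rw [e1, add_zero]
    exact Relation.EqvGen.rel _ _ (BgL.bulk x y l h1)

end Pool.Agent.S77.WP
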