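import Pool.Agent.S77.WP.Low

/-!
# The winding of the arms in the plane: exponential moments and large deviations
-/

set_option autoImplicit false

namespace Pool.Agent.S77.WP
open Pool.Agent.H160R2.ML
open Pool.Agent.H160R2.MU
open Pool.Agent.S77.WD
open H974 H906.Cyl
open MeasureTheory Filter Topology

/-- the configurations -/
abbrev Om := sqLattice.edgeSet → Bool

/-! ### integrals of functions of finitely many edges -/

open Classical in
theorem fn_eq (S : Finset Edg) (f : Finset Edg → ℝ) (ω : Om) :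
    f (FF S ω) = ∑ T ∈ S.powerset, ({ω | FF S ω = T} : Set Om).indicator (fun _ => f T) ω := by
  rw [Finset.sum_eq_single (FF S ω)]
  · rw [Set.indicator_of_mem (show ω ∈ {ω' | FF S ω' = FF S ω} from rfl)]
  · intro T _ hT
    exact Set.indicator_of_notMem (fun h => hT (show FF S ω = T from h).symm) _
  · intro h
    exact absurd (Finset.mem_powerset.2 (Finset.filter_subset _ _)) h

theorem fn_int (S : Finset Edg) (f : Finset Edg → ℝ) :
    Integrable (fun ω : Om => f (FF S ω)) (bondLaw hlf) := by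
  simp only [fn_eq S f]
  refine integrable_finsetSum _ fun T _ => ?_
  exact (integrable_const _).indicator (meas_FF S T)

theorem int_FF (S : Finset Edg) (f : Finset Edg → ℝ) :
    ∫ ω, f (FF S ω) ∂(bondLaw hlf) = Ex hf S f := by
  simp only [fn_eq S f]
  rw [integral_finsetSum]
  · unfold Ex
    refine Finset.sum_congr rfl fun T hT => ?_
    rw [integral_indicator_const _ (meas_FF S T), law_eq hlf (Finset.mem_powerset.1 hT), smul_eq_mul]
    rfl
  · intro T _
    exact (integrable_const _).indicator (meas_FF S T)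

/-- the slit event -/
def EvS (k R : ℕ) : Set Om := {ω | SE k R (↑(FF (boxE R) ω) : Set Edg)}

theorem meas_EvS (k R : ℕ) : MeasurableSet (EvS k R) :=
  meas_event (boxE R) (fun F => SE k R (↑F : Set Edg))

theorem int_Al (k R : ℕ) (lam : ℝ) :
    ∫ ω in EvS k R, Real.exp (lam * Al k R (↑(FF (boxE R) ω) : Set Edg)) ∂(bondLaw hlf) =
      ZR k lam R := by
  rw [← integral_indicator (meas_EvS k R)]
  unfold ZR
  rw [← int_FF]
  congr 1
  funext ω
  unfold wR
  by_cases h : ω ∈ EvS k R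
  · rw [Set.indicator_of_mem h, ind_of (show SE k R (↑(FF (boxE R) ω) : Set Edg) from h), one_mul]
  · rw [Set.indicator_of_notMem h, ind_not_of (show ¬ SE k R (↑(FF (boxE R) ω) : Set Edg) from h),
      zero_mul]

/-- **exponential moments for any choice of the level** -/
theorem int_W {k R : ℕ} (hk : 2 ≤ k) (hkR : k ≤ R) (lam : ℝ) {W : Om → ℤ} (hm : Measurable W)
    (hW : ∀ ω ∈ EvS k R, WR k R (↑(FF (boxE R) ω) : Set Edg) (W ω)) :
    Real.exp (-(8 * |lam|)) * ZR k lam R ≤
      ∫ ω in EvS k R, Real.exp (lam * W ω) ∂(bondLaw hlf) ∧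
    ∫ ω in EvS k R, Real.exp (lam * W ω) ∂(bondLaw hlf) ≤ Real.exp (8 * |lam|) * ZR k lam R := by
  have hA := meas_EvS k R
  have key : ∀ ω ∈ EvS k R, |lam * W ω - lam * Al k R (↑(FF (boxE R) ω) : Set Edg)| ≤ 8 * |lam| := by
    intro ω hω
    have h1 := WR_close hk hkR (show SE k R (↑(FF (boxE R) ω) : Set Edg) from hω) (hW ω hω)
      (Al_spec hk (show SE k R (↑(FF (boxE R) ω) : Set Edg) from hω))
    have h2 : |((W ω : ℤ) : ℝ) - Al k R (↑(FF (boxE R) ω) : Set Edg)| ≤ 8 := by exact_mod_cast h1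
    rw [← mul_sub, abs_mul, mul_comm]
    exact mul_le_mul_of_nonneg_right h2 (abs_nonneg _)
  have hI0 : Integrable (fun ω : Om => Real.exp (lam * Al k R (↑(FF (boxE R) ω) : Set Edg)))
      (bondLaw hlf) := fn_int (boxE R) (fun F => Real.exp (lam * Al k R (↑F : Set Edg)))
  have hI1 : IntegrableOn (fun ω : Om => Real.exp (8 * |lam|) *
      Real.exp (lam * Al k R (↑(FF (boxE R) ω) : Set Edg))) (EvS k R) (bondLaw hlf) :=
    (hI0.const_mul _).integrableOn
  have hI2 : IntegrableOn (fun ω : Om => Real.exp (-(8 * |lam|)) *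
      Real.exp (lam * Al k R (↑(FF (boxE R) ω) : Set Edg))) (EvS k R) (bondLaw hlf) :=
    (hI0.const_mul _).integrableOn
  have up : ∀ ω ∈ EvS k R, Real.exp (lam * W ω) ≤ Real.exp (8 * |lam|) *
      Real.exp (lam * Al k R (↑(FF (boxE R) ω) : Set Edg)) := by
    intro ω hω
    rw [← Real.exp_add]
    apply Real.exp_le_exp.2
    have := (abs_le.1 (key ω hω)).2
    linarith
  have lo : ∀ ω ∈ EvS k R, Real.exp (-(8 * |lam|)) *
      Real.exp (lam * Al k R (↑(FF (boxE R) ω) : Set Edg)) ≤ Real.exp (lam * W ω) := by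
    intro ω hω
    rw [← Real.exp_add]
    apply Real.exp_le_exp.2
    have := (abs_le.1 (key ω hω)).1
    linarith
  have hIW : IntegrableOn (fun ω : Om => Real.exp (lam * W ω)) (EvS k R) (bondLaw hlf) := by
    refine Integrable.mono' hI1 ?_ ?_
    · have h1 : Measurable (fun z : ℤ => Real.exp (lam * z)) := Measurable.of_discrete
      exact (h1.comp hm).aestronglyMeasurable
    · refine ae_restrict_of_forall_mem hA fun ω hω => ?_
      rw [Real.norm_eq_abs, abs_of_pos (Real.exp_pos _)]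
      exact up ω hω
  constructor
  · have h1 := setIntegral_mono_on hI2 hIW hA lo
    rwa [integral_const_mul, int_Al] at h1
  · have h1 := setIntegral_mono_on hIW hI1 hA up
    rwa [integral_const_mul, int_Al] at h1

/-! ### large deviations -/

/-- a bound of the level -/
noncomputable def Nb (k R : ℕ) : ℕ :=
  (boxE R).powerset.sup (fun F => (Al k R (↑F : Set Edg)).natAbs)

theorem Nb_spec {k R : ℕ} {F : Finset Edg} (hF : F ⊆ boxE R) :
    |Al k R (↑F : Set Edg)| ≤ (Nb k R : ℤ) := by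
  have h := Finset.le_sup (f := fun F : Finset Edg => (Al k R (↑F : Set Edg)).natAbs)
    (Finset.mem_powerset.2 hF)
  have h2 : (Al k R (↑F : Set Edg)).natAbs ≤ Nb k R := h
  rw [Int.abs_eq_natAbs]
  exact_mod_cast h2

/-- the law of the level -/
noncomputable def pA (k : ℕ) (sg : ℤ) (R : ℕ) (y : ℤ) : ℝ :=
  Pr hf (boxE R) (fun F => SE k R (↑F : Set Edg) ∧ sg * Al k R (↑F : Set Edg) = y)

theorem sum_law {k R : ℕ} {sg : ℤ} (hs : sg = 1 ∨ sg = -1) (g : ℤ → ℝ) :
    ∑ y ∈ Finset.Icc (-(Nb k R : ℤ)) (Nb k R), g y * pA k sg R y =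
      Ex hf (boxE R) (fun F => ind (SE k R (↑F : Set Edg)) * g (sg * Al k R (↑F : Set Edg))) := by
  have e1 : ∀ y : ℤ, g y * pA k sg R y = Ex hf (boxE R) (fun F =>
      g y * ind (SE k R (↑F : Set Edg) ∧ sg * Al k R (↑F : Set Edg) = y)) := by
    intro y
    rw [Ex_mul_left]
    rfl
  simp only [e1]
  rw [← Ex_sum]
  apply Ex_congr
  intro F hF
  rw [Finset.sum_eq_single (sg * Al k R (↑F : Set Edg))]
  · rw [ind_and, ind_of (rfl : sg * Al k R (↑F : Set Edg) = sg * Al k R (↑F : Set Edg)), mul_one,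
      mul_comm]
  · intro y _ hy
    rw [ind_not_of (fun h => hy h.2.symm), mul_zero]
  · intro h
    exfalso
    apply h
    rw [Finset.mem_Icc]
    have h1 := abs_le.1 (Nb_spec (k := k) hF)
    rcases hs with rfl | rfl <;> constructor <;> linarith [h1.1, h1.2]

theorem ldp_Al {k : ℕ} (hk : 2 ≤ k) {sg : ℤ} (hs : sg = 1 ∨ sg = -1) {x : ℝ} (hx : 0 < x) :
    Tendsto (fun n : ℕ => Real.log (Pr hf (boxE n) (fun F => SE k n (↑F : Set Edg) ∧
      x * Real.log n ≤ 2 * Real.pi * (sg * Al k n (↑F : Set Edg) : ℤ))) / Real.log n) atTop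
      (𝓝 (-(ex2 k) - k ^ 2 * x ^ 2 / 3)) := by
  classical
  have hπ := Real.pi_pos
  have hk0 : (0 : ℝ) < k := by exact_mod_cast (by omega : 0 < k)
  have hL : Tendsto (fun n : ℕ => Real.log (n : ℝ)) atTop atTop :=
    Real.tendsto_log_atTop.comp tendsto_natCast_atTop_atTop
  have hsq : ((sg : ℤ) : ℝ) ^ 2 = 1 := by rcases hs with rfl | rfl <;> norm_num
  have h := Ldp.main (N := fun n => Nb k n) (p := fun n y => pA k sg n y)
    (L := fun n => Real.log n) (a := ex2 k) (b := 3 / (64 * Real.pi ^ 2 * k ^ 2))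
    (fun n y => Pr_nonneg okh _ _) (by positivity) hL
    (fun c => by
      obtain ⟨c0, C0, hc0, hC0, hb⟩ := ZR_bounds hk (c * sg / 2)
      refine ⟨max (Real.log C0) (-(Real.log c0)), ?_⟩
      filter_upwards [eventually_ge_atTop k, eventually_ge_atTop 1] with n hn hn1
      have hn0 : (0 : ℝ) < n := by exact_mod_cast hn1
      have e : Ldp.MM (fun n => Nb k n) (fun n y => pA k sg n y) n c = ZR k (c * sg / 2) n := by
        unfold Ldp.MM
        rw [sum_law hs (fun y => Real.exp (c * y / 2))]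
        unfold ZR wR
        apply Ex_congr
        intro F _
        congr 2
        push_cast
        ring
      obtain ⟨h1, h2⟩ := hb n hn
      rw [← e] at h1 h2
      have hpos : 0 < Ldp.MM (fun n => Nb k n) (fun n y => pA k sg n y) n c :=
        lt_of_lt_of_le (by positivity) h1
      refine ⟨hpos, ?_⟩
      have e2 : xpn k (c * sg / 2) = 3 / (64 * Real.pi ^ 2 * k ^ 2) * c ^ 2 - ex2 k := by
        unfold xpn
        have : (-(c * sg / 2 / (2 * Real.pi))) ^ 2 = c ^ 2 * (sg : ℝ) ^ 2 / (16 * Real.pi ^ 2) := by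
          field_simp
          ring
        rw [this, hsq]
        field_simp
        ring
      rw [e2] at h1 h2
      have g1 := Real.log_le_log (by positivity) h1
      have g2 := Real.log_le_log hpos h2
      rw [Real.log_mul hc0.ne' (by positivity), Real.log_rpow hn0] at g1
      rw [Real.log_mul hC0.ne' (by positivity), Real.log_rpow hn0] at g2
      rw [abs_le]
      constructor
      · have := le_max_right (Real.log C0) (-(Real.log c0))
        linarith
      · have := le_max_left (Real.log C0) (-(Real.log c0))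
        linarith)
    (x := x / (4 * Real.pi)) (by positivity)
  have e : -(ex2 k) - (x / (4 * Real.pi)) ^ 2 / (4 * (3 / (64 * Real.pi ^ 2 * k ^ 2))) =
      -(ex2 k) - k ^ 2 * x ^ 2 / 3 := by
    field_simp
    ring
  rw [e] at h
  refine h.congr' ?_
  filter_upwards with n
  congr 2
  unfold Ldp.TT
  have e3 := sum_law (k := k) (R := n) hs
    (fun y => if x / (4 * Real.pi) * Real.log n ≤ (y : ℝ) / 2 then 1 else 0)
  simp only [ite_mul, one_mul, zero_mul] at e3
  rw [e3]
  unfold Pr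
  apply Ex_congr
  intro F _
  have hiff : x / (4 * Real.pi) * Real.log n ≤ ((sg * Al k n (↑F : Set Edg) : ℤ) : ℝ) / 2 ↔
      x * Real.log n ≤ 2 * Real.pi * ((sg * Al k n (↑F : Set Edg) : ℤ) : ℝ) := by
    have e1 : x / (4 * Real.pi) * Real.log n = (x * Real.log n) / (4 * Real.pi) := by ring
    rw [e1, div_le_div_iff₀ (by positivity) (by norm_num)]
    constructor <;> intro h <;> linarith
  by_cases h1 : x / (4 * Real.pi) * Real.log n ≤ ((sg * Al k n (↑F : Set Edg) : ℤ) : ℝ) / 2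
  · rw [if_pos h1, mul_one]
    exact ind_congr ⟨fun h => ⟨h, hiff.1 h1⟩, fun h => h.1⟩
  · rw [if_neg h1, mul_zero, ind_not_of]
    exact fun h => h1 (hiff.2 h.2)

/-- a family of limits encloses a sequence -/
theorem enclose {f : ℕ → ℝ} {l : ℝ → ℕ → ℝ} {g : ℝ → ℝ} {x : ℝ} (hx : 0 < x)
    (hl : ∀ y : ℝ, 0 < y → Tendsto (l y) atTop (𝓝 (g y))) (hg : Continuous g)
    (h1 : ∀ δ : ℝ, 0 < δ → ∀ᶠ n in atTop, l (x + δ) n ≤ f n)
    (h2 : ∀ δ : ℝ, 0 < δ → δ < x → ∀ᶠ n in atTop, f n ≤ l (x - δ) n) :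
    Tendsto f atTop (𝓝 (g x)) := by
  rw [tendsto_order]
  constructor
  · intro a ha
    have hc : ∀ᶠ y in 𝓝 x, a < g y := (hg.tendsto x).eventually (lt_mem_nhds ha)
    rw [Metric.eventually_nhds_iff] at hc
    obtain ⟨ε, hε, hc⟩ := hc
    have h3 : a < g (x + ε / 2) := hc (by
      rw [Real.dist_eq, add_sub_cancel_left, abs_of_pos (by positivity)]
      linarith)
    filter_upwards [h1 (ε / 2) (by positivity),
      (hl (x + ε / 2) (by positivity)).eventually (lt_mem_nhds h3)] with n h4 h5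
    exact lt_of_lt_of_le h5 h4
  · intro a ha
    have hc : ∀ᶠ y in 𝓝 x, g y < a := (hg.tendsto x).eventually (gt_mem_nhds ha)
    rw [Metric.eventually_nhds_iff] at hc
    obtain ⟨ε, hε, hc⟩ := hc
    set δ : ℝ := min (ε / 2) (x / 2) with hδ
    have hδ0 : 0 < δ := lt_min (by positivity) (by positivity)
    have hδ1 : δ < ε := lt_of_le_of_lt (min_le_left _ _) (by linarith)
    have hδ2 : δ < x := lt_of_le_of_lt (min_le_right _ _) (by linarith)
    have h3 : g (x - δ) < a := hc (by rw [Real.dist_eq]; simp [abs_of_pos hδ0, hδ1])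
    filter_upwards [h2 δ hδ0 hδ2,
      (hl (x - δ) (by linarith)).eventually (gt_mem_nhds h3)] with n h4 h5
    exact lt_of_le_of_lt h4 h5

/-- **large deviations for any choice of the level** -/
theorem ldp_W {k : ℕ} (hk : 2 ≤ k) {sg : ℤ} (hs : sg = 1 ∨ sg = -1) {x : ℝ} (hx : 0 < x)
    {W : ℕ → Om → ℤ} (hW : ∀ n, k ≤ n → ∀ ω ∈ EvS k n, WR k n (↑(FF (boxE n) ω) : Set Edg) (W n ω)) :
    Tendsto (fun n : ℕ => Real.log ((bondLaw hlf).real {ω | ω ∈ EvS k n ∧
      x * Real.log n ≤ 2 * Real.pi * (sg * W n ω : ℤ)}) / Real.log n) atTop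
      (𝓝 (-(ex2 k) - k ^ 2 * x ^ 2 / 3)) := by
  have hπ := Real.pi_pos
  have hk0 : (0 : ℝ) < k := by exact_mod_cast (by omega : 0 < k)
  have hL : Tendsto (fun n : ℕ => Real.log (n : ℝ)) atTop atTop :=
    Real.tendsto_log_atTop.comp tendsto_natCast_atTop_atTop
  set l : ℝ → ℕ → ℝ := fun y n => Real.log (Pr hf (boxE n) (fun F => SE k n (↑F : Set Edg) ∧
      y * Real.log n ≤ 2 * Real.pi * (sg * Al k n (↑F : Set Edg) : ℤ))) / Real.log n with hl
  have hlim : ∀ y : ℝ, 0 < y → Tendsto (l y) atTop (𝓝 (-(ex2 k) - k ^ 2 * y ^ 2 / 3)) :=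
    fun y hy => ldp_Al hk hs hy
  have hex : 0 < ex2 k := by
    unfold ex2
    have : (2 : ℝ) ≤ k := by exact_mod_cast hk
    nlinarith
  have hneg : ∀ y : ℝ, -(ex2 k) - k ^ 2 * y ^ 2 / 3 < 0 := by
    intro y
    have : 0 ≤ (k : ℝ) ^ 2 * y ^ 2 / 3 := by positivity
    linarith
  -- positive probabilities
  have hpos : ∀ y : ℝ, 0 < y → ∀ᶠ n in atTop, 0 < Pr hf (boxE n) (fun F =>
      SE k n (↑F : Set Edg) ∧ y * Real.log n ≤ 2 * Real.pi * (sg * Al k n (↑F : Set Edg) : ℤ)) := by
    intro y hy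
    filter_upwards [(hlim y hy).eventually (gt_mem_nhds (hneg y))] with n hn
    refine lt_of_le_of_ne (Pr_nonneg okh _ _) fun h0 => ?_
    rw [hl] at hn
    simp only at hn
    rw [← h0, Real.log_zero, zero_div] at hn
    exact lt_irrefl _ hn
  have hlaw : ∀ (y : ℝ) (n : ℕ), Pr hf (boxE n) (fun F => SE k n (↑F : Set Edg) ∧
      y * Real.log n ≤ 2 * Real.pi * (sg * Al k n (↑F : Set Edg) : ℤ)) =
      (bondLaw hlf).real {ω | ω ∈ EvS k n ∧
        y * Real.log n ≤ 2 * Real.pi * (sg * Al k n (↑(FF (boxE n) ω) : Set Edg) : ℤ)} := by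
    intro y n
    exact (law_event hlf (boxE n) (fun F => SE k n (↑F : Set Edg) ∧
      y * Real.log n ≤ 2 * Real.pi * (sg * Al k n (↑F : Set Edg) : ℤ))).symm
  -- comparison of the levels
  have hcl : ∀ n, k ≤ n → ∀ ω ∈ EvS k n, |(((sg * W n ω : ℤ)) : ℝ) -
      ((sg * Al k n (↑(FF (boxE n) ω) : Set Edg) : ℤ) : ℝ)| ≤ 8 := by
    intro n hn ω hω
    have h1 := WR_close hk hn (show SE k n (↑(FF (boxE n) ω) : Set Edg) from hω) (hW n hn ω hω)
      (Al_spec hk (show SE k n (↑(FF (boxE n) ω) : Set Edg) from hω))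
    have h2 : |sg * W n ω - sg * Al k n (↑(FF (boxE n) ω) : Set Edg)| ≤ 8 := by
      rw [← mul_sub, abs_mul]
      rcases hs with rfl | rfl <;> simpa using h1
    exact_mod_cast h2
  refine enclose (g := fun y : ℝ => -(ex2 k) - k ^ 2 * y ^ 2 / 3) hx hlim (by fun_prop) ?_ ?_
  · intro δ hδ
    filter_upwards [hpos (x + δ) (by positivity), eventually_ge_atTop k,
      hL.eventually_ge_atTop (16 * Real.pi / δ), hL.eventually_gt_atTop 0] with n h1 h2 h3 h4
    rw [hl]
    simp only
    refine div_le_div_of_nonneg_right (Real.log_le_log h1 ?_) h4.le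
    rw [hlaw]
    refine measureReal_mono ?_
    rintro ω ⟨hω, h5⟩
    refine ⟨hω, ?_⟩
    have h6 := (abs_le.1 (hcl n h2 ω hω)).1
    rw [div_le_iff₀ hδ] at h3
    nlinarith
  · intro δ hδ hδx
    filter_upwards [hpos (x + 1) (by positivity), eventually_ge_atTop k,
      hL.eventually_ge_atTop (16 * Real.pi / δ), hL.eventually_ge_atTop (16 * Real.pi),
      hL.eventually_gt_atTop 0] with n h1 h2 h3 h3' h4
    rw [hl]
    simp only
    refine div_le_div_of_nonneg_right (Real.log_le_log ?_ ?_) h4.le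
    · refine lt_of_lt_of_le h1 ?_
      rw [hlaw]
      refine measureReal_mono ?_
      rintro ω ⟨hω, h5⟩
      refine ⟨hω, ?_⟩
      have h6 := (abs_le.1 (hcl n h2 ω hω)).1
      nlinarith
    · rw [hlaw]
      refine measureReal_mono ?_
      rintro ω ⟨hω, h5⟩
      refine ⟨hω, ?_⟩
      have h6 := (abs_le.1 (hcl n h2 ω hω)).2
      rw [div_le_iff₀ hδ] at h3
      nlinarith

end Pool.Agent.S77.WP
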