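import Pool.Agent.S77.WP.StmI

/-!
# The recursion with an inner event: clusters far from the inner box, independence
-/

set_option autoImplicit false

namespace Pool.Agent.S77.WP
open Pool.Agent.H863R2.Cyl
open Pool.Agent.H988R2.Perc (Word PD)
open Pool.Agent.H160R2.ML
open Pool.Agent.H160R2.MU
open H974 H906.Cyl
open H12S (Dir hbE segD rimE H4 Crs Nr sqE)

namespace RI

open Relation

/-- the reduced edges of the inner box -/
noncomputable def JJ (n m : ℕ) : Finset Edg := (boxE m).image (red n)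

theorem ok2 : H974.Ok (fun _ : Edg => (1 / 2 : ℝ)) := okq (by norm_num) (by norm_num)

/-- the ends of a diagonal are near the square -/
theorem near_e {n M c : ℕ} (hc : c < 2) {e : Edg} {u w : Pt}
    (h : Dg n M c e u w ∨ Dg n M c e w u) :
    ∃ q : ℤ, |(vx M u).1 - (e.1 + q * n)| ≤ 1 ∧ |(vx M u).2 - (e.2.1 + q * n)| ≤ 1 := by
  obtain ⟨x, y, b⟩ := e
  rcases h with h | h
  all_goals
    obtain ⟨hA, hB, dA, dB, q, h⟩ := TEXI.Dg_coord h
    have e1 : q * ((2 * n : ℕ) : ℤ) = 2 * (q * n) := by push_cast; ring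
    refine ⟨q, ?_⟩
    obtain ⟨A, hA'⟩ : ∃ A : ℤ, A = q * (n : ℤ) := ⟨_, rfl⟩
    rw [e1, ← hA'] at h
    rw [← hA']
    first | rw [TEXI.vx_eq M u hA, dA] | rw [TEXI.vx_eq M u hB, dB]
    simp only [abs_le]
    cases b <;> simp only [dco, Bool.false_eq_true, if_false, if_true] at h ⊢ <;>
      rcases h with ⟨h1, h2, h3⟩ | ⟨h1, h2, h3⟩ <;> simp only [h2, h3] <;> omega

/-- a point next to the inner box -/
theorem near_J {n M c m : ℕ} (hc : c < 2) {e : Edg} (he : e ∈ JJ n m) {u w : Pt}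
    (h : Dg n M c e u w ∨ Dg n M c e w u) :
    ∃ s : ℤ, |(vx M u).1 - s * n| ≤ m + 1 ∧ |(vx M u).2 - s * n| ≤ m + 1 := by
  obtain ⟨q, h1, h2⟩ := near_e hc h
  obtain ⟨⟨x, y, b⟩, he', rfl⟩ := Finset.mem_image.1 he
  have hb : (-(m : ℤ) ≤ x ∧ x ≤ m) ∧ (-(m : ℤ) ≤ y ∧ y ≤ m) := by
    cases b <;> simp only [boxE, mem_RE_false, mem_RE_true] at he' <;> omega
  simp only [red] at h1 h2
  refine ⟨q - (x + y) / (2 * n), ?_⟩
  have e1 : (q - (x + y) / (2 * (n : ℤ))) * n = q * n - n * ((x + y) / (2 * n)) := by ring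
  rw [e1]
  obtain ⟨A, hA⟩ : ∃ A : ℤ, A = (n : ℤ) * ((x + y) / (2 * n)) := ⟨_, rfl⟩
  rw [← hA] at h1 h2 ⊢
  rw [abs_le] at h1 h2 ⊢
  rw [abs_le]
  omega

/-- a point next to a square outside the boxes -/
theorem near_far {N r k n M c : ℕ} (hc : c < 2) (hr : 1 ≤ r) (hn : n = prd N k * r) {e : Edg}
    (he : e ∉ EP r (Bxs N k)) {u w : Pt} (h : Dg n M c e u w ∨ Dg n M c e w u) (s : ℤ) :
    (N : ℤ) * r - 1 ≤ |(vx M u).1 - s * n| ∨ (N : ℤ) * r - 1 ≤ |(vx M u).2 - s * n| := by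
  obtain ⟨q, h1, h2⟩ := near_e hc h
  have h3 := TSEPB.far_box (N := N) (k := k) hr he (v := src e) (Or.inl rfl) (s - q)
  rw [← hn] at h3
  simp only [src] at h3
  have e1 : (s - q) * (n : ℤ) = s * n - q * n := by ring
  rw [e1] at h3
  rcases h3 with h3 | h3
  · left
    have h4 := abs_sub_abs_le_abs_sub (e.1 - (s * n - q * n)) (e.1 + q * n - (vx M u).1)
    rw [show e.1 - (s * (n : ℤ) - q * n) - (e.1 + q * n - (vx M u).1) = (vx M u).1 - s * n by ring,
      abs_sub_comm (e.1 + q * n) (vx M u).1] at h4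
    linarith
  · right
    have h4 := abs_sub_abs_le_abs_sub (e.2.1 - (s * n - q * n)) (e.2.1 + q * n - (vx M u).2)
    rw [show e.2.1 - (s * (n : ℤ) - q * n) - (e.2.1 + q * n - (vx M u).2) = (vx M u).2 - s * n by
      ring, abs_sub_comm (e.2.1 + q * n) (vx M u).2] at h4
    linarith

/-- small clusters which start outside the boxes do not see the inner box -/
theorem avoid {N r k n M c m l : ℕ} (hc : c < 2) (hr : 1 ≤ r) (hn : n = prd N k * r)
    (hm : 4 * l + m + 2 < N * r) {G G' : Finset Edg}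
    (hG : ∀ e, e ∉ JJ n m → (e ∈ G' ↔ e ∈ G)) (f0 : Pt → Pt → Prop) {u : Pt}
    (hu : ∃ e, e ∉ EP r (Bxs N k) ∧ ∃ w, Dg n M c e u w ∨ Dg n M c e w u)
    (hnear : ∀ v, EqvGen (fun a b => f0 a b ∨ ∃ e ∈ Ac c n M G, Dg n M c e a b) u v →
      Nr (4 * (l : ℤ)) (vx M u) (vx M v)) {v : Pt}
    (h : EqvGen (fun a b => f0 a b ∨ ∃ e ∈ Ac c n M G', Dg n M c e a b) u v) :
    Nr (4 * (l : ℤ)) (vx M u) (vx M v) := by
  have key : ∀ e, e ∈ JJ n m → ∀ a : Pt,
      EqvGen (fun a b => f0 a b ∨ ∃ e ∈ Ac c n M G, Dg n M c e a b) u a →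
      ∀ w, ¬ (Dg n M c e a w ∨ Dg n M c e w a) := by
    intro e he a ha w hw
    obtain ⟨s, h1, h2⟩ := near_J hc he hw
    obtain ⟨e', he', w', hw'⟩ := hu
    have h3 := near_far hc hr hn he' hw' s
    obtain ⟨h4, h5⟩ := hnear a ha
    have hm' : 4 * (l : ℤ) + m + 2 < N * r := by exact_mod_cast hm
    have t1 := abs_sub_le (vx M u).1 (vx M a).1 (s * n)
    have t2 := abs_sub_le (vx M u).2 (vx M a).2 (s * n)
    rcases h3 with h3 | h3 <;> linarith
  refine hnear v ((TSTB.clu f0 (fun e => Dg n M c e) (Ac c n M G) (Ac c n M G') u ?_ v).2 h)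
  intro e a b hab hor
  have hJ : e ∉ JJ n m := by
    intro he
    rcases hor with h1 | h1
    · exact key e he a h1 b (Or.inl hab)
    · exact key e he b h1 a (Or.inr hab)
  unfold Ac
  simp only [Set.mem_ofPred_eq, hG e hJ]

/-- independence with the inner event -/
theorem ind {c N r ρ l ν k m : ℕ} (_hc : c < 2) (hN : 4 ≤ N) (hν : 4 * N ≤ ν) (hr : 2 ≤ r)
    (h1 : 32 * l ≤ ρ) (hl : 1 ≤ l) (h2 : 32 * ρ ≤ r) (I : Set Edg → Prop) (hm : 2 * m ≤ N * r)
    (hI : Loc m I) :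
    PC (ν * r) (4 * (ν * r)) (fun F => (SE k (N * r / 2 : ℕ) (per (ν * r) F) ∧
      I (per (ν * r) F)) ∧ Bad c N r ρ l ν (ν * r) (4 * (ν * r)) F)
    = sPI k (N * r / 2) I * PC (ν * r) (4 * (ν * r)) (Bad c N r ρ l ν (ν * r) (4 * (ν * r))) := by
  set n : ℕ := ν * r with hndef
  set M : ℕ := 4 * n with hMdef
  set R : ℕ := N * r / 2 with hRdef
  have hmR : m ≤ R := by omega
  have hP : 4 * r ≤ N * r := Nat.mul_le_mul_right r hN
  have hnP : 4 * (N * r) ≤ n := by
    rw [hndef]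
    calc 4 * (N * r) = 4 * N * r := by ring
      _ ≤ ν * r := Nat.mul_le_mul_right r hν
  have hn : 0 < n := by omega
  have hinj : Set.InjOn (red n) (boxE R : Set Edg) := by
    apply red_inj_x
    omega
  have himg : (boxE R).image (red n) ⊆ CE n M := by
    apply image_red_sub hn
    · omega
    · omega
  have hsub : boxE m ⊆ boxE R := TMON.box_mono hmR
  have hA : ∀ F, F ⊆ CE n M → ((SE k R (per n F) ∧ I (per n F)) ↔
      (SE k R (per n (F ∩ (boxE R).image (red n))) ∧ I (per n (F ∩ (boxE R).image (red n))))) := by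
    intro F _
    have h3 : ∀ e ∈ boxE R, (e ∈ per n F ↔ e ∈ per n (F ∩ (boxE R).image (red n))) := by
      intro e he
      show red n e ∈ F ↔ red n e ∈ F ∩ (boxE R).image (red n)
      rw [Finset.mem_inter]
      exact ⟨fun h => ⟨h, Finset.mem_image_of_mem _ he⟩, fun h => h.1⟩
    exact and_congr (TIND.SE_congr h3) (hI _ _ fun e he => h3 e (hsub he))
  have hB : ∀ F, F ⊆ CE n M → (Bad c N r ρ l ν n M F ↔
      Bad c N r ρ l ν n M (F ∩ (CE n M \ (boxE R).image (red n)))) := by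
    intro F hF
    have key : ∀ e : Edg, TIND.Far n R e → (e ∈ Cc c n M F ↔
      e ∈ Cc c n M (F ∩ (CE n M \ (boxE R).image (red n)))) := fun e he => TIND.Cc_congr hF he
    constructor
    · exact TIND.Bad_mono' hndef (by omega) (by omega) (by omega) (by omega) key
    · exact TIND.Bad_mono' hndef (by omega) (by omega) (by omega) (by omega)
        fun e he => (key e he).symm
  have e1 : PC n M (fun F => (SE k R (per n F) ∧ I (per n F)) ∧ Bad c N r ρ l ν n M F) =
      PC n M (fun F => SE k R (per n F) ∧ I (per n F)) * PC n M (Bad c N r ρ l ν n M) :=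
    Pr_indep himg Finset.sdiff_subset Finset.disjoint_sdiff hA hB
  have e2 : PC n M (fun F => SE k R (per n F) ∧ I (per n F)) = sPI k R I := by
    have e3 := Pr_red (q := 1 / 2) hinj himg (fun F => SE k R (↑F : Set Edg) ∧ I (↑F : Set Edg))
    unfold sPI PC
    rw [← e3]
    apply Pr_congr
    intro F _
    have h3 : ∀ e ∈ boxE R, (e ∈ per n F ↔
        e ∈ ((Finset.filter (fun e => red n e ∈ F) (boxE R) : Finset Edg) : Set Edg)) := by
      intro e he
      simp only [Finset.coe_filter, Set.mem_ofPred_eq, he, true_and]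
      rfl
    exact and_congr (TIND.SE_congr h3) (hI _ _ fun e he => h3 e (hsub he))
  have e4 : PC n M (fun F => (SE k (N * r / 2 : ℕ) (per n F) ∧ I (per n F)) ∧
      Bad c N r ρ l ν n M F) =
      PC n M (fun F => (SE k R (per n F) ∧ I (per n F)) ∧ Bad c N r ρ l ν n M F) := rfl
  rw [e4, e1, e2]

end RI

end Pool.Agent.S77.WP
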