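import Pool.Agent.S77.WP.I_base

/-!
# The recursion with an inner event: landing
-/

set_option autoImplicit false

namespace Pool.Agent.S77.WP
open Pool.Agent.H863R2.Cyl
open Pool.Agent.H988R2.Perc (Word PD)
open Pool.Agent.H160R2.ML
open Pool.Agent.H160R2.MU
open H974 H906.Cyl
open H12S (Dir hbE segD rimE H4 Crs Nr sqE)

namespace RI

open TLAND in
/-- landing with the inner event -/
theorem land (k : ℕ) (hk : 2 ≤ k) (δ : ℝ) (hδ : 0 < δ) : ∃ N : ℕ, k + 4 ≤ N ∧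
    ∃ Cs : Finset (Fin k → Cel), (∀ c ∈ Cs, Adm N k c) ∧ ∃ r0 : ℕ, ∀ r : ℕ, r0 ≤ r →
    ∀ (m : ℕ) (I : Set Edg → Prop), 2 * m ≤ N * r → Loc m I →
    sPI k (N * r) I ≤ δ * sPI k (N * r / 2) I + ∑ c ∈ Cs,
      Pr (fun _ => (1 / 2 : ℝ)) (boxE (N * r))
        (fun F => Land N r k c (↑F : Set Edg) ∧ I (↑F : Set Edg)) := by
  classical
  obtain ⟨N, A, B, hN, hA, hB, hN2, hN3, hP⟩ := prob k δ hδ
  refine ⟨N, hN, ((Fintype.piFinset (fun _ : Fin k =>
    Finset.range 4 ×ˢ Finset.Ico (-(N : ℤ)) N)).filter (Adm N k)),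
    fun c hc => (Finset.mem_filter.1 hc).2, 1, ?_⟩
  intro r hr m I hm hI
  set Cs := ((Fintype.piFinset (fun _ : Fin k =>
    Finset.range 4 ×ˢ Finset.Ico (-(N : ℤ)) N)).filter (Adm N k)) with hCs
  set l := A * r with hl
  set ρ := B * (A * r) with hρ
  have hmR : m ≤ N * r / 2 := by omega
  have hsub : boxE m ⊆ boxE (N * r / 2) := TMON.box_mono hmR
  have h1 : 64 * r ≤ l := Nat.mul_le_mul_right r hA
  have h2 : 64 * l ≤ ρ := Nat.mul_le_mul_right _ hB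
  have h3 : 64 * ρ ≤ N * r := by
    calc 64 * ρ = 64 * (B * A) * r := by rw [hρ]; ring
      _ ≤ N * r := Nat.mul_le_mul_right r hN2
  have h4 : 64 * k ≤ N * r := by
    calc 64 * k ≤ N := hN3
      _ = N * 1 := (mul_one N).symm
      _ ≤ N * r := Nat.mul_le_mul_left N hr
  have hcov : sPI k (N * r) I ≤ Pr (fun _ => (1 / 2 : ℝ)) (boxE (N * r)) (fun F =>
      ((SE k (N * r / 2 : ℕ) (↑F : Set Edg) ∧ I (↑F : Set Edg)) ∧
        BadL r l ρ (N * r) (↑F : Set Edg)) ∨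
      ∃ c ∈ Cs, Land N r k c (↑F : Set Edg) ∧ I (↑F : Set Edg)) := by
    unfold sPI
    refine Pr_mono RI.ok2 fun F _ hF => ?_
    by_cases hb : BadL r l ρ (N * r) (↑F : Set Edg)
    · exact Or.inl ⟨⟨TMON.se_mono hk (by omega) (Nat.div_le_self _ _) hF.1, hF.2⟩, hb⟩
    · right
      obtain ⟨c, hc, hc'⟩ := det hk hr h1 h2 h3 h4 hb hF.1
      refine ⟨c, ?_, hc', hF.2⟩
      rw [hCs, Finset.mem_filter, Fintype.mem_piFinset]
      refine ⟨fun a => ?_, hc⟩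
      have := hc.1 a
      rw [Finset.mem_product, Finset.mem_range, Finset.mem_Ico]
      exact this
  have hloc : ∀ F : Finset Edg, ((SE k (N * r / 2 : ℕ) (↑F : Set Edg) ∧ I (↑F : Set Edg)) ↔
      (SE k (N * r / 2 : ℕ) (↑(F ∩ boxE (N * r / 2)) : Set Edg) ∧
        I (↑(F ∩ boxE (N * r / 2)) : Set Edg))) := by
    intro F
    refine and_congr (TMON.se_local F) (hI _ _ fun e he => ?_)
    rw [Finset.mem_coe, Finset.mem_coe, Finset.mem_inter]
    exact ⟨fun h => ⟨h, hsub he⟩, fun h => h.1⟩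
  have hind : Pr (fun _ => (1 / 2 : ℝ)) (boxE (N * r)) (fun F =>
      ((SE k (N * r / 2 : ℕ) (↑F : Set Edg) ∧ I (↑F : Set Edg)) ∧
        BadL r l ρ (N * r) (↑F : Set Edg))) =
      Pr (fun _ => (1 / 2 : ℝ)) (boxE (N * r))
        (fun F => SE k (N * r / 2 : ℕ) (↑F : Set Edg) ∧ I (↑F : Set Edg)) *
      Pr (fun _ => (1 / 2 : ℝ)) (boxE (N * r)) (fun F => BadL r l ρ (N * r) (↑F : Set Edg)) := by
    refine Pr_indep (S := boxE (N * r / 2)) (T := boxE (N * r) \ boxE (N * r / 2))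
      (TMON.box_mono (Nat.div_le_self _ _)) Finset.sdiff_subset Finset.disjoint_sdiff
      (fun F _ => hloc F) (fun F hF => ?_)
    have key : ∀ e : Edg, e ∉ boxE (N * r / 2) →
        (e ∈ (↑F : Set Edg) ↔ e ∈ (↑(F ∩ (boxE (N * r) \ boxE (N * r / 2))) : Set Edg)) := by
      intro e he
      rw [Finset.mem_coe, Finset.mem_coe, Finset.mem_inter, Finset.mem_sdiff]
      exact ⟨fun h => ⟨h, hF h, he⟩, fun h => h.1⟩
    exact ⟨bad_mono hr h1 h2 h3 key, bad_mono hr h1 h2 h3 fun e he => (key e he).symm⟩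
  have hsp : Pr (fun _ => (1 / 2 : ℝ)) (boxE (N * r))
      (fun F => SE k (N * r / 2 : ℕ) (↑F : Set Edg) ∧ I (↑F : Set Edg)) =
      sPI k (N * r / 2) I :=
    Pr_local (TMON.box_mono (Nat.div_le_self _ _)) fun F _ => hloc F
  have hsp0 : 0 ≤ sPI k (N * r / 2) I := Pr_nonneg RI.ok2 _ _
  refine hcov.trans ((Pr_or_le RI.ok2 _ _ _).trans (add_le_add ?_ (Pr_exists_le RI.ok2 _ _ _)))
  rw [hind, hsp, mul_comm]
  exact mul_le_mul_of_nonneg_right (hP r hr) hsp0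

/-- transport to the cylinder -/
theorem detp (hD : S_DET) (N r k : ℕ) (c : Fin k → Cel) (hk : 2 ≤ k) (hN : k + 4 ≤ N)
    (hr : 2 ≤ r) (hc : Adm N k c) (n M : ℕ) (hn : n = prd N k * r) (hM : M = 4 * n) (τ σ : Word)
    (m : ℕ) (I : Set Edg → Prop) (hm : 2 * m ≤ N * r) (hI : Loc m I) :
    Pr (fun _ => (1 / 2 : ℝ)) (boxE (N * r))
        (fun F => Land N r k c (↑F : Set Edg) ∧ I (↑F : Set Edg)) ≤
      PC n M (fun F => PG 0 n M k (↑(FA N r k c n M F)) τ σ ∧ I (per n F)) := by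
  have hNr : N * r ≤ (N + 4 * k) * r := Nat.mul_le_mul_right r (by omega)
  have hpos : 0 < N * r := Nat.mul_pos (by omega) (by omega)
  have hn' : n = 4 * ((N + 4 * k) * r) := by rw [hn, prd]; ring
  have hR := Pr_red (n := n) (q := 1/2) (S := CE n M) (B := boxE (N * r))
    (by unfold boxE; exact red_inj_x (by omega))
    (by unfold boxE; exact image_red_sub (by omega) (by omega) (by omega))
    (fun F => Land N r k c (↑F : Set Edg) ∧ I (↑F : Set Edg))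
  rw [← hR]
  unfold PC
  apply Pr_mono (okq (q := 1/2) (by norm_num) (by norm_num))
  rintro F hF ⟨hL, hI'⟩
  refine ⟨?_, ?_⟩
  · apply hD N r k c hk hN hr hc n M hn hM F hF
    refine (TDETP.Land_congr ?_).1 hL
    intro e h1 h2
    rw [Finset.mem_coe, Finset.mem_filter]
    exact ⟨fun h => h.2, fun h => ⟨TDETP.mem_box h1 h2, h⟩⟩
  · refine (hI _ _ fun e he => ?_).1 hI'
    rw [Finset.mem_coe, Finset.mem_filter]
    exact ⟨fun h => h.2, fun h => ⟨TMON.box_mono (by omega : m ≤ N * r) he, h⟩⟩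

end RI

end Pool.Agent.S77.WP
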