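import Pool.Agent.S77.WP.I_base

/-!
# The recursion with an inner event: re-randomising the tubes (class 1)
-/

set_option autoImplicit false

namespace Pool.Agent.S77.WP
open Pool.Agent.H863R2.Cyl
open Pool.Agent.H988R2.Perc (Word PD)
open Pool.Agent.H160R2.ML
open Pool.Agent.H160R2.MU
open H974 H906.Cyl
open H12S (Dir hbE segD rimE H4 Crs Nr sqE)

namespace RI

open Relation Pool.Agent.H160R2.MU.TSTA

/-- **the clusters of the marked points do not merge** -/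
theorem stay (hABS : S_ABS) (hSEPA : S_SEPA) {N r k ρ l : ℕ} {c : Fin k → Cel} (hk : 2 ≤ k)
    (hN : k + 4 ≤ N) (hc : Adm N k c) (hl : 1 ≤ l) (hlρ : 32 * l ≤ ρ) (hρ : 32 * ρ ≤ r) {n M : ℕ}
    (hn : n = prd N k * r) (hM : M = 4 * n) (hn1 : 1 ≤ n)
    (hb : ∀ e ∈ EP r (Bxs N k) ∪ EP r (Crr N k c), -(2 * (n : ℤ)) ≤ dco e ∧ dco e + 1 ≤ 2 * n)
    {τ σ : Word} (hτ : τ.length = 2 * n) (hσ : σ.length = 2 * n) {F G : Finset Edg}
    (hF : F ⊆ CE n M) (hBad : ¬ Bad 1 N r ρ l (prd N k) n M F)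
    (hT : ∀ u v, Dp N r k c n M u → EqvGen (fun a b => (∃ j : ℤ, a = ((j, M), false) ∧
      b = ((j, M), true)) ∨ ∃ e ∈ Ac 1 n M G, Dg n M 1 e a b) u v →
      Nr (4 * l) (vx M u) (vx M v))
    {x x' : Pt} (hx : XA N r k c n M x) (hx' : XA N r k c n M x') :
    RB 1 n M k (Ac 1 n M (FB N r k c n M (mx N r k c n M τ σ F G))) τ σ x x' ↔
      RB 1 n M k (Ac 1 n M (FA N r k c n M F)) τ σ x x' := by
  rw [RB_R1 B_eq (XA_cls hx), RB_R1 A_eq (XA_cls hx)]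
  refine hABS Pt Edg (Dg n M 1) (Gl n M k) (fX N r k c n M τ σ) (ST N r k n M) (SD N r k c n M)
    {e | e ∉ F} (Ac 1 n M G)
    {e | (e ∈ ST N r k n M ∨ e ∈ SD N r k c n M) ∧ e ∉ mx N r k c n M τ σ F G}
    {p | XA N r k c n M p} (fun u v => Nr (4 * l) (vx M u) (vx M v)) (R1 N r k c n M τ σ)
    (KK N r k c n M τ σ F) (Dp N r k c n M) ?_ ?_ ?_ ?_ ?_ ?_ ?_ ?_ ?_ ?_ ?_ x hx x' hx'
  · intro B; rfl
  · intro u; exact Iff.rfl
  · intro u; exact Iff.rfl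
  · intro u v h
    exact fX_XA hn1 (by omega) (fun e he => by have := hb e he; omega) h
  · rintro e he ⟨u, v, h1, h2⟩
    refine ⟨fun u' v' h3 => KK_lift hτ hσ h1 h3 h2, ?_⟩
    have h4 := (mem_mx (G := G)).1 (mem_Xp.2 ⟨he, u, v, h1, h2⟩)
    show ((e ∈ ST N r k n M ∨ e ∈ SD N r k c n M) ∧ e ∉ mx N r k c n M τ σ F G) ↔ e ∉ F
    rw [h4]
    exact ⟨fun h => h.2, fun h => ⟨Or.inl he, h⟩⟩
  · intro e he h1 h2
    have h3 : e ∉ Xp N r k c n M τ σ F := by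
      intro h4
      obtain ⟨_, u, v, h5, h6⟩ := mem_Xp.1 h4
      have := h1 u v h5
      tauto
    have h4 := (mem_mx (G := G)).2 h3
    have h5 : e ∉ G := fun h6 => h2.2 (h4.2 h6)
    exact ⟨he.1, fun h6 => absurd h6 h5, fun h6 => absurd h6 one_ne_zero⟩
  · intro e he
    exact he.1
  · intro e he h2
    have h3 : e ∉ Xp N r k c n M τ σ F := by
      intro h4
      exact he.2.1 (mem_Xp.1 h4).1.2
    have h4 := (mem_mx (G := G)).2 h3
    have h5 : e ∉ G := fun h6 => h2.2 (h4.2 h6)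
    exact ⟨he.1, fun h6 => absurd h6 h5, fun h6 => absurd h6 one_ne_zero⟩
  · rw [Set.disjoint_left]
    intro e h1 h2
    exact h2.2.1 h1.2
  · intro u v hu hDu huv
    refine hT u v hDu (eqv_mono ?_ huv)
    rintro a b (hab | hab)
    · cases hab with
      | glue s i hi => exact Or.inl ⟨_, rfl, rfl⟩
    · exact Or.inr hab
  · intro x hx x' hx' u u' h1 h2 hu hu' hnear
    rw [← RB_R1 A_eq (XA_cls hx)] at h1 ⊢
    rw [← RB_R1 A_eq (XA_cls hx')] at h2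
    obtain ⟨e, he, w, h3⟩ := hu
    obtain ⟨e', he', w', h3'⟩ := hu'
    exact hSEPA N r k ρ l c hk hN hc hl hlρ hρ n M hn hM F hF hBad τ σ x x' u u' hx hx' h1 h2
      ⟨e, he.1, he.2.1, he.2.2, w, h3⟩ ⟨e', he'.1, he'.2.1, he'.2.2, w', h3'⟩ hnear

theorem PG_stay (hABS : S_ABS) (hSEPA : S_SEPA) {N r k ρ l : ℕ} {c : Fin k → Cel} (hk : 2 ≤ k)
    (hN : k + 4 ≤ N) (hc : Adm N k c) (hl : 1 ≤ l) (hlρ : 32 * l ≤ ρ) (hρ : 32 * ρ ≤ r) {n M : ℕ}
    (hn : n = prd N k * r) (hM : M = 4 * n) (hn1 : 1 ≤ n)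
    (hb : ∀ e ∈ EP r (Bxs N k) ∪ EP r (Crr N k c), -(2 * (n : ℤ)) ≤ dco e ∧ dco e + 1 ≤ 2 * n)
    {τ σ : Word} (hτ : τ.length = 2 * n) (hσ : σ.length = 2 * n) {F G : Finset Edg}
    (hF : F ⊆ CE n M) (hBad : ¬ Bad 1 N r ρ l (prd N k) n M F)
    (hT : ∀ u v, Dp N r k c n M u → EqvGen (fun a b => (∃ j : ℤ, a = ((j, M), false) ∧
      b = ((j, M), true)) ∨ ∃ e ∈ Ac 1 n M G, Dg n M 1 e a b) u v →
      Nr (4 * l) (vx M u) (vx M v))
    (h : PG 1 n M k (Ac 1 n M (FA N r k c n M F)) τ σ) :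
    PG 1 n M k (Ac 1 n M (FB N r k c n M (mx N r k c n M τ σ F G))) τ σ := by
  have key := fun (x x' : Pt) (hx : XA N r k c n M x) (hx' : XA N r k c n M x') =>
    stay hABS hSEPA hk hN hc hl hlρ hρ hn hM hn1 hb hτ hσ hF hBad hT hx hx'
  have hs : ∀ (s : ℤ) (i : ℕ), i < 2 * k → i % 2 = 1 → XA N r k c n M (sec n M k s i) :=
    fun s i hi hi' => Or.inl ⟨s, i, hi, hi', rfl⟩
  refine ⟨?_, ?_⟩
  · intro i j hi hj hi' hj' hij h1
    exact h.1 i j hi hj hi' hj' hij ((key _ _ (hs 0 i hi hi') (hs 0 j hj hj')).1 h1)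
  · intro i hi hi'
    obtain ⟨s, hs0, j, hj, h1⟩ := h.2 i hi hi'
    have h2 : j % 2 = 1 := (sec_cls n M k s j (by omega) 1).1
      (RB_cls (XA_cls (hs 0 i hi hi')) h1)
    exact ⟨s, hs0, j, hj, (key _ _ (hs 0 i hi hi') (hs s j hj h2)).2 h1⟩

/-- mixing with the inner box kept -/
theorem mxJ {N r k : ℕ} {c : Fin k → Cel} {n M : ℕ} {τ σ : Word} {F G J : Finset Edg} :
    (F ∩ (Xp N r k c n M τ σ F ∪ J)) ∪ (G \ (Xp N r k c n M τ σ F ∪ J)) =
      mx N r k c n M τ σ F ((F ∩ J) ∪ (G \ J)) := by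
  unfold mx
  ext e
  simp only [Finset.mem_union, Finset.mem_inter, Finset.mem_sdiff]
  tauto

/-- **the tubes are re-randomised: class 1** -/
theorem sta (hABS : S_ABS) (hPRB : S_PRB) (hSEPA : S_SEPA) (hTRAP : S_TRAP) (hBADP : S_BADP)
    (hDEC : S_DEC) (hg4 : S_g4) (hG : S_G) (N k : ℕ) (c : Fin k → Cel) (hk : 2 ≤ k)
    (hN : k + 4 ≤ N) (hc : Adm N k c) (δ : ℝ) (hδ : 0 < δ) :
    ∃ C : ℝ, 0 < C ∧ ∃ r0 : ℕ, ∀ r : ℕ, r0 ≤ r →
    ∀ (m : ℕ) (I : Set Edg → Prop), 2 * m ≤ N * r → Loc m I → ∀ (n M : ℕ), n = prd N k * r →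
    M = 4 * n → ∀ σ τ : Wd (2 * n - 1 + 1),
    PC n M (fun F => PG 0 n M k (↑(FA N r k c n M F)) τ.1 σ.1 ∧ I (per n F)) ≤
      δ * sPI k (N * r / 2) I +
        C * PC n M (fun F => PG 0 n M k (↑(FB N r k c n M F)) τ.1 σ.1 ∧ I (per n F)) := by
  have hν : 4 * N ≤ prd N k := by unfold prd; omega
  obtain ⟨M3, M4, hM3, hM4, hB⟩ := hBADP N (prd N k) (by omega) hν δ hδ
  obtain ⟨κ, hκ, r0, hT⟩ := hTRAP (prd N k) M4 (by omega) (by omega)
  refine ⟨1 / κ, by positivity, max r0 M4, ?_⟩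
  intro r hr m I hm hI n M hn hM σ τ
  have hr1 : r0 ≤ r := le_trans (le_max_left _ _) hr
  have hr2 : M4 ≤ r := le_trans (le_max_right _ _) hr
  have hrb : 64 * 64 ≤ r := by omega
  have hl : 1 ≤ r / M4 := (Nat.one_le_div_iff (by omega)).2 hr2
  have hρ : 32 * (r / M3) ≤ r := by
    have h1 : M3 * (r / M3) ≤ r := Nat.mul_div_le r M3
    nlinarith [Nat.zero_le (r / M3)]
  have hlρ : 32 * (r / M4) ≤ r / M3 := by
    rw [Nat.le_div_iff_mul_le (by omega)]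
    have h1 : M4 * (r / M4) ≤ r := Nat.mul_div_le r M4
    nlinarith [Nat.zero_le (r / M4), Nat.mul_le_mul_right (r / M4) hM4]
  have hprd : 24 ≤ prd N k := by unfold prd; omega
  have hkp : k ≤ prd N k := by unfold prd; omega
  have hnr : prd N k ≤ n := by rw [hn]; exact Nat.le_mul_of_pos_right _ (by omega)
  have hnr' : 24 * r ≤ n := by rw [hn]; exact Nat.mul_le_mul_right r hprd
  have hNrn : 4 * (N * r) ≤ n := by
    rw [hn, ← mul_assoc]; exact Nat.mul_le_mul_right r hν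
  have hN6 : 6 * r ≤ N * r := Nat.mul_le_mul_right r (by omega)
  have hb : ∀ e ∈ EP r (Bxs N k) ∪ EP r (Crr N k c),
      -(2 * (n : ℤ)) ≤ dco e ∧ dco e + 1 ≤ 2 * n := by
    have h4 := (hg4 N k c (by omega) hk hc _ rfl).2.2.2
    have h5 : ∀ e ∈ EP r (Bxs N k ∪ Crr N k c), -(2 * (n : ℤ)) ≤ dco e ∧ dco e + 1 ≤ 2 * n := by
      intro e he
      have := TSTA.EP_bd (r := r) h4 he
      rw [← hn] at this
      omega
    rintro e (⟨z, hz, he⟩ | ⟨z, hz, he⟩)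
    · exact h5 e ⟨z, Or.inl hz, he⟩
    · exact h5 e ⟨z, Or.inr hz, he⟩
  have hτ : τ.1.length = 2 * n := by have := τ.2.1; omega
  have hσ : σ.1.length = 2 * n := by have := σ.2.1; omega
  have e1 : M = 4 * (prd N k * r) := by rw [hM, hn]
  have hsP : 0 ≤ sPI k (N * r / 2) I := Pr_nonneg ok2 _ _
  -- the bad part
  have hbad : PC n M (fun F => (SE k (N * r / 2 : ℕ) (per n F) ∧ I (per n F)) ∧
      Bad 1 N r (r / M3) (r / M4) (prd N k) n M F) ≤ δ * sPI k (N * r / 2) I := by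
    have h1 := ind (c := 1) (N := N) (r := r) (ρ := r / M3) (l := r / M4) (ν := prd N k) (k := k)
      (by norm_num) (by omega) hν (by omega) hlρ hl hρ I hm hI
    have h2 := hB 1 r (by norm_num) hr2
    rw [← hn, ← hM] at h1 h2
    rw [h1, mul_comm δ]
    exact mul_le_mul_of_nonneg_left h2 hsP
  -- the good part
  have hgood : PC n M (fun F => (PG 0 n M k (↑(FA N r k c n M F)) τ.1 σ.1 ∧ I (per n F)) ∧
      ¬ Bad 1 N r (r / M3) (r / M4) (prd N k) n M F) * PC n M (Trap 1 n M (r / M4)) ≤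
      PC n M (fun F => PG 0 n M k (↑(FB N r k c n M F)) τ.1 σ.1 ∧ I (per n F)) := by
    refine hPRB (CE n M) (fun F => Xp N r k c n M τ.1 σ.1 F ∪ JJ n m) _ _ _ ?_ ?_
    · intro F G _ _
      show Xp N r k c n M τ.1 σ.1 ((F ∩ (Xp N r k c n M τ.1 σ.1 F ∪ JJ n m)) ∪
        (G \ (Xp N r k c n M τ.1 σ.1 F ∪ JJ n m))) ∪ JJ n m = _
      rw [mxJ, Xp_mx]
    · rintro F G hF hG' ⟨⟨h1, hI'⟩, h2⟩ h3
      show PG 0 n M k (↑(FB N r k c n M ((F ∩ (Xp N r k c n M τ.1 σ.1 F ∪ JJ n m)) ∪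
        (G \ (Xp N r k c n M τ.1 σ.1 F ∪ JJ n m))))) τ.1 σ.1 ∧
        I (per n ((F ∩ (Xp N r k c n M τ.1 σ.1 F ∪ JJ n m)) ∪
        (G \ (Xp N r k c n M τ.1 σ.1 F ∪ JJ n m))))
      constructor
      · rw [mxJ]
        rw [TSTA.PG01 hG (by omega) hk (by omega) TSTA.FA_sub σ τ] at h1
        rw [TSTA.PG01 hG (by omega) hk (by omega) TSTA.FB_sub σ τ]
        refine PG_stay hABS hSEPA hk hN hc hl hlρ hρ hn hM (by omega) hb hτ hσ hF h2 ?_ h1
        intro u v hu huv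
        obtain ⟨h4, h5⟩ := Dp_lev (fun e he => hb e (Or.inr he)) hu
        refine avoid (N := N) (r := r) (k := k) (m := m) (G := G) (by norm_num) (by omega) hn ?_ ?_
          (fun a b => ∃ j : ℤ, a = ((j, M), false) ∧ b = ((j, M), true)) ?_ ?_ huv
        · have : r / M4 ≤ r / 64 := Nat.div_le_div_left (by omega) (by norm_num)
          omega
        · intro e he
          rw [Finset.mem_union, Finset.mem_inter, Finset.mem_sdiff]
          tauto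
        · obtain ⟨e, he, w, hw⟩ := hu
          exact ⟨e, he.2.1, w, hw⟩
        · intro v' hv'
          exact h3 u v' h4 h5 hv'
      · refine (hI _ _ fun e he => ?_).1 hI'
        have : red n e ∈ JJ n m := Finset.mem_image_of_mem _ he
        show red n e ∈ F ↔ red n e ∈ (F ∩ (Xp N r k c n M τ.1 σ.1 F ∪ JJ n m)) ∪
          (G \ (Xp N r k c n M τ.1 σ.1 F ∪ JJ n m))
        rw [Finset.mem_union, Finset.mem_inter, Finset.mem_sdiff, Finset.mem_union]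
        tauto
  have htrap : κ ≤ PC n M (Trap 1 n M (r / M4)) := by
    have h1 := hT 1 r (by norm_num) hr1
    rw [← hn, ← hM] at h1
    exact h1
  have hsplit : PC n M (fun F => PG 0 n M k (↑(FA N r k c n M F)) τ.1 σ.1 ∧ I (per n F)) ≤
      PC n M (fun F => (SE k (N * r / 2 : ℕ) (per n F) ∧ I (per n F)) ∧
        Bad 1 N r (r / M3) (r / M4) (prd N k) n M F) +
      PC n M (fun F => (PG 0 n M k (↑(FA N r k c n M F)) τ.1 σ.1 ∧ I (per n F)) ∧
        ¬ Bad 1 N r (r / M3) (r / M4) (prd N k) n M F) := by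
    refine le_trans ?_ (Pr_or_le ok2 _ _ _)
    refine Pr_mono ok2 ?_
    intro F hF h
    by_cases h1 : Bad 1 N r (r / M3) (r / M4) (prd N k) n M F
    · refine Or.inl ⟨⟨?_, h.2⟩, h1⟩
      refine hDEC n M k (N * r / 2) hk ?_ ?_ ?_ (FA N r k c n M F) F TSTA.FA_sub hF
        (TSTA.FA_box (by omega) (by omega) hn hF) τ.1 σ.1 h.1
      · have : N * 2 ≤ N * r := Nat.mul_le_mul_left N (by omega)
        omega
      · omega
      · omega
    · exact Or.inr ⟨h, h1⟩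
  have hg0 : 0 ≤ PC n M (fun F => (PG 0 n M k (↑(FA N r k c n M F)) τ.1 σ.1 ∧ I (per n F)) ∧
      ¬ Bad 1 N r (r / M3) (r / M4) (prd N k) n M F) := Pr_nonneg ok2 _ _
  have hfin : PC n M (fun F => (PG 0 n M k (↑(FA N r k c n M F)) τ.1 σ.1 ∧ I (per n F)) ∧
      ¬ Bad 1 N r (r / M3) (r / M4) (prd N k) n M F) ≤
      1 / κ * PC n M (fun F => PG 0 n M k (↑(FB N r k c n M F)) τ.1 σ.1 ∧ I (per n F)) := by
    rw [one_div, ← div_eq_inv_mul, le_div_iff₀ hκ]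
    exact le_trans (mul_le_mul_of_nonneg_left htrap hg0) hgood
  linarith

end RI

end Pool.Agent.S77.WP
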