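import Pool.Agent.S77.WP.I_base

/-!
# The recursion with an inner event: re-randomising everything
-/

set_option autoImplicit false

namespace Pool.Agent.S77.WP
open Pool.Agent.H863R2.Cyl
open Pool.Agent.H988R2.Perc (Word PD)
open Pool.Agent.H160R2.ML
open Pool.Agent.H160R2.MU
open H974 H906.Cyl
open H12S (Dir hbE segD rimE H4 Crs Nr sqE)

namespace RI

open Relation Pool.Agent.H160R2.MU.TSTB

/-- the deterministic step: the exploration stays separated in the mixed configuration -/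
theorem det0 (hABS : S_ABS) (hSEPB : S_SEPB) {N r k ρ l : ℕ} {c : Fin k → Cel} (hk : 2 ≤ k)
    (hN : k + 4 ≤ N) (hc : Adm N k c) (hl : 1 ≤ l) (hlρ : 32 * l ≤ ρ) (hρr : 32 * ρ ≤ r)
    {n M : ℕ} (hn : n = prd N k * r) (hM : M = 4 * n) (hn1 : 1 ≤ n)
    (hB : ∀ F : Finset Edg, ∀ e ∈ (↑(FB N r k c n M F) : Set Edg), |dco e| ≤ n + r + 1)
    (hnr : r + 2 ≤ n) {F G : Finset Edg} (hF : F ⊆ CE n M)
    {τ σ : Word} (hbad : ¬ Bad 0 N r ρ l (prd N k) n M F)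
    (hT : ∀ u v, PI n M 0 u → (∃ e ∈ DD N r k c n M, ∃ w, Dg n M 0 e u w ∨ Dg n M 0 e w u) →
      EqvGen (fun a b => (Wl τ σ a b ∨ Gl n M k a b) ∨ ∃ e ∈ Ac 0 n M G, Dg n M 0 e a b) u v →
      Nr (4 * (l : ℤ)) (vx M u) (vx M v)) :
    ∀ x ∈ XX n M k, ∀ x' ∈ XX n M k,
      (RB 0 n M k (Ac 0 n M (mix (Exx N r k c n M τ σ F) F G)) τ σ x x' ↔
        RB 0 n M k ((↑F : Set Edg) ∩ TT N r k c n M) τ σ x x') := by
  have hXPI : ∀ x ∈ XX n M k, PI n M 0 x := by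
    rintro x ⟨s, i, _, h2, rfl⟩
    exact PI_sec s i h2
  have hKPI : ∀ u, KK N r k c n M τ σ F u → PI n M 0 u := by
    rintro u ⟨s, i, h1, h2, h⟩
    exact (kfull (by norm_num) hn1 hM hnr (hB F) (PI_sec s i h2) h).1
  have hKsh : ∀ u (q : ℤ), KK N r k c n M τ σ F u → KK N r k c n M τ σ F (sh n q u) := by
    rintro u q ⟨s, i, h1, h2, h⟩
    refine ⟨s + q, i, h1, h2, ?_⟩
    rw [← sec_sh]
    exact RB_sh (by norm_num) hn1 hM hnr (hB F) (PI_sec s i h2) h q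
  refine hABS Pt Edg (fun e => Dg n M 0 e) (fun x y => Wl τ σ x y ∨ Gl n M k x y)
    (fun _ _ => False) (TT N r k c n M) (DD N r k c n M) (↑F) (Ac 0 n M G)
    (Ac 0 n M (mix (Exx N r k c n M τ σ F) F G)) (XX n M k)
    (fun u v => Nr (4 * (l : ℤ)) (vx M u) (vx M v)) (fun B => RB 0 n M k B τ σ)
    (KK N r k c n M τ σ F)
    (fun u => ∃ e ∈ DD N r k c n M, ∃ w, Dg n M 0 e u w ∨ Dg n M 0 e w u)
    ?_ (fun u => KK_iff) (fun u => Iff.rfl) (fun u v h => h.elim) ?_ ?_ ?_ ?_ ?_ ?_ ?_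
  · intro B
    show RB 0 n M k B τ σ = _
    rw [RB_eq]
    congr 1
    funext x y
    refine propext ⟨?_, ?_⟩
    · rintro (h | h)
      · exact Or.inl h
      · exact Or.inr (Or.inr h)
    · rintro (h | h | h)
      · exact Or.inl h
      · exact h.elim
      · exact Or.inr h
  · rintro e he ⟨u, v, huv, hor⟩
    have heE : e ∈ Exx N r k c n M τ σ F := mem_Exx.2 ⟨he, u, v, huv, hor⟩
    refine ⟨?_, ?_⟩
    · intro u' v' h'
      obtain ⟨q, rfl, rfl⟩ := Dg_uniq huv h'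
      rcases hor with h | h
      · exact Or.inl (hKsh _ q h)
      · exact Or.inr (hKsh _ q h)
    · rw [mem_Ac0, mem_mix, Finset.mem_coe]
      have h1 : e ∈ CE n M := he.1
      constructor
      · rintro ⟨_, h | h⟩
        · exact h.1
        · exact absurd heE h.2
      · exact fun h => ⟨h1, Or.inl ⟨h, heE⟩⟩
  · intro e he hno heH
    have heE : e ∉ Exx N r k c n M τ σ F := by
      rw [mem_Exx]
      rintro ⟨_, u, v, huv, h | h⟩
      · exact (hno u v huv).1 h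
      · exact (hno u v huv).2 h
    rw [mem_Ac0, mem_mix] at heH
    rw [mem_Ac0]
    rcases heH.2 with h | h
    · exact absurd h.2 heE
    · exact ⟨heH.1, h.1⟩
  · intro e he
    rw [mem_Ac0] at he
    by_cases h : e ∈ EP r (Bxs N k) ∨ e ∈ EP r (Crr N k c)
    · exact Or.inl ⟨he.1, h⟩
    · push Not at h
      exact Or.inr ⟨he.1, h.1, h.2⟩
  · intro e he heH
    have heE : e ∉ Exx N r k c n M τ σ F := by
      rw [mem_Exx]
      rintro ⟨⟨_, h | h⟩, _⟩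
      · exact he.2.1 h
      · exact he.2.2 h
    rw [mem_Ac0, mem_mix] at heH
    rw [mem_Ac0]
    rcases heH.2 with h | h
    · exact absurd h.2 heE
    · exact ⟨heH.1, h.1⟩
  · rw [Set.disjoint_left]
    rintro e ⟨_, h | h⟩ h'
    · exact h'.2.1 h
    · exact h'.2.2 h
  · intro u v hu hDu h
    exact hT u v (hKPI u hu) hDu h
  · rintro x ⟨s, i, h1, h2, rfl⟩ x' ⟨s', i', h1', h2', rfl⟩ u u' hu hu' hDu hDu' hnear
    simp only [coe_inter] at hu hu' ⊢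
    refine hSEPB N r k ρ l c hk hN hc hl hlρ hρr n M hn hM F hF hbad τ σ s s' i i' u u' h1 h1'
      h2 h2' hu hu' ?_ ?_ hnear
    · obtain ⟨e, he, w, hw⟩ := hDu
      exact ⟨e, he.1, he.2.1, he.2.2, w, hw⟩
    · obtain ⟨e, he, w, hw⟩ := hDu'
      exact ⟨e, he.1, he.2.1, he.2.2, w, hw⟩

theorem det (hABS : S_ABS) (hSEPB : S_SEPB) {N r k ρ l : ℕ} {c : Fin k → Cel} (hk : 2 ≤ k)
    (hN : k + 4 ≤ N) (hc : Adm N k c) (hl : 1 ≤ l) (hlρ : 32 * l ≤ ρ) (hρr : 32 * ρ ≤ r)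
    {n M : ℕ} (hn : n = prd N k * r) (hM : M = 4 * n)
    (hband : ∀ e : Edg, (e ∈ EP r (Bxs N k) ∨ e ∈ EP r (Crr N k c)) → |dco e| ≤ n + r + 1)
    (hnr : r + 2 ≤ n) {F G : Finset Edg} (hF : F ⊆ CE n M)
    {τ σ : Word} (hbad : ¬ Bad 0 N r ρ l (prd N k) n M F)
    (hPG : PG 0 n M k (↑(FB N r k c n M F)) τ σ)
    (hT : ∀ u v, PI n M 0 u → (∃ e ∈ DD N r k c n M, ∃ w, Dg n M 0 e u w ∨ Dg n M 0 e w u) →
      EqvGen (fun a b => (Wl τ σ a b ∨ Gl n M k a b) ∨ ∃ e ∈ Ac 0 n M G, Dg n M 0 e a b) u v →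
      Nr (4 * (l : ℤ)) (vx M u) (vx M v)) :
    PG 0 n M k (Ac 0 n M (mix (Exx N r k c n M τ σ F) F G)) τ σ := by
  have hn1 : 1 ≤ n := by omega
  have hB : ∀ F : Finset Edg, ∀ e ∈ (↑(FB N r k c n M F) : Set Edg), |dco e| ≤ n + r + 1 := by
    intro F e he
    rw [Finset.mem_coe, mem_FB] at he
    exact hband e he.2.1
  have habs := det0 hABS hSEPB hk hN hc hl hlρ hρr hn hM hn1 hB hnr hF hbad hT
    (τ := τ) (σ := σ)
  rw [coe_inter] at habs
  refine ⟨?_, ?_⟩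
  · intro i j hi hj hi2 hj2 hij h
    refine hPG.1 i j hi hj hi2 hj2 hij ?_
    exact (habs _ ⟨0, i, hi, hi2, rfl⟩ _ ⟨0, j, hj, hj2, rfl⟩).1 h
  · intro i hi hi2
    obtain ⟨s, hs, j, hj, h⟩ := hPG.2 i hi hi2
    refine ⟨s, hs, j, hj, ?_⟩
    have hj2 : j % 2 = 0 :=
      sec_par (kfull (c := 0) (by norm_num) hn1 hM hnr (hB F) (PI_sec 0 i hi2) h).1.1
    exact (habs _ ⟨0, i, hi, hi2, rfl⟩ _ ⟨s, j, hj, hj2, rfl⟩).2 h

/-- mixing with the inner box kept -/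
theorem mixJ {N r k : ℕ} {c : Fin k → Cel} {n M : ℕ} {τ σ : Word} {F G J : Finset Edg} :
    (F ∩ (Exx N r k c n M τ σ F ∪ J)) ∪ (G \ (Exx N r k c n M τ σ F ∪ J)) =
      mix (Exx N r k c n M τ σ F) F ((F ∩ J) ∪ (G \ J)) := by
  ext e
  rw [mem_mix]
  simp only [Finset.mem_union, Finset.mem_inter, Finset.mem_sdiff]
  tauto

/-- **everything is re-randomised** -/
theorem stb (hABS : S_ABS) (hPRB : S_PRB) (hSEPB : S_SEPB) (hTRAP : S_TRAP) (hBADP : S_BADP)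
    (hDEC : S_DEC) (hg4 : S_g4) (N k : ℕ) (c : Fin k → Cel) (hk : 2 ≤ k)
    (hN : k + 4 ≤ N) (hc : Adm N k c) (δ : ℝ) (hδ : 0 < δ) :
    ∃ C : ℝ, 0 < C ∧ ∃ r0 : ℕ, ∀ r : ℕ, r0 ≤ r →
    ∀ (m : ℕ) (I : Set Edg → Prop), 2 * m ≤ N * r → Loc m I → ∀ (n M : ℕ), n = prd N k * r →
    M = 4 * n → ∀ σ τ : Wd (2 * n - 1 + 1),
    PC n M (fun F => PG 0 n M k (↑(FB N r k c n M F)) τ.1 σ.1 ∧ I (per n F)) ≤
      δ * sPI k (N * r / 2) I +
        C * PC n M (fun F => PG 0 n M k (Ac 0 n M F) τ.1 σ.1 ∧ I (per n F)) := by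
  classical
  have hN6 : 6 ≤ N := by omega
  have hν4 : 4 * N ≤ prd N k := by unfold prd; omega
  obtain ⟨M3, M4, hM3, hM4, hbad⟩ := hBADP N (prd N k) (by omega) hν4 δ hδ
  obtain ⟨κ, hκ, r0, htrap⟩ := hTRAP (prd N k) M4 (by omega) (by omega)
  refine ⟨1 / κ, by positivity, max r0 (max M4 2), ?_⟩
  intro r hr m I hm hI n M hn hM σ τ
  have hr1 : r0 ≤ r := (le_max_left _ _).trans hr
  have hr2 : M4 ≤ r := (le_max_left _ _).trans ((le_max_right _ _).trans hr)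
  have hr3 : 2 ≤ r := (le_max_right _ _).trans ((le_max_right _ _).trans hr)
  have hM3p : 0 < M3 := by omega
  have hM4p : 0 < M4 := by omega
  have hl1 : 1 ≤ r / M4 := Nat.div_pos hr2 hM4p
  have hl64 : r / M4 ≤ r / 64 := Nat.div_le_div_left (by omega) (by norm_num)
  set ρ := r / M3 with hρ
  set l := r / M4 with hl
  have hlρ : 32 * l ≤ ρ := by
    rw [hρ, Nat.le_div_iff_mul_le hM3p]
    have h1 : l * M4 ≤ r := Nat.div_mul_le_self r M4
    have h2 : l * (64 * M3) ≤ l * M4 := Nat.mul_le_mul_left _ hM4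
    nlinarith
  have hρr : 32 * ρ ≤ r := by
    have h1 : ρ * M3 ≤ r := Nat.div_mul_le_self r M3
    have h2 : ρ * 64 ≤ ρ * M3 := Nat.mul_le_mul_left _ hM3
    omega
  have hnN : 4 * (N * r) ≤ n := by
    rw [hn, ← mul_assoc]
    exact Nat.mul_le_mul_right _ hν4
  have hNr : 6 * r ≤ N * r := Nat.mul_le_mul_right _ hN6
  have hnr : r + 2 ≤ n := by omega
  have hln : 4 * l < n := by omega
  have hg := hg4 N k c (by omega) hk hc (Bxs N k ∪ Crr N k c) rfl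
  have hband : ∀ e : Edg, (e ∈ EP r (Bxs N k) ∨ e ∈ EP r (Crr N k c)) → |dco e| ≤ n + r + 1 := by
    intro e he
    have he' : e ∈ EP r (Bxs N k ∪ Crr N k c) := by
      rcases he with ⟨z, hz, h⟩ | ⟨z, hz, h⟩
      · exact ⟨z, Or.inl hz, h⟩
      · exact ⟨z, Or.inr hz, h⟩
    have := EP_dco (q := prd N k) hg.2.2.2 he'
    rw [hn]
    exact this
  have hsP : 0 ≤ sPI k (N * r / 2) I := Pr_nonneg ok2 _ _
  -- the first term
  have h1 : PC n M (fun F => (PG 0 n M k (↑(FB N r k c n M F)) τ.1 σ.1 ∧ I (per n F)) ∧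
      Bad 0 N r ρ l (prd N k) n M F) ≤ δ * sPI k (N * r / 2) I := by
    have hi := ind (c := 0) (N := N) (r := r) (ρ := ρ) (l := l) (ν := prd N k) (k := k)
      (by norm_num) (by omega) hν4 hr3 hlρ hl1 hρr I hm hI
    have hb := hbad 0 r (by norm_num) hr2
    rw [← hρ, ← hl] at hb
    rw [← hn, ← hM] at hi hb
    have hmono : PC n M (fun F => (PG 0 n M k (↑(FB N r k c n M F)) τ.1 σ.1 ∧ I (per n F)) ∧
        Bad 0 N r ρ l (prd N k) n M F) ≤
        PC n M (fun F => (SE k (N * r / 2 : ℕ) (per n F) ∧ I (per n F)) ∧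
          Bad 0 N r ρ l (prd N k) n M F) := by
      refine Pr_mono ok2 ?_
      rintro F hF ⟨h1, h2⟩
      refine ⟨⟨?_, h1.2⟩, h2⟩
      refine hDEC n M k (N * r / 2) hk ?_ (by omega) (by omega) (FB N r k c n M F) F ?_ hF ?_
        τ.1 σ.1 h1.1
      · have : N * 2 ≤ N * r := Nat.mul_le_mul_left _ hr3
        omega
      · intro e he
        exact (mem_FB.1 he).1
      · intro e he
        rw [mem_FB]
        constructor
        · exact fun h => h.2.2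
        · exact fun h => ⟨hF h, Or.inl (box_EP (by omega) hn (by omega) he), h⟩
    refine hmono.trans ?_
    rw [hi, mul_comm δ]
    exact mul_le_mul_of_nonneg_left hb hsP
  -- the second term
  have h2 : PC n M (fun F => (PG 0 n M k (↑(FB N r k c n M F)) τ.1 σ.1 ∧ I (per n F)) ∧
      ¬ Bad 0 N r ρ l (prd N k) n M F) * PC n M (Trap 0 n M l) ≤
      PC n M (fun F => PG 0 n M k (Ac 0 n M F) τ.1 σ.1 ∧ I (per n F)) := by
    refine hPRB (CE n M) (fun F => Exx N r k c n M τ.1 σ.1 F ∪ JJ n m) _ _ _ ?_ ?_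
    · intro F G _ _
      show Exx N r k c n M τ.1 σ.1 ((F ∩ (Exx N r k c n M τ.1 σ.1 F ∪ JJ n m)) ∪
        (G \ (Exx N r k c n M τ.1 σ.1 F ∪ JJ n m))) ∪ JJ n m = _
      rw [mixJ, Exx_mix]
    · intro F G hF _ hA hK
      show PG 0 n M k (Ac 0 n M ((F ∩ (Exx N r k c n M τ.1 σ.1 F ∪ JJ n m)) ∪
        (G \ (Exx N r k c n M τ.1 σ.1 F ∪ JJ n m)))) τ.1 σ.1 ∧
        I (per n ((F ∩ (Exx N r k c n M τ.1 σ.1 F ∪ JJ n m)) ∪
        (G \ (Exx N r k c n M τ.1 σ.1 F ∪ JJ n m))))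
      constructor
      · rw [mixJ]
        refine det hABS hSEPB hk hN hc hl1 hlρ hρr hn hM hband hnr hF hA.2 hA.1.1 ?_
        intro u v hu hDu huv
        refine avoid (N := N) (r := r) (k := k) (m := m) (G := G) (by norm_num) (by omega) hn ?_ ?_
          (fun a b => Wl τ.1 σ.1 a b ∨ Gl n M k a b) ?_ ?_ huv
        · omega
        · intro e he
          rw [Finset.mem_union, Finset.mem_inter, Finset.mem_sdiff]
          tauto
        · obtain ⟨e, he, w, hw⟩ := hDu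
          exact ⟨e, he.2.1, w, hw⟩
        · intro v' hv'
          exact trap_path hM hln hK hu hv'
      · refine (hI _ _ fun e he => ?_).1 hA.1.2
        have : red n e ∈ JJ n m := Finset.mem_image_of_mem _ he
        show red n e ∈ F ↔ red n e ∈ (F ∩ (Exx N r k c n M τ.1 σ.1 F ∪ JJ n m)) ∪
          (G \ (Exx N r k c n M τ.1 σ.1 F ∪ JJ n m))
        rw [Finset.mem_union, Finset.mem_inter, Finset.mem_sdiff, Finset.mem_union]
        tauto
  have h3 := htrap 0 r (by norm_num) hr1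
  rw [← hl, ← hn, ← hM] at h3
  have h4 : PC n M (fun F => (PG 0 n M k (↑(FB N r k c n M F)) τ.1 σ.1 ∧ I (per n F)) ∧
      ¬ Bad 0 N r ρ l (prd N k) n M F) ≤
      1 / κ * PC n M (fun F => PG 0 n M k (Ac 0 n M F) τ.1 σ.1 ∧ I (per n F)) := by
    rw [div_mul_eq_mul_div, one_mul, le_div_iff₀ hκ]
    refine le_trans ?_ h2
    exact mul_le_mul_of_nonneg_left h3 (Pr_nonneg ok2 _ _)
  have h5 : PC n M (fun F => PG 0 n M k (↑(FB N r k c n M F)) τ.1 σ.1 ∧ I (per n F)) ≤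
      PC n M (fun F => (PG 0 n M k (↑(FB N r k c n M F)) τ.1 σ.1 ∧ I (per n F)) ∧
        Bad 0 N r ρ l (prd N k) n M F) +
      PC n M (fun F => (PG 0 n M k (↑(FB N r k c n M F)) τ.1 σ.1 ∧ I (per n F)) ∧
        ¬ Bad 0 N r ρ l (prd N k) n M F) := by
    refine le_trans ?_ (Pr_or_le ok2 _ _ _)
    refine Pr_mono ok2 ?_
    intro F _ hF
    by_cases h : Bad 0 N r ρ l (prd N k) n M F
    · exact Or.inl ⟨hF, h⟩
    · exact Or.inr ⟨hF, h⟩
  linarith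

end RI

end Pool.Agent.S77.WP
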