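import Pool.Agent.S77.WP.I_land
import Pool.Agent.S77.WP.I_sta
import Pool.Agent.S77.WP.I_stb

/-!
# The recursion with an inner event: assembly
-/

set_option autoImplicit false

namespace Pool.Agent.S77.WP
open Pool.Agent.H863R2.Cyl
open Pool.Agent.H988R2.Perc (Word PD)
open Pool.Agent.H160R2.ML
open Pool.Agent.H160R2.MU
open H974 H906.Cyl

namespace RI

/-- the three steps for one family of cells -/
theorem one (N k : ℕ) (c : Fin k → Cel)
    (hk : 2 ≤ k) (hN : k + 4 ≤ N) (hc : Adm N k c) (δ : ℝ) (hδ : 0 < δ) :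
    ∃ C : ℝ, 0 < C ∧ ∃ r0 : ℕ, ∀ r : ℕ, r0 ≤ r →
    ∀ (m : ℕ) (I : Set Edg → Prop), 2 * m ≤ N * r → Loc m I →
    ∀ (n M : ℕ), n = prd N k * r → M = 4 * n →
    ∀ σ τ : Wd (2 * n - 1 + 1),
    Pr (fun _ => (1 / 2 : ℝ)) (boxE (N * r))
      (fun F => Land N r k c (↑F : Set Edg) ∧ I (↑F : Set Edg)) ≤
      δ * sPI k (N * r / 2) I +
        C * PC n M (fun F => PG 0 n M k (Ac 0 n M F) τ.1 σ.1 ∧ I (per n F)) := by
  obtain ⟨CA, hCA, rA, hA⟩ := sta t_ABS t_PRB a_SEPA t_TRAP a_BADP t_DEC a_g4 a_G N k c hk hN hc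
    (δ / 2) (by positivity)
  obtain ⟨CB, hCB, rB, hB⟩ := stb t_ABS t_PRB a_SEPB t_TRAP a_BADP t_DEC a_g4 N k c hk hN hc
    (δ / (2 * CA)) (by positivity)
  refine ⟨CA * CB, by positivity, max (max rA rB) 2, fun r hr m I hm hI n M hn hM σ τ => ?_⟩
  have hrA : rA ≤ r := (le_max_left _ _).trans ((le_max_left _ _).trans hr)
  have hrB : rB ≤ r := (le_max_right _ _).trans ((le_max_left _ _).trans hr)
  have hr2 : 2 ≤ r := (le_max_right _ _).trans hr
  have h1 := detp (t_DET t_g1 t_g2 a_g3) N r k c hk hN hr2 hc n M hn hM τ.1 σ.1 m I hm hI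
  have h2 := hA r hrA m I hm hI n M hn hM σ τ
  have h3 := hB r hrB m I hm hI n M hn hM σ τ
  have h4 := mul_le_mul_of_nonneg_left h3 hCA.le
  have h5 : CA * (δ / (2 * CA) * sPI k (N * r / 2) I +
      CB * PC n M (fun F => PG 0 n M k (Ac 0 n M F) τ.1 σ.1 ∧ I (per n F))) =
      δ / 2 * sPI k (N * r / 2) I +
        CA * CB * PC n M (fun F => PG 0 n M k (Ac 0 n M F) τ.1 σ.1 ∧ I (per n F)) := by
    field_simp
  rw [h5] at h4
  linarith

/-- all families of cells -/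
theorem all (N k : ℕ) (hk : 2 ≤ k) (hN : k + 4 ≤ N) (δ : ℝ) (hδ : 0 < δ)
    (Cs : Finset (Fin k → Cel)) (hCs : ∀ c ∈ Cs, Adm N k c) :
    ∃ C : ℝ, 0 ≤ C ∧ ∃ r0 : ℕ, ∀ r : ℕ, r0 ≤ r →
    ∀ (m : ℕ) (I : Set Edg → Prop), 2 * m ≤ N * r → Loc m I →
    ∀ (n M : ℕ), n = prd N k * r → M = 4 * n →
    ∀ σ τ : Wd (2 * n - 1 + 1),
    ∑ c ∈ Cs, Pr (fun _ => (1 / 2 : ℝ)) (boxE (N * r))
      (fun F => Land N r k c (↑F : Set Edg) ∧ I (↑F : Set Edg)) ≤
      Cs.card * (δ * sPI k (N * r / 2) I) +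
        C * PC n M (fun F => PG 0 n M k (Ac 0 n M F) τ.1 σ.1 ∧ I (per n F)) := by
  classical
  induction Cs using Finset.induction_on with
  | empty =>
    refine ⟨0, le_rfl, 0, fun r _ m I _ _ n M _ _ σ τ => ?_⟩
    simp
  | insert c Cs hcn ih =>
    obtain ⟨C1, hC1, r1, h1⟩ := ih fun c' hc' => hCs c' (Finset.mem_insert_of_mem hc')
    obtain ⟨C2, hC2, r2, h2⟩ := one N k c hk hN (hCs c (Finset.mem_insert_self _ _)) δ hδ
    refine ⟨C2 + C1, by positivity, max r1 r2, fun r hr m I hm hI n M hn hM σ τ => ?_⟩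
    have h3 := h1 r ((le_max_left _ _).trans hr) m I hm hI n M hn hM σ τ
    have h4 := h2 r ((le_max_right _ _).trans hr) m I hm hI n M hn hM σ τ
    rw [Finset.sum_insert hcn, Finset.card_insert_of_notMem hcn]
    push_cast
    linarith

end RI

/-- **the recursion with an inner event** -/
theorem t_RCRI : S_RCRI := by
  classical
  intro k hk δ hδ
  obtain ⟨N, hN, Cs, hCs, r1, hL⟩ := RI.land k hk (δ / 2) (by positivity)
  obtain ⟨K, hK, r2, hall⟩ := RI.all N k hk hN (δ / (2 * (Cs.card + 1)))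
    (by positivity) Cs hCs
  refine ⟨N, hN, K + 1, by positivity, max r1 r2, fun r hr m I hm hI n M hn hM σ τ => ?_⟩
  have h1 := hL r ((le_max_left _ _).trans hr) m I hm hI
  have h2 := hall r ((le_max_right _ _).trans hr) m I hm hI n M hn hM σ τ
  have hS : 0 ≤ sPI k (N * r / 2) I := Pr_nonneg RI.ok2 _ _
  have hP : 0 ≤ PC n M (fun F => PG 0 n M k (Ac 0 n M F) τ.1 σ.1 ∧ I (per n F)) :=
    Pr_nonneg RI.ok2 _ _
  have h3 : (Cs.card : ℝ) * (δ / (2 * (Cs.card + 1)) * sPI k (N * r / 2) I) ≤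
      δ / 2 * sPI k (N * r / 2) I := by
    have h4 : (Cs.card : ℝ) * (δ / (2 * (Cs.card + 1))) ≤ δ / 2 := by
      have h5 : (0 : ℝ) ≤ Cs.card := Nat.cast_nonneg _
      rw [mul_div_assoc', div_le_div_iff₀ (by positivity) (by norm_num)]
      nlinarith
    rw [← mul_assoc]
    exact mul_le_mul_of_nonneg_right h4 hS
  nlinarith

end Pool.Agent.S77.WP
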