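import Pool.Agent.S77.WP.P34

/-!
# The final induction
-/

set_option autoImplicit false

namespace Pool.Agent.S77.WP
open Pool.Agent.H863R2.Cyl
open Pool.Agent.H988R2.Perc (Word PD)
open Pool.Agent.H160R2.ML
open Pool.Agent.H160R2.MU
open Pool.Agent.S77.WD
open H974 H906.Cyl

/-- the exponent -/
noncomputable def xpn (k : ℕ) (lam : ℝ) : ℝ :=
  -(ex2 k) + 3 * (-(lam / (2 * Real.pi))) ^ 2 / (4 * k ^ 2)

/-- average of constants and of inequalities -/
theorem avg_const {m : ℕ} {μ : Wd (m + 1) → ℝ} (hμ1 : ∑ σ, μ σ = 1) (c : ℝ) :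
    ∑ σ, ∑ τ, μ σ * μ τ * c = c := by
  have h1 : ∀ σ, ∑ τ, μ σ * μ τ * c = μ σ * c := by
    intro σ
    rw [← Finset.sum_mul, ← Finset.mul_sum, hμ1, mul_one]
  simp only [h1]
  rw [← Finset.sum_mul, hμ1, one_mul]

theorem avg_mono {m : ℕ} {μ : Wd (m + 1) → ℝ} (hμ0 : ∀ σ, 0 ≤ μ σ)
    {f g : Wd (m + 1) → Wd (m + 1) → ℝ} (h : ∀ σ τ, f σ τ ≤ g σ τ) :
    ∑ σ, ∑ τ, μ σ * μ τ * f σ τ ≤ ∑ σ, ∑ τ, μ σ * μ τ * g σ τ :=
  Finset.sum_le_sum fun σ _ => Finset.sum_le_sum fun τ _ =>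
    mul_le_mul_of_nonneg_left (h σ τ) (mul_nonneg (hμ0 σ) (hμ0 τ))

theorem avg_lin {m : ℕ} {μ : Wd (m + 1) → ℝ} (a b : ℝ) (f g : Wd (m + 1) → Wd (m + 1) → ℝ) :
    ∑ σ, ∑ τ, μ σ * μ τ * (a * f σ τ + b * g σ τ) =
      a * (∑ σ, ∑ τ, μ σ * μ τ * f σ τ) + b * (∑ σ, ∑ τ, μ σ * μ τ * g σ τ) := by
  rw [Finset.mul_sum, Finset.mul_sum, ← Finset.sum_add_distrib]
  refine Finset.sum_congr rfl fun σ _ => ?_
  rw [Finset.mul_sum, Finset.mul_sum, ← Finset.sum_add_distrib]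
  refine Finset.sum_congr rfl fun τ _ => ?_
  ring

/-- **the averaged recursion** -/
theorem U1 (hT : S_TAIL) (hR : S_RCRI) {k : ℕ} (hk : 2 ≤ k) {lam K : ℝ}
    (hK : 2 * (21 * |lam|) ≤ K) (hK' : 21 * |lam| + 1 ≤ K) (ε : ℝ) (hε : 0 < ε) :
    ∃ N : ℕ, k + 4 ≤ N ∧ ∃ C : ℝ, 0 < C ∧ ∃ r0 : ℕ, ∀ r : ℕ, r0 ≤ r →
    ZR k lam (N * r) ≤ ε * TR k lam K (N * r / 2) + ε * TR k lam K (mi (N * r / 2)) +
      C * ((N * r : ℕ) : ℝ) ^ (xpn k lam) := by
  obtain ⟨N, hN, C2, hC2, r2, h2⟩ := P2 hR hk hK' ε hε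
  obtain ⟨C3, hC3, m3, h3⟩ := P3 hT hk hK (ε / C2) (by positivity) (prd N k)
  obtain ⟨_, C4, -, hC4, h4⟩ := lap_exp (k := k) (by omega) (-(lam / (2 * Real.pi)))
  have hN0 : (0 : ℝ) < N := by exact_mod_cast (by omega : 0 < N)
  have hp0 : (0 : ℝ) < prd N k := by
    have : 0 < prd N k := by unfold prd; omega
    exact_mod_cast this
  refine ⟨N, hN, C2 * C3 * C4 * ((prd N k : ℝ) / N) ^ (xpn k lam), by positivity,
    max (max r2 m3) (k + 64), fun r hr => ?_⟩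
  have hr2 : r2 ≤ r := (le_max_left _ _).trans ((le_max_left _ _).trans hr)
  have hr3 : m3 ≤ r := (le_max_right _ _).trans ((le_max_left _ _).trans hr)
  have hrk : k + 64 ≤ r := (le_max_right _ _).trans hr
  set n : ℕ := prd N k * r with hn
  set m : ℕ := N * r / 2 with hm
  have hNr : 6 * r ≤ N * r := Nat.mul_le_mul_right r (by omega)
  have hrm : r ≤ m := by omega
  have h4m : 4 * m ≤ n := by
    have h5 : 4 * (N * r) ≤ n := by
      rw [hn]
      calc 4 * (N * r) = (4 * N) * r := by ring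
        _ ≤ prd N k * r := Nat.mul_le_mul_right r (by unfold prd; omega)
    omega
  have hnL : n ≤ prd N k * m := by
    rw [hn]
    exact Nat.mul_le_mul_left _ hrm
  have hn1 : 1 ≤ n := by omega
  have hkn : k ≤ 2 * n := by omega
  obtain ⟨μ, hμ0, hμ1, hst, -, -⟩ := markov_exists (2 * n - 1)
  have e1 := YY_avg (lam := lam) hn1 (by omega) hkn μ hμ0 hμ1 hst
  have h5 := (h4 n (by omega)).2
  rw [← e1] at h5
  have h6 : ∀ σ τ : Wd (2 * n - 1 + 1), ZR k lam (N * r) ≤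
      (C2 * C3) * Ex hf (CE n (4 * n)) (YY k lam n σ τ) +
      1 * (ε * TR k lam K m + ε * TR k lam K (mi m)) := by
    intro σ τ
    have a1 := h2 r hr2 n (4 * n) hn rfl σ τ
    have a2 := h3 m (hr3.trans hrm) n h4m hnL σ τ
    have a3 := mul_le_mul_of_nonneg_left a2 hC2.le
    have e2 : C2 * (C3 * Ex hf (CE n (4 * n)) (YY k lam n σ τ) + ε / C2 * TR k lam K (mi m)) =
        C2 * C3 * Ex hf (CE n (4 * n)) (YY k lam n σ τ) + ε * TR k lam K (mi m) := by
      field_simp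
    rw [e2] at a3
    linarith
  have h7 := avg_mono hμ0 h6
  rw [avg_const hμ1, avg_lin, avg_const hμ1, one_mul] at h7
  have h8 := mul_le_mul_of_nonneg_left h5 (by positivity : 0 ≤ C2 * C3)
  have e3 : ((n : ℕ) : ℝ) ^ (xpn k lam) = ((prd N k : ℝ) / N) ^ (xpn k lam) *
      ((N * r : ℕ) : ℝ) ^ (xpn k lam) := by
    rw [← Real.mul_rpow (by positivity) (by positivity)]
    congr 1
    rw [hn]
    push_cast
    field_simp
  have e4 : ((n : ℕ) : ℝ) ^ (-(ex2 k) + 3 * (-(lam / (2 * Real.pi))) ^ 2 / (4 * k ^ 2)) =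
      ((n : ℕ) : ℝ) ^ (xpn k lam) := rfl
  rw [e4, e3] at h8
  have e5 : C2 * C3 * (C4 * (((prd N k : ℝ) / N) ^ (xpn k lam) * ((N * r : ℕ) : ℝ) ^ (xpn k lam))) =
      C2 * C3 * C4 * ((prd N k : ℝ) / N) ^ (xpn k lam) * ((N * r : ℕ) : ℝ) ^ (xpn k lam) := by ring
  rw [e5] at h8
  linarith

/-- powers at comparable scales -/
theorem pow_cmp {x : ℝ} {a b D : ℕ} (ha : 1 ≤ a) (hab : a ≤ D * b) (hba : b ≤ D * a) (hD : 1 ≤ D) :
    (b : ℝ) ^ x ≤ (D : ℝ) ^ |x| * (a : ℝ) ^ x := by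
  have ha0 : (0 : ℝ) < a := by exact_mod_cast ha
  have hb : 0 < b := by
    rcases Nat.eq_zero_or_pos b with h | h
    · subst h; omega
    · exact h
  have hb0 : (0 : ℝ) < b := by exact_mod_cast hb
  have hD0 : (1 : ℝ) ≤ D := by exact_mod_cast hD
  have h1 : (a : ℝ) ≤ D * b := by exact_mod_cast hab
  have h2 : (b : ℝ) ≤ D * a := by exact_mod_cast hba
  rcases le_total 0 x with hx | hx
  · rw [abs_of_nonneg hx, ← Real.mul_rpow (by positivity) ha0.le]
    exact Real.rpow_le_rpow hb0.le h2 hx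
  · rw [abs_of_nonpos hx]
    have h3 : (b : ℝ) ^ x ≤ ((a : ℝ) / D) ^ x := by
      apply Real.rpow_le_rpow_of_nonpos (by positivity) _ hx
      rw [div_le_iff₀ (by positivity)]
      linarith
    refine h3.trans (le_of_eq ?_)
    rw [Real.div_rpow ha0.le (by positivity), Real.rpow_neg (by positivity)]
    field_simp

/-- **upper bound** -/
theorem U2 (hT : S_TAIL) (hR : S_RCRI) {k : ℕ} (hk : 2 ≤ k) {lam K : ℝ}
    (hK : 2 * (21 * |lam|) ≤ K) (hK' : 21 * |lam| + 1 ≤ K) :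
    ∃ A : ℝ, 0 < A ∧ ∀ R : ℕ, 1 ≤ R → TR k lam K R ≤ A * (R : ℝ) ^ (xpn k lam) := by
  set x := xpn k lam with hx
  obtain ⟨C0, hC0, m0, h0⟩ := P0 hT hk hK
  set D : ℝ := (48 : ℝ) ^ |x| with hD
  have hD0 : 0 < D := by positivity
  set ε : ℝ := 1 / (6 * C0 * D) with hε
  have hε0 : 0 < ε := by positivity
  obtain ⟨C1, hC1, m1, h1⟩ := P1 hT hk hK ε hε0
  obtain ⟨N, hN, C2, hC2, r2, h2⟩ := U1 hT hR hk hK hK' (ε / C1) (by positivity)
  set R0 : ℕ := 2 * m0 + 6 * N + 6 * m1 + 2 * N * (r2 + 1) + 100 with hR0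
  set S : ℝ := ∑ R ∈ Finset.range R0, TR k lam K R * (R : ℝ) ^ (-x) with hS
  have hS0 : 0 ≤ S := Finset.sum_nonneg fun R _ =>
    mul_nonneg (TR_nonneg _ _ _ _) (Real.rpow_nonneg (Nat.cast_nonneg _) _)
  refine ⟨S + 2 * (C0 * C1 * C2 * D), by positivity, ?_⟩
  set A : ℝ := S + 2 * (C0 * C1 * C2 * D) with hA
  intro R
  induction R using Nat.strong_induction_on with
  | _ R ih =>
  intro hR1
  have hR0' : (0 : ℝ) < R := by exact_mod_cast hR1
  by_cases hlt : R < R0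
  · have h3 : TR k lam K R * (R : ℝ) ^ (-x) ≤ S :=
      Finset.single_le_sum (f := fun R : ℕ => TR k lam K R * (R : ℝ) ^ (-x))
        (fun R _ => mul_nonneg (TR_nonneg _ _ _ _) (Real.rpow_nonneg (Nat.cast_nonneg _) _))
        (Finset.mem_range.2 hlt)
    have h4 : TR k lam K R = TR k lam K R * (R : ℝ) ^ (-x) * (R : ℝ) ^ x := by
      rw [mul_assoc, ← Real.rpow_add hR0', neg_add_cancel, Real.rpow_zero, mul_one]
    rw [h4]
    refine mul_le_mul_of_nonneg_right ?_ (by positivity)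
    have : 0 ≤ 2 * (C0 * C1 * C2 * D) := by positivity
    linarith
  · rw [not_lt] at hlt
    -- the multiple of N
    have hN0 : 0 < N := by omega
    set r : ℕ := ((R + 1) / 2) / N with hr
    have hr1 : N * r ≤ (R + 1) / 2 := Nat.mul_div_le _ _
    have hr2 : (R + 1) / 2 < N * r + N := by
      have := Nat.lt_mul_div_succ ((R + 1) / 2) hN0
      rw [Nat.mul_add, Nat.mul_one] at this
      exact this
    have hr3 : r2 ≤ r := by
      rw [hr, Nat.le_div_iff_mul_le hN0]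
      have h5 : r2 * N ≤ N * (r2 + 1) := by rw [Nat.mul_comm]; exact Nat.mul_le_mul_left _ (by omega)
      have h6 : 2 * N * (r2 + 1) = 2 * (N * (r2 + 1)) := by ring
      omega
    set R' : ℕ := N * r with hR'
    have hR'3 : R ≤ 3 * R' := by omega
    have hR'm : m0 ≤ R' := by omega
    have a0 := h0 R R' hR'm hr1 hR'3
    have a1 := h1 R' (by omega)
    have a2 := h2 r hr3
    rw [← hR'] at a2
    have b1 := ih ((R' + 1) / 2) (by omega) (by omega)
    have b2 := ih (R' / 2) (by omega) (by omega)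
    have b3 := ih (mi (R' / 2)) (by unfold mi; omega) (by unfold mi; omega)
    have hA0 : 0 ≤ A := by positivity
    have c1 : (((R' + 1) / 2 : ℕ) : ℝ) ^ x ≤ D * (R : ℝ) ^ x := by
      have := pow_cmp (x := x) (a := R) (b := (R' + 1) / 2) (D := 48) hR1 (by omega) (by omega)
        (by norm_num)
      exact_mod_cast this
    have c2 : ((R' / 2 : ℕ) : ℝ) ^ x ≤ D * (R : ℝ) ^ x := by
      have := pow_cmp (x := x) (a := R) (b := R' / 2) (D := 48) hR1 (by omega) (by omega)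
        (by norm_num)
      exact_mod_cast this
    have c3 : ((mi (R' / 2) : ℕ) : ℝ) ^ x ≤ D * (R : ℝ) ^ x := by
      have := pow_cmp (x := x) (a := R) (b := mi (R' / 2)) (D := 48) hR1 (by unfold mi; omega)
        (by unfold mi; omega) (by norm_num)
      exact_mod_cast this
    have c4 : ((R' : ℕ) : ℝ) ^ x ≤ D * (R : ℝ) ^ x := by
      have := pow_cmp (x := x) (a := R) (b := R') (D := 48) hR1 (by omega) (by omega)
        (by norm_num)
      exact_mod_cast this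
    have d1 : TR k lam K ((R' + 1) / 2) ≤ A * (D * (R : ℝ) ^ x) :=
      b1.trans (mul_le_mul_of_nonneg_left c1 hA0)
    have d2 : TR k lam K (R' / 2) ≤ A * (D * (R : ℝ) ^ x) :=
      b2.trans (mul_le_mul_of_nonneg_left c2 hA0)
    have d3 : TR k lam K (mi (R' / 2)) ≤ A * (D * (R : ℝ) ^ x) :=
      b3.trans (mul_le_mul_of_nonneg_left c3 hA0)
    set P : ℝ := (R : ℝ) ^ x with hP
    have hP0 : 0 < P := Real.rpow_pos_of_pos hR0' x
    -- ZR
    have e1 : ZR k lam R' ≤ ε / C1 * (A * (D * P)) + ε / C1 * (A * (D * P)) + C2 * (D * P) := by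
      have f1 := mul_le_mul_of_nonneg_left d2 (by positivity : 0 ≤ ε / C1)
      have f2 := mul_le_mul_of_nonneg_left d3 (by positivity : 0 ≤ ε / C1)
      have f3 := mul_le_mul_of_nonneg_left c4 hC2.le
      linarith
    have e2 : TR k lam K R' ≤ C1 * (ε / C1 * (A * (D * P)) + ε / C1 * (A * (D * P)) +
        C2 * (D * P)) + ε * (A * (D * P)) := by
      have f1 := mul_le_mul_of_nonneg_left e1 hC1.le
      have f2 := mul_le_mul_of_nonneg_left d1 hε0.le
      linarith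
    have e3 : C1 * (ε / C1 * (A * (D * P)) + ε / C1 * (A * (D * P)) + C2 * (D * P)) +
        ε * (A * (D * P)) = 3 * ε * A * D * P + C1 * C2 * D * P := by
      field_simp
      ring
    rw [e3] at e2
    have e4 := a0.trans (mul_le_mul_of_nonneg_left e2 hC0.le)
    have e5 : C0 * (3 * ε * A * D * P + C1 * C2 * D * P) = 1 / 2 * A * P + C0 * C1 * C2 * D * P := by
      rw [hε]
      field_simp
      ring
    rw [e5] at e4
    refine e4.trans ?_
    have e6 : C0 * C1 * C2 * D ≤ A / 2 := by rw [hA]; linarith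
    have e7 := mul_le_mul_of_nonneg_right e6 hP0.le
    linarith

end Pool.Agent.S77.WP
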