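import Pool.Agent.H160R2.MU.Defs

/-!
# Levels in the box cut along the slit, intersection numbers
-/

set_option autoImplicit false

namespace Pool.Agent.S77.WP
open Pool.Agent.H160R2.ML
open Pool.Agent.H160R2.MU
open H974 H906.Cyl

/-- links of the box cut along the slit, with levels: the level increases by `1` when the diagonal
is crossed upwards to the right of the slit -/
inductive CLv (k : ℕ) (R : ℤ) (G : Set Edg) : (Vtx × Bool) × ℤ → (Vtx × Bool) × ℤ → Prop
  | edge (e : Edg) (l : ℤ) : e ∈ G → nm (src e) ≤ R → nm (tgt e) ≤ R →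
      CLv k R G ((src e, decide (0 ≤ dco e)), l) ((tgt e, decide (0 ≤ dco e)), l)
  | idn (v : Vtx) (l : ℤ) : nm v ≤ R → ¬ (v.1 = v.2 ∧ 0 < 2 * v.1 ∧ 2 * v.1 < k) →
      CLv k R G ((v, false), l) ((v, true), l + if v.1 = v.2 ∧ (k : ℤ) ≤ 2 * v.1 then 1 else 0)

/-- connection with levels -/
def Cv (k : ℕ) (R : ℤ) (G : Set Edg) : (Vtx × Bool) × ℤ → (Vtx × Bool) × ℤ → Prop :=
  Relation.EqvGen (CLv k R G)

theorem CL_of_CLv {k : ℕ} {R : ℤ} {G : Set Edg} {x y : (Vtx × Bool) × ℤ} (h : CLv k R G x y) :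
    CL k R G x.1 y.1 := by
  cases h with
  | edge e l h1 h2 h3 => exact CL.edge e h1 h2 h3
  | idn v l h1 h2 => exact CL.idn v h1 h2

theorem Cb_of_Cv {k : ℕ} {R : ℤ} {G : Set Edg} {x y : (Vtx × Bool) × ℤ} (h : Cv k R G x y) :
    Cb k R G x.1 y.1 := by
  induction h with
  | rel x y h => exact Relation.EqvGen.rel _ _ (CL_of_CLv h)
  | refl x => exact Relation.EqvGen.refl _
  | symm x y _ h => exact Relation.EqvGen.symm _ _ h
  | trans x y z _ _ h1 h2 => exact Relation.EqvGen.trans _ _ _ h1 h2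

theorem CLv_shift {k : ℕ} {R : ℤ} {G : Set Edg} {x y : (Vtx × Bool) × ℤ} (h : CLv k R G x y)
    (m : ℤ) : CLv k R G (x.1, x.2 + m) (y.1, y.2 + m) := by
  cases h with
  | edge e l h1 h2 h3 => exact CLv.edge e _ h1 h2 h3
  | idn v l h1 h2 =>
    have := CLv.idn (k := k) (R := R) (G := G) v (l + m) h1 h2
    simp only at this ⊢
    convert this using 2
    ring

theorem Cv_shift {k : ℕ} {R : ℤ} {G : Set Edg} {x y : (Vtx × Bool) × ℤ} (h : Cv k R G x y)
    (m : ℤ) : Cv k R G (x.1, x.2 + m) (y.1, y.2 + m) := by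
  induction h with
  | rel x y h => exact Relation.EqvGen.rel _ _ (CLv_shift h m)
  | refl x => exact Relation.EqvGen.refl _
  | symm x y _ h => exact Relation.EqvGen.symm _ _ h
  | trans x y z _ _ h1 h2 => exact Relation.EqvGen.trans _ _ _ h1 h2

/-- lifting of connections to levels -/
theorem Cv_lift {k : ℕ} {R : ℤ} {G : Set Edg} {x y : Vtx × Bool} (h : Cb k R G x y) :
    ∀ l : ℤ, ∃ l' : ℤ, Cv k R G (x, l) (y, l') := by
  unfold Cb at h
  induction h with
  | rel x y h =>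
    intro l
    cases h with
    | edge e h1 h2 h3 => exact ⟨l, Relation.EqvGen.rel _ _ (CLv.edge e l h1 h2 h3)⟩
    | idn v h1 h2 => exact ⟨_, Relation.EqvGen.rel _ _ (CLv.idn v l h1 h2)⟩
  | refl x => exact fun l => ⟨l, Relation.EqvGen.refl _⟩
  | symm x y _ ih =>
    intro l
    obtain ⟨l', h⟩ := ih l
    refine ⟨l + (l - l'), Relation.EqvGen.symm _ _ ?_⟩
    have h2 := Cv_shift h (l - l')
    have e : (x, l + (l - l')) = (x, l + (l - l')) := rfl
    have e2 : ((x, l).1, (x, l).2 + (l - l')) = (x, l + (l - l')) := rfl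
    have e3 : ((y, l').1, (y, l').2 + (l - l')) = (y, l) := by
      show (y, l' + (l - l')) = (y, l)
      rw [add_sub_cancel]
    rw [e2, e3] at h2
    exact h2
  | trans x y z _ _ h1 h2 =>
    intro l
    obtain ⟨l1, h3⟩ := h1 l
    obtain ⟨l2, h4⟩ := h2 l1
    exact ⟨l2, Relation.EqvGen.trans _ _ _ h3 h4⟩

/-! ### coordinates -/

/-- diagonal coordinates -/
def xx (v : Vtx) : ℤ := v.1 + v.2
def yy (v : Vtx) : ℤ := v.1 - v.2

/-- the indicator: `a` is on the row of `v`, to the right -/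
def rho (a v : Vtx) : ℤ := if yy a = yy v ∧ xx v < xx a then 1 else 0

/-- intersection numbers of a path from `p` to `q` with the rays to the right of the points of `K` -/
structure IN (k : ℕ) (R : ℤ) (G : Set Edg) (K : Vtx × Bool → Prop) (p q : Vtx × Bool) (l : ℤ)
    (u w : Vtx → ℤ) : Prop where
  a : ∀ v, K (v, false) → K (v, true) → u v - w v = rho p.1 v - rho q.1 v
  bt : ∀ x y : ℤ, (x, y, true) ∈ G → nm (x, y) ≤ R → nm (x + 1, y) ≤ R →
    K ((x, y), decide (0 ≤ x - y)) → u (x, y) = w (x + 1, y)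
  bf : ∀ x y : ℤ, (x, y, false) ∈ G → nm (x, y) ≤ R → nm (x, y + 1) ≤ R →
    K ((x, y), decide (0 ≤ x - y - 1)) → u (x, y + 1) = w (x, y)
  c1 : ∀ v, K (v, false) → K (v, true) → (v.1 = R ∨ v.2 = R) → v.1 ≤ R → v.2 ≤ R → u v = 0 ∧ w v = 0
  c2 : ∀ v, K (v, false) → K (v, true) → (v.1 = -R ∨ v.2 = -R) → -R ≤ v.1 → -R ≤ v.2 →
    (u v = (if yy v < yy q.1 then 1 else 0) - (if yy v < yy p.1 then 1 else 0)) ∧
    (w v = (if yy v ≤ yy q.1 then 1 else 0) - (if yy v ≤ yy p.1 then 1 else 0))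
  d1 : ∀ a : ℤ, 0 ≤ a → 2 * a ≤ k → K ((a, a), true) → l = u (a, a) +
    (if yy q.1 = 0 ∧ 2 * a < xx q.1 ∧ q.2 = true then 1 else 0) -
    (if yy p.1 = 0 ∧ 2 * a < xx p.1 ∧ p.2 = true then 1 else 0)
  d2 : ∀ a : ℤ, 0 ≤ a → 2 * a ≤ k → K ((a, a), false) → l = w (a, a) -
    (if yy q.1 = 0 ∧ 2 * a < xx q.1 ∧ q.2 = false then 1 else 0) +
    (if yy p.1 = 0 ∧ 2 * a < xx p.1 ∧ p.2 = false then 1 else 0)

namespace IN
variable {k : ℕ} {R : ℤ} {G : Set Edg} {K : Vtx × Bool → Prop}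

theorem refl (p : Vtx × Bool) : IN k R G K p p 0 (fun _ => 0) (fun _ => 0) where
  a := fun v _ _ => by ring
  bt := fun _ _ _ _ _ _ => rfl
  bf := fun _ _ _ _ _ _ => rfl
  c1 := fun _ _ _ _ _ _ => ⟨rfl, rfl⟩
  c2 := fun _ _ _ _ _ _ => ⟨by ring, by ring⟩
  d1 := fun _ _ _ _ => by ring
  d2 := fun _ _ _ _ => by ring

theorem symm {p q : Vtx × Bool} {l : ℤ} {u w : Vtx → ℤ} (h : IN k R G K p q l u w) :
    IN k R G K q p (-l) (fun v => - u v) (fun v => - w v) where
  a := fun v h1 h2 => by have := h.a v h1 h2; linarith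
  bt := fun x y h1 h2 h3 h4 => by rw [h.bt x y h1 h2 h3 h4]
  bf := fun x y h1 h2 h3 h4 => by rw [h.bf x y h1 h2 h3 h4]
  c1 := fun v h1 h2 h3 h4 h5 => by
    obtain ⟨e1, e2⟩ := h.c1 v h1 h2 h3 h4 h5
    exact ⟨by rw [e1]; rfl, by rw [e2]; rfl⟩
  c2 := fun v h1 h2 h3 h4 h5 => by
    obtain ⟨e1, e2⟩ := h.c2 v h1 h2 h3 h4 h5
    exact ⟨by rw [e1]; ring, by rw [e2]; ring⟩
  d1 := fun a h1 h2 h3 => by have := h.d1 a h1 h2 h3; linarith
  d2 := fun a h1 h2 h3 => by have := h.d2 a h1 h2 h3; linarith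

theorem trans {p q r : Vtx × Bool} {l l' : ℤ} {u w u' w' : Vtx → ℤ} (h : IN k R G K p q l u w)
    (h' : IN k R G K q r l' u' w') :
    IN k R G K p r (l + l') (fun v => u v + u' v) (fun v => w v + w' v) where
  a := fun v h1 h2 => by have := h.a v h1 h2; have := h'.a v h1 h2; linarith
  bt := fun x y h1 h2 h3 h4 => by rw [h.bt x y h1 h2 h3 h4, h'.bt x y h1 h2 h3 h4]
  bf := fun x y h1 h2 h3 h4 => by rw [h.bf x y h1 h2 h3 h4, h'.bf x y h1 h2 h3 h4]
  c1 := fun v h1 h2 h3 h4 h5 => by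
    obtain ⟨e1, e2⟩ := h.c1 v h1 h2 h3 h4 h5
    obtain ⟨e3, e4⟩ := h'.c1 v h1 h2 h3 h4 h5
    exact ⟨by rw [e1, e3]; rfl, by rw [e2, e4]; rfl⟩
  c2 := fun v h1 h2 h3 h4 h5 => by
    obtain ⟨e1, e2⟩ := h.c2 v h1 h2 h3 h4 h5
    obtain ⟨e3, e4⟩ := h'.c2 v h1 h2 h3 h4 h5
    exact ⟨by rw [e1, e3]; ring, by rw [e2, e4]; ring⟩
  d1 := fun a h1 h2 h3 => by have := h.d1 a h1 h2 h3; have := h'.d1 a h1 h2 h3; linarith
  d2 := fun a h1 h2 h3 => by have := h.d2 a h1 h2 h3; have := h'.d2 a h1 h2 h3; linarith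

/-- an edge from the left to the right or upwards, not touching `K` -/
theorem stepT (x y : ℤ) (h1 : nm (x, y) ≤ R) (h2 : nm (x + 1, y) ≤ R)
    (hp : ¬ K ((x, y), decide (0 ≤ x - y))) (hq : ¬ K ((x + 1, y), decide (0 ≤ x - y))) :
    IN k R G K ((x, y), decide (0 ≤ x - y)) ((x + 1, y), decide (0 ≤ x - y)) 0
      (fun v => if x - y = yy v ∧ xx v ≤ x + y then 1 else 0)
      (fun v => if x - y = yy v - 1 ∧ xx v ≤ x + y then 1 else 0) where
  a := by
    rintro ⟨a, b⟩ h3 h4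
    have e1 : ¬ (a = x ∧ b = y) := by
      rintro ⟨rfl, rfl⟩
      rcases h : decide (0 ≤ a - b) with _ | _ <;> rw [h] at hp
      · exact hp h3
      · exact hp h4
    have e2 : ¬ (a = x + 1 ∧ b = y) := by
      rintro ⟨rfl, rfl⟩
      rcases h : decide (0 ≤ x - b) with _ | _ <;> rw [h] at hq
      · exact hq h3
      · exact hq h4
    simp only [rho, yy, xx]
    split_ifs <;> omega
  bt := by
    intro a b _ _ _ h4
    have e1 : ¬ (a = x ∧ b = y) := by
      rintro ⟨rfl, rfl⟩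
      exact hp h4
    simp only [yy, xx]
    split_ifs <;> omega
  bf := by
    intro a b _ _ _ _
    simp only [yy, xx]
    split_ifs <;> omega
  c1 := by
    rintro ⟨a, b⟩ h3 h4 h5 h6 h7
    have e1 : ¬ (a = x ∧ b = y) := by
      rintro ⟨rfl, rfl⟩
      rcases h : decide (0 ≤ a - b) with _ | _ <;> rw [h] at hp
      · exact hp h3
      · exact hp h4
    have e2 : ¬ (a = x + 1 ∧ b = y) := by
      rintro ⟨rfl, rfl⟩
      rcases h : decide (0 ≤ x - b) with _ | _ <;> rw [h] at hq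
      · exact hq h3
      · exact hq h4
    simp only [nm, max_le_iff, abs_le] at h1 h2
    simp only [yy, xx] at *
    constructor <;> split_ifs <;> omega
  c2 := by
    rintro ⟨a, b⟩ h3 h4 h5 h6 h7
    have e1 : ¬ (a = x ∧ b = y) := by
      rintro ⟨rfl, rfl⟩
      rcases h : decide (0 ≤ a - b) with _ | _ <;> rw [h] at hp
      · exact hp h3
      · exact hp h4
    have e2 : ¬ (a = x + 1 ∧ b = y) := by
      rintro ⟨rfl, rfl⟩
      rcases h : decide (0 ≤ x - b) with _ | _ <;> rw [h] at hq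
      · exact hq h3
      · exact hq h4
    simp only [nm, max_le_iff, abs_le] at h1 h2
    simp only [yy, xx] at *
    constructor <;> split_ifs <;> omega
  d1 := by
    intro a h3 h4 h5
    have e1 : ¬ (a = x ∧ a = y ∧ 0 ≤ x - y) := by
      rintro ⟨rfl, rfl, h⟩
      rw [decide_eq_true h] at hp
      exact hp h5
    have e2 : ¬ (a = x + 1 ∧ a = y ∧ 0 ≤ x - y) := by
      rintro ⟨h6, h7, h⟩
      omega
    simp only [yy, xx, decide_eq_true_eq]
    split_ifs <;> omega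
  d2 := by
    intro a h3 h4 h5
    have e2 : ¬ (a = x + 1 ∧ a = y ∧ ¬ 0 ≤ x - y) := by
      rintro ⟨h6, h7, h⟩
      rw [decide_eq_false h] at hq
      exact hq (by rw [← h6, ← h7]; exact h5)
    simp only [yy, xx, decide_eq_false_iff_not]
    split_ifs <;> omega

theorem stepF (x y : ℤ) (h1 : nm (x, y) ≤ R) (h2 : nm (x, y + 1) ≤ R)
    (hp : ¬ K ((x, y), decide (0 ≤ x - y - 1))) (hq : ¬ K ((x, y + 1), decide (0 ≤ x - y - 1))) :
    IN k R G K ((x, y), decide (0 ≤ x - y - 1)) ((x, y + 1), decide (0 ≤ x - y - 1)) 0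
      (fun v => if x - y - 1 = yy v ∧ xx v ≤ x + y then -1 else 0)
      (fun v => if x - y - 1 = yy v - 1 ∧ xx v ≤ x + y then -1 else 0) where
  a := by
    rintro ⟨a, b⟩ h3 h4
    have e1 : ¬ (a = x ∧ b = y) := by
      rintro ⟨rfl, rfl⟩
      rcases h : decide (0 ≤ a - b - 1) with _ | _ <;> rw [h] at hp
      · exact hp h3
      · exact hp h4
    have e2 : ¬ (a = x ∧ b = y + 1) := by
      rintro ⟨rfl, rfl⟩
      rcases h : decide (0 ≤ a - y - 1) with _ | _ <;> rw [h] at hq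
      · exact hq h3
      · exact hq h4
    simp only [rho, yy, xx]
    split_ifs <;> omega
  bt := by
    intro a b _ _ _ _
    simp only [yy, xx]
    split_ifs <;> omega
  bf := by
    intro a b _ _ _ h4
    have e1 : ¬ (a = x ∧ b = y) := by
      rintro ⟨rfl, rfl⟩
      exact hp h4
    simp only [yy, xx]
    split_ifs <;> omega
  c1 := by
    rintro ⟨a, b⟩ h3 h4 h5 h6 h7
    have e1 : ¬ (a = x ∧ b = y) := by
      rintro ⟨rfl, rfl⟩
      rcases h : decide (0 ≤ a - b - 1) with _ | _ <;> rw [h] at hp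
      · exact hp h3
      · exact hp h4
    have e2 : ¬ (a = x ∧ b = y + 1) := by
      rintro ⟨rfl, rfl⟩
      rcases h : decide (0 ≤ a - y - 1) with _ | _ <;> rw [h] at hq
      · exact hq h3
      · exact hq h4
    simp only [nm, max_le_iff, abs_le] at h1 h2
    simp only [yy, xx] at *
    constructor <;> split_ifs <;> omega
  c2 := by
    rintro ⟨a, b⟩ h3 h4 h5 h6 h7
    have e1 : ¬ (a = x ∧ b = y) := by
      rintro ⟨rfl, rfl⟩
      rcases h : decide (0 ≤ a - b - 1) with _ | _ <;> rw [h] at hp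
      · exact hp h3
      · exact hp h4
    have e2 : ¬ (a = x ∧ b = y + 1) := by
      rintro ⟨rfl, rfl⟩
      rcases h : decide (0 ≤ a - y - 1) with _ | _ <;> rw [h] at hq
      · exact hq h3
      · exact hq h4
    simp only [nm, max_le_iff, abs_le] at h1 h2
    simp only [yy, xx] at *
    constructor <;> split_ifs <;> omega
  d1 := by
    intro a h3 h4 h5
    have e2 : ¬ (a = x ∧ a = y + 1 ∧ 0 ≤ x - y - 1) := by
      rintro ⟨h6, h7, h⟩
      rw [decide_eq_true h] at hq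
      exact hq (by rw [← h6, ← h7]; exact h5)
    simp only [yy, xx, decide_eq_true_eq]
    split_ifs <;> omega
  d2 := by
    intro a h3 h4 h5
    have e1 : ¬ (a = x ∧ a = y ∧ ¬ 0 ≤ x - y - 1) := by
      rintro ⟨rfl, rfl, h⟩
      rw [decide_eq_false h] at hp
      exact hp h5
    simp only [yy, xx, decide_eq_false_iff_not]
    split_ifs <;> omega

theorem stepI (_hk : 1 ≤ k) (v : Vtx) (h2 : ¬ (v.1 = v.2 ∧ 0 < 2 * v.1 ∧ 2 * v.1 < k))
    (hp : ¬ K (v, false)) (hq : ¬ K (v, true)) :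
    IN k R G K (v, false) (v, true) (if v.1 = v.2 ∧ (k : ℤ) ≤ 2 * v.1 then 1 else 0)
      (fun _ => 0) (fun _ => 0) where
  a := fun v _ _ => by ring
  bt := fun _ _ _ _ _ _ => rfl
  bf := fun _ _ _ _ _ _ => rfl
  c1 := fun _ _ _ _ _ _ => ⟨rfl, rfl⟩
  c2 := fun _ _ _ _ _ _ => ⟨by ring, by ring⟩
  d1 := by
    intro a h3 h4 h5
    obtain ⟨x, y⟩ := v
    have e : ¬ (x = a ∧ y = a) := by rintro ⟨rfl, rfl⟩; exact hq h5
    simp only [yy, xx] at *
    simp only [Bool.false_eq_true, and_false, if_false, and_true]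
    split_ifs <;> omega
  d2 := by
    intro a h3 h4 h5
    obtain ⟨x, y⟩ := v
    have e : ¬ (x = a ∧ y = a) := by rintro ⟨rfl, rfl⟩; exact hp h5
    simp only [yy, xx] at *
    simp only [Bool.true_eq_false, and_false, if_false, and_true]
    split_ifs <;> omega

end IN

/-- the cluster is closed -/
theorem IN_exists {k : ℕ} {R : ℤ} {G : Set Edg} {K : Vtx × Bool → Prop} (hk : 1 ≤ k)
    (hK : ∀ x y, CL k R G x y → (K x ↔ K y)) {x y : (Vtx × Bool) × ℤ} (h : Cv k R G x y) :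
    ¬ K x.1 → ∃ u w, IN k R G K x.1 y.1 (y.2 - x.2) u w := by
  induction h with
  | rel x y h =>
    intro hx
    have hy : ¬ K y.1 := fun h' => hx ((hK _ _ (CL_of_CLv h)).2 h')
    cases h with
    | edge e l h1 h2 h3 =>
      obtain ⟨a, b, _ | _⟩ := e
      · have h4 := IN.stepF (k := k) (G := G) a b h2 h3 hx hy
        have e : (((tgt (a, b, false), decide (0 ≤ dco (a, b, false))), l) : (Vtx × Bool) × ℤ).2 -
          (((src (a, b, false), decide (0 ≤ dco (a, b, false))), l) : (Vtx × Bool) × ℤ).2 = 0 :=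
          sub_self l
        rw [e]
        exact ⟨_, _, h4⟩
      · have h4 := IN.stepT (k := k) (G := G) a b h2 h3 hx hy
        have e : (((tgt (a, b, true), decide (0 ≤ dco (a, b, true))), l) : (Vtx × Bool) × ℤ).2 -
          (((src (a, b, true), decide (0 ≤ dco (a, b, true))), l) : (Vtx × Bool) × ℤ).2 = 0 :=
          sub_self l
        rw [e]
        exact ⟨_, _, h4⟩
    | idn v l h1 h2 =>
      have h4 := IN.stepI (R := R) (G := G) hk v h2 hx hy
      have e : (((v, true), l + if v.1 = v.2 ∧ (k : ℤ) ≤ 2 * v.1 then 1 else 0) :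
        (Vtx × Bool) × ℤ).2 - (((v, false), l) : (Vtx × Bool) × ℤ).2 =
        if v.1 = v.2 ∧ (k : ℤ) ≤ 2 * v.1 then 1 else 0 := add_sub_cancel_left _ _
      rw [e]
      exact ⟨_, _, h4⟩
  | refl x =>
    intro _
    rw [sub_self]
    exact ⟨_, _, IN.refl x.1⟩
  | symm x y h ih =>
    intro hy
    have hc : ∀ a b, Cb k R G a b → (K a ↔ K b) := by
      intro a b hab
      unfold Cb at hab
      induction hab with
      | rel x y h => exact hK _ _ h
      | refl x => exact Iff.rfl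
      | symm x y _ h => exact h.symm
      | trans x y z _ _ h1 h2 => exact h1.trans h2
    obtain ⟨u, w, h1⟩ := ih (fun h' => hy ((hc _ _ (Cb_of_Cv h)).1 h'))
    have h2 := h1.symm
    rw [neg_sub] at h2
    exact ⟨_, _, h2⟩
  | trans x y z h1 h2 ih1 ih2 =>
    intro hx
    have hc : ∀ a b, Cb k R G a b → (K a ↔ K b) := by
      intro a b hab
      unfold Cb at hab
      induction hab with
      | rel x y h => exact hK _ _ h
      | refl x => exact Iff.rfl
      | symm x y _ h => exact h.symm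
      | trans x y z _ _ h1 h2 => exact h1.trans h2
    obtain ⟨u, w, h3⟩ := ih1 hx
    obtain ⟨u', w', h4⟩ := ih2 (fun h' => hx ((hc _ _ (Cb_of_Cv h1)).2 h'))
    have h5 := h3.trans h4
    have e : y.2 - x.2 + (z.2 - y.2) = z.2 - x.2 := by ring
    rw [e] at h5
    exact ⟨_, _, h5⟩

end Pool.Agent.S77.WP
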