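import Pool.Agent.S77.WP.StmT
import Pool.Agent.H12R2.Sep.Win1
import Pool.Agent.H12R2.Sep.Win2
import Pool.Agent.H12R2.Sep.WinHalf

/-!
# The number of disjoint large clusters has exponential moments
-/

set_option autoImplicit false

namespace Pool.Agent.S77.WP
open H974 H12S

namespace TL

/-! ### disjoint occurrence of a list of events -/

/-- the events of the list occur disjointly -/
def DD {J : Type} (E : J → Finset Edg → Prop) : List J → Finset Edg → Prop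
  | [] => fun _ => True
  | j :: l => DisjOcc (E j) (DD E l)

theorem DD_mono {J : Type} {E : J → Finset Edg → Prop} (l : List J) {F G : Finset Edg}
    (h : F ⊆ G) : DD E l F → DD E l G := by
  cases l with
  | nil => exact fun _ => trivial
  | cons j l =>
    rintro ⟨K, L, h1, h2, h3⟩
    exact ⟨K, L, h1.trans h, h2.trans h, h3⟩

theorem DD_perm {J : Type} {E : J → Finset Edg → Prop} {l l' : List J} (h : l.Perm l') :
    ∀ F, DD E l F → DD E l' F := by
  induction h with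
  | nil => exact fun _ h => h
  | cons a _ ih =>
    rintro F ⟨K, L, h1, h2, h3, h4, h5⟩
    exact ⟨K, L, h1, h2, h3, h4, ih L h5⟩
  | swap a b l =>
    rintro F ⟨K, L, h1, h2, h3, h4, K', L', h5, h6, h7, h8, h9⟩
    refine ⟨K', K ∪ L', h5.trans h2, Finset.union_subset h1 (h6.trans h2), ?_, h8, K, L',
      Finset.subset_union_left, Finset.subset_union_right, ?_, h4, h9⟩
    · rw [Finset.disjoint_union_right]
      exact ⟨(h3.mono_right h5).symm, h7⟩
    · exact h3.mono_right h6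
  | trans _ _ ih1 ih2 => exact fun F h => ih2 F (ih1 F h)

theorem DD_family {J : Type} {E : J → Finset Edg → Prop} : ∀ (h : ℕ) (φ : Fin h → J)
    (W : Fin h → Finset Edg) (F : Finset Edg), (∀ i, W i ⊆ F) →
    (∀ i j, i ≠ j → Disjoint (W i) (W j)) → (∀ i, E (φ i) (W i)) → DD E (List.ofFn φ) F := by
  intro h
  induction h with
  | zero => intro φ W F _ _ _; rw [List.ofFn_zero]; trivial
  | succ h ih =>
    intro φ W F h1 h2 h3
    rw [List.ofFn_succ]
    refine ⟨W 0, Finset.univ.biUnion fun i : Fin h => W i.succ, h1 0, ?_, ?_, h3 0, ?_⟩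
    · exact Finset.biUnion_subset.2 fun i _ => h1 _
    · rw [Finset.disjoint_biUnion_right]
      exact fun i _ => h2 _ _ (Fin.succ_ne_zero i).symm
    · refine ih _ (fun i => W i.succ) _ ?_ ?_ ?_
      · intro i
        exact Finset.subset_biUnion_of_mem (fun i : Fin h => W i.succ) (Finset.mem_univ i)
      · intro i j hij
        exact h2 _ _ fun h => hij (Fin.succ_injective _ h)
      · exact fun i => h3 _

theorem Pr_DD {p : Edg → ℝ} (hp : Ok p) {S : Finset Edg} {J : Type} {E : J → Finset Edg → Prop}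
    (hE : ∀ j, IncrE S (E j)) {q : ℝ} (hq0 : 0 ≤ q) (hq : ∀ j, Pr p S (E j) ≤ q) :
    ∀ l : List J, Pr p S (DD E l) ≤ q ^ l.length := by
  intro l
  induction l with
  | nil =>
    rw [List.length_nil, pow_zero]
    exact Pr_le_one hp _ _
  | cons j l ih =>
    rw [List.length_cons, pow_succ']
    refine (bk hp (hE j) (fun F G h _ => DD_mono l h)).trans ?_
    exact mul_le_mul (hq j) ih (Pr_nonneg hp _ _) hq0

theorem card_sym (J : Type) [Fintype J] [DecidableEq J] (h : ℕ) :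
    Fintype.card (Sym J h) ≤ (h + 1) ^ Fintype.card J := by
  have h1 : Fintype.card (Sym J h) ≤ Fintype.card (J → Fin (h + 1)) := by
    refine Fintype.card_le_of_injective (fun σ j => (⟨σ.1.count j, ?_⟩ : Fin (h + 1))) ?_
    · have := Multiset.count_le_card j σ.1
      rw [σ.2] at this
      omega
    · intro σ τ hστ
      refine Subtype.ext (Multiset.ext.2 fun j => ?_)
      have := congrFun hστ j
      simpa using this
  refine h1.trans ?_
  rw [Fintype.card_fun, Fintype.card_fin]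

/-- the covering by the multisets -/
theorem Pr_Mc {S : Finset Edg} {J : Type} [Fintype J] [DecidableEq J]
    {E : J → Finset Edg → Prop} (hE : ∀ j, IncrE S (E j)) {q : ℝ} (hq0 : 0 ≤ q)
    (hq : ∀ j, Pr (fun _ => (1 / 2 : ℝ)) S (E j) ≤ q) (d h : ℕ)
    (hW : ∀ W : Finset Edg, W ⊆ S → (∃ u v : Vtx,
      ((d : ℤ) ≤ |u.1 - v.1| ∨ (d : ℤ) ≤ |u.2 - v.2|) ∧ Reach (↑W : Set Edg) u v) → ∃ j, E j W) :
    Pr (fun _ => (1 / 2 : ℝ)) S (Mc d h) ≤ ((h : ℝ) + 1) ^ Fintype.card J * q ^ h := by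
  classical
  have hp : Ok (fun _ : Edg => (1 / 2 : ℝ)) := okq (by norm_num) (by norm_num)
  have h1 : Pr (fun _ => (1 / 2 : ℝ)) S (Mc d h) ≤
      Pr (fun _ => (1 / 2 : ℝ)) S (fun F => ∃ σ ∈ (Finset.univ : Finset (Sym J h)),
        DD E σ.1.toList F) := by
    refine Pr_mono hp ?_
    rintro F hF ⟨W, hW1, hW2, hW3⟩
    choose φ hφ using fun i => hW (W i) ((hW1 i).trans hF) (hW3 i)
    have h2 := DD_family h φ W F hW1 hW2 hφ
    refine ⟨⟨(List.ofFn φ : List J), by simp⟩, Finset.mem_univ _, ?_⟩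
    refine DD_perm ?_ F h2
    rw [← Multiset.coe_eq_coe, Multiset.coe_toList]
  refine h1.trans ((Pr_exists_le hp S _ _).trans ?_)
  have h2 : ∀ σ ∈ (Finset.univ : Finset (Sym J h)),
      Pr (fun _ => (1 / 2 : ℝ)) S (DD E σ.1.toList) ≤ q ^ h := by
    intro σ _
    have h3 := Pr_DD hp hE hq0 hq σ.1.toList
    rwa [Multiset.length_toList, σ.2] at h3
  refine (Finset.sum_le_sum h2).trans ?_
  rw [Finset.sum_const, nsmul_eq_mul, Finset.card_univ]
  refine mul_le_mul_of_nonneg_right ?_ (pow_nonneg hq0 _)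
  exact_mod_cast card_sym J h

/-- the series -/
theorem series (s : ℝ) (hs : 1 ≤ s) (L : ℕ) : ∃ B : ℝ, ∀ H : ℕ,
    ∑ h ∈ Finset.range H, s ^ h * (((h : ℝ) + 1) ^ L * (1 / (4 * s)) ^ h) ≤ B := by
  have hs0 : 0 < s := by linarith
  have h1 : Summable (fun n : ℕ => (n : ℝ) ^ L * (1 / 4 : ℝ) ^ n) :=
    summable_pow_mul_geometric_of_norm_lt_one L (by norm_num)
  refine ⟨4 * ∑' n : ℕ, (n : ℝ) ^ L * (1 / 4 : ℝ) ^ n, fun H => ?_⟩
  have h2 : ∑ h ∈ Finset.range H, s ^ h * (((h : ℝ) + 1) ^ L * (1 / (4 * s)) ^ h) =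
      4 * ∑ h ∈ Finset.range H, (((h + 1 : ℕ) : ℝ) ^ L * (1 / 4 : ℝ) ^ (h + 1)) := by
    rw [Finset.mul_sum]
    refine Finset.sum_congr rfl fun h _ => ?_
    have e1 : s ^ h * (1 / (4 * s)) ^ h = (1 / 4 : ℝ) ^ h := by
      rw [← mul_pow]
      congr 1
      field_simp
    calc s ^ h * (((h : ℝ) + 1) ^ L * (1 / (4 * s)) ^ h)
        = ((h : ℝ) + 1) ^ L * (s ^ h * (1 / (4 * s)) ^ h) := by ring
      _ = 4 * (((h + 1 : ℕ) : ℝ) ^ L * (1 / 4 : ℝ) ^ (h + 1)) := by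
        rw [e1]; push_cast; ring
  rw [h2]
  refine mul_le_mul_of_nonneg_left ?_ (by norm_num)
  have h3 : ∑ h ∈ Finset.range H, (((h + 1 : ℕ) : ℝ) ^ L * (1 / 4 : ℝ) ^ (h + 1)) ≤
      ∑ n ∈ Finset.range (H + 1), ((n : ℝ) ^ L * (1 / 4 : ℝ) ^ n) := by
    rw [Finset.sum_range_succ' (fun n : ℕ => (n : ℝ) ^ L * (1 / 4 : ℝ) ^ n) H]
    have : 0 ≤ ((0 : ℕ) : ℝ) ^ L * (1 / 4 : ℝ) ^ 0 := by positivity
    linarith
  exact h3.trans (h1.sum_le_tsum _ fun n _ => by positivity)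

/-- the number of pieces -/
theorem exists_M {C c s : ℝ} (_hC : 0 < C) (hc : 0 < c) (hs : 1 ≤ s) : ∃ M : ℕ, 4 ≤ M ∧
    C * (4 / (M : ℝ)) ^ c ≤ 1 / (4 * s) := by
  have h1 : Filter.Tendsto (fun M : ℕ => C * (4 / (M : ℝ)) ^ c) Filter.atTop (nhds (C * 0)) := by
    refine Filter.Tendsto.const_mul C ?_
    have h2 : Filter.Tendsto (fun M : ℕ => 4 / (M : ℝ)) Filter.atTop (nhds 0) :=
      tendsto_const_div_atTop_nhds_zero_nat 4
    have h3 := h2.rpow_const (p := c) (Or.inr hc.le)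
    rwa [Real.zero_rpow hc.ne'] at h3
  rw [mul_zero] at h1
  have h2 : ∀ᶠ M : ℕ in Filter.atTop, C * (4 / (M : ℝ)) ^ c ≤ 1 / (4 * s) :=
    (h1.eventually (gt_mem_nhds (show (0 : ℝ) < 1 / (4 * s) by positivity))).mono
      fun M hM => hM.le
  obtain ⟨M, hM⟩ := (h2.and (Filter.eventually_ge_atTop 4)).exists
  exact ⟨M, hM.2, hM.1⟩

theorem head_mem {W : Set Edg} {u v : Vtx} (h : Reach W u v) (huv : u ≠ v) :
    ∃ e ∈ W, src e = u ∨ tgt e = u := by
  rcases Relation.ReflTransGen.cases_head h with h | ⟨w, ⟨e, he, h1⟩, _⟩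
  · exact absurd h huv
  · rcases h1 with ⟨h1, _⟩ | ⟨_, h1⟩
    · exact ⟨e, he, Or.inl h1⟩
    · exact ⟨e, he, Or.inr h1⟩

/-- a long connection crosses an annulus around a point of the grid -/
theorem cross {r M ν : ℕ} (hM : 4 ≤ M) (hr : M ≤ r) {x0 y0 : ℤ} {S : Finset Edg}
    (hS : S ⊆ RE x0 (x0 + ν * r) y0 (y0 + ν * r)) {W : Finset Edg} (hW : W ⊆ S) {u v : Vtx}
    (hd : (r : ℤ) ≤ |u.1 - v.1| ∨ (r : ℤ) ≤ |u.2 - v.2|) (h : Reach (↑W : Set Edg) u v) :
    ∃ j : Fin (2 * ν * M + 1) × Fin (2 * ν * M + 1),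
      Crs (x0 + (r / M : ℕ) * (j.1.val : ℕ)) (y0 + (r / M : ℕ) * (j.2.val : ℕ)) (r / M) (r / 2)
        (↑W : Set Edg) := by
  set ρ := r / M with hρ
  have hρ1 : 1 ≤ ρ := Nat.div_pos hr (by omega)
  have hr1 : r < (ρ + 1) * M := by
    have h1 := Nat.div_add_mod r M
    have h2 := Nat.mod_lt r (show 0 < M by omega)
    rw [← hρ] at h1
    calc r = M * ρ + r % M := h1.symm
      _ < M * ρ + M := by omega
      _ = (ρ + 1) * M := by ring
  have hr2 : r ≤ ρ * (2 * M) := by nlinarith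
  have hρ2 : ρ ≤ r / 4 := Nat.div_le_div_left hM (by norm_num)
  have huv : u ≠ v := by
    rintro rfl
    simp only [sub_self, abs_zero] at hd
    omega
  obtain ⟨e, he, hu⟩ := head_mem h huv
  have hbox : (x0 ≤ u.1 ∧ u.1 ≤ x0 + ν * r) ∧ (y0 ≤ u.2 ∧ u.2 ≤ y0 + ν * r) := by
    have he' := hS (hW he)
    obtain ⟨x, y, _ | _⟩ := e
    · rw [mem_RE_false] at he'
      simp only [src_mk, tgt_false] at hu
      rcases hu with rfl | rfl <;> simp only <;> omega
    · rw [mem_RE_true] at he'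
      simp only [src_mk, tgt_true] at hu
      rcases hu with rfl | rfl <;> simp only <;> omega
  have key : ∀ t t0 : ℤ, t0 ≤ t → t ≤ t0 + ν * r → ∃ a : Fin (2 * ν * M + 1),
      t0 + (ρ : ℤ) * (a.val : ℕ) ≤ t ∧ t < t0 + (ρ : ℤ) * (a.val : ℕ) + ρ := by
    intro t t0 h1 h2
    obtain ⟨k, hk⟩ : ∃ k : ℕ, (k : ℤ) = t - t0 := ⟨(t - t0).toNat, by omega⟩
    have hk2 : k ≤ ν * r := by
      have : (k : ℤ) ≤ ν * r := by omega
      exact_mod_cast this
    have h3 : k / ρ ≤ 2 * ν * M := by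
      refine Nat.div_le_of_le_mul ?_
      calc k ≤ ν * r := hk2
        _ ≤ ν * (ρ * (2 * M)) := Nat.mul_le_mul_left _ hr2
        _ = ρ * (2 * ν * M) := by ring
    refine ⟨⟨k / ρ, by omega⟩, ?_⟩
    have h4 : ρ * (k / ρ) ≤ k := Nat.mul_div_le k ρ
    have h5 : k < ρ * (k / ρ) + ρ := by
      have h6 := Nat.div_add_mod k ρ
      have h7 := Nat.mod_lt k (show 0 < ρ by omega)
      omega
    have h4' : (ρ : ℤ) * ((k / ρ : ℕ) : ℤ) ≤ k := by exact_mod_cast h4
    have h5' : (k : ℤ) < (ρ : ℤ) * ((k / ρ : ℕ) : ℤ) + ρ := by exact_mod_cast h5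
    constructor
    · show t0 + (ρ : ℤ) * ((k / ρ : ℕ) : ℤ) ≤ t
      linarith
    · show t < t0 + (ρ : ℤ) * ((k / ρ : ℕ) : ℤ) + ρ
      linarith
  obtain ⟨a, ha1, ha2⟩ := key u.1 x0 hbox.1.1 hbox.1.2
  obtain ⟨b, hb1, hb2⟩ := key u.2 y0 hbox.2.1 hbox.2.2
  refine ⟨(a, b), u, v, ?_, ?_, h⟩
  · unfold inR
    simp only
    omega
  · simp only
    rcases hd with hd | hd
    · rcases abs_cases (u.1 - v.1) with h1 | h1 <;> omega
    · rcases abs_cases (u.2 - v.2) with h1 | h1 <;> omega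

end TL

open TL in
/-- **exponential moments of the number of disjoint large clusters** -/
theorem t_TAIL : S_TAIL := by
  intro s ν hs
  obtain ⟨κ, hκ, hWin⟩ := win_half
  obtain ⟨C, c, hC, hc, harm⟩ := win_arm_of
    (fun {q κ n} h {m} hm hmn c1 c2 S => win_blk h hm hmn c1 c2 S) κ hκ
  obtain ⟨M, hM4, hM⟩ := exists_M hC hc hs
  obtain ⟨B, hB⟩ := series s hs
    (Fintype.card (Fin (2 * ν * M + 1) × Fin (2 * ν * M + 1)))
  refine ⟨B, M, fun r hr x0 y0 S hS H => ?_⟩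
  refine le_trans (Finset.sum_le_sum fun h _ => ?_) (hB H)
  refine mul_le_mul_of_nonneg_left ?_ (by positivity)
  refine Pr_Mc (S := S) (E := fun j : Fin (2 * ν * M + 1) × Fin (2 * ν * M + 1) =>
      fun W : Finset Edg => Crs (x0 + (r / M : ℕ) * (j.1.val : ℕ))
        (y0 + (r / M : ℕ) * (j.2.val : ℕ)) (r / M) (r / 2) (↑W : Set Edg)) ?_ (by positivity) ?_
      r h ?_
  · rintro j F G hFG _ ⟨x, y, h1, h2, h3⟩
    exact ⟨x, y, h1, h2, h3.mono (by exact_mod_cast hFG)⟩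
  · intro j
    have hρ1 : 1 ≤ r / M := Nat.div_pos hr (by omega)
    have hρR : r / M ≤ r / 2 := Nat.div_le_div_left (by omega) (by norm_num)
    refine ((harm (1 / 2) (r / 2) (hWin _) (r / M) (r / 2) hρ1 hρR le_rfl _ _ S).1).trans ?_
    refine le_trans ?_ hM
    refine mul_le_mul_of_nonneg_left ?_ hC.le
    refine Real.rpow_le_rpow (by positivity) ?_ hc.le
    have hr0 : (0 : ℝ) < r := by
      have : 0 < r := by omega
      exact_mod_cast this
    have hM0 : (0 : ℝ) < M := by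
      have : 0 < M := by omega
      exact_mod_cast this
    have h1 : ((r / M : ℕ) : ℝ) ≤ r / M := Nat.cast_div_le
    have h2 : (r : ℝ) / 4 ≤ ((r / 2 : ℕ) : ℝ) := by
      have h3 : r ≤ 4 * (r / 2) := by omega
      have h4 : (r : ℝ) ≤ 4 * ((r / 2 : ℕ) : ℝ) := by exact_mod_cast h3
      linarith
    calc ((r / M : ℕ) : ℝ) / ((r / 2 : ℕ) : ℝ) ≤ ((r : ℝ) / M) / (r / 4) :=
          div_le_div₀ (by positivity) h1 (by positivity) h2
      _ = 4 / M := by field_simp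
  · rintro W hW ⟨u, v, hd, h⟩
    exact cross hM4 hr hS hW hd h

end Pool.Agent.S77.WP
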