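import Pool.Agent.S77.WP.Ind
import Pool.Agent.S77.WP.Tail
import Pool.Agent.S77.WP.I_rcr

/-!
# The exponential moments of the level: both bounds
-/

set_option autoImplicit false

namespace Pool.Agent.S77.WP
open Pool.Agent.H863R2.Cyl
open Pool.Agent.H988R2.Perc (Word PD)
open Pool.Agent.H160R2.ML
open Pool.Agent.H160R2.MU
open Pool.Agent.S77.WD
open H974 H906.Cyl

/-- **lower bound with the clusters of the annulus** -/
theorem L1 (hT : S_TAIL) {k : ℕ} (hk : 2 ≤ k) {lam K : ℝ} (hK : 2 * (21 * |lam|) ≤ K) :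
    ∃ c : ℝ, 0 < c ∧ ∃ R0 : ℕ, ∀ R : ℕ, R0 ≤ R → c * (R : ℝ) ^ (xpn k lam) ≤ TR k lam K R := by
  set x := xpn k lam with hx
  obtain ⟨C, hC, m0, h4⟩ := P4 hT hk hK 4
  obtain ⟨c, _, hc, -, h⟩ := lap_exp (k := k) (by omega) (-(lam / (2 * Real.pi)))
  refine ⟨c / C * ((8 : ℝ) ^ |x|)⁻¹, by positivity, m0 + k + 1, fun R hR => ?_⟩
  set m : ℕ := 2 * R - 1 with hm
  have hmi : mi m = R := by unfold mi; omega
  set n : ℕ := 4 * m with hn
  have hn1 : 1 ≤ n := by omega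
  obtain ⟨μ, hμ0, hμ1, hst, -, -⟩ := markov_exists (2 * n - 1)
  have e1 := YY_avg (k := k) (lam := lam) hn1 (by omega) (by omega) μ hμ0 hμ1 hst
  have h5 := (h n (by omega)).1
  rw [← e1] at h5
  have h6 : ∀ σ τ : Wd (2 * n - 1 + 1), Ex hf (CE n (4 * n)) (YY k lam n σ τ) ≤
      C * TR k lam K R := by
    intro σ τ
    have := h4 m (by omega) n (by omega) (by omega) σ τ
    rwa [hmi] at this
  have h7 := avg_mono hμ0 h6
  rw [avg_const hμ1] at h7
  have h8 : c * ((n : ℕ) : ℝ) ^ x ≤ C * TR k lam K R := h5.trans h7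
  have h9 := pow_cmp (x := x) (a := n) (b := R) (D := 8) (by omega) (by omega) (by omega)
    (by norm_num)
  have h10 : ((8 : ℕ) : ℝ) = 8 := by norm_num
  rw [h10] at h9
  have h11 : c / C * ((8 : ℝ) ^ |x|)⁻¹ * (R : ℝ) ^ x ≤ c / C * ((n : ℕ) : ℝ) ^ x := by
    rw [mul_assoc]
    refine mul_le_mul_of_nonneg_left ?_ (by positivity)
    rw [inv_mul_le_iff₀ (by positivity)]
    exact h9
  refine h11.trans ?_
  rw [div_mul_eq_mul_div, div_le_iff₀ hC]
  linarith

/-- a positive function on an initial part has a positive lower bound -/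
theorem low_fin {f : ℕ → ℝ} {k : ℕ} (h : ∀ n, k ≤ n → 0 < f n) (N : ℕ) :
    ∃ c : ℝ, 0 < c ∧ ∀ n, k ≤ n → n < N → c ≤ f n := by
  induction N with
  | zero => exact ⟨1, one_pos, fun n _ h => absurd h (Nat.not_lt_zero n)⟩
  | succ N ih =>
    obtain ⟨c, hc, h1⟩ := ih
    by_cases hkN : k ≤ N
    · refine ⟨min c (f N), lt_min hc (h N hkN), fun n hn hnN => ?_⟩
      rcases Nat.lt_succ_iff_lt_or_eq.1 hnN with h2 | h2
      · exact (min_le_left _ _).trans (h1 n hn h2)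
      · subst h2; exact min_le_right _ _
    · exact ⟨c, hc, fun n hn hnN => h1 n hn (by omega)⟩

theorem ZR_pos {k R : ℕ} {lam : ℝ} (hk : 2 ≤ k) (hkR : k ≤ R) : 0 < ZR k lam R := by
  obtain ⟨c, hc, h⟩ := a_LB k hk
  have hR0 : (0 : ℝ) < R := by exact_mod_cast (by omega : 0 < R)
  have h1 : 0 < sP k R := lt_of_lt_of_le (by positivity) (h R hkR)
  -- a lower bound of the weight
  obtain ⟨B, hB⟩ : ∃ B : ℝ, ∀ F ∈ (boxE R).powerset, B ≤ lam * Al k R (↑F : Set Edg) := by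
    obtain ⟨F0, -, hF0⟩ := Finset.exists_min_image (boxE R).powerset
      (fun F => lam * Al k R (↑F : Set Edg)) ⟨∅, Finset.mem_powerset.2 (Finset.empty_subset _)⟩
    exact ⟨_, hF0⟩
  have h2 : Real.exp B * sP k R ≤ ZR k lam R := by
    unfold ZR sP Pr
    rw [← Ex_mul_left]
    refine Ex_mono okh fun F hF => ?_
    unfold wR
    rw [mul_comm]
    exact mul_le_mul_of_nonneg_left (Real.exp_le_exp.2 (hB F (Finset.mem_powerset.2 hF)))
      (ind_nonneg _)
  exact lt_of_lt_of_le (by positivity) h2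

/-- **the exponential moments of the level** -/
theorem ZR_bounds {k : ℕ} (hk : 2 ≤ k) (lam : ℝ) : ∃ c C : ℝ, 0 < c ∧ 0 < C ∧ ∀ R : ℕ, k ≤ R →
    c * (R : ℝ) ^ (xpn k lam) ≤ ZR k lam R ∧ ZR k lam R ≤ C * (R : ℝ) ^ (xpn k lam) := by
  set x := xpn k lam with hx
  set K : ℝ := 42 * |lam| + 1 with hKdef
  have hl : 0 ≤ |lam| := abs_nonneg lam
  have hK : 2 * (21 * |lam|) ≤ K := by rw [hKdef]; linarith
  have hK' : 21 * |lam| + 1 ≤ K := by rw [hKdef]; linarith
  obtain ⟨A, hA, hU⟩ := U2 t_TAIL t_RCRI hk hK hK'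
  obtain ⟨c, hc, R0, hL⟩ := L1 t_TAIL hk hK
  set D : ℝ := (2 : ℝ) ^ |x| with hD
  have hD0 : 0 < D := by positivity
  obtain ⟨C1, hC1, m1, h1⟩ := P1 t_TAIL hk hK (c / (2 * A * D)) (by positivity)
  have key : ∀ R : ℕ, R0 + m1 + 1 ≤ R → c / (2 * C1) * (R : ℝ) ^ x ≤ ZR k lam R := by
    intro R hR
    have hR0 : (0 : ℝ) < R := by exact_mod_cast (by omega : 0 < R)
    have a1 := hL R (by omega)
    have a2 := h1 R (by omega)
    have a3 := hU ((R + 1) / 2) (by omega)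
    have a4 := pow_cmp (x := x) (a := R) (b := (R + 1) / 2) (D := 2) (by omega) (by omega) (by omega)
      (by norm_num)
    have h10 : ((2 : ℕ) : ℝ) = 2 := by norm_num
    rw [h10] at a4
    have a5 : c / (2 * A * D) * TR k lam K ((R + 1) / 2) ≤ c / 2 * (R : ℝ) ^ x := by
      have a6 : TR k lam K ((R + 1) / 2) ≤ A * (D * (R : ℝ) ^ x) :=
        a3.trans (mul_le_mul_of_nonneg_left a4 hA.le)
      refine (mul_le_mul_of_nonneg_left a6 (by positivity)).trans (le_of_eq ?_)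
      field_simp
    have a7 : c / 2 * (R : ℝ) ^ x ≤ C1 * ZR k lam R := by linarith
    have e1 : c / (2 * C1) * (R : ℝ) ^ x = (c / 2 * (R : ℝ) ^ x) / C1 := by field_simp
    rw [e1, div_le_iff₀ hC1]
    linarith
  obtain ⟨c2, hc2, h2⟩ := low_fin (f := fun R => ZR k lam R * (R : ℝ) ^ (-x)) (k := k)
    (fun R hR => mul_pos (ZR_pos hk hR)
      (Real.rpow_pos_of_pos (by exact_mod_cast (by omega : 0 < R)) _)) (R0 + m1 + 1)
  refine ⟨min c2 (c / (2 * C1)), A, lt_min hc2 (by positivity), hA, fun R hR => ⟨?_, ?_⟩⟩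
  · have hR0 : (0 : ℝ) < R := by exact_mod_cast (by omega : 0 < R)
    have hp : 0 < (R : ℝ) ^ x := Real.rpow_pos_of_pos hR0 x
    by_cases hlt : R < R0 + m1 + 1
    · have h3 := h2 R hR hlt
      have h4 : ZR k lam R = ZR k lam R * (R : ℝ) ^ (-x) * (R : ℝ) ^ x := by
        rw [mul_assoc, ← Real.rpow_add hR0, neg_add_cancel, Real.rpow_zero, mul_one]
      rw [h4]
      exact mul_le_mul_of_nonneg_right ((min_le_left _ _).trans h3) hp.le
    · exact (mul_le_mul_of_nonneg_right (min_le_right _ _) hp.le).trans (key R (by omega))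
  · exact (ZR_le_TR (by rw [hKdef]; positivity)).trans (hU R (by omega))

end Pool.Agent.S77.WP
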