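import Pool.Agent.S77.WP.Obs

/-!
# Exponential moments of the number of disjoint large clusters; comparison of two scales
-/

set_option autoImplicit false

namespace Pool.Agent.S77.WP
open Pool.Agent.H160R2.ML
open Pool.Agent.H160R2.MU
open H974 H906.Cyl

/-- the measure -/
noncomputable abbrev hf : Edg → ℝ := fun _ => (1 / 2 : ℝ)

theorem okh : Ok hf := fun _ => by unfold hf; norm_num

theorem RE_sub {a b c d a' b' c' d' : ℤ} (h1 : a' ≤ a) (h2 : b ≤ b') (h3 : c' ≤ c) (h4 : d ≤ d') :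
    RE a b c d ⊆ RE a' b' c' d' := by
  intro e he
  obtain ⟨x, y, _ | _⟩ := e
  · rw [mem_RE_false] at he ⊢
    omega
  · rw [mem_RE_true] at he ⊢
    omega

/-- exponential moments -/
theorem mom (hT : S_TAIL) {a : ℝ} (ha : 0 ≤ a) (ν : ℕ) : ∃ B : ℝ, 0 < B ∧ ∃ r0 : ℕ, 1 ≤ r0 ∧
    ∀ r : ℕ, r0 ≤ r → ∀ (x0 y0 : ℤ) (S : Finset Edg), S ⊆ RE x0 (x0 + ν * r) y0 (y0 + ν * r) →
    Ex hf S (fun F => Real.exp (a * Nc r F)) ≤ B := by
  obtain ⟨B, r0, h⟩ := hT (Real.exp a) ν (Real.one_le_exp ha)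
  refine ⟨max B 1, lt_of_lt_of_le one_pos (le_max_right _ _), max r0 1, le_max_right _ _,
    fun r hr x0 y0 S hS => ?_⟩
  have h1 := h r ((le_max_left _ _).trans hr) x0 y0 S hS (S.card + 1)
  refine le_trans ?_ (h1.trans (le_max_left _ _))
  have e1 : ∑ h ∈ Finset.range (S.card + 1), Real.exp a ^ h * Pr (fun _ => (1 / 2 : ℝ)) S (Mc r h) =
      Ex hf S (fun F => ∑ h ∈ Finset.range (S.card + 1), Real.exp a ^ h * ind (Mc r h F)) := by
    rw [Ex_sum]
    refine Finset.sum_congr rfl fun j _ => ?_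
    rw [Ex_mul_left]
    rfl
  rw [e1]
  refine Ex_mono okh fun F hF => ?_
  have hr1 : 1 ≤ r := (le_max_right _ _).trans hr
  have h2 := Nc_spec r F
  have h3 : Nc r F ∈ Finset.range (S.card + 1) := by
    rw [Finset.mem_range]
    have := Mc_card hr1 h2
    have := Finset.card_le_card hF
    omega
  have h4 : Real.exp (a * Nc r F) = Real.exp a ^ (Nc r F) * ind (Mc r (Nc r F) F) := by
    rw [ind_of h2, mul_one, mul_comm, Real.exp_nat_mul]
  rw [h4]
  exact Finset.single_le_sum (f := fun h => Real.exp a ^ h * ind (Mc r h F))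
    (fun i _ => mul_nonneg (by positivity) (ind_nonneg _)) h3

theorem boxE_sub {m m' : ℕ} (h : m ≤ m') : boxE m ⊆ boxE m' := by
  unfold boxE
  exact RE_sub (by omega) (by omega) (by omega) (by omega)

theorem NP_local {m : ℕ} {G G' : Set Edg} (h : ∀ e ∈ An m, (e ∈ G ↔ e ∈ G')) : NP m G = NP m G' := by
  unfold NP
  rw [rs_congr h]

theorem NP_int {m : ℕ} {U : Finset Edg} (hU : An m ⊆ U) (F : Finset Edg) :
    NP m (↑F : Set Edg) = NP m (↑(F ∩ U) : Set Edg) := by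
  apply NP_local
  intro e he
  rw [Finset.mem_coe, Finset.mem_coe, Finset.mem_inter]
  exact ⟨fun h => ⟨h, hU he⟩, fun h => h.1⟩

/-- exponential moments for an annulus -/
theorem mom_NP (hT : S_TAIL) {a : ℝ} (ha : 0 ≤ a) : ∃ B : ℝ, 0 < B ∧ ∃ m0 : ℕ, 32 ≤ m0 ∧
    ∀ m : ℕ, m0 ≤ m → ∀ U : Finset Edg, An m ⊆ U →
    Ex hf U (fun F => Real.exp (a * NP m (↑F : Set Edg))) ≤ B := by
  obtain ⟨B, hB, r0, hr0, h⟩ := mom hT ha 192
  refine ⟨B, hB, 32 * r0, by omega, fun m hm U hU => ?_⟩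
  rw [Ex_local hU (fun F _ => by rw [NP_int (le_refl (An m)) F])]
  have h1 := h (m / 16) (by omega) (-(3 * m : ℕ)) (-(3 * m : ℕ)) (An m) (by
    refine (Finset.sdiff_subset).trans ?_
    unfold boxE
    have h2 : (32 : ℤ) * (m / 16 : ℕ) ≥ m := by omega
    refine RE_sub le_rfl ?_ le_rfl ?_ <;> push_cast at h2 ⊢ <;> omega)
  refine le_trans (le_of_eq ?_) h1
  apply Ex_congr
  intro F hF
  have : rs (An m) (↑F : Set Edg) = F := by
    ext e
    rw [mem_rs, Finset.mem_coe]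
    exact ⟨fun h => h.2, fun h => ⟨hF h, h⟩⟩
  unfold NP
  rw [this]

/-- the weight -/
noncomputable def wR (k : ℕ) (lam : ℝ) (R : ℕ) (G : Set Edg) : ℝ :=
  ind (SE k R G) * Real.exp (lam * Al k R G)

theorem wR_nonneg (k : ℕ) (lam : ℝ) (R : ℕ) (G : Set Edg) : 0 ≤ wR k lam R G :=
  mul_nonneg (ind_nonneg _) (Real.exp_pos _).le

theorem wR_congr {k R : ℕ} {lam : ℝ} {G G' : Set Edg} (h : ∀ e ∈ boxE R, (e ∈ G ↔ e ∈ G')) :
    wR k lam R G = wR k lam R G' := by
  unfold wR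
  rw [Al_congr h, ind_congr (TLB.SE_congr h)]

theorem wR_int {k R : ℕ} {lam : ℝ} {U : Finset Edg} (hU : boxE R ⊆ U) (F : Finset Edg) :
    wR k lam R (↑F : Set Edg) = wR k lam R (↑(F ∩ U) : Set Edg) := by
  apply wR_congr
  intro e he
  rw [Finset.mem_coe, Finset.mem_coe, Finset.mem_inter]
  exact ⟨fun h => ⟨h, hU he⟩, fun h => h.1⟩

/-- the exponential moment -/
noncomputable def ZR (k : ℕ) (lam : ℝ) (R : ℕ) : ℝ := Ex hf (boxE R) (fun F => wR k lam R (↑F : Set Edg))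

/-- the exponential moment with the clusters of the annulus -/
noncomputable def TR (k : ℕ) (lam K : ℝ) (R : ℕ) : ℝ :=
  Ex hf (boxE (3 * R)) (fun F => wR k lam R (↑F : Set Edg) * Real.exp (K * NP R (↑F : Set Edg)))

theorem ZR_ex {k R : ℕ} {lam : ℝ} {U : Finset Edg} (hU : boxE R ⊆ U) :
    Ex hf U (fun F => wR k lam R (↑F : Set Edg)) = ZR k lam R :=
  Ex_local hU (fun F _ => wR_int (le_refl _) F)

theorem TR_ex {k R : ℕ} {lam K : ℝ} {U : Finset Edg} (hU : boxE (3 * R) ⊆ U) :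
    Ex hf U (fun F => wR k lam R (↑F : Set Edg) * Real.exp (K * NP R (↑F : Set Edg))) =
      TR k lam K R :=
  Ex_local hU (fun F _ => by
    rw [wR_int (boxE_sub (by omega : R ≤ 3 * R)) F,
      NP_int (m := R) (U := boxE (3 * R)) Finset.sdiff_subset F])

theorem ZR_nonneg (k : ℕ) (lam : ℝ) (R : ℕ) : 0 ≤ ZR k lam R :=
  Ex_nonneg okh fun _ _ => wR_nonneg _ _ _ _

theorem TR_nonneg (k : ℕ) (lam K : ℝ) (R : ℕ) : 0 ≤ TR k lam K R :=
  Ex_nonneg okh fun _ _ => mul_nonneg (wR_nonneg _ _ _ _) (Real.exp_pos _).le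

theorem ZR_le_TR {k R : ℕ} {lam K : ℝ} (hK : 0 ≤ K) : ZR k lam R ≤ TR k lam K R := by
  rw [← ZR_ex (boxE_sub (by omega : R ≤ 3 * R))]
  refine Ex_mono okh fun F _ => ?_
  exact le_mul_of_one_le_right (wR_nonneg _ _ _ _) (Real.one_le_exp (by positivity))

/-- the weights at two scales -/
theorem wR_two {k R m : ℕ} {lam : ℝ} (hk : 2 ≤ k) (hm : 32 ≤ m) (hkm : 2 * k ≤ m) (hmR : m ≤ R)
    (hR : R ≤ 3 * m) (G : Set Edg) :
    wR k lam R G ≤ wR k lam m G * Real.exp (21 * |lam| * (1 + NP m G)) := by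
  unfold wR
  by_cases hSE : SE k R G
  · have hSEm : SE k m G := TMON.se_mono hk (by omega) hmR hSE
    rw [ind_of hSE, ind_of hSEm, one_mul, one_mul, ← Real.exp_add]
    apply Real.exp_le_exp.2
    have h1 := Al_two hk hm hkm hmR hR hSE
    have h2 : |((Al k R G : ℤ) : ℝ) - Al k m G| ≤ 21 * (1 + NP m G) := by
      exact_mod_cast h1
    have h3 : lam * (Al k R G) - lam * (Al k m G) ≤ |lam| * (21 * (1 + NP m G)) := by
      rw [← mul_sub]
      refine (le_abs_self _).trans ?_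
      rw [abs_mul]
      exact mul_le_mul_of_nonneg_left h2 (abs_nonneg _)
    linarith
  · rw [ind_not_of hSE, zero_mul]
    exact mul_nonneg (mul_nonneg (ind_nonneg _) (Real.exp_pos _).le) (Real.exp_pos _).le

theorem amgm {η a b : ℝ} (hη : 0 < η) : a * b ≤ 1 / (2 * η) * b ^ 2 + η / 2 * a ^ 2 := by
  have h : 0 ≤ (b - η * a) ^ 2 / (2 * η) := by positivity
  have e : (b - η * a) ^ 2 / (2 * η) = 1 / (2 * η) * b ^ 2 + η / 2 * a ^ 2 - a * b := by
    field_simp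
    ring
  linarith

/-- **comparison of two scales** -/
theorem core {k R m : ℕ} {lam K : ℝ} (hk : 2 ≤ k) (hm : 32 ≤ m) (hkm : 2 * k ≤ m)
    (hmR : m ≤ (R + 1) / 2) (hR : R ≤ 3 * m) (hK : 2 * (21 * |lam|) ≤ K) (g : ℕ → ℝ)
    (hg : ∀ n, 0 ≤ g n) {η : ℝ} (hη : 0 < η) :
    Ex hf (boxE (3 * R)) (fun F => wR k lam R (↑F : Set Edg) * g (NP R (↑F : Set Edg))) ≤
      1 / (2 * η) * (ZR k lam m * Ex hf (boxE (3 * R)) (fun F => g (NP R (↑F : Set Edg)) ^ 2)) +
      η / 2 * Real.exp (2 * (21 * |lam|)) * TR k lam K m := by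
  set C : ℝ := 21 * |lam| with hC
  have hC0 : 0 ≤ C := by positivity
  have h1 : ∀ F : Finset Edg, F ⊆ boxE (3 * R) →
      wR k lam R (↑F : Set Edg) * g (NP R (↑F : Set Edg)) ≤
      1 / (2 * η) * (wR k lam m (↑F : Set Edg) * g (NP R (↑F : Set Edg)) ^ 2) +
      η / 2 * Real.exp (2 * C) * (wR k lam m (↑F : Set Edg) *
        Real.exp (K * NP m (↑F : Set Edg))) := by
    intro F _
    have a1 := wR_two (lam := lam) hk hm hkm (by omega : m ≤ R) hR (↑F : Set Edg)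
    have a2 : wR k lam R (↑F : Set Edg) * g (NP R (↑F : Set Edg)) ≤
        wR k lam m (↑F : Set Edg) * (Real.exp (C * (1 + NP m (↑F : Set Edg))) *
          g (NP R (↑F : Set Edg))) := by
      rw [← mul_assoc]
      exact mul_le_mul_of_nonneg_right a1 (hg _)
    have a3 := amgm (a := Real.exp (C * (1 + NP m (↑F : Set Edg)))) (b := g (NP R (↑F : Set Edg))) hη
    have a4 : Real.exp (C * (1 + NP m (↑F : Set Edg))) ^ 2 ≤
        Real.exp (2 * C) * Real.exp (K * NP m (↑F : Set Edg)) := by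
      rw [← Real.exp_nat_mul, ← Real.exp_add]
      apply Real.exp_le_exp.2
      have : (0 : ℝ) ≤ NP m (↑F : Set Edg) := Nat.cast_nonneg _
      push_cast
      nlinarith
    have a5 : η / 2 * Real.exp (C * (1 + NP m (↑F : Set Edg))) ^ 2 ≤
        η / 2 * (Real.exp (2 * C) * Real.exp (K * NP m (↑F : Set Edg))) :=
      mul_le_mul_of_nonneg_left a4 (by positivity)
    have a6 := mul_le_mul_of_nonneg_left (a3.trans (add_le_add_right a5 _))
      (wR_nonneg k lam m (↑F : Set Edg))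
    refine a2.trans (a6.trans (le_of_eq ?_))
    ring
  refine (Ex_mono okh h1).trans (le_of_eq ?_)
  rw [Ex_add, Ex_mul_left, Ex_mul_left, TR_ex (boxE_sub (by omega)),
    Ex_mul_indep (S := boxE m) (T := An R) (boxE_sub (by omega)) Finset.sdiff_subset ?_
    (fun F _ => wR_int (le_refl _) F) (fun F _ => by rw [NP_int (le_refl (An R)) F]),
    ZR_ex (boxE_sub (by omega))]
  rw [Finset.disjoint_left]
  intro e he he'
  unfold An at he'
  rw [Finset.mem_sdiff] at he'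
  exact he'.2 (boxE_sub hmR he)

end Pool.Agent.S77.WP
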