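import Pool.Agent.S77.WP.Plane
import Pool.Agent.H160R2.MU.T_LB

/-!
# The level of the arms as a function of the configuration, the number of large disjoint clusters
-/

set_option autoImplicit false

namespace Pool.Agent.S77.WP
open Pool.Agent.H160R2.ML
open Pool.Agent.H160R2.MU
open H974 H906.Cyl

/-- `l` is the level of an arm at distance `R` -/
def WR (k R : ℕ) (G : Set Edg) (l : ℤ) : Prop :=
  ∃ i : ℕ, i < 2 * k ∧ i % 2 = 0 ∧ ∃ q : Vtx × Bool, nm q.1 = R ∧ Cv k R G (sv k i, 0) (q, l)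

theorem WR_close {k R : ℕ} (hk : 2 ≤ k) (hkR : k ≤ R) {G : Set Edg} (hSE : SE k R G) {l l' : ℤ}
    (h : WR k R G l) (h' : WR k R G l') : |l - l'| ≤ 8 := by
  obtain ⟨i, hi, hi2, q, hq, hc⟩ := h
  obtain ⟨i', hi', hi2', q', hq', hc'⟩ := h'
  exact arms_lv hk hkR hSE hi hi2 hi' hi2' hq hq' hc hc'

theorem WR_exists {k R : ℕ} (hk : 2 ≤ k) {G : Set Edg} (hSE : SE k R G) : ∃ l, WR k R G l := by
  obtain ⟨y, β, hy, hc⟩ := hSE.2 0 (by omega) rfl
  obtain ⟨l, hl⟩ := Cv_lift hc 0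
  exact ⟨l, 0, by omega, rfl, (y, β), hy, hl⟩

theorem WR_mono {k R : ℕ} {G G' : Set Edg} (h : ∀ e ∈ boxE R, e ∈ G → e ∈ G') {l : ℤ}
    (hl : WR k R G l) : WR k R G' l := by
  obtain ⟨i, hi, hi2, q, hq, hc⟩ := hl
  refine ⟨i, hi, hi2, q, hq, ?_⟩
  unfold Cv at hc ⊢
  have key : ∀ x y : (Vtx × Bool) × ℤ, Relation.EqvGen (CLv k R G) x y →
      Relation.EqvGen (CLv k R G') x y := by
    intro x y hxy
    induction hxy with
    | rel x y h1 =>
      refine Relation.EqvGen.rel _ _ ?_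
      cases h1 with
      | edge e l h1 h2 h3 => exact CLv.edge e l (h e (TLB.edge_box h2 h3) h1) h2 h3
      | idn v l h1 h2 => exact CLv.idn v l h1 h2
    | refl x => exact Relation.EqvGen.refl _
    | symm x y _ ih => exact Relation.EqvGen.symm _ _ ih
    | trans x y z _ _ ih1 ih2 => exact Relation.EqvGen.trans _ _ _ ih1 ih2
  exact key _ _ hc

theorem WR_congr {k R : ℕ} {G G' : Set Edg} (h : ∀ e ∈ boxE R, (e ∈ G ↔ e ∈ G')) :
    WR k R G = WR k R G' := by
  funext l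
  exact propext ⟨WR_mono fun e he => (h e he).1, WR_mono fun e he => (h e he).2⟩

open Classical in
/-- a level -/
noncomputable def Al (k R : ℕ) (G : Set Edg) : ℤ := if h : ∃ l, WR k R G l then h.choose else 0

theorem Al_spec {k R : ℕ} (hk : 2 ≤ k) {G : Set Edg} (hSE : SE k R G) : WR k R G (Al k R G) := by
  have h := WR_exists hk hSE
  unfold Al
  rw [dif_pos h]
  exact h.choose_spec

theorem Al_congr {k R : ℕ} {G G' : Set Edg} (h : ∀ e ∈ boxE R, (e ∈ G ↔ e ∈ G')) :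
    Al k R G = Al k R G' := by
  unfold Al
  rw [WR_congr h]

/-! ### the number of disjoint large clusters -/

theorem Mc_card {ρ h : ℕ} (hρ : 1 ≤ ρ) {F : Finset Edg} (hM : Mc ρ h F) : h ≤ F.card := by
  classical
  obtain ⟨W, w1, w2, w3⟩ := hM
  have hne : ∀ i, ∃ e, e ∈ W i := by
    intro i
    by_contra h'
    have h1 : W i = ∅ := Finset.eq_empty_of_forall_notMem fun e he => h' ⟨e, he⟩
    obtain ⟨u, v, huv, hr⟩ := w3 i
    rw [h1, Finset.coe_empty] at hr
    have h2 : u = v := by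
      induction hr with
      | refl => rfl
      | tail _ hs _ =>
        obtain ⟨e, he, -⟩ := hs
        exact he.elim
    subst h2
    rw [sub_self, sub_self, abs_zero] at huv
    omega
  choose f hf using hne
  have hinj : Function.Injective f := by
    intro i j hij
    by_contra hne
    exact Finset.disjoint_left.1 (w2 i j hne) (hf i) (hij ▸ hf j)
  calc h = (Finset.univ : Finset (Fin h)).card := by simp
    _ = ((Finset.univ : Finset (Fin h)).image f).card := (Finset.card_image_of_injective _ hinj).symm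
    _ ≤ F.card := Finset.card_le_card (fun e he => by
        obtain ⟨i, -, rfl⟩ := Finset.mem_image.1 he
        exact w1 i (hf i))

theorem Mc_mono {ρ h : ℕ} {F F' : Finset Edg} (hF : F ⊆ F') (hM : Mc ρ h F) : Mc ρ h F' := by
  obtain ⟨W, w1, w2, w3⟩ := hM
  exact ⟨W, fun i => (w1 i).trans hF, w2, w3⟩

theorem Mc_zero (ρ : ℕ) (F : Finset Edg) : Mc ρ 0 F :=
  ⟨fun i => i.elim0, fun i => i.elim0, fun i => i.elim0, fun i => i.elim0⟩

open Classical in
/-- the number of disjoint large clusters -/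
noncomputable def Nc (ρ : ℕ) (F : Finset Edg) : ℕ := Nat.findGreatest (fun h => Mc ρ h F) F.card

theorem Nc_spec (ρ : ℕ) (F : Finset Edg) : Mc ρ (Nc ρ F) F := by
  classical
  unfold Nc
  exact Nat.findGreatest_spec (P := fun h => Mc ρ h F) (Nat.zero_le _) (Mc_zero ρ F)

theorem le_Nc {ρ h : ℕ} (hρ : 1 ≤ ρ) {F : Finset Edg} (hM : Mc ρ h F) : h ≤ Nc ρ F := by
  classical
  unfold Nc
  exact Nat.le_findGreatest (Mc_card hρ hM) hM

theorem Nc_mono {ρ : ℕ} (hρ : 1 ≤ ρ) {F F' : Finset Edg} (hF : F ⊆ F') : Nc ρ F ≤ Nc ρ F' :=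
  le_Nc hρ (Mc_mono hF (Nc_spec ρ F))

/-- a list of disjoint sets -/
theorem Mc_of_list {ρ : ℕ} {F : Finset Edg} (Ws : List (Finset Edg)) (h1 : Ws.Pairwise Disjoint)
    (h2 : ∀ S ∈ Ws, S ⊆ F ∧ ∃ u v : Vtx, (ρ : ℤ) ≤ ds u v ∧ Reach (↑S : Set Edg) u v) :
    Mc ρ Ws.length F := by
  refine ⟨fun i => Ws.get i, fun i => (h2 _ (List.get_mem _ _)).1, ?_, ?_⟩
  · intro i j hij
    rw [List.pairwise_iff_get] at h1
    rcases lt_or_gt_of_ne hij with h | h
    · exact h1 i j h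
    · exact (h1 j i h).symm
  · intro i
    obtain ⟨-, u, v, h3, h4⟩ := h2 _ (List.get_mem Ws i)
    refine ⟨u, v, ?_, h4⟩
    unfold ds at h3
    rwa [le_max_iff] at h3

open Classical in
/-- restriction of a configuration -/
noncomputable def rs (U : Finset Edg) (G : Set Edg) : Finset Edg := U.filter (fun e => e ∈ G)

theorem mem_rs {U : Finset Edg} {G : Set Edg} {e : Edg} : e ∈ rs U G ↔ e ∈ U ∧ e ∈ G := by
  classical
  unfold rs
  exact Finset.mem_filter

theorem rs_congr {U : Finset Edg} {G G' : Set Edg} (h : ∀ e ∈ U, (e ∈ G ↔ e ∈ G')) :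
    rs U G = rs U G' := by
  ext e
  rw [mem_rs, mem_rs]
  constructor
  · rintro ⟨h1, h2⟩; exact ⟨h1, (h e h1).1 h2⟩
  · rintro ⟨h1, h2⟩; exact ⟨h1, (h e h1).2 h2⟩

/-- the annulus around the scale `R` -/
noncomputable def An (R : ℕ) : Finset Edg := boxE (3 * R) \ boxE ((R + 1) / 2)

/-- the number of disjoint large clusters of the annulus -/
noncomputable def NP (R : ℕ) (G : Set Edg) : ℕ := Nc (R / 16) (rs (An R) G)

/-- **the levels at two scales** -/
theorem Al_two {k R m : ℕ} (hk : 2 ≤ k) (hm : 32 ≤ m) (hkm : 2 * k ≤ m) (hmR : m ≤ R) (hR : R ≤ 3 * m)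
    {G : Set Edg} (hSE : SE k R G) : |Al k R G - Al k m G| ≤ 21 * (1 + NP m G) := by
  obtain ⟨i, hi, hi2, q, hq, hc⟩ := Al_spec hk hSE
  obtain ⟨l0, y0, hy0, hc0, Ws, w1, w2, w3⟩ := B1 (k := k) (R := R) (m1 := m)
    (m0 := (m + 1) / 2 + m / 16 + 1) (m := (m + 1) / 2) (ρ := m / 16) hk (by omega) (by omega)
    (by omega) (by omega) hmR hSE hi hi2 hq hc
  have hSEm : SE k m G := TMON.se_mono hk (by omega) hmR hSE
  have h1 := WR_close hk (by omega) hSEm (Al_spec hk hSEm) ⟨i, hi, hi2, y0, hy0, hc0⟩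
  have h2 : Mc (m / 16) Ws.length (rs (An m) G) := by
    refine Mc_of_list Ws w2 fun S hS => ?_
    obtain ⟨a1, u, v, a2, a3⟩ := w3 S hS
    refine ⟨fun e he => ?_, u, v, a2, a3⟩
    obtain ⟨b1, ⟨b2, b3⟩, b4, b5⟩ := a1 e he
    rw [mem_rs]
    refine ⟨?_, b1⟩
    unfold An
    rw [Finset.mem_sdiff]
    refine ⟨TLB.edge_box (by push_cast; omega) (by push_cast; omega), fun h => ?_⟩
    rw [TDEC.box_iff] at h
    omega
  have h3 := le_Nc (by omega : 1 ≤ m / 16) h2
  have h4 : (Ws.length : ℤ) ≤ NP m G := by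
    unfold NP
    exact_mod_cast h3
  rw [abs_le] at h1 w1 ⊢
  constructor <;> linarith [h1.1, h1.2, w1.1, w1.2]

end Pool.Agent.S77.WP
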