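import Pool.Agent.S77.WP.Avg

/-!
# Bounds by the exact law
-/

set_option autoImplicit false

namespace Pool.Agent.S77.WP
open Pool.Agent.H863R2.Cyl
open Pool.Agent.H988R2.Perc (Word PD)
open Pool.Agent.H160R2.ML
open Pool.Agent.H160R2.MU
open Pool.Agent.S77.WD
open H974 H906.Cyl

theorem exp_small {c ε : ℝ} (hε : 0 < ε) : ∃ H : ℕ, c * Real.exp (-(H : ℝ)) ≤ ε := by
  have h1 : Filter.Tendsto (fun H : ℕ => c * Real.exp (-(H : ℝ))) Filter.atTop
      (nhds (c * 0)) := by
    refine Filter.Tendsto.const_mul _ ?_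
    exact Real.tendsto_exp_neg_atTop_nhds_zero.comp tendsto_natCast_atTop_atTop
  rw [mul_zero] at h1
  exact (h1.eventually (ge_mem_nhds hε)).exists

/-- the inner box, with a weight for the clusters of the regions -/
theorem core2 {n k m : ℕ} {lam K : ℝ} (hk : 2 ≤ k) (hm : 64 ≤ m) (hkm : 4 * k ≤ m)
    (h4 : 4 * m ≤ n) (hK : 2 * (21 * |lam|) ≤ K) (g : ℕ → ℝ) (hg : ∀ n, 0 ≤ g n) {η : ℝ}
    (hη : 0 < η) :
    Ex hf (CE n (4 * n)) (fun F => wR k lam m (per n F) * g (NA n m F + NB n m F)) ≤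
      1 / (2 * η) * (ZR k lam (mi m) *
        Ex hf (CE n (4 * n)) (fun F => g (NA n m F + NB n m F) ^ 2)) +
      η / 2 * Real.exp (2 * (21 * |lam|)) * TR k lam K (mi m) := by
  set C : ℝ := 21 * |lam| with hC
  have hC0 : 0 ≤ C := by positivity
  have h1 : ∀ F : Finset Edg, F ⊆ CE n (4 * n) →
      wR k lam m (per n F) * g (NA n m F + NB n m F) ≤
      1 / (2 * η) * (wR k lam (mi m) (per n F) * g (NA n m F + NB n m F) ^ 2) +
      η / 2 * Real.exp (2 * C) * (wR k lam (mi m) (per n F) *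
        Real.exp (K * NP (mi m) (per n F))) := by
    intro F _
    have a1 := wR_two (lam := lam) (R := m) (m := mi m) hk (by unfold mi; omega)
      (by unfold mi; omega) (by unfold mi; omega) (by unfold mi; omega) (per n F)
    have a2 : wR k lam m (per n F) * g (NA n m F + NB n m F) ≤
        wR k lam (mi m) (per n F) * (Real.exp (C * (1 + NP (mi m) (per n F))) *
          g (NA n m F + NB n m F)) := by
      rw [← mul_assoc]
      exact mul_le_mul_of_nonneg_right a1 (hg _)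
    have a3 := amgm (a := Real.exp (C * (1 + NP (mi m) (per n F))))
      (b := g (NA n m F + NB n m F)) hη
    have a4 : Real.exp (C * (1 + NP (mi m) (per n F))) ^ 2 ≤
        Real.exp (2 * C) * Real.exp (K * NP (mi m) (per n F)) := by
      rw [← Real.exp_nat_mul, ← Real.exp_add]
      apply Real.exp_le_exp.2
      have : (0 : ℝ) ≤ NP (mi m) (per n F) := Nat.cast_nonneg _
      push_cast
      nlinarith
    have a5 : η / 2 * Real.exp (C * (1 + NP (mi m) (per n F))) ^ 2 ≤
        η / 2 * (Real.exp (2 * C) * Real.exp (K * NP (mi m) (per n F))) :=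
      mul_le_mul_of_nonneg_left a4 (by positivity)
    have a6 := mul_le_mul_of_nonneg_left (a3.trans (add_le_add_right a5 _))
      (wR_nonneg k lam (mi m) (per n F))
    refine a2.trans (a6.trans (le_of_eq ?_))
    ring
  refine (Ex_mono okh h1).trans (le_of_eq ?_)
  rw [Ex_add, Ex_mul_left, Ex_mul_left, TR_per (by unfold mi; omega),
    indep hm h4 (fun x => g x ^ 2)]

/-- **upper bound by the exact law** -/
theorem P3 (hT : S_TAIL) {k : ℕ} (hk : 2 ≤ k) {lam K : ℝ} (hK : 2 * (21 * |lam|) ≤ K) (ε : ℝ)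
    (hε : 0 < ε) (L : ℕ) : ∃ C : ℝ, 0 < C ∧ ∃ m0 : ℕ, ∀ m : ℕ, m0 ≤ m → ∀ n : ℕ, 4 * m ≤ n →
    n ≤ L * m → ∀ σ τ : Wd (2 * n - 1 + 1), CY k lam m n (4 * n) σ τ ≤
      C * Ex hf (CE n (4 * n)) (YY k lam n σ τ) + ε * TR k lam K (mi m) := by
  have hK0 : 0 ≤ K := by have := abs_nonneg lam; linarith
  obtain ⟨B, hB, m0, hm0, h⟩ := mom_AB hT (a := 1) one_pos.le L
  set C1 : ℝ := 21 * |lam| with hC1
  set C2 : ℝ := 13 * |lam| with hC2
  have hC20 : 0 ≤ C2 := by positivity
  set η : ℝ := ε * Real.exp (-(2 * C1)) with hη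
  have hη0 : 0 < η := by positivity
  obtain ⟨H, hH⟩ := exp_small (c := 1 / (2 * η) * B) (ε := ε / 2) (by positivity)
  refine ⟨Real.exp (C2 * (1 + H)), Real.exp_pos _, max m0 (4 * k), fun m hm n h4 hL σ τ => ?_⟩
  have h1 : m0 ≤ m := (le_max_left _ _).trans hm
  have h2 : 4 * k ≤ m := (le_max_right _ _).trans hm
  set g : ℕ → ℝ := fun n => if n ≤ H then 0 else 1 with hg
  have hg0 : ∀ n, 0 ≤ g n := by
    intro n
    rw [hg]
    simp only
    split_ifs
    · exact le_rfl
    · exact one_pos.le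
  have h3 := core2 (lam := lam) (K := K) (n := n) (m := m) hk (by omega) h2 h4 hK g hg0 hη0
  have h5 : Ex hf (CE n (4 * n)) (fun F => g (NA n m F + NB n m F) ^ 2) ≤
      Real.exp (-(H : ℝ)) * B := by
    have h6 : Ex hf (CE n (4 * n)) (fun F => g (NA n m F + NB n m F) ^ 2) ≤
        Ex hf (CE n (4 * n)) (fun F => Real.exp (-(H : ℝ)) *
          Real.exp (1 * (NA n m F + NB n m F))) := by
      refine Ex_mono okh fun F _ => ?_
      rw [hg]
      simp only
      split_ifs with h7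
      · rw [zero_pow (by norm_num)]
        positivity
      · rw [one_pow, ← Real.exp_add]
        apply Real.one_le_exp
        have : (H : ℝ) ≤ NA n m F + NB n m F := by
          exact_mod_cast (by omega : H ≤ NA n m F + NB n m F)
        linarith
    rw [Ex_mul_left] at h6
    exact h6.trans (mul_le_mul_of_nonneg_left (h m h1 n h4 hL) (Real.exp_pos _).le)
  have h6 : CY k lam m n (4 * n) σ τ ≤ Real.exp (C2 * (1 + H)) *
      Ex hf (CE n (4 * n)) (YY k lam n σ τ) +
      Ex hf (CE n (4 * n)) (fun F => wR k lam m (per n F) * g (NA n m F + NB n m F)) := by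
    unfold CY
    rw [← Ex_mul_left, ← Ex_add]
    refine Ex_mono okh fun F hF => ?_
    obtain ⟨q1, -⟩ := Q2 (lam := lam) hk (by omega : 64 ≤ m) (by omega) h4 hF σ τ
    have h7 := wR_nonneg k lam m (per n F)
    have h8 := YY_nonneg k lam n σ τ F
    rw [hg]
    simp only
    split_ifs with h9
    · rw [mul_zero, add_zero]
      refine q1.trans (mul_le_mul_of_nonneg_right ?_ h8)
      apply Real.exp_le_exp.2
      refine mul_le_mul_of_nonneg_left ?_ hC20
      have : ((NA n m F + NB n m F : ℕ) : ℝ) ≤ H := by exact_mod_cast h9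
      linarith
    · rw [mul_one]
      have h10 : ind (PG 0 n (4 * n) k (Ac 0 n (4 * n) F) τ.1 σ.1) * wR k lam m (per n F) ≤
          wR k lam m (per n F) := mul_le_of_le_one_left h7 (ind_le_one _)
      have : 0 ≤ Real.exp (C2 * (1 + H)) * YY k lam n σ τ F := by positivity
      linarith
  have h7 := ZR_le_TR (k := k) (R := mi m) (lam := lam) hK0
  have h8 := TR_nonneg k lam K (mi m)
  have h9 := ZR_nonneg k lam (mi m)
  have h10 : ZR k lam (mi m) * Ex hf (CE n (4 * n)) (fun F => g (NA n m F + NB n m F) ^ 2) ≤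
      TR k lam K (mi m) * (Real.exp (-(H : ℝ)) * B) :=
    mul_le_mul h7 h5 (Ex_nonneg okh fun _ _ => by positivity) h8
  have h11 : 1 / (2 * η) * (ZR k lam (mi m) *
      Ex hf (CE n (4 * n)) (fun F => g (NA n m F + NB n m F) ^ 2)) ≤
      ε / 2 * TR k lam K (mi m) := by
    refine (mul_le_mul_of_nonneg_left h10 (by positivity)).trans ?_
    have e1 : 1 / (2 * η) * (TR k lam K (mi m) * (Real.exp (-(H : ℝ)) * B)) =
        1 / (2 * η) * B * Real.exp (-(H : ℝ)) * TR k lam K (mi m) := by ring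
    rw [e1]
    exact mul_le_mul_of_nonneg_right hH h8
  have h12 : η / 2 * Real.exp (2 * C1) * TR k lam K (mi m) = ε / 2 * TR k lam K (mi m) := by
    have : η * Real.exp (2 * C1) = ε := by
      rw [hη, mul_assoc, ← Real.exp_add, neg_add_cancel, Real.exp_zero, mul_one]
    have e2 : η / 2 * Real.exp (2 * C1) = ε / 2 := by rw [← this]; ring
    rw [e2]
  rw [h12] at h3
  linarith

/-- **lower bound by the exact law** -/
theorem P4 (hT : S_TAIL) {k : ℕ} (hk : 2 ≤ k) {lam K : ℝ} (hK : 2 * (21 * |lam|) ≤ K) (L : ℕ) :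
    ∃ C : ℝ, 0 < C ∧ ∃ m0 : ℕ, ∀ m : ℕ, m0 ≤ m → ∀ n : ℕ, 4 * m ≤ n →
    n ≤ L * m → ∀ σ τ : Wd (2 * n - 1 + 1),
      Ex hf (CE n (4 * n)) (YY k lam n σ τ) ≤ C * TR k lam K (mi m) := by
  have hK0 : 0 ≤ K := by have := abs_nonneg lam; linarith
  set C1 : ℝ := 21 * |lam| with hC1
  set C2 : ℝ := 13 * |lam| with hC2
  have hC20 : 0 ≤ C2 := by positivity
  obtain ⟨B, hB, m0, hm0, h⟩ := mom_AB hT (a := 2 * C2) (by positivity) L
  refine ⟨1 / 2 * (Real.exp (2 * C2) * B) + 1 / 2 * Real.exp (2 * C1), by positivity,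
    max m0 (4 * k), fun m hm n h4 hL σ τ => ?_⟩
  have h1 : m0 ≤ m := (le_max_left _ _).trans hm
  have h2 : 4 * k ≤ m := (le_max_right _ _).trans hm
  have h3 := core2 (lam := lam) (K := K) (n := n) (m := m) hk (by omega) h2 h4 hK
    (fun x => Real.exp (C2 * (1 + x))) (fun x => (Real.exp_pos _).le) (η := 1) one_pos
  have h5 : Ex hf (CE n (4 * n)) (fun F => Real.exp (C2 * (1 + (NA n m F + NB n m F : ℕ))) ^ 2) ≤
      Real.exp (2 * C2) * B := by
    have e1 : ∀ F : Finset Edg, Real.exp (C2 * (1 + (NA n m F + NB n m F : ℕ))) ^ 2 =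
        Real.exp (2 * C2) * Real.exp (2 * C2 * (NA n m F + NB n m F)) := by
      intro F
      rw [← Real.exp_nat_mul, ← Real.exp_add]
      congr 1
      push_cast
      ring
    simp only [e1]
    rw [Ex_mul_left]
    exact mul_le_mul_of_nonneg_left (h m h1 n h4 hL) (Real.exp_pos _).le
  have h6 : Ex hf (CE n (4 * n)) (YY k lam n σ τ) ≤
      Ex hf (CE n (4 * n)) (fun F => wR k lam m (per n F) *
        Real.exp (C2 * (1 + (NA n m F + NB n m F : ℕ)))) := by
    refine Ex_mono okh fun F hF => ?_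
    obtain ⟨-, q2⟩ := Q2 (lam := lam) hk (by omega : 64 ≤ m) (by omega) h4 hF σ τ
    rw [mul_comm]
    exact q2
  have h7 := ZR_le_TR (k := k) (R := mi m) (lam := lam) hK0
  have h8 := TR_nonneg k lam K (mi m)
  have h9 := ZR_nonneg k lam (mi m)
  have h10 : ZR k lam (mi m) * Ex hf (CE n (4 * n)) (fun F =>
      Real.exp (C2 * (1 + (NA n m F + NB n m F : ℕ))) ^ 2) ≤
      TR k lam K (mi m) * (Real.exp (2 * C2) * B) :=
    mul_le_mul h7 h5 (Ex_nonneg okh fun _ _ => by positivity) h8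
  have h11 : Ex hf (CE n (4 * n)) (fun F => wR k lam m (per n F) *
        Real.exp (C2 * (1 + (NA n m F + NB n m F : ℕ)))) ≤
      1 / (2 * 1) * (ZR k lam (mi m) * Ex hf (CE n (4 * n)) (fun F =>
      Real.exp (C2 * (1 + (NA n m F + NB n m F : ℕ))) ^ 2)) +
      1 / 2 * Real.exp (2 * C1) * TR k lam K (mi m) := h3
  nlinarith

end Pool.Agent.S77.WP
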