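import Pool.Agent.S77.WD.Law

/-!
# Legs of both parities join the slits `0` and `1`
-/

set_option autoImplicit false

namespace Pool.Agent.S77.WP
open Pool.Agent.H863R2.Cyl
open Pool.Agent.H160R2.ML
open Pool.Agent.H988R2.Perc (Word PD)
open Pool.Agent.S77.WD

/-- legs of both parities -/
def Pr2 (p r : ℕ) (w' w : Word) (X : ℤ) : Prop :=
  ∀ b : ℤ, ∃ c : ℤ, (c - b) % 2 = 0 ∧ Ct p r w' w (PT p r w' w 0 c) (PT p r w' w 1 (X - c))

theorem moveR_key {i r : ℕ} {w' u : Word} (hi : i ≤ u.length) (c d : ℤ) :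
    Ct (i + 1) r w' (lins i u) (PT (i + 1) r w' (lins i u) 0 c)
      (PT (i + 1) r w' (lins i u) 1 d) ↔
      Ct i (r + 1) w' u (PT i (r + 1) w' u 0 c) (PT i (r + 1) w' u 1 d) := by
  have el : i + 1 + r = i + (r + 1) := by omega
  have hl : 0 < i + (r + 1) := by omega
  obtain ⟨m, c0, hc0, rfl⟩ := label hl c
  obtain ⟨m', d0, hd0, rfl⟩ := label hl d
  rw [PT_eq w' u 0 m hc0, PT_eq w' u 1 m' hd0]
  rw [← el] at hc0 hd0
  rw [← el, PT_eq w' (lins i u) 0 m hc0, PT_eq w' (lins i u) 1 m' hd0, moveR_iff hi,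
    moveR_pt hi, moveR_pt hi]

theorem moveL_key {P r : ℕ} {w' u : Word} (hl : w'.length + (P + 1) = u.length + 2 + r)
    (hP : P ≤ u.length) (c d : ℤ) :
    Ct (P + 1) r w' (seam u) (PT (P + 1) r w' (seam u) 0 c)
      (PT (P + 1) r w' (seam u) 1 d) ↔
      Ct P (r + 1) (rotr w') u (PT P (r + 1) (rotr w') u 0 (c - 1))
        (PT P (r + 1) (rotr w') u 1 (d - 1)) := by
  have hE := Ct_equiv P (r + 1) (rotr w') u
  rw [moveL_iff hl hP]
  have h1 := moveL_PT (r := r) (w' := w') (u := u) hl hP 0 c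
  have h2 := moveL_PT (r := r) (w' := w') (u := u) hl hP 1 d
  exact ⟨fun h => hE.trans (hE.symm h1) (hE.trans h h2),
    fun h => hE.trans h1 (hE.trans h (hE.symm h2))⟩

theorem insR_key {p r i : ℕ} {w' u v' : Word} {i' : ℕ} (H : TinsR.HH p r i w' u v' i')
    (hl : 0 < p + r) (c d : ℤ) :
    Ct p r w' (lins i u) (PT p r w' (lins i u) 0 c)
      (PT p r w' (lins i u) 1 d) ↔ Ct p r v' u (PT p r v' u 0 c) (PT p r v' u 1 d) := by
  obtain ⟨m, c0, hc0, rfl⟩ := label hl c
  obtain ⟨m', d0, hd0, rfl⟩ := label hl d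
  rw [PT_eq _ _ _ _ hc0, PT_eq _ _ _ _ hc0, PT_eq _ _ _ _ hd0, PT_eq _ _ _ _ hd0,
    insR_iff H _ _ (H.ptt 0 c0 hc0).1 (H.ptt 1 d0 hd0).1, (H.ptt 0 c0 hc0).2,
    (H.ptt 1 d0 hd0).2]

theorem symm_key {p r : ℕ} {w' w : Word} (h : w'.length + p = w.length + r) (hp : p ≤ w.length)
    (hl : 0 < p + r) (c d : ℤ) : Ct p r w' w (PT p r w' w 0 c) (PT p r w' w 1 d) ↔
      Ct r p w w' (PT r p w w' 0 (-c)) (PT r p w w' 1 (((p + r : ℕ) : ℤ) - d)) := by
  have hE := Ct_equiv r p w w'
  have h1 := fz_PT0 h hp hl c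
  have h2 := fz_PT1 h hp hl d
  constructor
  · intro hc
    exact hE.trans (hE.symm h1) (hE.trans (ct_fz h hc) h2)
  · intro hc
    have h3 := ct_fz h.symm (hE.trans h1 (hE.trans hc (hE.symm h2)))
    rw [fz_fz, fz_fz] at h3
    exact h3

theorem base_key {h k : ℕ} (hh : 1 ≤ h) {c : ℕ} (h1 : h ≤ c) (h2 : c ≤ h + h) :
    Ct (h + h) (k + k) (bw (k + k)) (bw (h + h)) (PT (h + h) (k + k) (bw (k + k)) (bw (h + h)) 0 c)
      (PT (h + h) (k + k) (bw (k + k)) (bw (h + h)) 1 (((h + h : ℕ) : ℤ) - c)) ∨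
      (c = h + h ∧ k = 0) := by
  by_cases h0 : c = h + h ∧ k = 0
  · exact Or.inr h0
  left
  obtain ⟨d, rfl⟩ : ∃ d, c = h + d := ⟨c - h, by omega⟩
  have e1 : ((h + h : ℕ) : ℤ) - (h + d : ℕ) = (((h + h) + (k + k) : ℕ) : ℤ) * 0 + (h - d : ℕ) := by
    have : d ≤ h := by omega
    push_cast [Nat.cast_sub this]; ring
  have e2 : PT (h + h) (k + k) (bw (k + k)) (bw (h + h)) 0 ((h + d : ℕ) : ℤ) =
      PT (h + h) (k + k) (bw (k + k)) (bw (h + h)) 0
        ((((h + h) + (k + k) : ℕ) : ℤ) * 0 + (h + d : ℕ)) := by rw [mul_zero, zero_add]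
  rw [e1, e2]
  rw [PT_eq _ _ _ _ (by omega : h + d < (h + h) + (k + k)),
    PT_eq _ _ _ _ (by omega : h - d < (h + h) + (k + k)), Tbase.pt_low 0 (by omega),
    Tbase.pt_low 1 (by omega)]
  have epl : ∀ (s : ℤ) (a : ℕ), a ≤ h + h → pl (h + h) s a = 0 := fun s a ha => by
    unfold pl; rw [if_pos ha]
  rw [epl _ _ (by omega), epl _ _ (by omega), zero_mul, zero_mul]
  have hcn := Tbase.conn (by omega : 0 < h) 1 ((h - d : ℕ) : ℤ) (by omega) (by omega)
  have e3 : 1 * ((h : ℤ) + h) - (h - d : ℕ) = 0 + (h + d : ℕ) := by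
    have : d ≤ h := by omega
    push_cast [Nat.cast_sub this]; ring
  rw [e3] at hcn
  exact Relation.EqvGen.rel _ _ (Lt.low _ _ _ hcn)

/-- **legs of both parities join the slits `0` and `1`** -/
theorem par_all : ∀ (n p r : ℕ) (w' w : Word), w.length + w'.length ≤ n → 4 ≤ p + r → Ok w' →
    Ok w → Even w.length → Even w'.length → w'.length + p = w.length + r → p ≤ w.length →
    Good p r w' w → ∃ (X : ℤ), Pr2 p r w' w X := by
  intro n
  induction n with
  | zero =>
    intro p r w' w hn hpr _ _ _ _ hl hp _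
    omega
  | succ n ih =>
    have key : ∀ (p r : ℕ) (w' w : Word), w.length + w'.length ≤ n + 1 → 4 ≤ p + r → 1 ≤ p →
        Ok w' → Ok w → Even w.length → Even w'.length → w'.length + p = w.length + r →
        p ≤ w.length → Good p r w' w → ∃ (X : ℤ), Pr2 p r w' w X := by
      intro p r w' w hn hpr hp1 hw' hw hev hev' hl hp hg
      rcases Nat.eq_or_lt_of_le hp with hpw | hpw
      · -- no through strand
        have hw1 : w = bw p := by
          by_contra hne
          obtain ⟨i, u, rfl, hu, hu2, hu3, hi⟩ := Tbs.exists_arc p w (hpw ▸ hev) hpw.symm hw hne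
          exact not_good_arc hw' hu hu2 (by rw [Tzero.len_lins] at hl; exact hl) hi (by omega) hg
        have hw2 : w' = bw r := by
          by_contra hne
          have hlr : w'.length = r := by omega
          obtain ⟨i, u, rfl, hu, hu2, hu3, hi⟩ := Tbs.exists_arc r w' (hlr ▸ hev') hlr hw' hne
          exact not_good_arc hw hu hu2 (by rw [Tzero.len_lins] at hlr; omega) hi (by omega)
            ((good_swap hl hp).1 hg)
        obtain ⟨h, rfl⟩ := (hpw ▸ hev : Even p)
        obtain ⟨k, rfl⟩ : Even r := by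
          have : w'.length = r := by omega
          exact this ▸ hev'
        refine ⟨((h + h : ℕ) : ℤ), fun b => ?_⟩
        rw [hw1, hw2]
        by_cases hb : ((h : ℤ) - b) % 2 = 0
        · refine ⟨(h : ℕ), hb, ?_⟩
          rcases base_key (k := k) (by omega : 1 ≤ h) (le_refl h) (by omega) with h1 | h1
          · exact h1
          · omega
        · refine ⟨((h + 1 : ℕ) : ℤ), by push_cast; omega, ?_⟩
          rcases base_key (k := k) (by omega : 1 ≤ h) (by omega : h ≤ h + 1) (by omega) with h1 | h1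
          · exact h1
          · omega
      · rcases exists_arc hw (by obtain ⟨c, hc⟩ := hev; omega) with
          ⟨i, u, hi, hu, rfl, -, -⟩ | ⟨u, hu, rfl, -⟩
        · rw [Tzero.len_lins] at hl hpw hp hn hev
          have hu2 : Even u.length := by
            obtain ⟨c, hc⟩ := hev
            exact ⟨c - 1, by omega⟩
          rcases lt_trichotomy (i + 1) p with h1 | h1 | h1
          · exact absurd hg (not_good_arc hw' hu hu2 hl (by omega) hp)
          · -- moveR
            subst h1
            have hg2 := (TmoveR.good_iff (r := r) (w' := w') hi).1 hg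
            obtain ⟨X, hX⟩ := ih i (r + 1) w' u (by omega) (by omega) hw' hu hu2 hev'
              (by omega) (by omega) hg2
            refine ⟨X, fun b => ?_⟩
            obtain ⟨c, c1, c2⟩ := hX b
            exact ⟨c, c1, (moveR_key hi c _).2 c2⟩
          · -- insR
            have hc1 := length_cap (i := i - p + r) (w := w') (by omega)
            have H : TinsR.HH p r i w' u (cap (i - p + r) w') (i - p + r) :=
              { ok := hw'
                l2 := hc1.symm
                lv := by omega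
                hv := rfl
                ii := by omega
                hp := by omega
                hi := hi }
            have hg2 := H.good.1 hg
            have hev2 : Even (cap (i - p + r) w').length := by
              obtain ⟨c, hc⟩ := hev'
              exact ⟨c - 1, by omega⟩
            obtain ⟨X, hX⟩ := ih p r (cap (i - p + r) w') u (by omega) hpr
              (ok_cap hw' (by omega)) hu hu2 hev2 (by omega) (by omega) hg2
            refine ⟨X, fun b => ?_⟩
            obtain ⟨c, c1, c2⟩ := hX b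
            exact ⟨c, c1, (insR_key H (by omega) c _).2 c2⟩
        · -- seam
          have e1 : (seam u).length = u.length + 2 := by simp [seam]
          rw [e1] at hl hpw hp hn hev
          have hu2 : Even u.length := by
            obtain ⟨c, hc⟩ := hev
            exact ⟨c - 1, by omega⟩
          obtain ⟨P, rfl⟩ : ∃ P, p = P + 1 := ⟨p - 1, by omega⟩
          have hg2 := (TmoveL.Good_iff (P := P) (r := r) (w' := w') (u := u) hl (by omega)).1 hg
          have hr : (rotr w').length = w'.length := by simp [rotr]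
          obtain ⟨X, hX⟩ := ih P (r + 1) (rotr w') u (by omega) (by omega)
            (ok_rotr.2 hw') hu hu2 (by rw [hr]; exact hev') (by omega) (by omega) hg2
          refine ⟨X + 2, fun b => ?_⟩
          obtain ⟨c, c1, c2⟩ := hX (b - 1)
          refine ⟨c + 1, by omega, (moveL_key hl (by omega) _ _).2 ?_⟩
          have e2 : c + 1 - 1 = c := by ring
          have e3 : X + 2 - (c + 1) - 1 = X - c := by ring
          rw [e2, e3]
          exact c2
    intro p r w' w hn hpr hw' hw hev hev' hl hp hg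
    rcases Nat.eq_zero_or_pos p with h0 | h0
    · obtain ⟨X, hX⟩ := key r p w w' (by omega) (by omega) (by omega) hw hw' hev' hev
        hl.symm (by omega) ((good_swap hl hp).1 hg)
      refine ⟨((p + r : ℕ) : ℤ) - X, fun b => ?_⟩
      obtain ⟨c, c1, c2⟩ := hX (-b)
      refine ⟨-c, by omega, (symm_key hl hp (by omega) _ _).2 ?_⟩
      have e2 : ((p + r : ℕ) : ℤ) - (((p + r : ℕ) : ℤ) - X - -c) = X - c := by ring
      rw [neg_neg, e2]
      exact c2
    · exact key p r w' w hn hpr h0 hw' hw hev hev' hl hp hg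

/-- the even leg of words with the winding `y` -/
theorem even_leg {n k : ℕ} (hk : 2 ≤ k) (hkn : k ≤ 2 * n) {w' w : Word}
    (hw' : Ok w') (hw : Ok w) (hl' : w'.length = 2 * n) (hl : w.length = 2 * n) {y : ℤ}
    (h : HasW k w' w y) : ∃ c : ℤ, c % 2 = 0 ∧
      Ct k k w' w (PT k k w' w 0 c) (PT k k w' w 1 (y + k - c)) := by
  obtain ⟨X, hX⟩ := par_all (w.length + w'.length) k k w' w le_rfl (by omega) hw' hw
    ⟨n, by omega⟩ ⟨n, by omega⟩ (by omega) (by omega) h.1
  obtain ⟨c, c1, c2⟩ := hX 0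
  have h1 : X ∈ Ix k k w' w := ⟨c, c2⟩
  rw [h.2, Set.mem_singleton_iff] at h1
  exact ⟨c, by omega, by rw [← h1]; exact c2⟩

end Pool.Agent.S77.WP
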