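import Pool.Agent.H160R2.MU.All

/-!
# The recursion for the slit event with an inner event: statement
-/

set_option autoImplicit false

namespace Pool.Agent.S77.WP
open Pool.Agent.H863R2.Cyl
open Pool.Agent.H988R2.Perc (Word PD)
open Pool.Agent.H160R2.ML
open Pool.Agent.H160R2.MU
open H974 H906.Cyl

/-- the event depends on the edges of the box of radius `m` only -/
def Loc (m : ℕ) (I : Set Edg → Prop) : Prop :=
  ∀ G G' : Set Edg, (∀ e ∈ boxE m, (e ∈ G ↔ e ∈ G')) → (I G ↔ I G')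

/-- the probability of the slit event and of the event `I` -/
noncomputable def sPI (k R : ℕ) (I : Set Edg → Prop) : ℝ :=
  Pr (fun _ => (1 / 2 : ℝ)) (boxE R) (fun F => SE k R (↑F : Set Edg) ∧ I (↑F : Set Edg))

/-- the recursion with an inner event -/
def S_RCRI : Prop := ∀ k : ℕ, 2 ≤ k → ∀ δ : ℝ, 0 < δ → ∃ N : ℕ, k + 4 ≤ N ∧ ∃ C : ℝ, 0 < C ∧
  ∃ r0 : ℕ, ∀ r : ℕ, r0 ≤ r → ∀ (m : ℕ) (I : Set Edg → Prop), 2 * m ≤ N * r → Loc m I →
  ∀ (n M : ℕ), n = prd N k * r → M = 4 * n → ∀ σ τ : Wd (2 * n - 1 + 1),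
  sPI k (N * r) I ≤ δ * sPI k (N * r / 2) I +
    C * PC n M (fun F => PG 0 n M k (Ac 0 n M F) τ.1 σ.1 ∧ I (per n F))

end Pool.Agent.S77.WP
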