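import Pool.Agent.S77.WP.Mom
import Pool.Agent.S77.WP.StmI

/-!
# The recursion in the plane
-/

set_option autoImplicit false

namespace Pool.Agent.S77.WP
open Pool.Agent.H863R2.Cyl
open Pool.Agent.H160R2.ML
open Pool.Agent.H160R2.MU
open H974 H906.Cyl

/-- comparison of two scales -/
theorem P0 (hT : S_TAIL) {k : ℕ} (hk : 2 ≤ k) {lam K : ℝ} (hK : 2 * (21 * |lam|) ≤ K) :
    ∃ C : ℝ, 0 < C ∧ ∃ m0 : ℕ, ∀ R m : ℕ, m0 ≤ m → m ≤ (R + 1) / 2 → R ≤ 3 * m →
    TR k lam K R ≤ C * TR k lam K m := by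
  have hK0 : 0 ≤ K := by have := abs_nonneg lam; linarith
  obtain ⟨B, hB, m0, hm0, h⟩ := mom_NP hT (a := 2 * K) (by positivity)
  refine ⟨1 / 2 * B + 1 / 2 * Real.exp (2 * (21 * |lam|)), by positivity, max m0 (2 * k),
    fun R m hm hmR hR => ?_⟩
  have h1 : m0 ≤ m := (le_max_left _ _).trans hm
  have h2 : 2 * k ≤ m := (le_max_right _ _).trans hm
  have h3 := core (lam := lam) (K := K) hk (by omega) h2 hmR hR hK (fun n => Real.exp (K * n))
    (fun n => (Real.exp_pos _).le) (η := 1) one_pos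
  have h4 := h R (by omega) (boxE (3 * R)) Finset.sdiff_subset
  have h5 : Ex hf (boxE (3 * R)) (fun F => Real.exp (K * (NP R (↑F : Set Edg))) ^ 2) ≤ B := by
    refine le_trans (le_of_eq ?_) h4
    apply Ex_congr
    intro F _
    rw [← Real.exp_nat_mul]
    congr 1
    push_cast
    ring
  have h6 := ZR_le_TR (k := k) (R := m) (lam := lam) hK0
  have h7 := ZR_nonneg k lam m
  have h8 := TR_nonneg k lam K m
  have h9 : TR k lam K R ≤ 1 / (2 * 1) * (ZR k lam m *
      Ex hf (boxE (3 * R)) (fun F => Real.exp (K * (NP R (↑F : Set Edg))) ^ 2)) +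
      1 / 2 * Real.exp (2 * (21 * |lam|)) * TR k lam K m := h3
  have h10 : ZR k lam m * Ex hf (boxE (3 * R)) (fun F => Real.exp (K * (NP R (↑F : Set Edg))) ^ 2) ≤
      TR k lam K m * B := mul_le_mul h6 h5 (Ex_nonneg okh fun _ _ => by positivity) h8
  nlinarith

theorem P1 (hT : S_TAIL) {k : ℕ} (hk : 2 ≤ k) {lam K : ℝ} (hK : 2 * (21 * |lam|) ≤ K) (ε : ℝ)
    (hε : 0 < ε) : ∃ C : ℝ, 0 < C ∧ ∃ m0 : ℕ, ∀ R : ℕ, m0 ≤ R →
    TR k lam K R ≤ C * ZR k lam R + ε * TR k lam K ((R + 1) / 2) := by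
  have hK0 : 0 ≤ K := by have := abs_nonneg lam; linarith
  obtain ⟨B, hB, m0, hm0, h⟩ := mom_NP hT (a := 2 * K + 1) (by positivity)
  set C1 : ℝ := 21 * |lam| with hC1
  set η : ℝ := ε * Real.exp (-(2 * C1)) with hη
  have hη0 : 0 < η := by positivity
  obtain ⟨H, hH⟩ : ∃ H : ℕ, 1 / (2 * η) * (B * Real.exp (-(H : ℝ))) ≤ ε / 2 := by
    have h1 : Filter.Tendsto (fun H : ℕ => 1 / (2 * η) * (B * Real.exp (-(H : ℝ)))) Filter.atTop
        (nhds (1 / (2 * η) * (B * 0))) := by
      refine Filter.Tendsto.const_mul _ (Filter.Tendsto.const_mul _ ?_)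
      exact Real.tendsto_exp_neg_atTop_nhds_zero.comp tendsto_natCast_atTop_atTop
    rw [mul_zero, mul_zero] at h1
    exact (h1.eventually (ge_mem_nhds (by positivity : (0 : ℝ) < ε / 2))).exists
  refine ⟨Real.exp (K * H), Real.exp_pos _, max (2 * m0) (4 * k), fun R hR => ?_⟩
  have h1 : 2 * m0 ≤ R := (le_max_left _ _).trans hR
  have h2 : 4 * k ≤ R := (le_max_right _ _).trans hR
  set m : ℕ := (R + 1) / 2 with hm
  set g : ℕ → ℝ := fun n => if n ≤ H then 0 else Real.exp (K * n) with hg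
  have hg0 : ∀ n, 0 ≤ g n := by
    intro n
    rw [hg]
    simp only
    split_ifs
    · exact le_rfl
    · exact (Real.exp_pos _).le
  have h3 := core (lam := lam) (K := K) (R := R) (m := m) hk (by omega) (by omega) le_rfl (by omega)
    hK g hg0 hη0
  have h4 := h R (by omega) (boxE (3 * R)) Finset.sdiff_subset
  have h5 : Ex hf (boxE (3 * R)) (fun F => g (NP R (↑F : Set Edg)) ^ 2) ≤
      Real.exp (-(H : ℝ)) * B := by
    have h6 : Ex hf (boxE (3 * R)) (fun F => g (NP R (↑F : Set Edg)) ^ 2) ≤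
        Ex hf (boxE (3 * R)) (fun F => Real.exp (-(H : ℝ)) *
          Real.exp ((2 * K + 1) * NP R (↑F : Set Edg))) := by
      refine Ex_mono okh fun F _ => ?_
      rw [hg]
      simp only
      split_ifs with h7
      · rw [zero_pow (by norm_num)]
        positivity
      · rw [← Real.exp_nat_mul, ← Real.exp_add]
        apply Real.exp_le_exp.2
        have : (H : ℝ) ≤ NP R (↑F : Set Edg) := by exact_mod_cast (by omega : H ≤ NP R (↑F : Set Edg))
        push_cast
        linarith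
    rw [Ex_mul_left] at h6
    exact h6.trans (mul_le_mul_of_nonneg_left h4 (Real.exp_pos _).le)
  have h6 : TR k lam K R ≤ Real.exp (K * H) * ZR k lam R +
      Ex hf (boxE (3 * R)) (fun F => wR k lam R (↑F : Set Edg) * g (NP R (↑F : Set Edg))) := by
    rw [← ZR_ex (boxE_sub (by omega : R ≤ 3 * R)), ← Ex_mul_left, ← Ex_add]
    refine Ex_mono okh fun F _ => ?_
    have h7 := wR_nonneg k lam R (↑F : Set Edg)
    rw [hg]
    simp only
    split_ifs with h8
    · rw [mul_zero, add_zero, mul_comm]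
      refine mul_le_mul_of_nonneg_right ?_ h7
      apply Real.exp_le_exp.2
      refine mul_le_mul_of_nonneg_left ?_ hK0
      exact_mod_cast h8
    · have : 0 ≤ Real.exp (K * H) * wR k lam R (↑F : Set Edg) := by positivity
      linarith
  have h7 := ZR_le_TR (k := k) (R := m) (lam := lam) hK0
  have h8 := TR_nonneg k lam K m
  have h9 := ZR_nonneg k lam m
  have h10 : ZR k lam m * Ex hf (boxE (3 * R)) (fun F => g (NP R (↑F : Set Edg)) ^ 2) ≤
      TR k lam K m * (Real.exp (-(H : ℝ)) * B) :=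
    mul_le_mul h7 h5 (Ex_nonneg okh fun _ _ => by positivity) h8
  have h11 : 1 / (2 * η) * (ZR k lam m * Ex hf (boxE (3 * R)) (fun F => g (NP R (↑F : Set Edg)) ^ 2)) ≤
      ε / 2 * TR k lam K m := by
    refine (mul_le_mul_of_nonneg_left h10 (by positivity)).trans ?_
    have e1 : 1 / (2 * η) * (TR k lam K m * (Real.exp (-(H : ℝ)) * B)) =
        1 / (2 * η) * (B * Real.exp (-(H : ℝ))) * TR k lam K m := by ring
    rw [e1]
    exact mul_le_mul_of_nonneg_right hH h8
  have h12 : η / 2 * Real.exp (2 * C1) * TR k lam K m = ε / 2 * TR k lam K m := by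
    have : η * Real.exp (2 * C1) = ε := by
      rw [hη, mul_assoc, ← Real.exp_add, neg_add_cancel, Real.exp_zero, mul_one]
    have e2 : η / 2 * Real.exp (2 * C1) = ε / 2 := by rw [← this]; ring
    rw [e2]
  have h13 : Ex hf (boxE (3 * R)) (fun F => wR k lam R (↑F : Set Edg) * g (NP R (↑F : Set Edg))) ≤
      1 / (2 * η) * (ZR k lam m * Ex hf (boxE (3 * R)) (fun F => g (NP R (↑F : Set Edg)) ^ 2)) +
      η / 2 * Real.exp (2 * C1) * TR k lam K m := h3
  linarith

/-! ### the recursion with a function -/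

open Classical in
/-- decomposition of a local function -/
theorem atoms {m : ℕ} {f : Set Edg → ℝ} (hf : ∀ G G' : Set Edg, (∀ e ∈ boxE m, (e ∈ G ↔ e ∈ G')) →
    f G = f G') (G : Set Edg) :
    f G = ∑ G0 ∈ (boxE m).powerset, f (↑G0 : Set Edg) *
      ind (∀ e ∈ boxE m, (e ∈ G ↔ e ∈ (↑G0 : Set Edg))) := by
  have h1 : rs (boxE m) G ∈ (boxE m).powerset := by
    rw [Finset.mem_powerset]
    intro e he
    exact (mem_rs.1 he).1
  have h2 : ∀ e ∈ boxE m, (e ∈ G ↔ e ∈ (↑(rs (boxE m) G) : Set Edg)) := by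
    intro e he
    rw [Finset.mem_coe, mem_rs]
    exact ⟨fun h => ⟨he, h⟩, fun h => h.2⟩
  rw [Finset.sum_eq_single (rs (boxE m) G)]
  · rw [ind_of h2, mul_one]
    exact hf _ _ h2
  · intro G0 hG0 hne
    rw [ind_not_of, mul_zero]
    intro h3
    apply hne
    ext e
    rw [Finset.mem_powerset] at hG0
    constructor
    · intro he
      exact Finset.mem_coe.1 ((h2 e (hG0 he)).1 ((h3 e (hG0 he)).2 he))
    · intro he
      have he' := (mem_rs.1 he)
      exact Finset.mem_coe.1 ((h3 e he'.1).1 he'.2)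
  · intro h
    exact absurd h1 h

/-- the weight in the cylinder -/
noncomputable def CY (k : ℕ) (lam : ℝ) (m n M : ℕ) (σ τ : Wd (2 * n - 1 + 1)) : ℝ :=
  Ex hf (CE n M) (fun F => ind (PG 0 n M k (Ac 0 n M F) τ.1 σ.1) * wR k lam m (per n F))

theorem rcri_fun {k N r n M : ℕ} {δ C : ℝ} {σ τ : Wd (2 * n - 1 + 1)}
    (h : ∀ (m : ℕ) (I : Set Edg → Prop), 2 * m ≤ N * r → Loc m I →
      sPI k (N * r) I ≤ δ * sPI k (N * r / 2) I +
        C * PC n M (fun F => PG 0 n M k (Ac 0 n M F) τ.1 σ.1 ∧ I (per n F)))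
    {m : ℕ} (hm : 2 * m ≤ N * r) {f : Set Edg → ℝ} (hf0 : ∀ G, 0 ≤ f G)
    (hfl : ∀ G G' : Set Edg, (∀ e ∈ boxE m, (e ∈ G ↔ e ∈ G')) → f G = f G') :
    Ex hf (boxE (N * r)) (fun F => ind (SE k (N * r : ℕ) (↑F : Set Edg)) * f (↑F : Set Edg)) ≤
      δ * Ex hf (boxE (N * r / 2)) (fun F => ind (SE k (N * r / 2 : ℕ) (↑F : Set Edg)) *
        f (↑F : Set Edg)) +
      C * Ex hf (CE n M) (fun F => ind (PG 0 n M k (Ac 0 n M F) τ.1 σ.1) * f (per n F)) := by
  classical
  set I : Finset Edg → Set Edg → Prop := fun G0 G => ∀ e ∈ boxE m, (e ∈ G ↔ e ∈ (↑G0 : Set Edg)) with hI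
  have hloc : ∀ G0, Loc m (I G0) := by
    intro G0 G G' hGG
    constructor
    · intro h1 e he
      rw [← hGG e he]
      exact h1 e he
    · intro h1 e he
      rw [hGG e he]
      exact h1 e he
  have gen : ∀ (S : Finset Edg) (A : Finset Edg → Prop) (φ : Finset Edg → Set Edg),
      Ex hf S (fun F => ind (A F) * f (φ F)) =
      ∑ G0 ∈ (boxE m).powerset, f (↑G0 : Set Edg) * Pr hf S (fun F => A F ∧ I G0 (φ F)) := by
    intro S A φ
    have e1 : Ex hf S (fun F => ind (A F) * f (φ F)) = Ex hf S (fun F =>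
        ∑ G0 ∈ (boxE m).powerset, f (↑G0 : Set Edg) * ind (A F ∧ I G0 (φ F))) := by
      apply Ex_congr
      intro F _
      rw [atoms hfl (φ F), Finset.mul_sum]
      refine Finset.sum_congr rfl fun G0 _ => ?_
      rw [ind_and]
      ring
    rw [e1, Ex_sum]
    refine Finset.sum_congr rfl fun G0 _ => ?_
    rw [Ex_mul_left]
    rfl
  rw [gen (boxE (N * r)) (fun F => SE k (N * r : ℕ) (↑F : Set Edg)) (fun F => (↑F : Set Edg)),
    gen (boxE (N * r / 2)) (fun F => SE k (N * r / 2 : ℕ) (↑F : Set Edg)) (fun F => (↑F : Set Edg)),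
    gen (CE n M) (fun F => PG 0 n M k (Ac 0 n M F) τ.1 σ.1) (fun F => per n F),
    Finset.mul_sum, Finset.mul_sum, ← Finset.sum_add_distrib]
  refine Finset.sum_le_sum fun G0 _ => ?_
  have h1 := h m (I G0) hm (hloc G0)
  have h2 := mul_le_mul_of_nonneg_left h1 (hf0 (↑G0 : Set Edg))
  refine h2.trans (le_of_eq ?_)
  unfold sPI PC
  ring

/-- **the recursion** -/
theorem P2 (hR : S_RCRI) {k : ℕ} (hk : 2 ≤ k) {lam K : ℝ} (hK : 21 * |lam| + 1 ≤ K) (η : ℝ)
    (hη : 0 < η) : ∃ N : ℕ, k + 4 ≤ N ∧ ∃ C : ℝ, 0 < C ∧ ∃ r0 : ℕ, ∀ r : ℕ, r0 ≤ r →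
    ∀ (n M : ℕ), n = prd N k * r → M = 4 * n → ∀ σ τ : Wd (2 * n - 1 + 1),
    ZR k lam (N * r) ≤ η * TR k lam K (N * r / 2) + C * CY k lam (N * r / 2) n M σ τ := by
  set C1 : ℝ := 21 * |lam| with hC1
  have hC10 : 0 ≤ C1 := by positivity
  obtain ⟨H, hH⟩ : ∃ H : ℕ, Real.exp C1 * Real.exp (-(H : ℝ)) ≤ η / 2 := by
    have h1 : Filter.Tendsto (fun H : ℕ => Real.exp C1 * Real.exp (-(H : ℝ))) Filter.atTop
        (nhds (Real.exp C1 * 0)) := by
      refine Filter.Tendsto.const_mul _ ?_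
      exact Real.tendsto_exp_neg_atTop_nhds_zero.comp tendsto_natCast_atTop_atTop
    rw [mul_zero] at h1
    exact (h1.eventually (ge_mem_nhds (by positivity : (0 : ℝ) < η / 2))).exists
  set E1 : ℝ := Real.exp (C1 * (1 + H)) with hE1
  have hE10 : 0 < E1 := Real.exp_pos _
  obtain ⟨N, hN, C, hC, r0, h⟩ := hR k hk (η / (2 * E1)) (by positivity)
  refine ⟨N, hN, E1 * C, by positivity, max r0 (32 + 2 * k), fun r hr n M hn hM σ τ => ?_⟩
  have hr0 : r0 ≤ r := (le_max_left _ _).trans hr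
  have hr1 : 32 + 2 * k ≤ r := (le_max_right _ _).trans hr
  have hNr : 6 * r ≤ N * r := Nat.mul_le_mul_right r (by omega)
  set R : ℕ := N * r with hRdef
  set m : ℕ := R / 2 with hm
  have h1 := rcri_fun (k := k) (N := N) (r := r) (n := n) (M := M) (σ := σ) (τ := τ)
    (fun m' I hm' hI => h r hr0 m' I hm' hI n M hn hM σ τ) (m := m) (by omega)
    (f := wR k lam m) (wR_nonneg k lam m) (fun G G' hGG => wR_congr hGG)
  rw [← hRdef, ← hm] at h1
  have e1 : Ex hf (boxE m) (fun F => ind (SE k m (↑F : Set Edg)) * wR k lam m (↑F : Set Edg)) =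
      ZR k lam m := by
    apply Ex_congr
    intro F _
    unfold wR
    rw [← mul_assoc, ind_sq]
  rw [e1] at h1
  -- the split
  have h2 : ZR k lam R ≤ E1 * Ex hf (boxE R) (fun F => ind (SE k R (↑F : Set Edg)) *
      wR k lam m (↑F : Set Edg)) + Real.exp C1 * Real.exp (-(H : ℝ)) * TR k lam K m := by
    have e2 : Ex hf (boxE R) (fun F => ind (SE k R (↑F : Set Edg)) * wR k lam m (↑F : Set Edg)) =
        Ex hf (boxE (3 * m)) (fun F => ind (SE k R (↑F : Set Edg)) * wR k lam m (↑F : Set Edg)) := by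
      symm
      refine Ex_local (boxE_sub (by omega)) fun F _ => ?_
      rw [wR_int (boxE_sub (by omega : m ≤ R)) F]
      congr 1
      apply ind_congr
      apply TLB.SE_congr
      intro e he
      rw [Finset.mem_coe, Finset.mem_coe, Finset.mem_inter]
      exact ⟨fun h => ⟨h, he⟩, fun h => h.1⟩
    rw [e2, ← ZR_ex (boxE_sub (by omega : R ≤ 3 * m)), ← TR_ex (le_refl (boxE (3 * m))),
      ← Ex_mul_left, ← Ex_mul_left, ← Ex_add]
    refine Ex_mono okh fun F _ => ?_
    have a1 := wR_two (lam := lam) hk (by omega : 32 ≤ m) (by omega) (by omega : m ≤ R)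
      (by omega : R ≤ 3 * m) (↑F : Set Edg)
    have a2 : wR k lam R (↑F : Set Edg) ≤ ind (SE k R (↑F : Set Edg)) *
        (wR k lam m (↑F : Set Edg) * Real.exp (C1 * (1 + NP m (↑F : Set Edg)))) := by
      by_cases hSE : SE k R (↑F : Set Edg)
      · rw [ind_of hSE, one_mul]
        exact a1
      · unfold wR
        rw [ind_not_of hSE, zero_mul, zero_mul]
    have a3 := wR_nonneg k lam m (↑F : Set Edg)
    have a4 := ind_nonneg (SE k R (↑F : Set Edg))
    have a5 := ind_le_one (SE k R (↑F : Set Edg))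
    by_cases hN : NP m (↑F : Set Edg) ≤ H
    · have a6 : Real.exp (C1 * (1 + NP m (↑F : Set Edg))) ≤ E1 := by
        apply Real.exp_le_exp.2
        refine mul_le_mul_of_nonneg_left ?_ hC10
        have : (NP m (↑F : Set Edg) : ℝ) ≤ H := by exact_mod_cast hN
        linarith
      have a7 : 0 ≤ Real.exp C1 * Real.exp (-(H : ℝ)) * (wR k lam m (↑F : Set Edg) *
          Real.exp (K * NP m (↑F : Set Edg))) := by positivity
      have a8 := mul_le_mul_of_nonneg_left (mul_le_mul_of_nonneg_left a6 a3) a4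
      have e3 : ind (SE k R (↑F : Set Edg)) * (wR k lam m (↑F : Set Edg) * E1) =
        E1 * (ind (SE k R (↑F : Set Edg)) * wR k lam m (↑F : Set Edg)) := by ring
      linarith
    · have hN' : (H : ℝ) ≤ NP m (↑F : Set Edg) := by exact_mod_cast (not_le.1 hN).le
      have a6 : Real.exp (C1 * (1 + NP m (↑F : Set Edg))) ≤
          Real.exp C1 * Real.exp (-(H : ℝ)) * Real.exp (K * NP m (↑F : Set Edg)) := by
        rw [← Real.exp_add, ← Real.exp_add]
        apply Real.exp_le_exp.2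
        have : (0 : ℝ) ≤ NP m (↑F : Set Edg) := Nat.cast_nonneg _
        nlinarith
      have a7 : 0 ≤ E1 * (ind (SE k R (↑F : Set Edg)) * wR k lam m (↑F : Set Edg)) := by positivity
      have a8 := mul_le_mul_of_nonneg_left a6 a3
      have a9 : ind (SE k R (↑F : Set Edg)) *
          (wR k lam m (↑F : Set Edg) * Real.exp (C1 * (1 + NP m (↑F : Set Edg)))) ≤
          wR k lam m (↑F : Set Edg) * Real.exp (C1 * (1 + NP m (↑F : Set Edg))) :=
        mul_le_of_le_one_left (by positivity) a5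
      have e3 : wR k lam m (↑F : Set Edg) * (Real.exp C1 * Real.exp (-(H : ℝ)) *
        Real.exp (K * NP m (↑F : Set Edg))) = Real.exp C1 * Real.exp (-(H : ℝ)) *
        (wR k lam m (↑F : Set Edg) * Real.exp (K * NP m (↑F : Set Edg))) := by ring
      linarith
  have hZT := ZR_le_TR (k := k) (R := m) (lam := lam) (K := K) (by linarith)
  have hT0 := TR_nonneg k lam K m
  have h3 := mul_le_mul_of_nonneg_left h1 hE10.le
  have e4 : E1 * (η / (2 * E1) * ZR k lam m + C * Ex hf (CE n M) (fun F =>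
      ind (PG 0 n M k (Ac 0 n M F) τ.1 σ.1) * wR k lam m (per n F))) =
      η / 2 * ZR k lam m + E1 * C * CY k lam m n M σ τ := by
    unfold CY
    field_simp
  rw [e4] at h3
  have h4 : Real.exp C1 * Real.exp (-(H : ℝ)) * TR k lam K m ≤ η / 2 * TR k lam K m :=
    mul_le_mul_of_nonneg_right hH hT0
  have h5 : η / 2 * ZR k lam m ≤ η / 2 * TR k lam K m := mul_le_mul_of_nonneg_left hZT (by positivity)
  linarith

end Pool.Agent.S77.WP
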