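import Pool.Agent.S77.WP.Pl
import Pool.Agent.S77.WP.Cyl3
import Pool.Agent.H160R2.MU.All

/-!
# The clusters which change the level, on the cylinder: regions and moments
-/

set_option autoImplicit false

namespace Pool.Agent.S77.WP
open Pool.Agent.H863R2.Cyl
open Pool.Agent.H988R2.Perc (Word PD)
open Pool.Agent.H160R2.ML
open Pool.Agent.H160R2.MU
open Pool.Agent.S77.WD
open H974 H906.Cyl

/-- transport of expectations -/
theorem Ex_red {n : ℕ} {S B : Finset Edg} (hinj : Set.InjOn (red n) B)
    (hS : B.image (red n) ⊆ S) (g : Finset Edg → ℝ) :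
    Ex hf S (fun F => g (rs B (per n F))) = Ex hf B g := by
  classical
  have e1 : Ex hf S (fun F => g (rs B (per n F))) =
      Ex hf (B.image (red n)) (fun F => g (rs B (per n F))) := by
    apply Ex_local hS
    intro F _
    have : rs B (per n F) = rs B (per n (F ∩ B.image (red n))) := by
      apply rs_congr
      intro e he
      show red n e ∈ F ↔ red n e ∈ F ∩ B.image (red n)
      rw [Finset.mem_inter]
      exact ⟨fun h => ⟨h, Finset.mem_image_of_mem _ he⟩, fun h => h.1⟩
    rw [this]
  rw [e1, Ex_image _ _ _ hinj]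
  apply Ex_congr
  intro F hF
  have : rs B (per n (F.image (red n))) = F := by
    ext e
    rw [mem_rs]
    show (e ∈ B ∧ red n e ∈ F.image (red n)) ↔ e ∈ F
    rw [Finset.mem_image]
    constructor
    · rintro ⟨h1, a, h2, h3⟩
      have := hinj (Finset.mem_coe.2 (hF h2)) (Finset.mem_coe.2 h1) h3
      exact this ▸ h2
    · intro h
      exact ⟨hF h, e, h, rfl⟩
  show g (rs B (per n (F.image (red n)))) = g F
  rw [this]

theorem mem_RE_iff {a b c d : ℤ} {e : Edg} : e ∈ RE a b c d ↔
    (a ≤ (src e).1 ∧ (src e).1 ≤ b ∧ c ≤ (src e).2 ∧ (src e).2 ≤ d) ∧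
    (a ≤ (tgt e).1 ∧ (tgt e).1 ≤ b ∧ c ≤ (tgt e).2 ∧ (tgt e).2 ≤ d) := by
  obtain ⟨x, y, _ | _⟩ := e
  · rw [mem_RE_false, src_mk, tgt_false]
    simp only
    omega
  · rw [mem_RE_true, src_mk, tgt_true]
    simp only
    omega

/-- the size of the inner neighbourhood -/
def mi (m : ℕ) : ℕ := (m + 1) / 2
/-- the length of the clusters -/
def rh (m : ℕ) : ℕ := m / 16
/-- the size of the neighbourhood -/
def mo (m : ℕ) : ℕ := mi m + rh m + 2

/-- the region next to the slit `0` -/
noncomputable def UA (n m : ℕ) : Finset Edg :=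
  RE (-((mo m + rh m : ℕ) : ℤ)) ((n / 2 + rh m : ℕ) : ℤ) (-((mo m + rh m : ℕ) : ℤ))
    ((n / 2 + rh m : ℕ) : ℤ) \ boxE (mi m + 1)

/-- the region next to the slit `1` -/
noncomputable def UB (n m : ℕ) : Finset Edg :=
  RE (((n / 2 : ℕ) : ℤ) - rh m) (((n + mo m + rh m : ℕ) : ℤ)) (((n / 2 : ℕ) : ℤ) - rh m)
    (((n + mo m + rh m : ℕ) : ℤ)) \
    RE (n - (mi m + 1 : ℕ)) (n + (mi m + 1 : ℕ)) (n - (mi m + 1 : ℕ)) (n + (mi m + 1 : ℕ))

/-- the number of disjoint large clusters in the two regions -/
noncomputable def NA (n m : ℕ) (F : Finset Edg) : ℕ := Nc (rh m) (rs (UA n m) (per n F))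
noncomputable def NB (n m : ℕ) (F : Finset Edg) : ℕ := Nc (rh m) (rs (UB n m) (per n F))

/-- the number of clusters given by the bound is at most the number of clusters in the regions -/
theorem len_le {n k m : ℕ} (hm : 32 ≤ m) (h4 : 4 * m ≤ n) {F : Finset Edg}
    {Ws : List (Finset Edg)} (hd : Ws.Pairwise Disjoint)
    (hW : ∀ S ∈ Ws, Mac (sg0 n k) (per n F) (Dn n (mo m)) (rh m) S) :
    Ws.length ≤ NA n m F + NB n m F := by
  classical
  have hρ : 1 ≤ rh m := by unfold rh; omega
  -- every set lies in one of the regions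
  have hreg : ∀ S ∈ Ws, S ⊆ rs (UA n m) (per n F) ∨ S ⊆ rs (UB n m) (per n F) := by
    intro S hS
    obtain ⟨u, v, -, -, h3, h4'⟩ := hW S hS
    have hu : ((((nm u : ℤ) = mo m) ∨ ((mo m : ℤ) < u.1 ∧ u.1 = u.2 ∧ 2 * u.1 ≤ n))) ∨
        (((nm (u.1 - n, u.2 - n) : ℤ) = mo m) ∨ (u.1 < (n : ℤ) - mo m ∧ u.1 = u.2 ∧ n ≤ 2 * u.1)) := by
      rcases h4' with ⟨a1, a2, a3, a4⟩ | ⟨a1, w, a2, a3⟩
      · unfold Dn at a1
        rw [not_or, not_le, not_le] at a1
        have e1 : nm u = |u.1| := by unfold nm; rw [← a2, max_self]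
        have e2 : nm (u.1 - (n : ℤ), u.2 - (n : ℤ)) = |u.1 - n| := by
          unfold nm; simp only; rw [← a2, max_self]
        rw [e1, e2] at a1
        rw [abs_of_nonneg (by omega), abs_of_nonpos (by omega)] at a1
        by_cases h : 2 * u.1 ≤ n
        · left; right; exact ⟨a1.1, a2, h⟩
        · right; right; exact ⟨by omega, a2, by omega⟩
      · unfold Dn at a1 a2
        rw [not_or, not_le, not_le] at a2
        rcases a1 with a1 | a1
        · left; left
          have := nm_ds 1 a3
          omega
        · right; left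
          have h5 : ds ((u.1 - n, u.2 - n) : Vtx) (w.1 - n, w.2 - n) ≤ 1 := by
            rw [ds_le_iff] at a3 ⊢
            simp only
            omega
          have := nm_ds 1 h5
          omega
    rcases hu with hu | hu
    · left
      intro e he
      obtain ⟨b1, b2, b3⟩ := h3 e he
      rw [mem_rs]
      refine ⟨?_, b1⟩
      unfold UA
      rw [Finset.mem_sdiff]
      rw [ds_le_iff] at b2 b3
      rcases hu with hu | ⟨c1, c2, c3⟩
      · have h1 := (nm_le u (mo m)).1 hu.le
        have h2 : ¬ nm u < mo m := not_lt.2 hu.ge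
        rw [nm_lt] at h2
        constructor
        · rw [mem_RE_iff]
          push_cast
          unfold mo mi rh at *
          push_cast at *
          omega
        · unfold boxE
          rw [mem_RE_iff]
          unfold mo mi rh at *
          push_cast at *
          omega
      · constructor
        · rw [mem_RE_iff]
          unfold mo mi rh at *
          push_cast at *
          omega
        · unfold boxE
          rw [mem_RE_iff]
          unfold mo mi rh at *
          push_cast at *
          omega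
    · right
      intro e he
      obtain ⟨b1, b2, b3⟩ := h3 e he
      rw [mem_rs]
      refine ⟨?_, b1⟩
      unfold UB
      rw [Finset.mem_sdiff]
      rw [ds_le_iff] at b2 b3
      rcases hu with hu | ⟨c1, c2, c3⟩
      · have h1 := (nm_le (u.1 - n, u.2 - n) (mo m)).1 hu.le
        have h2 : ¬ nm (u.1 - n, u.2 - n) < mo m := not_lt.2 hu.ge
        rw [nm_lt] at h2
        simp only at h1 h2
        constructor
        · rw [mem_RE_iff]
          push_cast
          unfold mo mi rh at *
          push_cast at *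
          omega
        · rw [mem_RE_iff]
          unfold mo mi rh at *
          push_cast at *
          omega
      · constructor
        · rw [mem_RE_iff]
          unfold mo mi rh at *
          push_cast at *
          omega
        · rw [mem_RE_iff]
          unfold mo mi rh at *
          push_cast at *
          omega
  have h1 : Mc (rh m) (Ws.filter (fun S => decide (S ⊆ rs (UA n m) (per n F)))).length
      (rs (UA n m) (per n F)) := by
    refine Mc_of_list _ (hd.filter _) fun S hS => ?_
    rw [List.mem_filter, decide_eq_true_eq] at hS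
    obtain ⟨u, v, h5, h6, -⟩ := hW S hS.1
    exact ⟨hS.2, u, v, h5, h6⟩
  have h2 : Mc (rh m) (Ws.filter (fun S => !decide (S ⊆ rs (UA n m) (per n F)))).length
      (rs (UB n m) (per n F)) := by
    refine Mc_of_list _ (hd.filter _) fun S hS => ?_
    rw [List.mem_filter, Bool.not_eq_true', decide_eq_false_iff_not] at hS
    obtain ⟨u, v, h5, h6, -⟩ := hW S hS.1
    exact ⟨(hreg S hS.1).resolve_left hS.2, u, v, h5, h6⟩
  have h3 := le_Nc hρ h1
  have h4 := le_Nc hρ h2
  have h5 := List.length_eq_length_filter_add (l := Ws) (fun S => decide (S ⊆ rs (UA n m) (per n F)))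
  unfold NA NB
  omega

end Pool.Agent.S77.WP
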