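import Pool.Agent.S77.WP.Reg

/-!
# The winding of the words and the level of the arms: pointwise bound, moments, independence
-/

set_option autoImplicit false

namespace Pool.Agent.S77.WP
open Pool.Agent.H863R2.Cyl
open Pool.Agent.H988R2.Perc (Word PD)
open Pool.Agent.H160R2.ML
open Pool.Agent.H160R2.MU
open Pool.Agent.S77.WD
open H974 H906.Cyl

theorem Ac0 {n M : ℕ} {F : Finset Edg} (hF : F ⊆ CE n M) : Ac 0 n M F = (↑F : Set Edg) := by
  ext x
  unfold Ac
  rw [Set.mem_ofPred_eq]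
  constructor
  · rintro ⟨-, h⟩
    exact h.2 rfl
  · intro h
    exact ⟨hF h, ⟨fun _ => rfl, fun _ => h⟩⟩

theorem PG_iff {n M k : ℕ} (hn : 1 ≤ n) (hk : 2 ≤ k) (hkn : k ≤ 2 * n) {F : Finset Edg}
    (hF : F ⊆ CE n M) (τ σ : Wd (2 * n - 1 + 1)) :
    PG 0 n M k (Ac 0 n M F) τ.1 σ.1 ↔ ∃ y, HasW k (wup n M F τ) (wdn n M F σ) y := by
  rw [← a_G 0 n M k (by norm_num) hn hk hkn F hF σ τ]
  constructor
  · intro h
    have h1 := (rows (2 * n - 1) (up n M F) M τ).2
    have h2 := (rows (2 * n - 1) (dn n M F) M σ).2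
    obtain ⟨y, hy, -⟩ := HasW.exists (n := n) (k := k) (by omega) hkn h1.2 h2.2
      (by have := h1.1; omega) (by have := h2.1; omega) h
    exact ⟨y, hy⟩
  · rintro ⟨y, hy⟩
    exact hy.1

/-- **the pointwise bound** -/
theorem Q1 {n M k m : ℕ} (hk : 2 ≤ k) (hM : M = 4 * n) (hm : 64 ≤ m) (hkm : 2 * k ≤ m)
    (h4 : 4 * m ≤ n) {F : Finset Edg} (hF : F ⊆ CE n M) {τ σ : Wd (2 * n - 1 + 1)} {y : ℤ}
    (hW : HasW k (wup n M F τ) (wdn n M F σ) y) :
    SE k m (per n F) ∧ |y + 4 * k * Al k m (per n F)| ≤ 49 * k * (NA n m F + NB n m F + 1) := by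
  have h1 : PG 0 n M k (↑F) τ.1 σ.1 := by
    have := (PG_iff (by omega) hk (by omega) hF τ σ).2 ⟨y, hW⟩
    rwa [Ac0 hF] at this
  have hSE : SE k m (per n F) :=
    t_DEC n M k m hk (by omega) h4 (by omega) F F hF hF (fun _ _ => Iff.rfl) τ.1 σ.1 h1
  refine ⟨hSE, ?_⟩
  obtain ⟨i, hi, hi2, q, hq, hc⟩ := Al_spec hk hSE
  obtain ⟨Ws, w1, w2, w3⟩ := B2 (m1 := m) (m0 := mo m) (m := mi m) (ρ := rh m) hk hM
    (by unfold rh; omega) (by unfold mo; omega) (by unfold mi; omega)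
    (by unfold mo mi rh; omega) h4 hF hW h1 hSE hi hi2 hq hc
  have h2 := len_le (by omega) h4 w2 w3
  have h3 : (Ws.length : ℤ) ≤ NA n m F + NB n m F := by exact_mod_cast h2
  have h5 : 49 * (k : ℤ) * (Ws.length + 1) ≤ 49 * k * (NA n m F + NB n m F + 1) :=
    mul_le_mul_of_nonneg_left (by linarith) (by positivity)
  linarith

theorem UA_inj {n m : ℕ} (hm : 64 ≤ m) (h4 : 4 * m ≤ n) : Set.InjOn (red n) (UA n m : Set Edg) := by
  have h1 : Set.InjOn (red n) (RE (-((mo m + rh m : ℕ) : ℤ)) ((n / 2 + rh m : ℕ) : ℤ)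
      (-((mo m + rh m : ℕ) : ℤ)) ((n / 2 + rh m : ℕ) : ℤ) : Set Edg) := by
    apply red_inj_x
    unfold mo mi rh
    push_cast
    omega
  refine h1.mono ?_
  unfold UA
  exact_mod_cast Finset.sdiff_subset

theorem UB_inj {n m : ℕ} (hm : 64 ≤ m) (h4 : 4 * m ≤ n) : Set.InjOn (red n) (UB n m : Set Edg) := by
  have h1 : Set.InjOn (red n) (RE (((n / 2 : ℕ) : ℤ) - rh m) (((n + mo m + rh m : ℕ) : ℤ))
      (((n / 2 : ℕ) : ℤ) - rh m) (((n + mo m + rh m : ℕ) : ℤ)) : Set Edg) := by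
    apply red_inj_x
    unfold mo mi rh
    push_cast
    omega
  refine h1.mono ?_
  unfold UB
  exact_mod_cast Finset.sdiff_subset

theorem UA_sub {n m : ℕ} (hm : 64 ≤ m) (h4 : 4 * m ≤ n) : (UA n m).image (red n) ⊆ CE n (4 * n) := by
  refine (Finset.image_subset_image Finset.sdiff_subset).trans ?_
  refine image_red_sub (by omega) ?_ ?_ <;> unfold mo mi rh <;> push_cast <;> omega

theorem UB_sub {n m : ℕ} (hm : 64 ≤ m) (h4 : 4 * m ≤ n) : (UB n m).image (red n) ⊆ CE n (4 * n) := by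
  refine (Finset.image_subset_image Finset.sdiff_subset).trans ?_
  refine image_red_sub (by omega) ?_ ?_ <;> unfold mo mi rh <;> push_cast <;> omega

theorem rs_self {U F : Finset Edg} (h : F ⊆ U) : rs U (↑F : Set Edg) = F := by
  ext e
  rw [mem_rs, Finset.mem_coe]
  exact ⟨fun h' => h'.2, fun h' => ⟨h h', h'⟩⟩

/-- exponential moments of the number of clusters in the regions -/
theorem mom_AB (hT : S_TAIL) {a : ℝ} (ha : 0 ≤ a) (L : ℕ) : ∃ B : ℝ, 0 < B ∧ ∃ m0 : ℕ, 64 ≤ m0 ∧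
    ∀ m : ℕ, m0 ≤ m → ∀ n : ℕ, 4 * m ≤ n → n ≤ L * m →
    Ex hf (CE n (4 * n)) (fun F => Real.exp (a * (NA n m F + NB n m F))) ≤ B := by
  obtain ⟨B, hB, r0, hr0, h⟩ := mom hT (a := 2 * a) (by positivity) (32 * L)
  refine ⟨B, hB, 64 * r0, by omega, fun m hm n h4 hL => ?_⟩
  have hm64 : 64 ≤ m := by omega
  have hwid : n ≤ 32 * L * (m / 16) := by
    have h1 : m ≤ 32 * (m / 16) := by omega
    calc n ≤ L * m := hL
      _ ≤ L * (32 * (m / 16)) := Nat.mul_le_mul_left L h1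
      _ = 32 * L * (m / 16) := by ring
  have hA : Ex hf (CE n (4 * n)) (fun F => Real.exp (2 * a * NA n m F)) ≤ B := by
    have e1 := Ex_red (S := CE n (4 * n)) (UA_inj hm64 h4) (UA_sub hm64 h4)
      (fun F => Real.exp (2 * a * Nc (rh m) F))
    unfold NA
    rw [e1]
    refine h (rh m) (by unfold rh; omega) (-((mo m + rh m : ℕ) : ℤ)) (-((mo m + rh m : ℕ) : ℤ)) _ ?_
    refine (Finset.sdiff_subset).trans ?_
    have hw : ((n : ℕ) : ℤ) ≤ ((32 * L : ℕ) : ℤ) * ((rh m : ℕ) : ℤ) := by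
      unfold rh
      exact_mod_cast hwid
    refine RE_sub le_rfl ?_ le_rfl ?_ <;> unfold mo mi rh at * <;> push_cast at * <;> omega
  have hBb : Ex hf (CE n (4 * n)) (fun F => Real.exp (2 * a * NB n m F)) ≤ B := by
    have e1 := Ex_red (S := CE n (4 * n)) (UB_inj hm64 h4) (UB_sub hm64 h4)
      (fun F => Real.exp (2 * a * Nc (rh m) F))
    unfold NB
    rw [e1]
    refine h (rh m) (by unfold rh; omega) (((n / 2 : ℕ) : ℤ) - rh m) (((n / 2 : ℕ) : ℤ) - rh m) _ ?_
    refine (Finset.sdiff_subset).trans ?_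
    have hw : ((n : ℕ) : ℤ) ≤ ((32 * L : ℕ) : ℤ) * ((rh m : ℕ) : ℤ) := by
      unfold rh
      exact_mod_cast hwid
    refine RE_sub le_rfl ?_ le_rfl ?_ <;> unfold mo mi rh at * <;> push_cast at * <;> omega
  have h1 : Ex hf (CE n (4 * n)) (fun F => Real.exp (a * (NA n m F + NB n m F))) ≤
      Ex hf (CE n (4 * n)) (fun F => 1 / 2 * Real.exp (2 * a * NA n m F) +
        1 / 2 * Real.exp (2 * a * NB n m F)) := by
    refine Ex_mono okh fun F _ => ?_
    have e1 : Real.exp (2 * a * NA n m F) = Real.exp (a * NA n m F) ^ 2 := by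
      rw [← Real.exp_nat_mul]; congr 1; push_cast; ring
    have e2 : Real.exp (2 * a * NB n m F) = Real.exp (a * NB n m F) ^ 2 := by
      rw [← Real.exp_nat_mul]; congr 1; push_cast; ring
    have e3 : Real.exp (a * (NA n m F + NB n m F)) = Real.exp (a * NA n m F) *
        Real.exp (a * NB n m F) := by
      rw [← Real.exp_add]; congr 1; ring
    rw [e1, e2, e3]
    nlinarith [sq_nonneg (Real.exp (a * NA n m F) - Real.exp (a * NB n m F))]
  rw [Ex_add, Ex_mul_left, Ex_mul_left] at h1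
  linarith

/-- the regions are disjoint from the inner box -/
theorem far_UA {n m : ℕ} (hm : 64 ≤ m) (h4 : 4 * m ≤ n) {e : Edg} (he : e ∈ UA n m) :
    red n e ∉ (boxE (mi m)).image (red n) := by
  apply TIND.not_mem_image
  unfold UA at he
  rw [Finset.mem_sdiff, mem_RE_iff] at he
  unfold boxE at he
  rw [mem_RE_iff] at he
  obtain ⟨⟨h1, h2⟩, h3⟩ := he
  have hc := tgt_cases e
  have hs : src e = (e.1, e.2.1) := rfl
  rw [hs] at h1 h3 hc
  simp only at h1 h3
  have ht : (tgt e).1 - e.1 ≤ 1 ∧ e.1 ≤ (tgt e).1 ∧ (tgt e).2 - e.2.1 ≤ 1 ∧ e.2.1 ≤ (tgt e).2 := by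
    rcases hc with h | h <;> rw [h] <;> simp
  intro s
  rcases lt_trichotomy s 0 with hs | hs | hs
  · left
    have : s * (n : ℤ) ≤ -1 * n := mul_le_mul_of_nonneg_right (by omega) (by positivity)
    rw [lt_abs]
    left
    unfold mo mi rh at *
    push_cast at *
    omega
  · rw [hs, zero_mul, sub_zero, sub_zero, lt_abs, lt_abs]
    unfold mo mi rh at *
    push_cast at *
    omega
  · left
    have : 1 * (n : ℤ) ≤ s * n := mul_le_mul_of_nonneg_right (by omega) (by positivity)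
    rw [lt_abs]
    right
    unfold mo mi rh at *
    push_cast at *
    omega

theorem far_UB {n m : ℕ} (hm : 64 ≤ m) (h4 : 4 * m ≤ n) {e : Edg} (he : e ∈ UB n m) :
    red n e ∉ (boxE (mi m)).image (red n) := by
  apply TIND.not_mem_image
  unfold UB at he
  rw [Finset.mem_sdiff, mem_RE_iff, mem_RE_iff] at he
  obtain ⟨⟨h1, h2⟩, h3⟩ := he
  have hc := tgt_cases e
  have hs : src e = (e.1, e.2.1) := rfl
  rw [hs] at h1 h3 hc
  simp only at h1 h3
  have ht : (tgt e).1 - e.1 ≤ 1 ∧ e.1 ≤ (tgt e).1 ∧ (tgt e).2 - e.2.1 ≤ 1 ∧ e.2.1 ≤ (tgt e).2 := by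
    rcases hc with h | h <;> rw [h] <;> simp
  intro s
  rcases lt_trichotomy s 1 with hs | hs | hs
  · left
    have : s * (n : ℤ) ≤ 0 * n := mul_le_mul_of_nonneg_right (by omega) (by positivity)
    rw [lt_abs]
    left
    unfold mo mi rh at *
    push_cast at *
    omega
  · rw [hs, one_mul, lt_abs, lt_abs]
    unfold mo mi rh at *
    push_cast at *
    omega
  · left
    have : 2 * (n : ℤ) ≤ s * n := mul_le_mul_of_nonneg_right (by omega) (by positivity)
    rw [lt_abs]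
    right
    unfold mo mi rh at *
    push_cast at *
    omega

/-- dependence on the edges -/
theorem NA_int {n m : ℕ} (hm : 64 ≤ m) (h4 : 4 * m ≤ n) {F : Finset Edg} (hF : F ⊆ CE n (4 * n)) :
    NA n m F = NA n m (F ∩ (CE n (4 * n) \ (boxE (mi m)).image (red n))) := by
  unfold NA
  congr 1
  apply rs_congr
  intro e he
  show red n e ∈ F ↔ red n e ∈ F ∩ (CE n (4 * n) \ (boxE (mi m)).image (red n))
  rw [Finset.mem_inter, Finset.mem_sdiff]
  exact ⟨fun h => ⟨h, hF h, far_UA hm h4 he⟩, fun h => h.1⟩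

theorem NB_int {n m : ℕ} (hm : 64 ≤ m) (h4 : 4 * m ≤ n) {F : Finset Edg} (hF : F ⊆ CE n (4 * n)) :
    NB n m F = NB n m (F ∩ (CE n (4 * n) \ (boxE (mi m)).image (red n))) := by
  unfold NB
  congr 1
  apply rs_congr
  intro e he
  show red n e ∈ F ↔ red n e ∈ F ∩ (CE n (4 * n) \ (boxE (mi m)).image (red n))
  rw [Finset.mem_inter, Finset.mem_sdiff]
  exact ⟨fun h => ⟨h, hF h, far_UB hm h4 he⟩, fun h => h.1⟩

theorem wR_per {n k m : ℕ} {lam : ℝ} (F : Finset Edg) :
    wR k lam m (per n F) = wR k lam m (per n (F ∩ (boxE m).image (red n))) := by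
  apply wR_congr
  intro e he
  show red n e ∈ F ↔ red n e ∈ F ∩ (boxE m).image (red n)
  rw [Finset.mem_inter]
  exact ⟨fun h => ⟨h, Finset.mem_image_of_mem _ he⟩, fun h => h.1⟩

theorem box_inj {n m : ℕ} (h : 2 * m < n) : Set.InjOn (red n) (boxE m : Set Edg) := by
  unfold boxE
  apply red_inj_x
  omega

theorem box_sub {n m : ℕ} (h : 2 * m < n) : (boxE m).image (red n) ⊆ CE n (4 * n) := by
  unfold boxE
  refine image_red_sub (by omega) ?_ ?_ <;> push_cast <;> omega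

/-- a local function of the cylinder has the same expectation in the plane -/
theorem ZR_per {n k m : ℕ} {lam : ℝ} (h : 2 * m < n) :
    Ex hf (CE n (4 * n)) (fun F => wR k lam m (per n F)) = ZR k lam m := by
  have e1 := Ex_red (S := CE n (4 * n)) (box_inj h) (box_sub h) (fun F => wR k lam m (↑F : Set Edg))
  unfold ZR
  rw [← e1]
  apply Ex_congr
  intro F _
  apply wR_congr
  intro e he
  rw [Finset.mem_coe, mem_rs]
  exact ⟨fun h => ⟨he, h⟩, fun h => h.2⟩

theorem TR_per {n k m : ℕ} {lam K : ℝ} (h : 6 * m < n) :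
    Ex hf (CE n (4 * n)) (fun F => wR k lam m (per n F) * Real.exp (K * NP m (per n F))) =
      TR k lam K m := by
  have e1 := Ex_red (S := CE n (4 * n)) (box_inj (m := 3 * m) (by omega)) (box_sub (by omega))
    (fun F => wR k lam m (↑F : Set Edg) * Real.exp (K * NP m (↑F : Set Edg)))
  unfold TR
  rw [← e1]
  apply Ex_congr
  intro F _
  have h1 : ∀ e ∈ boxE (3 * m), (e ∈ per n F ↔ e ∈ (↑(rs (boxE (3 * m)) (per n F)) : Set Edg)) := by
    intro e he
    rw [Finset.mem_coe, mem_rs]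
    exact ⟨fun h => ⟨he, h⟩, fun h => h.2⟩
  rw [wR_congr (fun e he => h1 e (boxE_sub (by omega) he)),
    NP_local (fun e he => h1 e (by unfold An at he; exact (Finset.mem_sdiff.1 he).1))]

/-- **a function of the clusters in the regions and the weight of the inner box** -/
theorem indep {n k m : ℕ} {lam : ℝ} (hm : 64 ≤ m) (h4 : 4 * m ≤ n) (g : ℕ → ℝ) :
    Ex hf (CE n (4 * n)) (fun F => wR k lam (mi m) (per n F) * g (NA n m F + NB n m F)) =
      ZR k lam (mi m) * Ex hf (CE n (4 * n)) (fun F => g (NA n m F + NB n m F)) := by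
  rw [Ex_mul_indep (S := (boxE (mi m)).image (red n))
    (T := CE n (4 * n) \ (boxE (mi m)).image (red n)) (box_sub (by unfold mi; omega))
    Finset.sdiff_subset Finset.disjoint_sdiff (fun F _ => wR_per F)
    (fun F hF => by rw [← NA_int hm h4 hF, ← NB_int hm h4 hF]), ZR_per (by unfold mi; omega)]

end Pool.Agent.S77.WP
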