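import Pool.Agent.S77.WP.Walk

/-!
# Decomposition of a path into large disjoint pieces
-/

set_option autoImplicit false

namespace Pool.Agent.S77.WP
open Pool.Agent.H160R2.ML
open Pool.Agent.H160R2.MU
open H974 H906.Cyl

/-- a large open path which starts next to `D` or at a crossing outside `D` -/
def Mac (sg : ℤ → Prop) (G : Set Edg) (D : Vtx → Prop) (ρ : ℤ) (W : Finset Edg) : Prop :=
  ∃ u v : Vtx, ρ ≤ ds u v ∧ Reach (↑W : Set Edg) u v ∧
    (∀ e ∈ W, e ∈ G ∧ ds u (src e) ≤ ρ ∧ ds u (tgt e) ≤ ρ) ∧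
    ((¬ D u ∧ u.1 = u.2 ∧ sg u.1) ∨ (D u ∧ ∃ w, ¬ D w ∧ ds u w ≤ 1))

section
variable {gl sg : ℤ → Prop} {G : Set Edg} {far : Vtx × Bool → Vtx × Bool → Prop}
variable {p : ℕ → Vtx × Bool} {t : ℕ}

theorem mac_of (W : Wk gl G far p t) {D : Vtx → Prop} {ρ : ℤ}
    (hfar : ∀ x y u, far x y → (D u ∨ u.1 = u.2) → ρ < ds u x.1 ∧ ρ < ds u y.1)
    {a b : ℕ} (hab : a ≤ b) (hb : b ≤ t) (hd : ρ ≤ ds (p a).1 (p b).1) (hρ : 0 < ρ)
    (hu : (¬ D (p a).1 ∧ (p a).1.1 = (p a).1.2 ∧ sg (p a).1.1) ∨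
      (D (p a).1 ∧ ∃ w, ¬ D w ∧ ds (p a).1 w ≤ 1)) :
    ∃ b', a < b' ∧ b' ≤ b ∧ Mac sg G D ρ (We G p a b') := by
  obtain ⟨c, c1, c2, c3, c4⟩ := first_time (fun j => ρ ≤ ds (p a).1 (p j).1) (i := a) (t := b)
    ⟨b, hab, le_rfl, hd⟩
  have hac : a < c := by
    rcases Nat.eq_or_lt_of_le c1 with h | h
    · subst h
      rw [ds_self] at c3
      omega
    · exact h
  have hnf : ∀ j, a ≤ j → j < c → ∀ y, ¬ far (p j) y ∧ ¬ far y (p j) := by
    intro j j1 j2 y
    have h1 := c4 j j1 j2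
    have hu' : D (p a).1 ∨ (p a).1.1 = (p a).1.2 := by
      rcases hu with h | h
      · exact Or.inr h.2.1
      · exact Or.inl h.1
    constructor
    · intro h
      have := (hfar _ _ _ h hu').1
      exact h1 this.le
    · intro h
      have := (hfar _ _ _ h hu').2
      exact h1 this.le
  refine ⟨c, hac, c2, (p a).1, (p c).1, c3, We_reach W c1 (by omega) hnf, ?_, hu⟩
  intro e he
  obtain ⟨j, j1, j2, j3⟩ := mem_We he
  have h1 : ds (p a).1 (p j).1 ≤ ρ := by
    have := c4 j j1 j2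
    omega
  have h2 : ds (p a).1 (p (j + 1)).1 ≤ ρ := by
    have h3 := W.near (by omega) (hnf j j1 j2)
    have h4 : ds (p a).1 (p j).1 < ρ := by
      have := c4 j j1 j2
      omega
    rw [ds_lt_iff] at h4
    rw [ds_le_iff] at h3 ⊢
    omega
  refine ⟨j3.1, ?_⟩
  rcases j3.2 with ⟨a1, a2⟩ | ⟨a1, a2⟩
  · rw [a1] at h1
    rw [a2] at h2
    exact ⟨h1, h2⟩
  · rw [a1] at h1
    rw [a2] at h2
    exact ⟨h2, h1⟩

/-- a list of intervals gives a list of disjoint sets of edges -/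
theorem macs_of (W : Wk gl G far p t) {P : ℕ → ℕ → Prop} {Q : Finset Edg → Prop}
    (hP : ∀ a b, a < b → b ≤ t → P a b → ∃ a' b', a ≤ a' ∧ a' ≤ b' ∧ b' ≤ b ∧ Q (We G p a' b')) :
    ∀ L : List (ℕ × ℕ), (∀ q ∈ L, q.1 < q.2 ∧ q.2 ≤ t ∧ P q.1 q.2) →
    L.Pairwise (fun q q' => q.2 ≤ q'.1) →
    ∃ Ws : List (Finset Edg), Ws.length = L.length ∧ Ws.Pairwise Disjoint ∧ (∀ S ∈ Ws, Q S) ∧
      ∀ S ∈ Ws, ∃ q ∈ L, ∃ a' b', q.1 ≤ a' ∧ b' ≤ q.2 ∧ S = We G p a' b' := by
  intro L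
  induction L with
  | nil => intro _ _; exact ⟨[], rfl, List.Pairwise.nil, by simp, by simp⟩
  | cons q L ih =>
    intro h1 h2
    rw [List.pairwise_cons] at h2
    obtain ⟨Ws, w1, w2, w3, w4⟩ := ih (fun q' hq' => h1 q' (List.mem_cons_of_mem _ hq')) h2.2
    obtain ⟨q1, q2, q3⟩ := h1 q List.mem_cons_self
    obtain ⟨a', b', r1, r2, r3, r4⟩ := hP q.1 q.2 q1 q2 q3
    refine ⟨We G p a' b' :: Ws, by simp [w1], ?_, ?_, ?_⟩
    · rw [List.pairwise_cons]
      refine ⟨fun S hS => ?_, w2⟩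
      obtain ⟨q', hq', a'', b'', s1, s2, rfl⟩ := w4 S hS
      have h3 := h2.1 q' hq'
      have h4 := (h1 q' (List.mem_cons_of_mem _ hq')).2.1
      exact We_disj W (by omega) (by omega)
    · intro S hS
      rcases List.mem_cons.1 hS with rfl | hS
      · exact r4
      · exact w3 S hS
    · intro S hS
      rcases List.mem_cons.1 hS with rfl | hS
      · exact ⟨q, List.mem_cons_self, a', b', r1, r3, rfl⟩
      · obtain ⟨q', hq', h⟩ := w4 S hS
        exact ⟨q', List.mem_cons_of_mem _ hq', h⟩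

/-- **decomposition of a path**: the change of the level is bounded by the number of large disjoint
pieces -/
theorem gt (W : Wk gl G far p t) {I D : Vtx → Prop} {ρ K : ℤ} (hρ : 0 < ρ) (hK : 1 ≤ K)
    (hDI : ∀ v, D v → I v) (hDI2 : ∀ v w, D v → ¬ I w → ρ < ds v w)
    (hfar : ∀ x y u, far x y → (D u ∨ u.1 = u.2) → ρ < ds u x.1 ∧ ρ < ds u y.1)
    (hfarI : ∀ x y, far x y → ¬ I x.1 ∧ ¬ I y.1)
    (hball : ∀ a a' : ℤ, gl a → sg a → ¬ D (a, a) → |a' - a| < ρ → gl a' → sg a')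
    (hexc : ∀ s e, s < e → e ≤ t → ¬ I (p s).1 → ¬ I (p e).1 → (∀ j, s < j → j < e → I (p j).1) →
      (∃ j, s < j ∧ j < e ∧ D (p j).1) → |lv sg p e - lv sg p s| ≤ K)
    {c : ℕ} (hct : c ≤ t) (hc : ¬ I (p c).1) (ht : ¬ I (p t).1) :
    ∃ Ws : List (Finset Edg), |lv sg p t - lv sg p c| ≤ (K + 1) * (Ws.length + 1) ∧
      Ws.Pairwise Disjoint ∧ ∀ S ∈ Ws, Mac sg G D ρ S := by
  have hd0 : ∀ a b : ℤ, ds (a, a) (b, b) = |b - a| := by
    intro a b
    unfold ds
    simp only [max_self]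
    exact abs_sub_comm _ _
  have hballs : ∀ i b, i ≤ b → b ≤ t → lv sg p (i + 1) ≠ lv sg p i → ¬ D (p i).1 →
      (∀ j, i ≤ j → j < b → ds (p i).1 (p j).1 < ρ) →
      ∀ j j', i ≤ j → j ≤ b → i ≤ j' → j' ≤ b → |lv sg p j - lv sg p j'| ≤ 1 := by
    intro i b hib hb hray hD hcl j j' j1 j2 j3 j4
    rcases Nat.eq_or_lt_of_le hib with h | h
    · subst h
      have : j = j' := by omega
      subst this
      rw [sub_self, abs_zero]
      norm_num
    · obtain ⟨a, a1, a2, a3, a4⟩ := W.ray (by omega) hray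
      have key : ∀ j, i ≤ j → j ≤ b → lv sg p j - lv sg p i = bz (p j).2 - bz (p i).2 := by
        intro j j1 j2
        refine W.lv_eq j1 (by omega) ?_
        intro m a' m1 m2 m3 m4 m5
        refine hball a a' a3 a4 (by rw [← a1]; exact hD) ?_ m5
        have h5 := hcl m m1 (by omega)
        rw [a1, m3, hd0] at h5
        exact h5
      have e1 := key j j1 j2
      have e2 := key j' j3 j4
      have e3 : lv sg p j - lv sg p j' = bz (p j).2 - bz (p j').2 := by linarith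
      rw [e3]
      exact bz_bd _ _
  obtain ⟨L, L1, L2, L3⟩ := decomp (lv sg p) (fun i => I (p i).1) (fun i => D (p i).1)
    (fun i j => ds (p i).1 (p j).1 < ρ) t K hK hexc hballs (fun i => by rw [ds_self]; exact hρ)
    (fun i => hDI _) ht (t - c) c c le_rfl hct le_rfl hc (fun j h1 h2 => by omega)
  · -- the pieces
    obtain ⟨Ws, w1, w2, w3, -⟩ := macs_of W
      (P := fun a b => ((¬ D (p a).1 ∧ ¬ ds (p a).1 (p b).1 < ρ ∧ lv sg p (a + 1) ≠ lv sg p a) ∨
        (D (p a).1 ∧ ¬ I (p b).1))) (Q := Mac sg G D ρ) (by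
        intro a b hab hb hP
        rcases hP with ⟨h1, h2, h3⟩ | ⟨h1, h2⟩
        · obtain ⟨x, x1, x2, x3, x4⟩ := W.ray (by omega) h3
          obtain ⟨b', b1, b2, b3⟩ := mac_of (sg := sg) W hfar hab.le hb (not_lt.1 h2) hρ
            (Or.inl ⟨h1, by rw [x1], by rw [x1]; exact x4⟩)
          exact ⟨a, b', le_rfl, b1.le, b2, b3⟩
        · have hnD : ¬ D (p b).1 := fun h => h2 (hDI _ h)
          obtain ⟨a', a1, a2, a3, a4⟩ := last_time (fun j => D (p j).1) hab.le h1
          have hlt : a' < b := by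
            rcases Nat.eq_or_lt_of_le a2 with h | h
            · subst h; exact absurd a3 hnD
            · exact h
          have hw : ds (p a').1 (p (a' + 1)).1 ≤ 1 := by
            refine W.near (by omega) (fun y => ⟨fun h => ?_, fun h => ?_⟩)
            · exact (hfarI _ _ h).1 (hDI _ a3)
            · exact (hfarI _ _ h).2 (hDI _ a3)
          obtain ⟨b', b1, b2, b3⟩ := mac_of (sg := sg) W hfar hlt.le hb (hDI2 _ _ a3 h2).le hρ
            (Or.inr ⟨a3, _, a4 (a' + 1) (by omega) (by omega), hw⟩)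
          exact ⟨a', b', a1, b1.le, b2, b3⟩) L
      (fun q hq => by
        obtain ⟨-, q2, q3, q4⟩ := L1 q hq
        exact ⟨q2, q3, q4⟩) L2
    refine ⟨Ws, ?_, w2, w3⟩
    rw [w1]
    rw [sub_self, abs_zero, add_zero] at L3
    exact L3

end

/-! ### parts of a path in a box -/

section
variable {gl sg : ℤ → Prop} {G : Set Edg} {far : Vtx × Bool → Vtx × Bool → Prop}
variable {p : ℕ → Vtx × Bool} {t : ℕ}

/-- a part of a path inside of a box, with levels -/
theorem Cv_walk (W : Wk gl G far p t) {k : ℕ} {m : ℤ}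
    (hgl : ∀ a, |a| ≤ m → gl a → ¬ (0 < 2 * a ∧ 2 * a < k) ∧ (sg a ↔ (k : ℤ) ≤ 2 * a))
    {i b : ℕ} (hib : i ≤ b) (hb : b ≤ t) (hbox : ∀ j, i ≤ j → j ≤ b → nm (p j).1 ≤ m)
    (hfar : ∀ j, i ≤ j → j < b → ∀ y, ¬ far (p j) y ∧ ¬ far y (p j)) (l : ℤ) :
    Cv k m G (p i, l) (p b, l + (lv sg p b - lv sg p i)) := by
  induction b, hib using Nat.le_induction with
  | base => rw [sub_self, add_zero]; exact Relation.EqvGen.refl _
  | succ b hib ih =>
    refine Relation.EqvGen.trans _ _ _ (ih (by omega) (fun j h1 h2 => hbox j h1 (by omega))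
      (fun j h1 h2 => hfar j h1 (by omega))) ?_
    rw [lv_succ]
    have e1 : l + (lv sg p b + wt sg (p b) (p (b + 1)) - lv sg p i) =
        l + (lv sg p b - lv sg p i) + wt sg (p b) (p (b + 1)) := by ring
    rw [e1]
    generalize l + (lv sg p b - lv sg p i) = l'
    have key : ∀ x y : Vtx × Bool, Sp gl G far x y → nm x.1 ≤ m → nm y.1 ≤ m → ¬ far x y → ∀ l' : ℤ,
        Cv k m G (x, l') (y, l' + wt sg x y) := by
      intro x y h hx hy hf l'
      cases h with
      | edge e he =>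
        have e2 : wt sg (src e, decide (0 ≤ dco e)) (tgt e, decide (0 ≤ dco e)) = 0 := by
          unfold wt
          rw [if_neg (fun h' => src_ne_tgt e h'.1)]
        rw [e2, add_zero]
        exact Relation.EqvGen.rel _ _ (CLv.edge e l' he hx hy)
      | idn a ha =>
        have h1 : |a| ≤ m := by
          have h2 : nm (a, a) ≤ m := hx
          unfold nm at h2
          rw [max_self] at h2
          exact h2
        obtain ⟨g1, g2⟩ := hgl a h1 ha
        have e2 : wt sg ((a, a), false) ((a, a), true) =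
            if ((a, a) : Vtx).1 = ((a, a) : Vtx).2 ∧ (k : ℤ) ≤ 2 * ((a, a) : Vtx).1 then 1 else 0 := by
          unfold wt
          by_cases h3 : sg a
          · rw [if_pos ⟨rfl, rfl, h3⟩, if_pos ⟨rfl, g2.1 h3⟩]
            simp [bz]
          · rw [if_neg (fun h => h3 h.2.2), if_neg (fun h => h3 (g2.2 h.2))]
        rw [e2]
        exact Relation.EqvGen.rel _ _ (CLv.idn (a, a) l' hx (fun h => g1 h.2))
      | far x y h => exact absurd h hf
    have hf := hfar b hib (Nat.lt_succ_self b) (p (b + 1))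
    rcases W.step b (by omega) with h | h
    · exact key _ _ h (hbox b hib (by omega)) (hbox (b + 1) (by omega) le_rfl) hf.1 l'
    · have h1 := key _ _ h (hbox (b + 1) (by omega) le_rfl) (hbox b hib (by omega)) hf.2
        (l' + wt sg (p b) (p (b + 1)))
      rw [wt_symm sg (p b) (p (b + 1)), add_neg_cancel_right] at h1
      exact Relation.EqvGen.symm _ _ h1

end

end Pool.Agent.S77.WP
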